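import Pool.Agent.Lib.MP_305fdd_al.F8.DefsN

/-!
# MP_305fdd_al: natural bijections for subgroups of finite index

`natBij_comap`: a `NatBij G H` induces a `NatBij` of corresponding subgroups of finite index, compatible
with restriction. `tower`: the levels `GN (n * m) ⊆ GN n` and `Lm nL m ⊆ Λ`.
-/

set_option autoImplicit false

namespace Pool.Agent.F8

open Pool.Agent.MP_305fdd_al Pool.Agent.Lib.MP_305fdd_al Pool.Agent.F2X
open scoped QuadraticAlgebra

noncomputable section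

section Cor

variable {G H : Type} [Group G] [Group H] (Φ : NatBij G H)

/-- homomorphisms on subgroups which correspond to each other -/
def Cor (A : Subgroup G) (B : Subgroup H) {P : Type} [Group P] (ψ : A →* P) (ψ' : B →* P) : Prop :=
  ∃ (E : Type) (_ : Group E) (_ : Finite E) (θ : G →* E),
    ∀ (g : A) (h : B), θ g = Φ.toFun E θ h → ψ g = ψ' h

theorem pair_prod {E E' : Type} [Group E] [Finite E] [Group E'] [Finite E'] (θ : G →* E)
    (θ' : G →* E') : Φ.toFun _ (θ.prod θ') = (Φ.toFun _ θ).prod (Φ.toFun _ θ') := by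
  have h1 : (MonoidHom.fst E E').comp (Φ.toFun _ (θ.prod θ')) = Φ.toFun _ θ := by
    rw [← Φ.nat]; rfl
  have h2 : (MonoidHom.snd E E').comp (Φ.toFun _ (θ.prod θ')) = Φ.toFun _ θ' := by
    rw [← Φ.nat]; rfl
  ext x
  · exact DFunLike.congr_fun h1 x
  · exact DFunLike.congr_fun h2 x

/-- simultaneous values -/
theorem pair_val {E E' : Type} [Group E] [Finite E] [Group E'] [Finite E'] (θ : G →* E)
    (θ' : G →* E') (h : H) : ∃ g, θ g = Φ.toFun _ θ h ∧ θ' g = Φ.toFun _ θ' h := by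
  have h1 : (Φ.toFun _ (θ.prod θ')) h ∈ (θ.prod θ').range := by
    rw [← Φ.range_eq]; exact ⟨h, rfl⟩
  obtain ⟨g, hg⟩ := h1
  rw [pair_prod] at hg
  exact ⟨g, congrArg Prod.fst hg, congrArg Prod.snd hg⟩

theorem Cor.symm {Φ : NatBij G H} {A : Subgroup G} {B : Subgroup H} {P : Type} [Group P]
    {ψ : A →* P} {ψ' : B →* P} (h : Cor Φ A B ψ ψ') : Cor Φ.symm B A ψ' ψ := by
  obtain ⟨E, _, _, θ, hθ⟩ := h
  refine ⟨E, _, ‹_›, Φ.toFun E θ, fun h g e => ?_⟩
  have h1 : Φ.symm.toFun E (Φ.toFun E θ) = θ := Φ.left_inv E θ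
  rw [h1] at e
  exact (hθ g h e.symm).symm

theorem Cor.comp {Φ : NatBij G H} {A : Subgroup G} {B : Subgroup H} {P R : Type} [Group P]
    [Group R] {ψ : A →* P} {ψ' : B →* P} (h : Cor Φ A B ψ ψ') (f : P →* R) :
    Cor Φ A B (f.comp ψ) (f.comp ψ') := by
  obtain ⟨E, _, _, θ, hθ⟩ := h
  exact ⟨E, _, ‹_›, θ, fun g h e => congrArg f (hθ g h e)⟩

end Cor

section Cor2

variable {G H : Type} [Group G] [Group H] {Q : Type} [Group Q] [Finite Q] {π : G →* Q}
  {π' : H →* Q}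

theorem Cor.unique {Φ : NatBij G H} (hπ : Φ.toFun Q π = π') {S : Subgroup Q} {P : Type} [Group P]
    {ψ : S.comap π →* P} {ψ₁ ψ₂ : S.comap π' →* P}
    (h1 : Cor Φ _ _ ψ ψ₁) (h2 : Cor Φ _ _ ψ ψ₂) : ψ₁ = ψ₂ := by
  obtain ⟨E₁, _, _, θ₁, hθ₁⟩ := h1
  obtain ⟨E₂, _, _, θ₂, hθ₂⟩ := h2
  ext h
  obtain ⟨g, hg1, hg2⟩ := pair_val Φ (θ₁.prod θ₂) π (h : H)
  rw [pair_prod] at hg1
  have hg : g ∈ S.comap π := by
    show π g ∈ S
    rw [hg2, hπ]
    exact h.2
  rw [← hθ₁ ⟨g, hg⟩ h (congrArg Prod.fst hg1), ← hθ₂ ⟨g, hg⟩ h (congrArg Prod.snd hg1)]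

theorem Cor.exists (Φ : NatBij G H) (hπ : Φ.toFun Q π = π') (S : Subgroup Q) {P : Type} [Group P]
    [Finite P] (ψ : S.comap π →* P) : ∃ ψ' : S.comap π' →* P, Cor Φ _ _ ψ ψ' := by
  classical
  let A : Subgroup G := S.comap π
  let K : Subgroup G := ψ.ker.map A.subtype
  have hAfin : A.index ≠ 0 := by
    have h1 : π.ker ≤ A := fun x hx => by
      show π x ∈ S
      rw [MonoidHom.mem_ker.1 hx]; exact S.one_mem
    have h2 : π.ker.index ≠ 0 := (Subgroup.finiteIndex_ker π).index_ne_zero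
    exact fun h => h2 (Nat.eq_zero_of_zero_dvd (h ▸ Subgroup.index_dvd_of_le h1))
  have hKfin : K.FiniteIndex := by
    refine ⟨?_⟩
    have h1 : K.index = ψ.ker.index * A.index := Subgroup.index_map_subtype _
    have h2 : ψ.ker.index ≠ 0 := (Subgroup.finiteIndex_ker ψ).index_ne_zero
    rw [h1]
    exact mul_ne_zero h2 hAfin
  let K₀ : Subgroup G := K.normalCore
  have hK₀ : K₀ ≤ K := Subgroup.normalCore_le K
  have hK₀fin : K₀.FiniteIndex := Subgroup.finiteIndex_normalCore K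
  have hfq : Finite (G ⧸ K₀) := Subgroup.finite_quotient_of_finiteIndex
  let θ : G →* G ⧸ K₀ := QuotientGroup.mk' K₀
  have hwd : ∀ ν ν' : A, θ ν = θ ν' → ψ ν = ψ ν' := by
    intro ν ν' h
    have h1 : (ν : G)⁻¹ * ν' ∈ K₀ := QuotientGroup.eq.1 h
    obtain ⟨k, hk, hk2⟩ := hK₀ h1
    have h2 : k = ν⁻¹ * ν' := Subtype.ext hk2
    have h3 : ψ k = 1 := hk
    rw [h2, map_mul, map_inv] at h3
    exact inv_mul_eq_one.1 h3
  have hch : ∀ w : S.comap π', ∃ ν : A, θ ν = Φ.toFun _ θ w := by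
    intro w
    obtain ⟨g, hg1, hg2⟩ := pair_val Φ θ π (w : H)
    refine ⟨⟨g, ?_⟩, hg1⟩
    show π g ∈ S
    rw [hg2, hπ]
    exact w.2
  choose ν hν using hch
  refine ⟨MonoidHom.mk' (fun w => ψ (ν w)) ?_, _, _, hfq, θ, ?_⟩
  · intro w w'
    rw [← map_mul]
    apply hwd
    rw [hν, Subgroup.coe_mul, map_mul, ← hν, ← hν, Subgroup.coe_mul, map_mul]
  · intro g h e
    exact hwd g (ν h) (by rw [hν]; exact e)

/-- natural bijections for corresponding subgroups of finite index -/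
theorem natBij_comap (Φ : NatBij G H) (hπ : Φ.toFun Q π = π') (S : Subgroup Q) :
    ∃ Ψ : NatBij (S.comap π) (S.comap π'),
    ∀ (R : Type) [Group R] [Finite R] (θ : G →* R),
      Ψ.toFun R (θ.comp (S.comap π).subtype) = (Φ.toFun R θ).comp (S.comap π').subtype := by
  have hπ' : Φ.symm.toFun Q π' = π := by rw [← hπ]; exact Φ.left_inv Q π
  choose f hf using fun (P : Type) (_ : Group P) (_ : Finite P) (ψ : S.comap π →* P) =>
    Cor.exists Φ hπ S ψ
  choose f' hf' using fun (P : Type) (_ : Group P) (_ : Finite P) (ψ : S.comap π' →* P) =>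
    Cor.exists Φ.symm hπ' S ψ
  refine ⟨⟨fun P _ _ ψ => f P _ ‹_› ψ, fun P _ _ ψ => f' P _ ‹_› ψ, ?_, ?_, ?_⟩, ?_⟩
  · intro P _ _ ψ
    exact Cor.unique hπ' (hf' P _ _ _) (hf P _ _ ψ).symm
  · intro P _ _ ψ
    exact Cor.unique hπ (hf P _ _ _) (Cor.symm (Φ := Φ.symm) (hf' P _ _ ψ))
  · intro P R _ _ _ _ r ψ
    exact Cor.unique hπ (hf R _ _ _) ((hf P _ _ ψ).comp r)
  · intro R _ _ θ
    exact Cor.unique hπ (hf R _ _ _) ⟨R, _, ‹_›, θ, fun g h e => e⟩

theorem natBij_sub (Φ : NatBij G H) (hπ : Φ.toFun Q π = π') (S : Subgroup Q) (A : Subgroup G)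
    (B : Subgroup H) (hA : A = S.comap π) (hB : B = S.comap π') :
    ∃ Ψ : NatBij A B, ∀ (R : Type) [Group R] [Finite R] (θ : G →* R),
      Ψ.toFun R (θ.comp A.subtype) = (Φ.toFun R θ).comp B.subtype := by
  subst hA hB
  exact natBij_comap Φ hπ S

/-- the kernels -/
theorem natBij_ker (Φ : NatBij G H) (hπ : Φ.toFun Q π = π') :
    ∃ Ψ : NatBij π.ker π'.ker, ∀ (R : Type) [Group R] [Finite R] (θ : G →* R),
      Ψ.toFun R (θ.comp π.ker.subtype) = (Φ.toFun R θ).comp π'.ker.subtype :=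
  natBij_sub Φ hπ ⊥ _ _ (MonoidHom.comap_bot π).symm (MonoidHom.comap_bot π').symm

end Cor2

/-- transport along an isomorphism -/
def natBij_equiv {G G' H : Type} [Group G] [Group G'] [Group H] (e : G' ≃* G) (Ψ : NatBij G H) :
    NatBij G' H where
  toFun Q _ _ θ := Ψ.toFun Q (θ.comp e.symm.toMonoidHom)
  invFun Q _ _ θ := (Ψ.invFun Q θ).comp e.toMonoidHom
  left_inv Q _ _ θ := by
    rw [Ψ.left_inv]
    ext x
    simp
  right_inv Q _ _ θ := by
    have : ((Ψ.invFun Q θ).comp e.toMonoidHom).comp e.symm.toMonoidHom = Ψ.invFun Q θ := by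
      ext x; simp
    rw [this, Ψ.right_inv]
  nat f θ := by
    rw [MonoidHom.comp_assoc, Ψ.nat]

/-! ### The subgroup `GN (n * m)` of `GN n` -/

theorem nN_inc (n m : ℕ) (g : GN (n * m)) : nN n (inc n m g) = nN (n * m) g ^ m := by
  have h : (nN n).comp (inc n m) = (powMonoidHom m).comp (nN (n * m)) := by
    apply homN_ext
    · intro w
      show nN n (inc n m (iN (n * m) w)) = nN (n * m) (iN (n * m) w) ^ m
      rw [inc_iN, nN_iN, nN_iN, one_pow]
    · show nN n (inc n m (tN (n * m))) = nN (n * m) (tN (n * m)) ^ m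
      rw [inc_tN, map_pow, nN_tN, nN_tN]
  exact DFunLike.congr_fun h g

theorem redZ_pow_self (m : ℕ) (z : Multiplicative ℤ) : redZ m (z ^ m) = 1 := by
  rw [map_pow]
  show Multiplicative.ofAdd ((m : ℕ) • ((Multiplicative.toAdd z : ℤ) : ZMod m)) = 1
  rw [nsmul_eq_mul, CharP.cast_eq_zero, zero_mul]; rfl

theorem inc_mem (n m : ℕ) (g : GN (n * m)) : inc n m g ∈ Lm (nN n) m := by
  show redZ m (nN n (inc n m g)) = 1
  rw [nN_inc, redZ_pow_self]

theorem iN_mul_tN_eq_one {N : ℕ} {w : F} {k : ℤ} (h : iN N w * tN N ^ k = 1) : w = 1 ∧ k = 0 := by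
  have h1 : nN N (iN N w * tN N ^ k) = 1 := by rw [h, map_one]
  rw [map_mul, nN_iN, one_mul, map_zpow, nN_tN] at h1
  have hk : k = 0 := by
    have h2 := congrArg Multiplicative.toAdd h1
    rw [toAdd_zpow, toAdd_ofAdd, toAdd_one] at h2
    simpa using h2
  subst hk
  rw [zpow_zero, mul_one] at h
  exact ⟨iN_injective N (by rw [h, map_one]), rfl⟩

theorem inc_injective (n m : ℕ) (hm : 0 < m) : Function.Injective (inc n m) := by
  rw [injective_iff_map_eq_one]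
  intro g hg
  obtain ⟨w, k, rfl⟩ := GN_cases g
  rw [map_mul, map_zpow, inc_iN, inc_tN, ← zpow_natCast, ← zpow_mul] at hg
  obtain ⟨hw, hk⟩ := iN_mul_tN_eq_one hg
  have hk' : k = 0 := by
    rcases mul_eq_zero.1 hk with h | h
    · exact absurd h (by exact_mod_cast hm.ne')
    · exact h
  rw [hw, hk', map_one, zpow_zero, mul_one]

theorem inc_surj (n m : ℕ) (x : Lm (nN n) m) : ∃ g, inc n m g = x := by
  obtain ⟨x, hx⟩ := x
  obtain ⟨w, k, rfl⟩ := GN_cases x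
  obtain ⟨j, hj⟩ := Lm_dvd (nN n) m ⟨_, hx⟩
  refine ⟨iN (n * m) w * tN (n * m) ^ j, ?_⟩
  rw [map_mul, map_zpow, inc_iN, inc_tN, ← zpow_natCast, ← zpow_mul]
  have h2 : Multiplicative.toAdd (nN n (iN n w * tN n ^ k)) = k := by
    rw [map_mul, nN_iN, one_mul, map_zpow, nN_tN, toAdd_zpow, toAdd_ofAdd]
    simp
  have h3 : k = m * j := by rw [← h2]; exact hj
  show iN n w * tN n ^ ((m : ℤ) * j) = iN n w * tN n ^ k
  rw [h3]

/-- `GN (n * m)` is the kernel of `GN n → ℤ / m` -/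
def incE (n m : ℕ) (hm : 0 < m) : GN (n * m) ≃* Lm (nN n) m :=
  MulEquiv.ofBijective ((inc n m).codRestrict (Lm (nN n) m) (inc_mem n m))
    ⟨fun x y h => inc_injective n m hm (congrArg Subtype.val h), fun x => by
      obtain ⟨g, hg⟩ := inc_surj n m x
      exact ⟨g, Subtype.ext hg⟩⟩

theorem incE_coe (n m : ℕ) (hm : 0 < m) (g : GN (n * m)) : (incE n m hm g : GN n) = inc n m g :=
  rfl

/-- multiplication by `m`, from `ℤ / k` to `ℤ / k m` -/
def mulZa (k m : ℕ) : ZMod k →+ ZMod (k * m) :=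
  ZMod.lift k ⟨(AddMonoidHom.mulLeft ((m : ℕ) : ZMod (k * m))).comp
    (Int.castAddHom (ZMod (k * m))), by
      show ((m : ℕ) : ZMod (k * m)) * (((k : ℕ) : ℤ) : ZMod (k * m)) = 0
      rw [Int.cast_natCast, mul_comm, ← Nat.cast_mul, CharP.cast_eq_zero]⟩

theorem mulZa_coe (k m : ℕ) (z : ℤ) : mulZa k m (z : ZMod k) = (m : ZMod (k * m)) * (z : ZMod (k * m)) := by
  unfold mulZa
  rw [ZMod.lift_coe]
  rfl

/-- multiplication by `m`, from `ℤ / k` to `ℤ / k m`, multiplicatively -/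
def mulZ (k m : ℕ) : Multiplicative (ZMod k) →* Multiplicative (ZMod (k * m)) :=
  AddMonoidHom.toMultiplicative (mulZa k m)

theorem mulZ_redZ (k m : ℕ) (z : Multiplicative ℤ) : mulZ k m (redZ k z) = redZ (k * m) (z ^ m) := by
  apply Multiplicative.toAdd.injective
  show mulZa k m ((Multiplicative.toAdd z : ℤ) : ZMod k) = ((m • (Multiplicative.toAdd z) : ℤ) : ZMod (k * m))
  rw [mulZa_coe, nsmul_eq_mul]
  push_cast
  rfl

theorem redZ_surjective (k : ℕ) : Function.Surjective (redZ k) := by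
  intro x
  obtain ⟨z, hz⟩ := ZMod.intCast_surjective (Multiplicative.toAdd x)
  exact ⟨Multiplicative.ofAdd z, congrArg Multiplicative.ofAdd hz⟩

theorem mulZ_injective (k m : ℕ) (hm : 0 < m) : Function.Injective (mulZ k m) := by
  rw [injective_iff_map_eq_one]
  intro x hx
  obtain ⟨z, rfl⟩ := redZ_surjective k x
  rw [mulZ_redZ] at hx
  have h1 : ((Multiplicative.toAdd (z ^ m) : ℤ) : ZMod (k * m)) = 0 := hx
  rw [toAdd_pow, nsmul_eq_mul, ZMod.intCast_zmod_eq_zero_iff_dvd] at h1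
  obtain ⟨c, hc⟩ := h1
  have h2 : Multiplicative.toAdd z = k * c := by
    have hm' : (m : ℤ) ≠ 0 := by exact_mod_cast hm.ne'
    apply mul_left_cancel₀ hm'
    rw [hc]; push_cast; ring
  show Multiplicative.ofAdd ((Multiplicative.toAdd z : ℤ) : ZMod k) = 1
  rw [h2]
  push_cast
  rw [CharP.cast_eq_zero, zero_mul]; rfl

/-- THE TOWER: corresponding levels. -/
theorem tower (n m : ℕ) (hm : 0 < m) {Λ : Type} [Group Λ] (Φ : NatBij (GN n) Λ)
    (nL : Λ →* Multiplicative ℤ) (hC : CmG Φ (nN n) nL) :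
    ∃ Ψ : NatBij (GN (n * m)) (Lm nL m), CmG Ψ (nN (n * m)) (nm nL m) ∧
      ∀ (R : Type) [Group R] [Finite R] (θ : GN n →* R),
        Ψ.toFun R (θ.comp (inc n m)) = (Φ.toFun R θ).comp (Lm nL m).subtype := by
  have hm0 : NeZero m := ⟨hm.ne'⟩
  have hfm : Finite (Multiplicative (ZMod m)) := inferInstanceAs (Finite (ZMod m))
  obtain ⟨Ψ₀, hΨ₀⟩ := natBij_ker Φ (hC m)
  let Ψ : NatBij (GN (n * m)) (Lm nL m) := natBij_equiv (incE n m hm) Ψ₀
  have hres : ∀ (R : Type) [Group R] [Finite R] (θ : GN n →* R),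
        Ψ.toFun R (θ.comp (inc n m)) = (Φ.toFun R θ).comp (Lm nL m).subtype := by
    intro R _ _ θ
    rw [← hΨ₀]
    show Ψ₀.toFun R ((θ.comp (inc n m)).comp (incE n m hm).symm.toMonoidHom) = _
    congr 1
    ext x
    show θ (inc n m ((incE n m hm).symm x)) = θ x
    rw [← incE_coe n m hm, MulEquiv.apply_symm_apply]
  refine ⟨Ψ, ?_, hres⟩
  intro k hk
  have hkm : NeZero (k * m) := ⟨Nat.mul_ne_zero hk.out hm.ne'⟩
  have hf1 : Finite (Multiplicative (ZMod k)) := inferInstanceAs (Finite (ZMod k))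
  have hf2 : Finite (Multiplicative (ZMod (k * m))) := inferInstanceAs (Finite (ZMod (k * m)))
  have h1 : (mulZ k m).comp ((redZ k).comp (nN (n * m))) =
      ((redZ (k * m)).comp (nN n)).comp (inc n m) := by
    ext g
    show mulZ k m (redZ k (nN (n * m) g)) = redZ (k * m) (nN n (inc n m g))
    rw [mulZ_redZ, nN_inc]
  have h2 : (mulZ k m).comp (Ψ.toFun _ ((redZ k).comp (nN (n * m)))) =
      (mulZ k m).comp ((redZ k).comp (nm nL m)) := by
    rw [← Ψ.nat, h1, hres, hC (k * m)]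
    ext x
    show redZ (k * m) (nL x) = mulZ k m (redZ k (nm nL m x))
    rw [mulZ_redZ, nm_pow]
  ext x
  exact mulZ_injective k m hm (DFunLike.congr_fun h2 x)

/-! ### Values and exponents -/

/-- equality of the reductions modulo `m` -/
theorem redZ_eq (m : ℕ) (a b : Multiplicative ℤ) (h : redZ m a = redZ m b) :
    ∃ z : Multiplicative ℤ, a = b * z ^ m := by
  have h1 : ((Multiplicative.toAdd a : ℤ) : ZMod m) = ((Multiplicative.toAdd b : ℤ) : ZMod m) := h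
  rw [ZMod.intCast_eq_intCast_iff_dvd_sub] at h1
  obtain ⟨k, hk⟩ := h1
  refine ⟨Multiplicative.ofAdd (-k), ?_⟩
  apply Multiplicative.toAdd.injective
  rw [toAdd_mul, toAdd_pow, toAdd_ofAdd]
  have h2 : Multiplicative.toAdd a = Multiplicative.toAdd b - (m : ℤ) * k := by omega
  rw [h2]
  simp only [nsmul_eq_mul]
  ring

/-- corresponding homomorphisms have the same values on the elements with a given exponent -/
theorem cmpG {G H : Type} [Group G] [Group H] (Φ : NatBij G H) {nG : G →* Multiplicative ℤ}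
    {nL : H →* Multiplicative ℤ} (hnL : Function.Surjective nL) (hC : CmG Φ nG nL)
    {Q : Type} [Group Q] [Finite Q] (θ : G →* Q) (g : G) :
    ∃ l, nL l = nG g ∧ Φ.toFun Q θ l = θ g := by
  have hm : NeZero (Nat.card Q) := ⟨Nat.card_pos.ne'⟩
  have hfin : Finite (Multiplicative (ZMod (Nat.card Q))) :=
    inferInstanceAs (Finite (ZMod (Nat.card Q)))
  obtain ⟨l, h1, h2⟩ := pair_val Φ.symm (Φ.toFun _ θ)
    (Φ.toFun _ ((redZ (Nat.card Q)).comp nG)) g
  have e1 : Φ.symm.toFun Q (Φ.toFun Q θ) = θ := Φ.left_inv Q θ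
  have e2 : Φ.symm.toFun _ (Φ.toFun _ ((redZ (Nat.card Q)).comp nG)) =
      (redZ (Nat.card Q)).comp nG := Φ.left_inv _ _
  rw [e1] at h1
  rw [e2, hC (Nat.card Q)] at h2
  obtain ⟨z, hz⟩ := redZ_eq _ _ _ (show redZ _ (nL l) = redZ _ (nG g) from h2)
  obtain ⟨l', hl'⟩ := hnL z
  refine ⟨l * (l' ^ (Nat.card Q))⁻¹, ?_, ?_⟩
  · rw [map_mul, map_inv, map_pow, hl', hz, mul_inv_cancel_right]
  · rw [map_mul, map_inv, map_pow, pow_card_eq_one', inv_one, mul_one, h1]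

theorem CmG.symm {G H : Type} [Group G] [Group H] {Φ : NatBij G H} {nG : G →* Multiplicative ℤ}
    {nL : H →* Multiplicative ℤ} (hC : CmG Φ nG nL) : CmG Φ.symm nL nG := by
  intro k hk
  have hf1 : Finite (Multiplicative (ZMod k)) := inferInstanceAs (Finite (ZMod k))
  rw [← hC k]
  exact Φ.left_inv _ _

/-- irreducibility on the kernel is preserved -/
theorem irr_ker {G H : Type} [Group G] [Group H] (Φ : NatBij G H) {nG : G →* Multiplicative ℤ}
    {nL : H →* Multiplicative ℤ} (hnL : Function.Surjective nL) (hC : CmG Φ nG nL)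
    {R : Type} [CommRing R] [Finite R] (ρ : G →* SL2 R)
    (h : Irr (ρ.comp nG.ker.subtype)) : Irr ((Φ.toFun _ ρ).comp nL.ker.subtype) := by
  obtain ⟨g, k, hgk⟩ := h
  obtain ⟨l, hl1, hl2⟩ := cmpG Φ hnL hC ρ (g : G)
  obtain ⟨l', hl1', hl2'⟩ := cmpG Φ hnL hC ρ (k : G)
  rw [MonoidHom.mem_ker.1 g.2] at hl1
  rw [MonoidHom.mem_ker.1 k.2] at hl1'
  refine ⟨⟨l, hl1⟩, ⟨l', hl1'⟩, ?_⟩
  intro h0
  apply hgk
  rw [← h0]
  simp only [MonoidHom.comp_apply, map_mul, map_inv, Subgroup.coe_subtype, hl2, hl2']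

theorem mem_ker_nN {N : ℕ} {g : GN N} (h : nN N g = 1) : ∃ w, g = iN N w := by
  obtain ⟨w, k, rfl⟩ := GN_cases g
  rw [map_mul, nN_iN, one_mul, map_zpow, nN_tN] at h
  have hk : k = 0 := by
    have h2 := congrArg Multiplicative.toAdd h
    rw [toAdd_zpow, toAdd_ofAdd, toAdd_one] at h2
    simpa using h2
  exact ⟨w, by rw [hk, zpow_zero, mul_one]⟩

/-- irreducibility on `F` -/
theorem irr_iN_iff {N : ℕ} {R : Type} [CommRing R] (ρ : GN N →* SL2 R) :
    Irr (ρ.comp (iN N)) ↔ Irr (ρ.comp (nN N).ker.subtype) := by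
  constructor
  · rintro ⟨g, h, hgh⟩
    exact ⟨⟨iN N g, nN_iN N g⟩, ⟨iN N h, nN_iN N h⟩, hgh⟩
  · rintro ⟨⟨g, hg⟩, ⟨h, hh⟩, hgh⟩
    obtain ⟨w, rfl⟩ := mem_ker_nN hg
    obtain ⟨w', rfl⟩ := mem_ker_nN hh
    exact ⟨w, w', hgh⟩

end

end Pool.Agent.F8
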