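import Pool.Agent.Lib.MP_305fdd_al.F8.StmHN
import Pool.Agent.Lib.MP_305fdd_al.F8.Tower

/-!
# MP_305fdd_al: groups which contain `F ⋊ ℤ` as a normal subgroup of finite index. Definitions.

`GA β = F ⋊_β ℤ` (`StmHN.lean`). `Ov β G N`: an isomorphism of the subgroup `N` of `G` with `GA β`, such that the
image of `F` is normal in `G`, together with the action `c : G → Aut F` by conjugation.
-/

set_option autoImplicit false

namespace Pool.Agent.F8.OV

open Pool.Agent.MP_305fdd_al Pool.Agent.Lib.MP_305fdd_al Pool.Agent.F2X Pool.Agent.F8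
  Pool.Agent.F8.HN
open scoped QuadraticAlgebra

/-! ### Matrices -/

/-- hyperbolic with positive trace -/
def Hyp (A : GL (Fin 2) ℤ) : Prop := A.val.det = 1 ∧ 2 < A.val.trace

/-- `g` commutes with `A` or inverts `A` -/
def CI (A g : GL (Fin 2) ℤ) : Prop := g * A * g⁻¹ = A ∨ g * A * g⁻¹ = A⁻¹

/-- local-global principle for the elements which invert `A`: if `s, s'` invert `A` and are conjugate
modulo a suitable `m` by a matrix which commutes with `A`, then they are conjugate by a matrix in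
`GL₂(ℤ)` which commutes with `A` -/
def Lo (A : GL (Fin 2) ℤ) : Prop := ∃ m : ℕ, 0 < m ∧ ∀ s s' : GL (Fin 2) ℤ,
  s * A * s⁻¹ = A⁻¹ → s' * A * s'⁻¹ = A⁻¹ →
  (∃ X : GL (Fin 2) (ZMod m), X * red m A = red m A * X ∧ X * red m s = red m s' * X) →
  ∃ Y : GL (Fin 2) ℤ, Y * A = A * Y ∧ Y * s = s' * Y

/-- reduction from `ℤ/m` to `ℤ/m'` -/
def redm {m' m : ℕ} (h : m' ∣ m) : GL (Fin 2) (ZMod m) →* GL (Fin 2) (ZMod m') :=
  Matrix.GeneralLinearGroup.map (ZMod.castHom h (ZMod m'))

theorem redm_red {m' m : ℕ} (h : m' ∣ m) (g : GL (Fin 2) ℤ) : redm h (red m g) = red m' g := by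
  apply Units.ext
  ext i j
  show ZMod.castHom h (ZMod m') ((g.val i j : ℤ) : ZMod m) = ((g.val i j : ℤ) : ZMod m')
  rw [map_intCast]

/-- the sequence `u 0 = 0`, `u 1 = 1`, `u (k+2) = T u (k+1) - u k` -/
def cs (T : ℤ) : ℕ → ℤ
  | 0 => 0
  | 1 => 1
  | (k + 2) => T * cs T (k + 1) - cs T k

/-! ### The structure -/

/-- `N ≃ GA β` with `F` normal in `G`; `c` is the action of `G` on `F` by conjugation -/
structure Ov (β : MulAut F) (G : Type) [Group G] (N : Subgroup G) where
  /-- the isomorphism -/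
  e : N ≃* GA β
  /-- the action -/
  c : G →* MulAut F
  /-- the action is the conjugation -/
  eq : ∀ (g : G) (w : F),
    ((e.symm (iA β (c g w)) : N) : G) = g * ((e.symm (iA β w) : N) : G) * g⁻¹

namespace Ov

variable {β : MulAut F} {G : Type} [Group G] {N : Subgroup G} (X : Ov β G N)

/-- the inclusion of `F` -/
def i : F →* G := N.subtype.comp (X.e.symm.toMonoidHom.comp (iA β))

/-- the generator of `ℤ` -/
def t : G := (X.e.symm (tA β) : N)

/-- the action on the abelianisation of `F` -/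
def Th : G →* GL (Fin 2) ℤ := AM.comp X.c

theorem Th_apply (g : G) : X.Th g = AM (X.c g) := rfl

theorem i_mem (w : F) : X.i w ∈ N := (X.e.symm (iA β w)).2

theorem t_mem : X.t ∈ N := (X.e.symm (tA β)).2

theorem e_i (w : F) : X.e ⟨X.i w, X.i_mem w⟩ = iA β w := X.e.apply_symm_apply _

theorem e_t : X.e ⟨X.t, X.t_mem⟩ = tA β := X.e.apply_symm_apply _

theorem i_injective : Function.Injective X.i := by
  intro v w h
  have h1 : X.e.symm (iA β v) = X.e.symm (iA β w) := Subtype.ext h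
  exact iA_injective β (X.e.symm.injective h1)

theorem i_c (g : G) (w : F) : X.i (X.c g w) = g * X.i w * g⁻¹ := X.eq g w

theorem c_i (w : F) : X.c (X.i w) = MulAut.conj w := by
  ext v
  apply X.i_injective
  rw [i_c, MulAut.conj_apply, map_mul, map_mul, map_inv]

theorem c_t : X.c X.t = β := by
  ext w
  apply X.i_injective
  rw [i_c]
  have h := congrArg (fun x => ((X.e.symm x : N) : G)) (tA_conj β w)
  simp only [map_mul, map_inv, Subgroup.coe_mul, Subgroup.coe_inv] at h
  exact h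

theorem Th_i (w : F) : X.Th (X.i w) = 1 := by rw [Th_apply, c_i, AM_conj]

theorem Th_t : X.Th X.t = AM β := by rw [Th_apply, c_t]

/-- the elements of `N` -/
theorem mem_cases (x : G) (hx : x ∈ N) : ∃ (w : F) (k : ℤ), x = X.i w * X.t ^ k := by
  obtain ⟨w, k, h⟩ := GA_cases β (X.e ⟨x, hx⟩)
  refine ⟨w, k, ?_⟩
  have h1 : (⟨x, hx⟩ : N) = X.e.symm (iA β w * tA β ^ k) := by
    rw [← h, MulEquiv.symm_apply_apply]
  have h2 := congrArg (fun y : N => (y : G)) h1
  simp only [map_mul, map_zpow, Subgroup.coe_mul, Subgroup.coe_zpow] at h2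
  exact h2

/-- the matrices of the elements of `N` are powers of `AM β` -/
theorem Th_mem (x : G) (hx : x ∈ N) : ∃ k : ℤ, X.Th x = AM β ^ k := by
  obtain ⟨w, k, rfl⟩ := X.mem_cases x hx
  exact ⟨k, by rw [map_mul, map_zpow, Th_i, Th_t, one_mul]⟩

end Ov

/-- regularity: every natural bijection respects the projection to `ℤ`, and the first Betti number
is one -/
def Reg (β : MulAut F) : Prop := ∀ (Λ : Type) [Group Λ], Group.FG Λ → Group.ResiduallyFinite Λ →
  SameFiniteQuotients Λ (GA β) → ∀ Φ : NatBij (GA β) Λ, ∃ nL : Λ →* Multiplicative ℤ,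
    Function.Surjective nL ∧ CmG Φ (nA β) nL ∧ ∀ f : Λ →* Multiplicative ℤ, nL.ker ≤ f.ker

/-- the correspondence of the images of `F` and of `t` in finite quotients -/
structure Pr {β : MulAut F} {Γ Λ : Type} [Group Γ] [Group Λ] (Φ : NatBij Γ Λ) {N : Subgroup Γ}
    {M : Subgroup Λ} (X : Ov β Γ N) (X' : Ov β Λ M) : Prop where
  /-- `F` on the left -/
  f1 : ∀ (P : Type) [Group P] [Finite P] (θ : Γ →* P) (w : F),
    ∃ w', Φ.toFun P θ (X'.i w') = θ (X.i w)
  /-- `F` on the right -/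
  f2 : ∀ (P : Type) [Group P] [Finite P] (θ : Γ →* P) (w' : F),
    ∃ w, Φ.toFun P θ (X'.i w') = θ (X.i w)
  /-- `t` -/
  tt : ∃ k : ℤ, (k = 1 ∨ k = -1) ∧ ∀ (P : Type) [Group P] [Finite P] (θ : Γ →* P),
    ∃ w', Φ.toFun P θ (X'.i w' * X'.t ^ k) = θ X.t

end Pool.Agent.F8.OV
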