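import Pool.Agent.Lib.MP_305fdd_al.F8.Defs

/-!
# MP_305fdd_al: the figure-eight knot group is profinitely rigid. Definitions, part 2.

The two explicit affine representations of `G8`, and the conditions `P1`, `P2`.
-/

set_option autoImplicit false

namespace Pool.Agent.F8

open Pool.Agent.MP_305fdd_al Pool.Agent.Lib.MP_305fdd_al Pool.Agent.F2X
open scoped QuadraticAlgebra

/-- the powers of `τ` -/
abbrev pw {A : Type} [Group A] (τ : A) : Multiplicative ℤ →* A := zpowersHom A τ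

theorem pw_ofAdd {A : Type} [Group A] (τ : A) (n : ℤ) : pw τ (Multiplicative.ofAdd n) = τ ^ n := rfl

/-- the affine representation with trivial matrix part; `t² = 3 t - 1` -/
def Th1 {R : Type} [CommRing R] (t : Rˣ) (ht : t.val * t.val = 3 * t.val - 1) : G8 →* Q2 R :=
  lift8 ⟨1, 1, ![t.val, 0]⟩ ⟨1, 1, ![1, 0]⟩ ⟨t, 1, 0⟩
    (by
      rw [mul_inv_eq_iff_eq_mul]
      apply Q2.ext
      · simp
      · simp
      · ext i
        fin_cases i
        · simp
          linear_combination ht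
        · simp)
    (by
      rw [mul_inv_eq_iff_eq_mul]
      apply Q2.ext
      · simp
      · simp
      · ext i
        fin_cases i <;> simp)

theorem rho8_uu {R : Type} [CommRing R] (w : R) (hw : w * w + w + 1 = 0) :
    rho8 w hw uu = mb w * (ma R)⁻¹ := lift8_uu _ _

theorem rho8_vv {R : Type} [CommRing R] (w : R) (hw : w * w + w + 1 = 0) :
    rho8 w hw vv = (ma R)⁻¹ * mb w := lift8_vv _ _

theorem ma_rel {R : Type} [CommRing R] (w : R) (hw : w * w + w + 1 = 0) :
    ma R * (mb w * (ma R)⁻¹) = mb w * (ma R)⁻¹ * ((ma R)⁻¹ * mb w)⁻¹ * (mb w * (ma R)⁻¹) *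
      (mb w * (ma R)⁻¹) * ma R := by
  have h := congrArg (rho8 w hw) aa_uu
  simp only [map_mul, map_inv, rho8_uu, rho8_vv, rho8_aa] at h
  exact mul_inv_eq_iff_eq_mul.1 h

theorem mulVec2 {R : Type} [CommRing R] (M : Matrix (Fin 2) (Fin 2) R) (v : Fin 2 → R) :
    M.mulVec v = ![M 0 0 * v 0 + M 0 1 * v 1, M 1 0 * v 0 + M 1 1 * v 1] := by
  ext i
  fin_cases i <;> simp [Matrix.mulVec, dotProduct, Fin.sum_univ_two]

theorem matU {R : Type} [CommRing R] (w : R) :
    (mb w * (ma R)⁻¹).val = !![1, -1; -w, w + 1] := by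
  ext i j
  fin_cases i <;> fin_cases j <;> simp [ma, mb, Matrix.adjugate_fin_two]

theorem matV {R : Type} [CommRing R] (w : R) :
    ((ma R)⁻¹ * mb w).val = !![1 + w, -1; -w, 1] := by
  ext i j
  fin_cases i <;> fin_cases j <;> simp [ma, mb, Matrix.adjugate_fin_two]

theorem matVi {R : Type} [CommRing R] (w : R) :
    (((ma R)⁻¹ * mb w)⁻¹).val = !![1, 1; w, 1 + w] := by
  ext i j
  fin_cases i <;> fin_cases j <;> simp [ma, mb, Matrix.adjugate_fin_two, add_comm]

/-- the affine representation over `rho8 w`; `t² = 4 t - 1` -/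
def Th0 {R : Type} [CommRing R] (w : R) (hw : w * w + w + 1 = 0) (t : Rˣ)
    (ht : t.val * t.val = 4 * t.val - 1) : G8 →* Q2 R :=
  lift8 ⟨1, mb w * (ma R)⁻¹, ![w * (1 + t.val), w * (1 - w) * (1 - t.val) - w * w * (1 + t.val)]⟩
    ⟨1, (ma R)⁻¹ * mb w, 0⟩ ⟨t, ma R, ![(1 - w) * (1 - t.val), w * (1 + t.val)]⟩
    (by
      rw [mul_inv_eq_iff_eq_mul]
      apply Q2.ext
      · simp
      · exact ma_rel w hw
      · simp only [Q2.mul_v, Q2.mul_m, Q2.mul_t, Q2.inv_v, Q2.inv_t, Q2.inv_m,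
          Matrix.SpecialLinearGroup.coe_mul _ (mb w * (ma R)⁻¹), matU, matVi, inv_one,
          Units.val_one, one_smul, Matrix.mulVec_zero, neg_zero, add_zero, one_mul, mulVec2]
        ext i
        fin_cases i
        · simp [ma, mb, Matrix.mul_apply, Fin.sum_univ_two, Matrix.adjugate_fin_two]
          ring
        · simp [ma, mb, Matrix.mul_apply, Fin.sum_univ_two, Matrix.adjugate_fin_two]
          linear_combination (-2 * w * t.val) * hw + (-w) * ht)
    (by
      rw [mul_inv_eq_iff_eq_mul]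
      apply Q2.ext
      · simp
      · show ma R * ((ma R)⁻¹ * mb w) = mb w * (ma R)⁻¹ * ma R
        group
      · simp only [Q2.mul_v, matU, Units.val_one, one_smul, Matrix.mulVec_zero, smul_zero,
          add_zero, mulVec2]
        ext i
        fin_cases i
        · simp
        · simp
          ring)

section Th

variable {R S : Type} [CommRing R] [CommRing S]

theorem Th1_aa (t : Rˣ) (ht : t.val * t.val = 3 * t.val - 1) : Th1 t ht aa = ⟨t, 1, 0⟩ :=
  lift8_aa _ _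
theorem Th1_uu (t : Rˣ) (ht : t.val * t.val = 3 * t.val - 1) :
    Th1 t ht uu = ⟨1, 1, ![t.val, 0]⟩ := lift8_uu _ _
theorem Th1_vv (t : Rˣ) (ht : t.val * t.val = 3 * t.val - 1) :
    Th1 t ht vv = ⟨1, 1, ![1, 0]⟩ := lift8_vv _ _

theorem Th0_aa (w : R) (hw : w * w + w + 1 = 0) (t : Rˣ) (ht : t.val * t.val = 4 * t.val - 1) :
    Th0 w hw t ht aa = ⟨t, ma R, ![(1 - w) * (1 - t.val), w * (1 + t.val)]⟩ := lift8_aa _ _
theorem Th0_uu (w : R) (hw : w * w + w + 1 = 0) (t : Rˣ) (ht : t.val * t.val = 4 * t.val - 1) :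
    Th0 w hw t ht uu = ⟨1, mb w * (ma R)⁻¹,
      ![w * (1 + t.val), w * (1 - w) * (1 - t.val) - w * w * (1 + t.val)]⟩ := lift8_uu _ _
theorem Th0_vv (w : R) (hw : w * w + w + 1 = 0) (t : Rˣ) (ht : t.val * t.val = 4 * t.val - 1) :
    Th0 w hw t ht vv = ⟨1, (ma R)⁻¹ * mb w, 0⟩ := lift8_vv _ _

/-- the scalar part -/
theorem tH_Th1 (t : Rˣ) (ht : t.val * t.val = 3 * t.val - 1) :
    Q2.tH.comp (Th1 t ht) = (pw t).comp n8 := by
  apply hom8_ext
  · show (Th1 t ht uu).t = pw t (n8 uu)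
    rw [Th1_uu, n8_uu, map_one]
  · show (Th1 t ht vv).t = pw t (n8 vv)
    rw [Th1_vv, n8_vv, map_one]
  · show (Th1 t ht aa).t = pw t (n8 aa)
    rw [Th1_aa, n8_aa, pw_ofAdd, zpow_one]

/-- the matrix part -/
theorem mH_Th1 (t : Rˣ) (ht : t.val * t.val = 3 * t.val - 1) :
    Q2.mH.comp (Th1 t ht) = 1 := by
  apply hom8_ext
  · show (Th1 t ht uu).m = 1
    rw [Th1_uu]
  · show (Th1 t ht vv).m = 1
    rw [Th1_vv]
  · show (Th1 t ht aa).m = 1
    rw [Th1_aa]

/-- the scalar part -/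
theorem tH_Th0 (w : R) (hw : w * w + w + 1 = 0) (t : Rˣ) (ht : t.val * t.val = 4 * t.val - 1) :
    Q2.tH.comp (Th0 w hw t ht) = (pw t).comp n8 := by
  apply hom8_ext
  · show (Th0 w hw t ht uu).t = pw t (n8 uu)
    rw [Th0_uu, n8_uu, map_one]
  · show (Th0 w hw t ht vv).t = pw t (n8 vv)
    rw [Th0_vv, n8_vv, map_one]
  · show (Th0 w hw t ht aa).t = pw t (n8 aa)
    rw [Th0_aa, n8_aa, pw_ofAdd, zpow_one]

/-- the matrix part -/
theorem mH_Th0 (w : R) (hw : w * w + w + 1 = 0) (t : Rˣ) (ht : t.val * t.val = 4 * t.val - 1) :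
    Q2.mH.comp (Th0 w hw t ht) = rho8 w hw := by
  apply hom8_ext
  · show (Th0 w hw t ht uu).m = rho8 w hw uu
    rw [Th0_uu, rho8_uu]
  · show (Th0 w hw t ht vv).m = rho8 w hw vv
    rw [Th0_vv, rho8_vv]
  · show (Th0 w hw t ht aa).m = rho8 w hw aa
    rw [Th0_aa, rho8_aa]

theorem map_unit_eq1 (f : R →+* S) {t : Rˣ} (ht : t.val * t.val = 3 * t.val - 1) :
    (Units.map f.toMonoidHom t).val * (Units.map f.toMonoidHom t).val =
      3 * (Units.map f.toMonoidHom t).val - 1 := by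
  have := congrArg f ht
  rw [map_mul, map_sub, map_mul, map_ofNat, map_one] at this
  exact this

theorem map_unit_eq0 (f : R →+* S) {t : Rˣ} (ht : t.val * t.val = 4 * t.val - 1) :
    (Units.map f.toMonoidHom t).val * (Units.map f.toMonoidHom t).val =
      4 * (Units.map f.toMonoidHom t).val - 1 := by
  have := congrArg f ht
  rw [map_mul, map_sub, map_mul, map_ofNat, map_one] at this
  exact this

theorem map_om_eq (f : R →+* S) {w : R} (hw : w * w + w + 1 = 0) : f w * f w + f w + 1 = 0 := by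
  have := congrArg f hw
  simpa using this

theorem map_Th1 (f : R →+* S) (t : Rˣ) (ht : t.val * t.val = 3 * t.val - 1) :
    (Q2.map f).comp (Th1 t ht) = Th1 (Units.map f.toMonoidHom t) (map_unit_eq1 f ht) := by
  apply hom8_ext
  · show Q2.map f (Th1 t ht uu) = _
    rw [Th1_uu, Th1_uu]
    apply Q2.ext
    · simp
    · simp
    · ext i; fin_cases i <;> simp
  · show Q2.map f (Th1 t ht vv) = _
    rw [Th1_vv, Th1_vv]
    apply Q2.ext
    · simp
    · simp
    · ext i; fin_cases i <;> simp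
  · show Q2.map f (Th1 t ht aa) = _
    rw [Th1_aa, Th1_aa]
    apply Q2.ext
    · simp
    · simp
    · ext i; fin_cases i <;> simp

theorem map_ma (f : R →+* S) : SLm f (ma R) = ma S := by
  apply Subtype.ext
  ext i j
  fin_cases i <;> fin_cases j <;> simp [ma]

theorem map_mb (f : R →+* S) (w : R) : SLm f (mb w) = mb (f w) := by
  apply Subtype.ext
  ext i j
  fin_cases i <;> fin_cases j <;> simp [mb]

theorem map_rho8 (f : R →+* S) (w : R) (hw : w * w + w + 1 = 0) :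
    (SLm f).comp (rho8 w hw) = rho8 (f w) (map_om_eq f hw) := by
  apply hom8_ext'
  · show SLm f (rho8 w hw aa) = _
    rw [rho8_aa, rho8_aa, map_ma]
  · show SLm f (rho8 w hw bb) = _
    rw [rho8_bb, rho8_bb, map_mb]

theorem map_Th0 (f : R →+* S) (w : R) (hw : w * w + w + 1 = 0) (t : Rˣ)
    (ht : t.val * t.val = 4 * t.val - 1) :
    (Q2.map f).comp (Th0 w hw t ht) =
      Th0 (f w) (map_om_eq f hw) (Units.map f.toMonoidHom t) (map_unit_eq0 f ht) := by
  apply hom8_ext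
  · show Q2.map f (Th0 w hw t ht uu) = _
    rw [Th0_uu, Th0_uu]
    apply Q2.ext
    · simp
    · show SLm f (mb w * (ma R)⁻¹) = _
      rw [map_mul, map_inv, map_ma, map_mb]
    · ext i; fin_cases i <;> simp
  · show Q2.map f (Th0 w hw t ht vv) = _
    rw [Th0_vv, Th0_vv]
    apply Q2.ext
    · simp
    · show SLm f ((ma R)⁻¹ * mb w) = _
      rw [map_mul, map_inv, map_ma, map_mb]
    · ext i; fin_cases i <;> simp
  · show Q2.map f (Th0 w hw t ht aa) = _
    rw [Th0_aa, Th0_aa]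
    apply Q2.ext
    · simp
    · exact map_ma f
    · ext i; fin_cases i <;> simp

end Th

/-! ### The conditions on affine representations -/

/-- `n` is the abelianisation of `Λ` -/
def IsAb {Λ : Type} [Group Λ] (n : Λ →* Multiplicative ℤ) : Prop :=
  Function.Surjective n ∧ ∀ (A : Type) [CommGroup A] (f : Λ →* A), n.ker ≤ f.ker

/-- one-dimensional condition: `τ` is an exceptional value, `H¹(Λ, τ) ≠ 0` -/
def P1 {Λ : Type} [Group Λ] (n : Λ →* Multiplicative ℤ) (K : Type) [CommRing K] (τ : Kˣ) : Prop :=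
  ∃ Θ : Λ →* Q2 K, Q2.tH.comp Θ = (pw τ).comp n ∧ Q2.mH.comp Θ = 1 ∧ NC Θ

/-- two-dimensional condition: the matrix part `ρ` of `Θ` is irreducible and
`H¹(Λ, ρ ⊗ τ) ≠ 0` for a root `τ` of `τ² - 4 τ + 1` -/
def P2 {Λ : Type} [Group Λ] (n : Λ →* Multiplicative ℤ) (K : Type) [CommRing K]
    (Θ : Λ →* Q2 K) : Prop :=
  (∃ τ : Kˣ, τ.val * τ.val = 4 * τ.val - 1 ∧ Q2.tH.comp Θ = (pw τ).comp n) ∧
    Irr (Q2.mH.comp Θ) ∧ NC Θ

/-- the character of the matrix part -/
def ch {Λ K : Type} [Group Λ] [CommRing K] (Θ : Λ →* Q2 K) (g : Λ) : K := tr (Θ g).m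

/-- `n8` modulo `m` corresponds to `e n` modulo `m` -/
def Ex {Λ : Type} [Group Λ] (Φ : NatBij G8 Λ) (n : Λ →* Multiplicative ℤ) (m : ℕ) [NeZero m]
    (e : ℤ) : Prop :=
  Φ.toFun (Multiplicative (ZMod m)) ((redZ m).comp n8) =
    (redZ m).comp ((zpowGroupHom e).comp n)

end Pool.Agent.F8
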