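import Pool.Agent.Lib.MP_305fdd_al.F8.Faith
import Pool.Agent.Lib.MP_305fdd_al.F8.Defs2
import Pool.Agent.Lib.MP_305fdd_al.Genus

/-!
# MP_305fdd_al, figure-eight project: models of the figure-eight knot group

The two-generator presentation `⟨x, y | y x⁻¹ y x y⁻¹ = x⁻¹ y x y⁻¹ x⟩` and the subgroup of
`PSL₂(ℂ)` generated by the classes of `[[1, 1], [0, 1]]` and `[[1, 0], [-ω, 1]]`.
-/

set_option autoImplicit false
set_option linter.unusedSimpArgs false

namespace Pool.Agent.F8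

open Pool.Agent.MP_305fdd_al Pool.Agent.Lib.MP_305fdd_al Pool.Agent.F2X
open scoped QuadraticAlgebra

/-- profinite rigidity is invariant under isomorphisms -/
theorem rigid_equiv {G H : Type} [Group G] [Group H] (e : G ≃* H) (h : ProfinitelyRigid G) :
    ProfinitelyRigid H := by
  intro Λ _ hΛ
  obtain ⟨hfg, hrf, hs⟩ := hΛ
  obtain ⟨f⟩ := h Λ ⟨hfg, hrf, hs.trans (sameFQ_of_surj e.symm.toMonoidHom e.symm.surjective
    e.toMonoidHom e.surjective)⟩
  exact ⟨f.trans e⟩

/-! ### The presentation -/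

/-- the relator `y x⁻¹ y x y⁻¹ (x⁻¹ y x y⁻¹ x)⁻¹` -/
def rel8 (x y : FreeGroup (Fin 2)) : FreeGroup (Fin 2) :=
  y * x⁻¹ * y * x * y⁻¹ * (x⁻¹ * y * x * y⁻¹ * x)⁻¹

/-- the group with the two-generator presentation -/
abbrev Pr8 : Type := PresentedGroup {rel8 (FreeGroup.of 0) (FreeGroup.of 1)}

/-- the generators -/
def px : Pr8 := PresentedGroup.of 0
/-- the generators -/
def py : Pr8 := PresentedGroup.of 1

theorem pr8_rel : py * px⁻¹ * py * px * py⁻¹ = px⁻¹ * py * px * py⁻¹ * px := by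
  have h : (PresentedGroup.mk {rel8 (FreeGroup.of 0) (FreeGroup.of 1)})
      (rel8 (FreeGroup.of 0) (FreeGroup.of 1)) = 1 :=
    PresentedGroup.one_of_mem rfl
  unfold rel8 at h
  simp only [map_mul, map_inv] at h
  exact mul_inv_eq_one.1 h

/-- from the presentation to `G8`: `x ↦ b`, `y ↦ a` -/
def pr1 : Pr8 →* G8 := PresentedGroup.toGroup (f := ![bb, aa]) (by
  rintro r rfl
  unfold rel8
  simp only [map_mul, map_inv, FreeGroup.lift_apply_of]
  show aa * bb⁻¹ * aa * bb * aa⁻¹ * (bb⁻¹ * aa * bb * aa⁻¹ * bb)⁻¹ = 1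
  have h := ab_rel
  rw [mul_inv_eq_one]
  have h2 : bb * aa⁻¹ * bb⁻¹ * aa * bb = aa * bb * aa⁻¹ * bb⁻¹ * aa := by
    rw [h]; group
  calc aa * bb⁻¹ * aa * bb * aa⁻¹ = aa * bb⁻¹ * (aa * bb⁻¹⁻¹ * aa⁻¹ * bb⁻¹ * aa) * aa⁻¹ * bb := by
        group
    _ = aa * bb⁻¹ * (bb * aa⁻¹ * bb⁻¹ * aa * bb) * aa⁻¹ * bb := by rw [h2, inv_inv]
    _ = bb⁻¹ * aa * bb * aa⁻¹ * bb := by group)

theorem pr1_px : pr1 px = bb := by
  unfold pr1 px
  rw [PresentedGroup.toGroup.of]; rfl
theorem pr1_py : pr1 py = aa := by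
  unfold pr1 py
  rw [PresentedGroup.toGroup.of]; rfl

/-- from `G8` to the presentation -/
def pr2 : G8 →* Pr8 := lift8 (px * py⁻¹) (py⁻¹ * px) py
  (by
    have h := pr8_rel
    have h2 : px * py⁻¹ * px⁻¹ * py * px = py * px * py⁻¹ * px⁻¹ * py := by
      calc px * py⁻¹ * px⁻¹ * py * px
          = px * py⁻¹ * (px⁻¹ * py * px * py⁻¹ * px) * px⁻¹ * py := by group
        _ = px * py⁻¹ * (py * px⁻¹ * py * px * py⁻¹) * px⁻¹ * py := by rw [h]
        _ = _ := by group
    calc py * (px * py⁻¹) * py⁻¹ = (py * px * py⁻¹ * px⁻¹ * py) * py⁻¹ * px * py⁻¹ := by group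
      _ = (px * py⁻¹ * px⁻¹ * py * px) * py⁻¹ * px * py⁻¹ := by rw [h2]
      _ = px * py⁻¹ * (py⁻¹ * px)⁻¹ * (px * py⁻¹) * (px * py⁻¹) := by group)
  (by group)

theorem pr2_aa : pr2 aa = py := lift8_aa _ _
theorem pr2_bb : pr2 bb = px := by
  unfold pr2
  rw [lift8_bb]; group

/-- the presentation of the figure-eight knot group -/
def prE : Pr8 ≃* G8 := MonoidHom.toMulEquiv pr1 pr2
  (by
    apply PresentedGroup.ext
    intro i
    fin_cases i
    · show pr2 (pr1 px) = px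
      rw [pr1_px, pr2_bb]
    · show pr2 (pr1 py) = py
      rw [pr1_py, pr2_aa])
  (by
    apply hom8_ext'
    · show pr1 (pr2 aa) = aa
      rw [pr2_aa, pr1_py]
    · show pr1 (pr2 bb) = bb
      rw [pr2_bb, pr1_px])

/-! ### The subgroup of `PSL₂(ℂ)` -/

/-- `ω = (-1 + i √3) / 2` -/
noncomputable def wC : ℂ := ⟨-1 / 2, Real.sqrt 3 / 2⟩

theorem wC_sq : wC * wC = ((-1 : ℤ) : ℂ) * wC - 1 := by
  have h : Real.sqrt 3 * Real.sqrt 3 = 3 := Real.mul_self_sqrt (by norm_num)
  apply Complex.ext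
  · rw [Complex.mul_re]
    simp [wC]
    linear_combination (-1 / 4 : ℝ) * h
  · rw [Complex.mul_im]
    simp [wC]
    ring

/-- the embedding `ℤ[ω] → ℂ` -/
noncomputable def toC : O →+* ℂ := Qd.ev (-1) (Int.castRingHom ℂ) wC wC_sq

theorem toC_apply (z : O) : toC z = (z.re : ℂ) + z.im * wC := rfl

theorem toC_om : toC (om ℤ) = wC := by
  rw [toC_apply]; simp [th]

theorem toC_injective : Function.Injective toC := by
  rw [injective_iff_map_eq_zero]
  intro z hz
  rw [toC_apply] at hz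
  have h1 := congrArg Complex.im hz
  have h2 := congrArg Complex.re hz
  simp [wC] at h1 h2
  have h3 : z.im = 0 := h1
  rw [h3] at h2
  have h4 : z.re = 0 := by simpa using h2
  exact QuadraticAlgebra.ext h4 h3

/-- `PSL₂(ℂ)` -/
abbrev PC : Type := Matrix.ProjectiveSpecialLinearGroup (Fin 2) ℂ

/-- the projection -/
abbrev pc : SL2 ℂ →* PC := QuotientGroup.mk' _

theorem pc_eq_one {g : SL2 O} (h : pc (SLm toC g) = 1) : g = 1 ∨ g = -1 := by
  have h1 : SLm toC g ∈ Subgroup.center (SL2 ℂ) := (QuotientGroup.eq_one_iff _).1 h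
  rw [Matrix.SpecialLinearGroup.mem_center_iff] at h1
  obtain ⟨r, hr, hs⟩ := h1
  have hr' : r = 1 ∨ r = -1 := by
    rw [Fintype.card_fin] at hr
    exact mul_self_eq_one_iff.1 (by rw [← sq]; exact hr)
  have hij : ∀ i j, toC (g.val i j) = (Matrix.scalar (Fin 2) r) i j := by
    intro i j
    rw [hs]; rfl
  rcases hr' with rfl | rfl
  · left
    apply Matrix.SpecialLinearGroup.ext
    intro i j
    apply toC_injective
    rw [hij, Matrix.SpecialLinearGroup.coe_one]
    fin_cases i <;> fin_cases j <;> simp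
  · right
    apply Matrix.SpecialLinearGroup.ext
    intro i j
    apply toC_injective
    rw [hij]
    fin_cases i <;> fin_cases j <;> simp

/-- the faithful representation in `PSL₂(ℂ)` -/
noncomputable def rC : G8 →* PC := pc.comp ((SLm toC).comp G.rO)

theorem rC_injective : Function.Injective rC := by
  rw [injective_iff_map_eq_one]
  intro x hx
  exact G.rO_faithful x (pc_eq_one hx)

theorem rC_aa : rC aa = pc (ma ℂ) := by
  show pc (SLm toC (G.rO aa)) = _
  rw [G.rO_aa, map_ma]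
theorem rC_bb : rC bb = pc (mb wC) := by
  show pc (SLm toC (G.rO bb)) = _
  rw [show G.rO bb = mb (om ℤ) from rho8_bb _ _, map_mb, toC_om]

/-- the subgroup of `PSL₂(ℂ)` generated by the classes of `[[1, 1], [0, 1]]` and
`[[1, 0], [-ω, 1]]` -/
noncomputable def K8 : Subgroup PC := Subgroup.closure {pc (ma ℂ), pc (mb wC)}

theorem rC_range : rC.range = K8 := by
  apply le_antisymm
  · rintro _ ⟨g, rfl⟩
    apply G.G8_mem rC K8
    · rw [rC_aa]; exact Subgroup.subset_closure (by simp)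
    · rw [rC_bb]; exact Subgroup.subset_closure (by simp)
  · unfold K8
    rw [Subgroup.closure_le]
    rintro _ (rfl | rfl)
    · exact ⟨aa, rC_aa⟩
    · exact ⟨bb, rC_bb⟩

/-- the isomorphism of the figure-eight knot group with the Kleinian group -/
noncomputable def kE : G8 ≃* K8 :=
  (MonoidHom.ofInjective rC_injective).trans (MulEquiv.subgroupCongr rC_range)

end Pool.Agent.F8
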