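import Pool.Agent.Lib.MP_305fdd_al.F8.G.End

/-!
# MP_305fdd_al, figure-eight project: the representation in `PSL₂(ℤ[ω])` is faithful, and the two
models of the group: the two-generator presentation and the subgroup of `PSL₂(ℂ)`.
-/

set_option autoImplicit false
set_option linter.unusedSimpArgs false

namespace Pool.Agent.F8.G

open scoped QuadraticAlgebra

theorem mb_mB : mb (om ℤ) * mB O = mB O * mU (om ℤ) := by
  apply SL_ext <;> decide

theorem mB_mB : mB O * mB O = -1 := by
  apply SL_ext <;> decide

/-- the representation of the figure-eight knot group in `PSL₂(ℤ[ω])` is faithful -/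
theorem rO_faithful (x : G8) (h : rO x = 1 ∨ rO x = -1) : x = 1 := by
  obtain ⟨f, fU, fJ, fB⟩ := pres (table relN)
  have fA : f (ma O) = pA nu nv na kk := by
    have := fU 1
    unfold ee at this
    rw [QuadraticAlgebra.re_one, QuadraticAlgebra.im_one, zpow_one, zpow_zero, mul_one] at this
    exact this
  have fW : f (mU (om ℤ)) = pU nu nv na kk := by
    rw [fU]
    unfold ee
    rw [om_re, om_im, zpow_one, zpow_zero, one_mul]
  have hB0 : ∀ y, f (mB O) (0, y) = (2, y) := by
    intro y
    rw [fB]
    show pB nu nv kk (0, y) = (2, y)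
    unfold pB
    rw [mkP_apply]
    show ((2 : Fin 6), (1 : N2) * y) = (2, y)
    rw [one_mul]
  have hB2 : ∀ y, f (mB O) (2, y) = (0, y) := by
    intro y
    rw [fB]
    show pB nu nv kk (2, y) = (0, y)
    unfold pB
    rw [mkP_apply]
    show ((0 : Fin 6), (1 : N2) * y) = (0, y)
    rw [one_mul]
  have hU2 : ∀ y, f (mU (om ℤ)) (2, y) = (2, nu * na * y) := by
    intro y
    rw [fW]
    show pU nu nv na kk (2, y) = _
    unfold pU
    rw [mkP_apply]
    rfl
  have hA0 : ∀ y, f (ma O) (0, y) = (0, na * y) := by
    intro y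
    rw [fA]
    show pA nu nv na kk (0, y) = _
    unfold pA
    rw [mkP_apply]
    rfl
  have hb0 : ∀ y, f (mb (om ℤ)) (0, y) = (0, nu * na * y) := by
    intro y
    have h1 := congrArg (fun g => f g (2, y)) mb_mB
    simp only [map_mul, Equiv.Perm.mul_apply] at h1
    rw [hB2, hU2, hB2] at h1
    exact h1
  let S : Subgroup G8 :=
    { carrier := {g | ∀ y, f (rO g) (0, y) = (0, i8 g * y)}
      one_mem' := by
        intro y
        rw [map_one, map_one, map_one, one_mul]; rfl
      mul_mem' := by
        intro g g' hg hg' y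
        rw [map_mul, map_mul, Equiv.Perm.mul_apply, hg', hg, map_mul, mul_assoc]
      inv_mem' := by
        intro g hg y
        apply (f (rO g)).injective
        rw [← Equiv.Perm.mul_apply, ← map_mul, ← map_mul, mul_inv_cancel, map_one, map_one, hg,
          map_inv, mul_inv_cancel_left]
        rfl }
  have hS : ∀ g : G8, g ∈ S := by
    intro g
    refine G8_mem (MonoidHom.id G8) S ?_ ?_ g
    · intro y
      show f (rO aa) (0, y) = _
      rw [rO_aa, hA0]; rfl
    · intro y
      show f (rO bb) (0, y) = _
      rw [show rO bb = mb (om ℤ) from rho8_bb _ _, hb0]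
      show _ = (0, i8 (uu * aa) * y)
      rw [map_mul]; rfl
  have h1 : f (rO x) (0, 1) = (0, 1) := by
    rcases h with h | h
    · rw [h, map_one]; rfl
    · rw [h, ← mB_mB, map_mul, Equiv.Perm.mul_apply, hB0, hB2]
  rw [hS x 1, mul_one] at h1
  have h2 : i8 x = 1 := (Prod.ext_iff.1 h1).2
  exact SemidirectProduct.inl_injective (h2.trans (map_one i8).symm)

end Pool.Agent.F8.G
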