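import Pool.Agent.Lib.MP_305fdd_al.F8.StmB

/-!
# MP_305fdd_al, figure-eight knot group: part C, matching, specialisation and limits

Every piece may use the statements named in its docstring as hypotheses.
-/

set_option autoImplicit false

namespace Pool.Agent.F8

open Pool.Agent.MP_305fdd_al Pool.Agent.Lib.MP_305fdd_al Pool.Agent.F2X
open scoped QuadraticAlgebra

/-! ### Matching -/

/-- [F8 mt] matching of affine representations.

Proof. The first two by naturality (`NatBij.nat`) for `Q2.tH : Q2 R →* Rˣ`, `Q2.mH`. `NC` and `Irr` only depend on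
the range of `Θ` (`NatBij.range_eq`): e.g. if `Q2.W (Θ g) (Θ h) ≠ 0` choose `l, l'` with `(Φ Θ) l = Θ g`,
`(Φ Θ) l' = Θ h`; `Irr`: `ρ (g h g⁻¹ h⁻¹)` is the commutator of `ρ g` and `ρ h`. For the converse directions the
same argument. -/
def S_mt : Prop := ∀ (G Λ : Type) [Group G] [Group Λ] (Φ : NatBij G Λ) (R : Type) [CommRing R]
  [Finite R] (Θ : G →* Q2 R),
  Q2.tH.comp (Φ.toFun _ Θ) = Φ.toFun _ (Q2.tH.comp Θ) ∧
  Q2.mH.comp (Φ.toFun _ Θ) = Φ.toFun _ (Q2.mH.comp Θ) ∧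
  (NC (Φ.toFun _ Θ) ↔ NC Θ) ∧ (Irr (Q2.mH.comp (Φ.toFun _ Θ)) ↔ Irr (Q2.mH.comp Θ))

/-- [F8 mp] matching of pairs: the pairs of values are the same.

Proof. `Φ (θ.prod θ') = (Φ θ).prod (Φ θ')` by naturality for `MonoidHom.fst`, `MonoidHom.snd`, and `range_eq` for
`θ.prod θ'`. -/
def S_mp : Prop := ∀ (G Λ : Type) [Group G] [Group Λ] (Φ : NatBij G Λ) (Q Q' : Type) [Group Q]
  [Finite Q] [Group Q'] [Finite Q'] (θ : G →* Q) (θ' : G →* Q'),
  (∀ g, ∃ l, Φ.toFun _ θ l = θ g ∧ Φ.toFun _ θ' l = θ' g) ∧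
  (∀ l, ∃ g, Φ.toFun _ θ l = θ g ∧ Φ.toFun _ θ' l = θ' g)

/-! ### Specialisation -/

/-- the data `Θ` over `K` are defined over a subring `R` with a homomorphism to `k` which does not
kill the nonzero ones among the `x j` -/
def Spc (K k : Type) [Field K] [Field k] {Λ : Type} [Group Λ] {n m : ℕ}
    (Θ : Fin n → (Λ →* Q2 K)) (x : Fin m → K) : Prop :=
  ∃ (R : Subring K) (π : R →+* k) (Θ' : Fin n → (Λ →* Q2 R)),
    (∀ i, (Q2.map R.subtype).comp (Θ' i) = Θ i) ∧ (∀ j, x j ∈ R) ∧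
    ∀ j (h : x j ∈ R), x j ≠ 0 → π ⟨x j, h⟩ ≠ 0

/-- [F8 des] descent to a finitely generated ring.

Proof. Let `s` be a finite generating set of `Λ` closed under inverses (or use generators and their inverses).
`R` = the subring generated by the finitely many elements: entries of `(Θ i g).m`, `(Θ i g).v`, the scalars
`(Θ i g).t`, for `g ∈ s ∪ s⁻¹`, and `x j`, `(x j)⁻¹`. `{q : Q2 K | entries of q and of q⁻¹ lie in R}` is a
subgroup of `Q2 K`, equal to the range of the injective homomorphism `Q2.map R.subtype`; it contains `Θ i (Λ)`.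
So `Θ i` factors. `R = (Algebra.adjoin ℤ T).toSubring`, `T` finite: `Algebra.FiniteType`. -/
def S_des : Prop := ∀ (K : Type) [Field K] (Λ : Type) [Group Λ] [Group.FG Λ] (n m : ℕ)
  (Θ : Fin n → (Λ →* Q2 K)) (x : Fin m → K),
  ∃ (R : Subring K) (Θ' : Fin n → (Λ →* Q2 R)), Algebra.FiniteType ℤ R ∧
    (∀ i, (Q2.map R.subtype).comp (Θ' i) = Θ i) ∧ ∀ j, x j ∈ R ∧ (x j)⁻¹ ∈ R

/-- [F8 spf] specialisation to a finite field. (Uses `S_des`.)

Proof. Take `R` from `S_des`, `𝔪` a maximal ideal of `R`, `k = R ⧸ 𝔪`, finite: `finite_of_finiteType` in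
`Lib/MP_305fdd_al/Rep/Krull.lean` (a field which is finitely generated as a ring is finite). If `x j ≠ 0` then
`⟨x j⟩ * ⟨(x j)⁻¹⟩ = 1` in `R`, so `π (x j) ≠ 0`. (The type of `k` is `↥R ⧸ 𝔪 : Type`.) -/
def S_spf : Prop := ∀ (K : Type) [Field K] (Λ : Type) [Group Λ] [Group.FG Λ] (n m : ℕ)
  (Θ : Fin n → (Λ →* Q2 K)) (x : Fin m → K),
  ∃ (k : Type) (_ : Field k) (_ : Finite k), Spc K k Θ x

/-- [F8 spq] specialisation to the algebraic closure of `ℚ`. (Uses `S_des`.)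

Proof. Take `R` from `S_des`; `R` is a domain of characteristic zero, finitely generated over `ℤ`.
`A = ` the subalgebra `Algebra.adjoin ℚ R` of `K`, or the localisation of `R` at the nonzero integers: a
nonzero finitely generated `ℚ`-algebra. For a maximal ideal `𝔪` of `A` the field `A ⧸ 𝔪` is a finite extension of
`ℚ` (Nullstellensatz: `finite_of_finite_type_of_isJacobsonRing ℚ (A ⧸ 𝔪)`), so it embeds into
`AlgebraicClosure ℚ` (`IsAlgClosed.lift`). Compose `R → A → A ⧸ 𝔪 → AlgebraicClosure ℚ`. As in `S_spf` units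
go to units. -/
def S_spq : Prop := ∀ (K : Type) [Field K] [CharZero K] (Λ : Type) [Group Λ] [Group.FG Λ] (n m : ℕ)
  (Θ : Fin n → (Λ →* Q2 K)) (x : Fin m → K), Spc K (AlgebraicClosure ℚ) Θ x

/-- there are `N` different exceptional values -/
def Good1 {Λ : Type} [Group Λ] (n : Λ →* Multiplicative ℤ) (k : Type) [Field k] (N : ℕ) : Prop :=
  ∃ τ : Fin N → kˣ, Function.Injective τ ∧ ∀ i, P1 n k (τ i)

/-- there are `N` affine representations with `P2` and pairwise different characters -/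
def Good2 {Λ : Type} [Group Λ] (n : Λ →* Multiplicative ℤ) (k : Type) [Field k] (N : ℕ) : Prop :=
  ∃ Θ : Fin N → (Λ →* Q2 k), (∀ i, P2 n k (Θ i)) ∧ ∀ i j, i ≠ j → ∃ g, ch (Θ i) g ≠ ch (Θ j) g

/-- [F8 s1] specialisation of `Good1`. (Uses `S_wm`.)

Proof. Given `τ` and `Θ i` as in `P1`, witnesses `g i, h i, c i` with `Q2.W (Θ i (g i)) (Θ i (h i)) (c i) ≠ 0`. Let `x` consist
of all these `W`-values, all `τ i - τ j` and `2` (as one family `Fin m → K`, e.g. via
`Finite.exists_equiv_fin` / `Fintype.equivFin` of a sum type). Given `R, π, Θ'` put `Θ'' i = (Q2.map π).comp (Θ' i)`. Let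
`l₀` be an element with `n l₀ = ofAdd 1` (`n` is onto),
`t i = (Θ' i l₀).t : Rˣ`; it maps to `τ i` in `Kˣ`, and `Rˣ → Kˣ` is injective, so
`Q2.tH.comp (Θ' i) = (pw (t i)).comp n`. `τ' i = Units.map π (t i)`. `mH.comp (Θ' i) = 1` because
`SL2 R → SL2 K` is injective. `NC`: `S_wm` for `R.subtype` (so the `W`-value of `Θ'` is the element
`⟨x j, _⟩` of `R`) and for `π`. Injectivity: `t i - t j` is the element `⟨τ i - τ j, _⟩`, nonzero under `π`. -/
def S_s1 : Prop := ∀ (K : Type) [Field K] (Λ : Type) [Group Λ]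
  (n : Λ →* Multiplicative ℤ) (N : ℕ), (2 : K) ≠ 0 → Function.Surjective n → Good1 n K N →
  ∃ (m : ℕ) (Θ : Fin N → (Λ →* Q2 K)) (x : Fin m → K), ∀ (k : Type) [Field k],
    Spc K k Θ x → (2 : k) ≠ 0 ∧ Good1 n k N

/-- [F8 s2] specialisation of `Good2`. (Uses `S_wm`.)

Proof. As `S_s1`: `x` consists of `2`, the `W`-values, the values `tr (ρ_i (g h g⁻¹ h⁻¹)) - 2` at witnesses of `Irr`, and
the differences `ch (Θ i) g - ch (Θ j) g` at witnesses. The scalar part as in `S_s1`; the equation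
`τ² = 4 τ - 1` holds in `R` by injectivity and then in `k`. `tr_map`. -/
def S_s2 : Prop := ∀ (K : Type) [Field K] (Λ : Type) [Group Λ]
  (n : Λ →* Multiplicative ℤ) (N : ℕ), (2 : K) ≠ 0 → Function.Surjective n → Good2 n K N →
  ∃ (m : ℕ) (Θ : Fin N → (Λ →* Q2 K)) (x : Fin m → K), ∀ (k : Type) [Field k],
    Spc K k Θ x → (2 : k) ≠ 0 ∧ Good2 n k N

/-- [F8 q1] the versions used. (Uses `S_spf`, `S_spq`, `S_s1`, `S_s2`; immediate.) -/
def S_q1 : Prop := ∀ (K : Type) [Field K] [CharZero K] (Λ : Type) [Group Λ] [Group.FG Λ]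
  (n : Λ →* Multiplicative ℤ) (N : ℕ), Function.Surjective n →
  (Good1 n K N → (∃ (k : Type) (_ : Field k) (_ : Finite k), (2 : k) ≠ 0 ∧ Good1 n k N) ∧
    Good1 n (AlgebraicClosure ℚ) N) ∧
  (Good2 n K N → (∃ (k : Type) (_ : Field k) (_ : Finite k), (2 : k) ≠ 0 ∧ Good2 n k N) ∧
    Good2 n (AlgebraicClosure ℚ) N)

/-! ### Abelianisation -/

/-- [F8 ab8] the abelianisation of `G8`.

Proof. For `f : G8 →* A`, `A` commutative: `f (aa uu aa⁻¹) = f uu` and `aa_uu` give `f uu = f uu ^ 2 * f uu * (f vv)⁻¹`, i.e.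
`f vv = f uu ^ 2`; `aa_vv` gives `f vv = f uu`. So `f uu = f vv = 1`, `f` is trivial on `inl F`, and
`g = inl w * inr n`, `n8 g = n`. -/
def S_ab8 : Prop := IsAb n8

/-- [F8 abL] the abelianisation of `Λ`.

Proof. `same_ab`, `exists_free_prod`, `ix_eq`, ... in `Lib/MP_305fdd_al/Solv/Abel.lean` (there for `ℤ²`; the same proof
for `ℤ` = `Abelianization G8` by `S_ab8`): the finitely generated abelian group `Abelianization Λ` has the same
finite quotients as `ℤ`, so it is isomorphic to `Multiplicative ℤ`. `n` = the composition;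
`n.ker = commutator Λ ≤ f.ker`. -/
def S_abL : Prop := ∀ (Λ : Type) [Group Λ] [Group.FG Λ], SameFiniteQuotients Λ G8 →
  ∃ n : Λ →* Multiplicative ℤ, IsAb n

/-- [F8 pwl] homomorphisms to commutative groups.

Proof. `f` factors through `n` (`IsAb`), a homomorphism `Multiplicative ℤ →* A` is `pw` of the image of `ofAdd 1`. -/
def S_pwl : Prop := ∀ (Λ : Type) [Group Λ] (n : Λ →* Multiplicative ℤ), IsAb n →
  ∀ (A : Type) [CommGroup A] (f : Λ →* A), ∃ a : A, f = (pw a).comp n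

/-- [F8 ex] existence of the exponents. (Uses `S_ab8`, `S_pwl`.)

Proof. `f = Φ ((redZ m).comp n8) : Λ → ℤ/m` is `(pw a).comp n`, `a = ofAdd (e : ZMod m)`, i.e. `(redZ m).comp ((zpowGroupHom e).comp n)`.
`f` is onto (`range_eq`), so `e` is a unit modulo `m`. -/
def S_ex : Prop := ∀ (Λ : Type) [Group Λ] (Φ : NatBij G8 Λ) (n : Λ →* Multiplicative ℤ), IsAb n →
  ∀ (m : ℕ) [NeZero m], ∃ e : ℤ, Ex Φ n m e ∧ IsCoprime e (m : ℤ)

/-- [F8 exd] compatibility of the exponents. (Naturality for `ZMod m' → ZMod m`; `n` is onto.) -/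
def S_exd : Prop := ∀ (Λ : Type) [Group Λ] (Φ : NatBij G8 Λ) (n : Λ →* Multiplicative ℤ),
  Function.Surjective n → ∀ (m m' : ℕ) [NeZero m] [NeZero m'] (e e' : ℤ), m ∣ m' →
  Ex Φ n m e → Ex Φ n m' e' → (m : ℤ) ∣ e - e'

/-- [F8 exu] characters with values in any finite group.

Proof. Naturality for `Multiplicative (ZMod m) → A`, `1 ↦ a` (defined because `a ^ m = 1`, e.g. `zmodCyclic..`/
`ZMod.lift`). -/
def S_exu : Prop := ∀ (Λ : Type) [Group Λ] (Φ : NatBij G8 Λ) (n : Λ →* Multiplicative ℤ) (m : ℕ)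
  [NeZero m] (e : ℤ), Ex Φ n m e → ∀ (A : Type) [Group A] [Finite A] (a : A), a ^ m = 1 →
  Φ.toFun A ((pw a).comp n8) = (pw (a ^ e)).comp n

/-! ### At most two -/

/-- [F8 m1] matching of `Good1`. (Uses `S_mt`, `S_ab8`, `S_pwl`.)

Proof. `Θ i` for `τ i` as in `P1 n k`; `Θ'' i = Φ.invFun _ (Θ i)` (so `Φ (Θ'' i) = Θ i`). By `S_mt` `NC (Θ'' i)`,
`Φ (mH.comp (Θ'' i)) = 1 = Φ 1` so `mH.comp (Θ'' i) = 1` (`NatBij.injective`, `NatBij.one`), and
`Φ (tH.comp (Θ'' i)) = (pw (τ i)).comp n`. `tH.comp (Θ'' i) = (pw (s i)).comp n8` by `S_pwl` for `G8`. If `s i = s j` then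
`(pw (τ i)).comp n = (pw (τ j)).comp n`, so `τ i = τ j`. -/
def S_m1 : Prop := ∀ (Λ : Type) [Group Λ] (Φ : NatBij G8 Λ) (n : Λ →* Multiplicative ℤ),
  Function.Surjective n → ∀ (k : Type) [Field k] [Finite k] (N : ℕ), Good1 n k N → Good1 n8 k N

/-- [F8 m2] matching of `Good2`. (Uses `S_mt`, `S_mp`, `S_exu`.)

Proof. As `S_m1`: `Θ'' i = Φ.invFun _ (Θ i)`. The scalar part: `τ = τ i` has a finite order dividing
`m = Nat.card kˣ`; `Φ ((pw τ).comp n8) = (pw τ).comp n = Φ (tH.comp (Θ'' i))`, so `tH.comp (Θ'' i) = (pw τ).comp n8`. Different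
characters: `S_mp` for the pair `(Θ'' i, Θ'' j)`. -/
def S_m2 : Prop := ∀ (Λ : Type) [Group Λ] (Φ : NatBij G8 Λ) (n : Λ →* Multiplicative ℤ),
  (∀ (m : ℕ) [NeZero m], Ex Φ n m 1) → ∀ (k : Type) [Field k] [Finite k] (N : ℕ),
  Good2 n k N → Good2 n8 k N

/-- [F8 u1] at most two exceptional values in characteristic zero. (Uses `S_q1`, `S_m1`, `S_B1`.)

Proof. Otherwise there are a finite field `k` with `Good1 n k 3`, so `Good1 n8 k 3`, and by `S_B1` three different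
roots of `X² - 3 X + 1` in `k`. -/
def S_u1 : Prop := ∀ (Λ : Type) [Group Λ] [Group.FG Λ] (_ : NatBij G8 Λ)
  (n : Λ →* Multiplicative ℤ), Function.Surjective n → ∀ (K : Type) [Field K] [CharZero K],
  ¬ Good1 n K 3

/-- [F8 u2] at most two characters with `P2` in characteristic zero. (Uses `S_q1`, `S_m2`, `S_G2`.) -/
def S_u2 : Prop := ∀ (Λ : Type) [Group Λ] [Group.FG Λ] (Φ : NatBij G8 Λ)
  (n : Λ →* Multiplicative ℤ), Function.Surjective n →
  (∀ (m : ℕ) [NeZero m], Ex Φ n m 1) → ∀ (K : Type) [Field K] [CharZero K], ¬ Good2 n K 3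

/-! ### Limits -/

/-- `R` is the limit of the rings `Rk k` along the transition maps `p k` -/
def IsLim (R : Type) [CommRing R] (Rk : ℕ → Type) [∀ k, CommRing (Rk k)] (π : ∀ k, R →+* Rk k)
    (p : ∀ k, Rk (k + 1) →+* Rk k) : Prop :=
  (∀ k, (p k).comp (π (k + 1)) = π k) ∧
    ∀ x : (∀ k, Rk k), (∀ k, p k (x (k + 1)) = x k) → ∃! y, ∀ k, π k y = x k

/-- the transition maps of the `p`-adic integers -/
def tz (p k : ℕ) : ZMod (p ^ (k + 1)) →+* ZMod (p ^ k) :=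
  ZMod.castHom (pow_dvd_pow p (Nat.le_succ k)) (ZMod (p ^ k))

/-- [F8 lz] `ℤ_p` is a limit.

Proof. Mathlib: `PadicInt.zmod_cast_comp_toZModPow`, `PadicInt.ext_of_toZModPow`, existence: lift `x k` to integers
`a k` with `a (k+1) = a k` modulo `p ^ k`, a Cauchy sequence; its limit (`PadicInt` is complete), or
`PadicInt.lift` applied to a suitable ring, or `PadicInt.ofIntSeq`, see Mathlib
`NumberTheory/Padics/RingHoms.lean` and `AdicCompletion`-type lemmas. -/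
def S_lz : Prop := ∀ (p : ℕ) [Fact p.Prime],
  IsLim ℤ_[p] (fun k => ZMod (p ^ k)) (fun k => PadicInt.toZModPow k) (fun k => tz p k)

/-- [F8 lq] limits and `Qd`: coordinatewise. -/
def S_lq : Prop := ∀ (q : ℤ) (R : Type) [CommRing R] (Rk : ℕ → Type) [∀ k, CommRing (Rk k)]
  (π : ∀ k, R →+* Rk k) (p : ∀ k, Rk (k + 1) →+* Rk k), IsLim R Rk π p →
  IsLim (Qd q R) (fun k => Qd q (Rk k)) (fun k => Qd.map q (π k)) (fun k => Qd.map q (p k))

/-- [F8 lh] limits of homomorphisms to the affine groups.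

Proof. For `g : G` the entries of `(Θ k g).m`, the entries of `(Θ k g).v`, `(Θ k g).t` and `(Θ k g).t⁻¹` are compatible
families; take the limits. The identities (determinant, `t t⁻¹ = 1`, multiplicativity) hold by
uniqueness of limits. -/
def S_lh : Prop := ∀ (R : Type) [CommRing R] (Rk : ℕ → Type) [∀ k, CommRing (Rk k)]
  (π : ∀ k, R →+* Rk k) (p : ∀ k, Rk (k + 1) →+* Rk k), IsLim R Rk π p →
  ∀ (G : Type) [Group G] (Θ : ∀ k, G →* Q2 (Rk k)),
  (∀ k, (Q2.map (p k)).comp (Θ (k + 1)) = Θ k) →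
  ∃ Θ' : G →* Q2 R, ∀ k, (Q2.map (π k)).comp Θ' = Θ k

instance finQA {R : Type} [CommRing R] [Finite R] (a b : R) : Finite (QuadraticAlgebra R a b) :=
  Finite.of_equiv _ (QuadraticAlgebra.equivProd a b).symm

instance nzpk (p k : ℕ) [Fact p.Prime] : NeZero (p ^ k) :=
  ⟨pow_ne_zero k (Fact.out (p := p.Prime)).ne_zero⟩

/-- `R[ω][θ]`, `θ² = 4 θ - 1` -/
abbrev E4 (R : Type) [CommRing R] : Type := Qd 4 (Es R)

/-- base change for `E4` -/
abbrev E4m {R S : Type} [CommRing R] [CommRing S] (f : R →+* S) : E4 R →+* E4 S :=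
  Qd.map 4 (Qd.map (-1) f)

/-- `ω ∈ E4 R` -/
def w4 (R : Type) [CommRing R] : E4 R := ⟨om R, 0⟩

theorem w4_eq (R : Type) [CommRing R] : w4 R * w4 R + w4 R + 1 = 0 := by
  have h := om_sq R
  ext <;> simp [w4, th]

theorem thu_eq4 (R : Type) [CommRing R] :
    (thu 4 R).val * (thu 4 R).val = 4 * (thu 4 R).val - 1 := by
  rw [thu_val, th_sq]; norm_num

theorem thu_eq3 (R : Type) [CommRing R] :
    (thu 3 R).val * (thu 3 R).val = 3 * (thu 3 R).val - 1 := by
  rw [thu_val, th_sq]; norm_num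

theorem om_eq (R : Type) [CommRing R] : om R * om R + om R + 1 = 0 := om_sq R

/-- the tautological one-dimensional affine representation over `R[θ]`, `θ² = 3 θ - 1` -/
def T1 (R : Type) [CommRing R] : G8 →* Q2 (Qd 3 R) := Th1 (thu 3 R) (thu_eq3 R)

/-- the tautological two-dimensional affine representation over `E4 R` -/
def T2 (R : Type) [CommRing R] : G8 →* Q2 (E4 R) :=
  Th0 (w4 R) (w4_eq R) (thu 4 (Es R)) (thu_eq4 (Es R))

/-- the tautological representation over `Es R` -/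
def r8 (R : Type) [CommRing R] : G8 →* SL2 (Es R) := rho8 (om R) (om_eq R)

/-- [F8 mT] functoriality of the tautological representations (`map_Th1`, `map_Th0`, `map_rho8`, `Qd.map_th`),
and the matrix part of `T2` comes from `r8` via the inclusion `Es R → E4 R`, `x ↦ ⟨x, 0⟩`
(`algebraMap`; use `map_rho8` for this inclusion). -/
def S_mT : Prop := ∀ (R S : Type) [CommRing R] [CommRing S] (f : R →+* S),
  (Q2.map (Qd.map 3 f)).comp (T1 R) = T1 S ∧ (Q2.map (E4m f)).comp (T2 R) = T2 S ∧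
  (SLm (Qd.map (-1) f)).comp (r8 R) = r8 S ∧
  Q2.mH.comp (T2 R) = (SLm (algebraMap (Es R) (E4 R))).comp (r8 R)

/-- [F8 L1] the limit of the matched `T1`. (Uses `S_lz`, `S_lq`, `S_lh`, `S_mT`.)

Proof. `Θ k = Φ (T1 (ZMod (p ^ k)))`; compatible by naturality and `S_mT`. (`NeZero (p ^ k)`, `Finite`.) -/
def S_L1 : Prop := ∀ (Λ : Type) [Group Λ] (Φ : NatBij G8 Λ) (p : ℕ) [Fact p.Prime],
  ∃ Θ : Λ →* Q2 (Qd 3 ℤ_[p]), ∀ k : ℕ,
    (Q2.map (Qd.map 3 (PadicInt.toZModPow k))).comp Θ = Φ.toFun _ (T1 (ZMod (p ^ k)))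

/-- [F8 L2] the limit of the matched `T2` and `r8`. (Uses `S_lz`, `S_lq`, `S_lh`, `S_mT`.)

Proof. `Θ` as in `S_L1`. The matrix part: `Φ (mH.comp (T2 (ZMod (p ^ k)))) = (SLm algebraMap).comp (Φ (r8 ..))` has entries with
vanishing second coordinate for all `k`, so the entries of `(Θ l).m` are in the image of `Es ℤ_[p]`
(uniqueness of limits), which gives `r`. -/
def S_L2 : Prop := ∀ (Λ : Type) [Group Λ] (Φ : NatBij G8 Λ) (p : ℕ) [Fact p.Prime],
  ∃ (Θ : Λ →* Q2 (E4 ℤ_[p])) (r : Λ →* SL2 (Es ℤ_[p])),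
    Q2.mH.comp Θ = (SLm (algebraMap (Es ℤ_[p]) (E4 ℤ_[p]))).comp r ∧
    (∀ k : ℕ,
      (Q2.map (E4m (PadicInt.toZModPow k))).comp Θ = Φ.toFun _ (T2 (ZMod (p ^ k)))) ∧
    ∀ k : ℕ,
      (SLm (Qd.map (-1) (PadicInt.toZModPow k))).comp r = Φ.toFun _ (r8 (ZMod (p ^ k)))

end Pool.Agent.F8
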