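import Pool.Agent.Lib.MP_305fdd_al.F8.BundlesX
import Pool.Agent.Lib.MP_305fdd_al.F8.D1.X.Main

/-!
# MP_305fdd_al: the groups of the arithmetic once-punctured torus bundles and their overgroups
-/

set_option autoImplicit false

namespace Pool.Agent.F8.D1

open Pool.Agent.MP_305fdd_al Pool.Agent.Lib.MP_305fdd_al Pool.Agent.F2X Pool.Agent.F8
  Pool.Agent.F8.HN Pool.Agent.F8.AB Pool.Agent.F8.OV

/-- the groups `GA (al1 ^ n)`, `n ≥ 1`, are profinitely rigid -/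
theorem rig1 : S_rig1 := rig1X p_X1

/-- the overgroups of the groups `GA (al1 ^ n)` -/
theorem over1 (Γ : Type) [Group Γ] (N : Subgroup Γ) (n : ℕ) (hn : 0 < n)
    (hN : N.Normal) (hi : N.FiniteIndex) (e : Nonempty (N ≃* GA (al1 ^ n)))
    (hK : ∀ K : Subgroup Γ, K.Normal → Finite K → K = ⊥) : ProfinitelyRigid Γ :=
  over1X p_X1 Γ N n hn hN hi e hK

end Pool.Agent.F8.D1

namespace Pool.Agent.F8.AB

open Pool.Agent.MP_305fdd_al Pool.Agent.Lib.MP_305fdd_al Pool.Agent.F2X Pool.Agent.F8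
  Pool.Agent.F8.HN Pool.Agent.F8.OV

/-- the matrix of `α ^ n` is conjugate to `C ^ n` -/
theorem bundle_ex (α : MulAut F) (C : Matrix (Fin 2) (Fin 2) ℤ) (Z : GL (Fin 2) ℤ)
    (hZ : Z.val * C = (AM α).val * Z.val) (n : ℕ) :
    ∃ X : GL (Fin 2) ℤ, X.val * (AM (α ^ n)).val = C ^ n * X.val := by
  refine ⟨Z⁻¹, ?_⟩
  have h1 : Z⁻¹.val * (AM α).val = C * Z⁻¹.val := by
    have h2 : Z⁻¹.val * (Z.val * C) * Z⁻¹.val = Z⁻¹.val * ((AM α).val * Z.val) * Z⁻¹.val := by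
      rw [hZ]
    rw [← mul_assoc, ← Units.val_mul, inv_mul_cancel, Units.val_one, one_mul] at h2
    rw [h2, mul_assoc, mul_assoc, ← Units.val_mul Z, mul_inv_cancel, Units.val_one, mul_one]
  rw [map_pow, Units.val_pow_eq_pow_val]
  induction n with
  | zero => simp
  | succ m ih => rw [pow_succ, ← mul_assoc, ih, mul_assoc, h1, ← mul_assoc, ← pow_succ]

/-- the groups of the arithmetic once-punctured torus bundles and their overgroups -/
theorem bundles (C : Matrix (Fin 2) (Fin 2) ℤ)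
    (hC : C = !![2, 1; 1, 1] ∨ C = !![3, 2; 1, 1] ∨ C = !![5, 2; 2, 1])
    (β : MulAut F) (k n : ℕ) (hk : 0 < k) (hn : 0 < n) (X : GL (Fin 2) ℤ)
    (hX : X.val * (AM β).val ^ k = C ^ n * X.val) (Γ : Type)
    [Group Γ] (N : Subgroup Γ) (hN : N.Normal) (hi : N.FiniteIndex) (e : N ≃* GA β)
    (hK : ∀ K : Subgroup Γ, K.Normal → Finite K → K = ⊥) : ProfinitelyRigid Γ :=
  bundlesX D1.p_X1 C hC β k n hk hn X hX Γ N hN hi e hK

end Pool.Agent.F8.AB
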