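import Pool.Agent.Lib.MP_305fdd_al.F8.D7.Model
import Pool.Agent.Lib.MP_305fdd_al.F8.D1.Model

/-!
# MP_305fdd_al: the groups of the arithmetic once-punctured torus bundles and their overgroups
-/

set_option autoImplicit false

namespace Pool.Agent.F8.AB

open Pool.Agent.MP_305fdd_al Pool.Agent.Lib.MP_305fdd_al Pool.Agent.F2X Pool.Agent.F8
  Pool.Agent.F8.HN Pool.Agent.F8.OV

/-- the matrix `[[-1, -1], [0, 1]]` -/
def ZZ : GL (Fin 2) ℤ := ⟨!![-1, -1; 0, 1], !![-1, -1; 0, 1], by decide, by decide⟩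

/-- the statement for one monodromy -/
theorem bundle_of (α : MulAut F) (hα : ∀ n : ℕ, 0 < n → Hyp (AM (α ^ n))) (hO : Ovr α)
    (C : Matrix (Fin 2) (Fin 2) ℤ) (Z : GL (Fin 2) ℤ) (hZ : Z.val * C = (AM α).val * Z.val)
    (β : MulAut F) (n k : ℕ) (hn : 0 < n) (hk : 0 < k) (X : GL (Fin 2) ℤ)
    (hX : X.val * (AM β).val ^ k = C ^ n * X.val) (Γ : Type)
    [Group Γ] (N : Subgroup Γ) (hN : N.Normal) (hi : N.FiniteIndex) (e : N ≃* GA β)
    (hK : ∀ K : Subgroup Γ, K.Normal → Finite K → K = ⊥) : ProfinitelyRigid Γ := by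
  refine over_gen α hα hO β n k hn hk (Z * X) ?_ Γ N hN hi e hK
  have hZn : ∀ m : ℕ, Z.val * C ^ m = (AM α).val ^ m * Z.val := by
    intro m
    induction m with
    | zero => simp
    | succ m ih => rw [pow_succ, ← mul_assoc, ih, mul_assoc, hZ, ← mul_assoc, ← pow_succ]
  rw [mul_inv_eq_iff_eq_mul]
  apply Units.ext
  rw [Units.val_mul, Units.val_mul, Units.val_mul, Units.val_pow_eq_pow_val,
    Units.val_pow_eq_pow_val, mul_assoc, hX, ← mul_assoc, hZn, mul_assoc, ← Units.val_mul]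

theorem hyp3' (n : ℕ) (hn : 0 < n) : Hyp (AM (phi ^ n)) := by
  rw [map_pow]
  exact (all_pw _ p_hy.1).2.1 n hn

/-- the groups of the arithmetic once-punctured torus bundles and their overgroups -/
theorem bundlesX (hX1 : D1.S_X1) (C : Matrix (Fin 2) (Fin 2) ℤ)
    (hC : C = !![2, 1; 1, 1] ∨ C = !![3, 2; 1, 1] ∨ C = !![5, 2; 2, 1])
    (β : MulAut F) (k n : ℕ) (hk : 0 < k) (hn : 0 < n) (X : GL (Fin 2) ℤ)
    (hX : X.val * (AM β).val ^ k = C ^ n * X.val) (Γ : Type)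
    [Group Γ] (N : Subgroup Γ) (hN : N.Normal) (hi : N.FiniteIndex) (e : N ≃* GA β)
    (hK : ∀ K : Subgroup Γ, K.Normal → Finite K → K = ⊥) : ProfinitelyRigid Γ := by
  rcases hC with rfl | rfl | rfl
  · exact bundle_of phi hyp3' (fun Γ _ N n hn hN hi e hK => rigid_over Γ N n hn hN hi e hK) _ ZZ
      (by rw [AM_phi]; decide) β n k hn hk X hX Γ N hN hi e hK
  · exact bundle_of D7.al7 D7.hyp7' (fun Γ _ N n hn hN hi e hK => D7.over7 Γ N n hn hN hi e hK) _ ZZ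
      (by rw [D7.AM_al7]; decide) β n k hn hk X hX Γ N hN hi e hK
  · exact bundle_of D1.al1 D1.hyp1'
      (fun Γ _ N n hn hN hi e hK => D1.over1X hX1 Γ N n hn hN hi e hK) _ ZZ
      (by rw [D1.AM_al1]; decide) β n k hn hk X hX Γ N hN hi e hK

end Pool.Agent.F8.AB
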