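import Pool.Agent.Lib.MP_305fdd_al.F2X.Defs

/-!
# MP_305fdd_al: the figure-eight knot group is profinitely rigid. Definitions.

`G8 = F ⋊ ℤ` is the figure-eight knot group (fibre `F` free on `u, v`, `a u a⁻¹ = u v⁻¹ u²`,
`a v a⁻¹ = u`); `b = u a` is the second meridian. `O = ℤ[ω]`. `N2 = G8 ⋊ C₂`.
-/

set_option autoImplicit false

namespace Pool.Agent.F8

open Pool.Agent.MP_305fdd_al Pool.Agent.Lib.MP_305fdd_al Pool.Agent.F2X
open scoped QuadraticAlgebra

/-! ### Quadratic rings -/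

/-- `R[θ]` with `θ² = q θ - 1` (elements `⟨x, y⟩ = x + y θ`). -/
abbrev Qd (q : ℤ) (R : Type) [CommRing R] : Type := QuadraticAlgebra R (-1) (q : R)

/-- `R[ω]`, `ω² = - ω - 1` -/
abbrev Es (R : Type) [CommRing R] : Type := Qd (-1) R

/-- the ring of Eisenstein integers -/
abbrev O : Type := Es ℤ

/-- the generator -/
def th (q : ℤ) (R : Type) [CommRing R] : Qd q R := ⟨0, 1⟩

/-- base change -/
def Qd.map (q : ℤ) {R S : Type} [CommRing R] [CommRing S] (f : R →+* S) : Qd q R →+* Qd q S where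
  toFun z := ⟨f z.re, f z.im⟩
  map_one' := by ext <;> simp
  map_zero' := by ext <;> simp
  map_add' x y := by ext <;> simp
  map_mul' x y := by ext <;> simp

theorem Qd.map_apply (q : ℤ) {R S : Type} [CommRing R] [CommRing S] (f : R →+* S) (z : Qd q R) :
    Qd.map q f z = ⟨f z.re, f z.im⟩ := rfl

theorem Qd.map_th (q : ℤ) {R S : Type} [CommRing R] [CommRing S] (f : R →+* S) :
    Qd.map q f (th q R) = th q S := by
  rw [Qd.map_apply]; unfold th; simp

theorem th_sq (q : ℤ) (R : Type) [CommRing R] :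
    th q R * th q R = (q : Qd q R) * th q R - 1 := by
  ext <;> simp [th]

/-- the generator is a unit of norm one -/
def thu (q : ℤ) (R : Type) [CommRing R] : (Qd q R)ˣ where
  val := th q R
  inv := (q : Qd q R) - th q R
  val_inv := by ext <;> simp [th]
  inv_val := by ext <;> simp [th]

theorem thu_val (q : ℤ) (R : Type) [CommRing R] : (thu q R).val = th q R := rfl

/-- evaluation at a root -/
def Qd.ev (q : ℤ) {R S : Type} [CommRing R] [CommRing S] (f : R →+* S) (t : S)
    (ht : t * t = (q : S) * t - 1) : Qd q R →+* S where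
  toFun z := f z.re + f z.im * t
  map_one' := by simp
  map_zero' := by simp
  map_add' x y := by simp; ring
  map_mul' x y := by
    simp only [QuadraticAlgebra.re_mul, QuadraticAlgebra.im_mul, map_add, map_mul, map_neg,
      map_one, map_intCast]
    linear_combination (-f x.im * f y.im) * ht

theorem Qd.ev_apply (q : ℤ) {R S : Type} [CommRing R] [CommRing S] (f : R →+* S) (t : S)
    (ht : t * t = (q : S) * t - 1) (z : Qd q R) : Qd.ev q f t ht z = f z.re + f z.im * t := rfl

/-! ### The group `SL₂` -/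

/-- `SL₂(R)` -/
abbrev SL2 (R : Type) [CommRing R] : Type := Matrix.SpecialLinearGroup (Fin 2) R

/-- the trace -/
def tr {R : Type} [CommRing R] (g : SL2 R) : R := g.val.trace

theorem tr_eq {R : Type} [CommRing R] (g : SL2 R) : tr g = g.val 0 0 + g.val 1 1 :=
  Matrix.trace_fin_two _

/-- base change -/
abbrev SLm {R S : Type} [CommRing R] [CommRing S] (f : R →+* S) : SL2 R →* SL2 S :=
  Matrix.SpecialLinearGroup.map f

theorem tr_map {R S : Type} [CommRing R] [CommRing S] (f : R →+* S) (g : SL2 R) :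
    tr (SLm f g) = f (tr g) := by
  rw [tr_eq, tr_eq, map_add]; rfl

/-- irreducibility, in the form `tr [g, h] ≠ 2` for some `g, h` -/
def Irr {G R : Type} [Group G] [CommRing R] (ρ : G →* SL2 R) : Prop :=
  ∃ g h : G, tr (ρ (g * h * g⁻¹ * h⁻¹)) ≠ 2

/-- `a = [[1, 1], [0, 1]]` -/
def ma (R : Type) [CommRing R] : SL2 R := ⟨!![1, 1; 0, 1], by simp [Matrix.det_fin_two]⟩

/-- `b = [[1, 0], [-w, 1]]` -/
def mb {R : Type} [CommRing R] (w : R) : SL2 R := ⟨!![1, 0; -w, 1], by simp [Matrix.det_fin_two]⟩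

/-- `U = [[1, w], [0, 1]]` -/
def mU {R : Type} [CommRing R] (w : R) : SL2 R := ⟨!![1, w; 0, 1], by simp [Matrix.det_fin_two]⟩

/-- `B = [[0, -1], [1, 0]]` -/
def mB (R : Type) [CommRing R] : SL2 R := ⟨!![0, -1; 1, 0], by simp [Matrix.det_fin_two]⟩

/-- `ω ∈ R[ω]` -/
abbrev om (R : Type) [CommRing R] : Es R := th (-1) R

theorem om_sq (R : Type) [CommRing R] : om R * om R + om R + 1 = 0 := by
  ext <;> simp [th]

/-- `J = diag(ω, ω²)` -/
def mJ (R : Type) [CommRing R] : SL2 (Es R) :=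
  ⟨!![om R, 0; 0, om R * om R], by
    rw [Matrix.det_fin_two]; ext <;> simp [th]⟩

/-- `k = [[0, ω], [-ω², 0]]` -/
def mk2 (R : Type) [CommRing R] : SL2 (Es R) :=
  ⟨!![0, om R; -(om R * om R), 0], by
    rw [Matrix.det_fin_two]; ext <;> simp [th]⟩

/-! ### The figure-eight knot group -/

/-- the monodromy: `u ↦ u v⁻¹ u²`, `v ↦ u` -/
def phi : MulAut F := mkA (ga * gb⁻¹ * ga * ga) ga gb (gb * gb * ga⁻¹ * gb)
  (by simp) (by simp [mul_assoc]) (by simp [mul_assoc]) (by simp)

@[simp] theorem phi_ga : phi ga = ga * gb⁻¹ * ga * ga := by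
  unfold phi; rw [mkA_apply, lf_ga]
@[simp] theorem phi_gb : phi gb = ga := by
  unfold phi; rw [mkA_apply, lf_gb]

/-- the action of `ℤ` -/
def phZ : Multiplicative ℤ →* MulAut F := zpowersHom (MulAut F) phi

/-- the figure-eight knot group -/
abbrev G8 : Type := F ⋊[phZ] Multiplicative ℤ

/-- the meridian `a` -/
def aa : G8 := SemidirectProduct.inr (Multiplicative.ofAdd 1)
/-- `u` -/
def uu : G8 := SemidirectProduct.inl ga
/-- `v` -/
def vv : G8 := SemidirectProduct.inl gb
/-- the meridian `b = u a` -/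
def bb : G8 := uu * aa

/-- the abelianisation -/
def n8 : G8 →* Multiplicative ℤ := SemidirectProduct.rightHom

theorem aa_conj (w : F) : aa * SemidirectProduct.inl w * aa⁻¹ =
    (SemidirectProduct.inl (phi w) : G8) := by
  unfold aa
  rw [← map_inv, ← SemidirectProduct.inl_aut]
  congr 1

theorem aa_uu : aa * uu * aa⁻¹ = uu * vv⁻¹ * uu * uu := by
  unfold uu vv
  rw [aa_conj, phi_ga]; simp

theorem aa_vv : aa * vv * aa⁻¹ = uu := by
  unfold uu vv
  rw [aa_conj, phi_gb]

theorem n8_aa : n8 aa = Multiplicative.ofAdd 1 := rfl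
theorem n8_uu : n8 uu = 1 := rfl
theorem n8_vv : n8 vv = 1 := rfl
theorem n8_inl (w : F) : n8 (SemidirectProduct.inl w) = 1 := rfl
theorem n8_bb : n8 bb = Multiplicative.ofAdd 1 := rfl

section lift8

variable {Q : Type} [Group Q] (x y s : Q)

/-- the homomorphism `F → Q`, `u ↦ x`, `v ↦ y` -/
def liF : F →* Q := FreeGroup.lift ![x, y]

@[simp] theorem liF_ga : liF x y ga = x := by
  unfold liF; rw [FreeGroup.lift_apply_of]; rfl
@[simp] theorem liF_gb : liF x y gb = y := by
  unfold liF; rw [FreeGroup.lift_apply_of]; rfl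

theorem liF_phi (h1 : s * x * s⁻¹ = x * y⁻¹ * x * x) (h2 : s * y * s⁻¹ = x) (w : F) :
    liF x y (phi w) = s * liF x y w * s⁻¹ := by
  have h : (liF x y).comp phi.toMonoidHom = (MulAut.conj s).toMonoidHom.comp (liF x y) := by
    apply hom_ext
    · show liF x y (phi ga) = s * liF x y ga * s⁻¹
      rw [phi_ga, liF_ga, h1]; simp
    · show liF x y (phi gb) = s * liF x y gb * s⁻¹
      rw [phi_gb, liF_ga, liF_gb, h2]
  exact DFunLike.congr_fun h w

theorem liF_phZ (h1 : s * x * s⁻¹ = x * y⁻¹ * x * x) (h2 : s * y * s⁻¹ = x)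
    (g : Multiplicative ℤ) : (liF x y).comp (phZ g).toMonoidHom =
      (MulAut.conj (zpowersHom Q s g)).toMonoidHom.comp (liF x y) := by
  have hi : ∀ w : F, liF x y (phi⁻¹ w) = s⁻¹ * liF x y w * s := by
    intro w
    have := liF_phi x y s h1 h2 (phi⁻¹ w)
    rw [MulAut.apply_inv_self] at this
    rw [this]; group
  have h : ∀ (n : ℤ) (w : F), liF x y ((phi ^ n) w) = s ^ n * liF x y w * (s ^ n)⁻¹ := by
    intro n
    induction n using Int.induction_on with
    | zero => intro w; simp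
    | succ i ih =>
      intro w
      rw [zpow_add_one, MulAut.mul_apply, ih, liF_phi x y s h1 h2, zpow_add_one]; group
    | pred i ih =>
      intro w
      rw [zpow_sub_one, MulAut.mul_apply, ih, hi, zpow_sub_one]; group
  ext w
  · exact h (Multiplicative.toAdd g) _

/-- the universal property of the figure-eight knot group -/
def lift8 (h1 : s * x * s⁻¹ = x * y⁻¹ * x * x) (h2 : s * y * s⁻¹ = x) : G8 →* Q :=
  SemidirectProduct.lift (liF x y) (zpowersHom Q s) (liF_phZ x y s h1 h2)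

variable {x y s} (h1 : s * x * s⁻¹ = x * y⁻¹ * x * x) (h2 : s * y * s⁻¹ = x)

theorem lift8_inl (w : F) : lift8 x y s h1 h2 (SemidirectProduct.inl w) = liF x y w :=
  SemidirectProduct.lift_inl _ _ _ w

theorem lift8_aa : lift8 x y s h1 h2 aa = s := by
  unfold aa lift8
  rw [SemidirectProduct.lift_inr, zpowersHom_apply]; simp

theorem lift8_uu : lift8 x y s h1 h2 uu = x := by
  unfold uu; rw [lift8_inl, liF_ga]

theorem lift8_vv : lift8 x y s h1 h2 vv = y := by
  unfold vv; rw [lift8_inl, liF_gb]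

theorem lift8_bb : lift8 x y s h1 h2 bb = x * s := by
  unfold bb; rw [map_mul, lift8_uu, lift8_aa]

end lift8

/-- homomorphisms on `G8` are determined by their values on `u, v, a` -/
theorem hom8_ext {Q : Type} [Group Q] {f g : G8 →* Q} (hu : f uu = g uu) (hv : f vv = g vv)
    (ha : f aa = g aa) : f = g := by
  apply SemidirectProduct.hom_ext
  · exact hom_ext hu hv
  · ext
    exact ha

theorem vv_eq : vv = aa⁻¹ * bb := by
  unfold bb
  rw [← aa_vv]; group

theorem uu_eq : uu = bb * aa⁻¹ := by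
  unfold bb; group

/-- homomorphisms on `G8` are determined by their values on `a, b` -/
theorem hom8_ext' {Q : Type} [Group Q] {f g : G8 →* Q} (ha : f aa = g aa) (hb : f bb = g bb) :
    f = g := by
  apply hom8_ext
  · rw [uu_eq, map_mul, map_mul, map_inv, map_inv, ha, hb]
  · rw [vv_eq, map_mul, map_mul, map_inv, map_inv, ha, hb]
  · exact ha

/-- the relation between the two meridians -/
theorem ab_rel : aa * bb * aa⁻¹ = bb * aa⁻¹ * bb⁻¹ * aa * bb * aa⁻¹ * bb := by
  have h := aa_uu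
  rw [vv_eq, uu_eq] at h
  calc aa * bb * aa⁻¹ = aa * (bb * aa⁻¹) * aa⁻¹ * aa := by group
    _ = bb * aa⁻¹ * (aa⁻¹ * bb)⁻¹ * (bb * aa⁻¹) * (bb * aa⁻¹) * aa := by rw [h]
    _ = _ := by group

/-- the representation given by a root `w` of `w² + w + 1` -/
def rho8 {R : Type} [CommRing R] (w : R) (hw : w * w + w + 1 = 0) : G8 →* SL2 R :=
  lift8 (mb w * (ma R)⁻¹) ((ma R)⁻¹ * mb w) (ma R)
    (by
      apply Subtype.ext
      simp only [ma, mb, Matrix.SpecialLinearGroup.coe_mul, Matrix.SpecialLinearGroup.coe_inv,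
        Matrix.adjugate_fin_two_of, Matrix.mul_fin_two, mul_inv_rev]
      ext i j
      fin_cases i <;> fin_cases j <;> simp
      · linear_combination (-w) * hw
      · linear_combination (1 + w) * hw
      · linear_combination (w + w * w) * hw
      · linear_combination (-w * (2 + w)) * hw)
    (by group)

theorem rho8_aa {R : Type} [CommRing R] (w : R) (hw : w * w + w + 1 = 0) :
    rho8 w hw aa = ma R := lift8_aa _ _

theorem rho8_bb {R : Type} [CommRing R] (w : R) (hw : w * w + w + 1 = 0) :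
    rho8 w hw bb = mb w := by
  unfold rho8; rw [lift8_bb]; group

/-! ### The group `N2 = G8 ⋊ C₂` -/

/-- `u ↦ u⁻¹`, `v ↦ v⁻¹`, `a ↦ u a`, as an endomorphism -/
def kap0 : G8 →* G8 := lift8 uu⁻¹ vv⁻¹ (uu * aa)
  (by
    have h := aa_uu
    have h' : aa * uu⁻¹ * aa⁻¹ = (uu * vv⁻¹ * uu * uu)⁻¹ := by rw [← h]; group
    calc uu * aa * uu⁻¹ * (uu * aa)⁻¹ = uu * (aa * uu⁻¹ * aa⁻¹) * uu⁻¹ := by group
      _ = _ := by rw [h']; group)
  (by
    have h' : aa * vv⁻¹ * aa⁻¹ = uu⁻¹ := by rw [← aa_vv]; group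
    calc uu * aa * vv⁻¹ * (uu * aa)⁻¹ = uu * (aa * vv⁻¹ * aa⁻¹) * uu⁻¹ := by group
      _ = _ := by rw [h']; group)

theorem kap0_uu : kap0 uu = uu⁻¹ := lift8_uu _ _
theorem kap0_vv : kap0 vv = vv⁻¹ := lift8_vv _ _
theorem kap0_aa : kap0 aa = uu * aa := lift8_aa _ _
theorem kap0_kap0 : kap0.comp kap0 = MonoidHom.id G8 := by
  apply hom8_ext
  · show kap0 (kap0 uu) = uu
    rw [kap0_uu, map_inv, kap0_uu, inv_inv]
  · show kap0 (kap0 vv) = vv
    rw [kap0_vv, map_inv, kap0_vv, inv_inv]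
  · show kap0 (kap0 aa) = aa
    rw [kap0_aa, map_mul, kap0_uu, kap0_aa, inv_mul_cancel_left]

/-- the automorphism `κ` -/
def kap : MulAut G8 := MonoidHom.toMulEquiv kap0 kap0 kap0_kap0 kap0_kap0

theorem kap_apply (g : G8) : kap g = kap0 g := rfl

theorem kap_mul_kap : kap * kap = 1 := by
  ext1 g
  exact DFunLike.congr_fun kap0_kap0 g

/-- the action of `C₂` -/
def kapZ : Multiplicative (ZMod 2) →* MulAut G8 where
  toFun e := if Multiplicative.toAdd e = 0 then 1 else kap
  map_one' := by simp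
  map_mul' x y := by
    rw [toAdd_mul]
    generalize Multiplicative.toAdd x = i
    generalize Multiplicative.toAdd y = j
    fin_cases i <;> fin_cases j
    · rfl
    · exact (one_mul _).symm
    · exact (mul_one _).symm
    · exact kap_mul_kap.symm

/-- `N2 = G8 ⋊ C₂ = (C₂ * C₂ * C₂) ⋊ ℤ` -/
abbrev N2 : Type := G8 ⋊[kapZ] Multiplicative (ZMod 2)

/-- the inclusion of the figure-eight knot group -/
abbrev i8 : G8 →* N2 := SemidirectProduct.inl

/-- the involution `k` -/
def kk : N2 := SemidirectProduct.inr (Multiplicative.ofAdd 1)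

theorem kk_sq : kk * kk = 1 := by
  unfold kk; rw [← map_mul]; rfl

theorem kk_conj (g : G8) : kk * i8 g * kk⁻¹ = i8 (kap g) := by
  unfold kk
  rw [← map_inv, ← SemidirectProduct.inl_aut]
  rfl

theorem n8_kap (g : G8) : n8 (kap g) = n8 g := by
  have h : n8.comp kap0 = n8 := by
    apply hom8_ext
    · show n8 (kap0 uu) = n8 uu
      rw [kap0_uu, map_inv, n8_uu, inv_one]
    · show n8 (kap0 vv) = n8 vv
      rw [kap0_vv, map_inv, n8_vv, inv_one]
    · show n8 (kap0 aa) = n8 aa
      rw [kap0_aa, map_mul, n8_uu, one_mul]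
  exact DFunLike.congr_fun h g

theorem n8_kapZ (e : Multiplicative (ZMod 2)) (g : G8) : n8 (kapZ e g) = n8 g := by
  show n8 ((if Multiplicative.toAdd e = 0 then 1 else kap : MulAut G8) g) = n8 g
  split_ifs
  · rfl
  · exact n8_kap g

/-- the exponent of `a` -/
def nu2 : N2 →* Multiplicative ℤ := SemidirectProduct.lift n8 1 (by
  intro e
  ext1 g
  show n8 (kapZ e g) = 1 * n8 g * 1⁻¹
  rw [n8_kapZ, one_mul, inv_one, mul_one])

theorem nu2_i8 (g : G8) : nu2 (i8 g) = n8 g := SemidirectProduct.lift_inl _ _ _ g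
theorem nu2_kk : nu2 kk = 1 := SemidirectProduct.lift_inr _ _ _ _

/-- the parity -/
def ep2 : N2 →* Multiplicative (ZMod 2) := SemidirectProduct.rightHom

/-- an element of `N2` with trivial `ep2` and `nu2` lies in `F` -/
theorem mem_F (x : N2) (h1 : ep2 x = 1) (h2 : nu2 x = 1) :
    ∃ w : F, x = i8 (SemidirectProduct.inl w) := by
  obtain ⟨⟨w, n⟩, e⟩ := x
  have he : e = 1 := h1
  subst he
  have hx : (⟨⟨w, n⟩, 1⟩ : N2) = i8 ⟨w, n⟩ := rfl
  rw [hx, nu2_i8] at h2
  have hn : n = 1 := h2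
  subst hn
  exact ⟨w, rfl⟩

/-! ### The subgroup `Npre` of `SL₂(O)` and the character modulo `√-3` -/

/-- reduction modulo `2` -/
def r2 : SL2 O →* SL2 (Es (ZMod 2)) := SLm (Qd.map (-1) (Int.castRingHom (ZMod 2)))

/-- the dihedral group of order `10` in `SL₂(𝔽₄)` generated by the images of `a` and `b` -/
def D5 : Subgroup (SL2 (Es (ZMod 2))) := Subgroup.closure {ma _, mb (om (ZMod 2))}

/-- the subgroup of elements of `SL₂(O)` whose reduction modulo `2` lies in `D5` -/
def Npre : Subgroup (SL2 O) := D5.comap r2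

/-- reduction modulo `√-3`: `ω ↦ 1` -/
def r3 : SL2 O →* SL2 (ZMod 3) := SLm (Qd.ev (-1) (Int.castRingHom (ZMod 3)) 1 (by decide))

/-- the homomorphism `SL₂(𝔽₃) → ℤ/3` -/
def chi3 : SL2 (ZMod 3) →* Multiplicative (ZMod 3) where
  toFun g := Multiplicative.ofAdd ((g.val 0 0 + g.val 1 1) * g.val 1 0 -
    g.val 0 1 * g.val 1 1 * (g.val 1 0 * g.val 1 0 - 1))
  map_one' := by simp
  map_mul' x y := by
    obtain ⟨x, hx⟩ := x
    obtain ⟨y, hy⟩ := y
    rw [Matrix.det_fin_two] at hx hy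
    simp only [Matrix.SpecialLinearGroup.coe_mul, Matrix.mul_apply, Fin.sum_univ_two,
      ← ofAdd_add]
    congr 1
    generalize x 0 0 = a at *
    generalize x 0 1 = b at *
    generalize x 1 0 = c at *
    generalize x 1 1 = d at *
    generalize y 0 0 = a' at *
    generalize y 0 1 = b' at *
    generalize y 1 0 = c' at *
    generalize y 1 1 = d' at *
    revert hx hy
    revert a b c d a' b' c' d'
    decide

/-- the reduction `Multiplicative ℤ → Multiplicative (ZMod m)` -/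
def redZ (m : ℕ) : Multiplicative ℤ →* Multiplicative (ZMod m) :=
  AddMonoidHom.toMultiplicative (Int.castRingHom (ZMod m)).toAddMonoidHom

theorem redZ_ofAdd (m : ℕ) (n : ℤ) :
    redZ m (Multiplicative.ofAdd n) = Multiplicative.ofAdd (n : ZMod m) := rfl

/-! ### The affine groups -/

/-- `(t, m, v)`: the affine transformation `x ↦ t m x + v` of `R²`, with `t ∈ Rˣ`, `m ∈ SL₂(R)` -/
@[ext]
structure Q2 (R : Type) [CommRing R] where
  /-- the scalar -/
  t : Rˣ
  /-- the matrix -/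
  m : SL2 R
  /-- the translation -/
  v : Fin 2 → R

namespace Q2

variable {R S : Type} [CommRing R] [CommRing S]

instance : Mul (Q2 R) := ⟨fun x y => ⟨x.t * y.t, x.m * y.m, x.v + x.t.val • x.m.val.mulVec y.v⟩⟩
instance : One (Q2 R) := ⟨⟨1, 1, 0⟩⟩
instance : Inv (Q2 R) := ⟨fun x => ⟨x.t⁻¹, x.m⁻¹, -((x.t⁻¹).val • (x.m⁻¹).val.mulVec x.v)⟩⟩

@[simp] theorem mul_t (x y : Q2 R) : (x * y).t = x.t * y.t := rfl
@[simp] theorem mul_m (x y : Q2 R) : (x * y).m = x.m * y.m := rfl
@[simp] theorem mul_v (x y : Q2 R) : (x * y).v = x.v + x.t.val • x.m.val.mulVec y.v := rfl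
@[simp] theorem one_t : (1 : Q2 R).t = 1 := rfl
@[simp] theorem one_m : (1 : Q2 R).m = 1 := rfl
@[simp] theorem one_v : (1 : Q2 R).v = 0 := rfl
@[simp] theorem inv_t (x : Q2 R) : (x⁻¹).t = x.t⁻¹ := rfl
@[simp] theorem inv_m (x : Q2 R) : (x⁻¹).m = x.m⁻¹ := rfl
@[simp] theorem inv_v (x : Q2 R) :
    (x⁻¹).v = -((x.t⁻¹).val • (x.m⁻¹).val.mulVec x.v) := rfl

instance : Group (Q2 R) := Group.ofLeftAxioms
  (by
    intro x y z
    apply Q2.ext
    · exact mul_assoc _ _ _
    · exact mul_assoc _ _ _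
    · simp only [mul_t, mul_m, mul_v, Units.val_mul, Matrix.SpecialLinearGroup.coe_mul,
        Matrix.mulVec_add, Matrix.mulVec_smul, smul_add, smul_smul, Matrix.mulVec_mulVec, add_assoc])
  (by
    intro x
    apply Q2.ext
    · exact one_mul _
    · exact one_mul _
    · simp)
  (by
    intro x
    apply Q2.ext
    · exact inv_mul_cancel _
    · exact inv_mul_cancel _
    · simp)

/-- the scalar part -/
def tH : Q2 R →* Rˣ := ⟨⟨Q2.t, rfl⟩, fun _ _ => rfl⟩
/-- the matrix part -/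
def mH : Q2 R →* SL2 R := ⟨⟨Q2.m, rfl⟩, fun _ _ => rfl⟩

theorem tH_apply (x : Q2 R) : tH x = x.t := rfl
theorem mH_apply (x : Q2 R) : mH x = x.m := rfl

instance [Finite R] : Finite (Q2 R) := by
  have h : Function.Injective (fun x : Q2 R => (x.t, x.m, x.v)) := by
    intro x y h
    simp only [Prod.mk.injEq] at h
    exact Q2.ext h.1 h.2.1 h.2.2
  exact Finite.of_injective _ h

/-- base change -/
def map (f : R →+* S) : Q2 R →* Q2 S where
  toFun x := ⟨Units.map f.toMonoidHom x.t, SLm f x.m, fun i => f (x.v i)⟩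
  map_one' := by
    apply Q2.ext
    · simp
    · simp
    · ext i; simp
  map_mul' x y := by
    apply Q2.ext
    · simp
    · simp
    · ext i
      simp only [mul_v, Pi.add_apply, Pi.smul_apply, smul_eq_mul, map_add, map_mul,
        Matrix.mulVec, dotProduct, map_sum]
      rfl

@[simp] theorem map_t (f : R →+* S) (x : Q2 R) : (map f x).t = Units.map f.toMonoidHom x.t := rfl
@[simp] theorem map_m (f : R →+* S) (x : Q2 R) : (map f x).m = SLm f x.m := rfl
@[simp] theorem map_v (f : R →+* S) (x : Q2 R) (i : Fin 2) : (map f x).v i = f (x.v i) := rfl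

/-- the matrix `t m - 1` -/
def X (x : Q2 R) : Matrix (Fin 2) (Fin 2) R := x.t.val • x.m.val - 1

/-- the obstruction to being a coboundary: `det (X x) v_y - X_y adj (X x) v_x` -/
def W (x y : Q2 R) : Fin 2 → R :=
  (X x).det • y.v - (X y).mulVec ((X x).adjugate.mulVec x.v)

end Q2

/-- the homomorphism `Θ : G → Q2 R` is not a coboundary -/
def NC {G R : Type} [Group G] [CommRing R] (Θ : G →* Q2 R) : Prop :=
  ∃ g h : G, Q2.W (Θ g) (Θ h) ≠ 0

end Pool.Agent.F8
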