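import Pool.Agent.Lib.MP_305fdd_al.F8.Defs

/-!
# MP_305fdd_al: the figure-eight knot group is profinitely rigid. Block H: the conclusion.

Let `Λ` be in the genus of `G8`, `Φ : NatBij G8 Λ`, `nL : Λ → ℤ` the abelianisation of `Λ`, compatible
with `Φ` and with `n8`. MAIN RESULT (`S_H`): if there are a representation `ρ : Λ → SL₂(O)` whose traces
reduce modulo `2` and modulo `3` to the traces of the corresponding representations of `Λ`, and a
homomorphism `Ψ : Npre → N2` which is injective modulo `±1`, then `Λ ≃ G8`.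

Part 1 (`S_sec`): it is enough to have a homomorphism `h : nL.ker → F` with non-cyclic image whose
kernel is normal in `Λ`. Part 2 (`S_fst`): construction of `h` from `ρ` and `Ψ`.

Every piece may use the statements named in its docstring as hypotheses. Definitions and basic
lemmas: `F8/Defs.lean`, `F2X/Defs.lean`.
-/

set_option autoImplicit false

namespace Pool.Agent.F8.H

open Pool.Agent.MP_305fdd_al Pool.Agent.Lib.MP_305fdd_al Pool.Agent.F2X Pool.Agent.F8
open scoped QuadraticAlgebra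

instance finite_Qd (q : ℤ) (R : Type) [CommRing R] [Finite R] : Finite (Qd q R) :=
  Finite.of_equiv (R × R) (QuadraticAlgebra.equivProd _ _).symm

/-- `n8` and `nL` correspond to each other modulo every `m > 0` -/
def Cmp {Λ : Type} [Group Λ] (Φ : NatBij G8 Λ) (nL : Λ →* Multiplicative ℤ) : Prop :=
  ∀ (m : ℕ) [NeZero m], Φ.toFun (Multiplicative (ZMod m)) ((redZ m).comp n8) = (redZ m).comp nL

/-! ## Part 1 -/

/-- [F8x cmp] corresponding homomorphisms to a finite group have the same values on the elements with a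
given exponent.

Proof. `m = Nat.card Q` (so `y ^ m = 1` for all `y ∈ Q`). Let `θ₁ = θ.prod ((redZ m).comp n8) : G8 → Q × ℤ/m`,
`θ₂ = (Φ θ).prod ((redZ m).comp nL)`; by `Φ.nat` for the two projections and `Cmp`, `Φ θ₁ = θ₂`, so the two
homomorphisms have the same range (`NatBij.range_eq`). If `n8 g = n`, `θ g = q`, there is `l` with
`Φ θ l = q` and `nL l = n` modulo `m`, so `nL l = n * z ^ m` with `z = ofAdd j`; let `nL l' = z` (`nL` is onto);
`l * l' ^ (-m)` is the element. Conversely the same with `n8` instead of `nL` (`n8` is onto: `n8_aa`). -/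
def S_cmp : Prop := ∀ (Λ : Type) [Group Λ] (Φ : NatBij G8 Λ) (nL : Λ →* Multiplicative ℤ),
    Function.Surjective nL → Cmp Φ nL → ∀ (Q : Type) [Group Q] [Finite Q] (θ : G8 →* Q) (q : Q)
    (n : Multiplicative ℤ), (∃ g, n8 g = n ∧ θ g = q) ↔ ∃ l, nL l = n ∧ Φ.toFun Q θ l = q

/-- [F8x hol] a homomorphism on the kernel which is equivariant for `l₀` extends to a homomorphism
to the holomorph.

Proof. `θ l = inl (g (l * l₀ ^ (-n))) * inr (τ ^ n)`, `n = toAdd (nL l)`. `g (l₀ ^ n x l₀ ^ (-n)) = τ ^ n (g x)`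
for all `n ∈ ℤ` (induction); then
`g (l l' l₀ ^ (-n-n')) = g (l l₀ ^ (-n)) * g (l₀ ^ n (l' l₀ ^ (-n')) l₀ ^ (-n))`. -/
def S_hol : Prop := ∀ (Λ N : Type) [Group Λ] [Group N] (nL : Λ →* Multiplicative ℤ) (l₀ : Λ),
    nL l₀ = Multiplicative.ofAdd 1 → ∀ (g : nL.ker →* N) (τ : MulAut N),
    (∀ x : nL.ker, g (MulAut.conjNormal l₀ x) = τ (g x)) →
    ∃ θ : Λ →* N ⋊[MonoidHom.id (MulAut N)] MulAut N,
      (∀ x : nL.ker, θ x = SemidirectProduct.inl (g x)) ∧ θ l₀ = SemidirectProduct.inr τ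

/-- [F8x tw] transfer of homomorphisms to finite groups from `nL.ker` to `F`. (Uses `S_cmp`, `S_hol`.)

Proof. `Q = N ⋊ Aut N` is finite; `θ` from `S_hol`, `θ' = Φ.invFun Q θ`, so `Φ θ' = θ`. For `w ∈ F` there is `x` with
`nL x = 1` and `θ x = θ' (inl w)` (`S_cmp`, `n8_inl`), so `θ' (inl w) = inl (g x)`; let `g' w = g x`, i.e.
`g' w = (θ' (inl w)).left`; a homomorphism because `θ' (inl w)` is in the range of `inl`. Conversely for
`x ∈ nL.ker` there is `γ ∈ G8` with `n8 γ = 1`, `θ' γ = θ x`, and `γ = inl w`. So the ranges agree. For `a`: there is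
`l` with `nL l = ofAdd 1` and `θ l = θ' aa`; `l = x * l₀`, `x ∈ nL.ker`, `θ' aa = inl (g x) * inr τ`; `y = g x`. Finally
`inl (g' (phi w)) = θ' (inl (phi w)) = θ' (aa * inl w * aa⁻¹)` (`aa_conj`). -/
def S_tw : Prop := ∀ (Λ : Type) [Group Λ] (Φ : NatBij G8 Λ) (nL : Λ →* Multiplicative ℤ),
    Function.Surjective nL → Cmp Φ nL → ∀ l₀ : Λ, nL l₀ = Multiplicative.ofAdd 1 →
    ∀ (N : Type) [Group N] [Finite N] (g : nL.ker →* N) (τ : MulAut N),
    (∀ x : nL.ker, g (MulAut.conjNormal l₀ x) = τ (g x)) →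
    ∃ (g' : F →* N) (y : N), g'.range = g.range ∧ y ∈ g.range ∧
      ∀ w, g' (phi w) = y * τ (g' w) * y⁻¹

/-- [F8x gn] the kernel is generated by the conjugates of finitely many elements under the powers of
`l₀`.

Proof. `Λ` is generated by a finite set `T`; `S` = the set of the `t * l₀ ^ (-toAdd (nL t))`, `t ∈ T`. Let `W` be
given. `{x * l₀ ^ n | x ∈ W, n ∈ ℤ}` is a subgroup of `Λ` which contains `T`, so it is `⊤`. If
`y ∈ nL.ker`, `y = x * l₀ ^ n`, then `n = 0`, `y = x ∈ W`. -/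
def S_gn : Prop := ∀ (Λ : Type) [Group Λ] (nL : Λ →* Multiplicative ℤ) (l₀ : Λ),
    nL l₀ = Multiplicative.ofAdd 1 → Group.FG Λ → ∃ S : Set nL.ker, S.Finite ∧
      ∀ W : Subgroup nL.ker, S ⊆ W → (∀ x, MulAut.conjNormal l₀ x ∈ W ↔ x ∈ W) → W = ⊤

/-- [F8x mod] a finitely generated module over `𝔽₂[t, t⁻¹]` whose finite quotients have at most `4`
elements.

Proof. `V` is a module over `R = LaurentPolynomial (ZMod 2)` (`V` is a `ZMod 2`-module because `v + v = 0`;
`T 1` acts as `t`; `AddMonoidAlgebra.lift` to `Module.End (ZMod 2) V`, `Module.compHom`), or work with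
`R` = a commutative subring of `AddMonoid.End V`; it is generated by `S`, so finitely generated. Let
`q = T³ + T + 1 ∈ R`. The quotient `A = V / q V` is a finitely generated module over `R / q` (the field with
`8` elements: `T` has finite order on `A` because `q` divides `T⁷ - 1`, so `A` is generated as an additive
group by the finitely many `T^i s`, `0 ≤ i < 7`, `s ∈ S`, and `A` is finite). So `|A| ≤ 4` by hypothesis. If
`A ≠ 0` let `0 ≠ v ∈ A`; the `8` elements `ε₀ v + ε₁ t v + ε₂ t² v` are different (`q` is irreducible over `𝔽₂`: for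
every non-zero `f = ε₀ + ε₁ T + ε₂ T²` there is `f'` with `f f' = 1` modulo `q`), contradiction. So `V = q V`, and by
Nakayama (`Submodule.exists_sub_one_mem_and_smul_eq_zero_of_fg_of_le_smul` for the ideal `(q)`) there is
`r ∈ R`, `r - 1 ∈ (q)`, `r V = 0`. `r ≠ 0` because `q` is not a unit. Multiply `r` by a power of `T`: there are `d` and
`c₀ = 1, c₁, .., c_d = 1` in `ZMod 2` with `∑ c_i t^i v = 0` for all `v`; so `V` is generated as an additive group by the
`t^i s`, `0 ≤ i < d`, `s ∈ S` (the group generated by them is stable under `t` and `t⁻¹`); so `V` is finite.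
The hypothesis for `A = V` gives `|V| ≤ 4`. -/
def S_mod : Prop := ∀ (V : Type) [AddCommGroup V] (t : V ≃+ V) (S : Set V), S.Finite →
    (∀ v : V, v + v = 0) →
    (∀ W : AddSubgroup V, S ⊆ W → (∀ x, t x ∈ W ↔ x ∈ W) → W = ⊤) →
    (∀ (A : Type) [AddCommGroup A] [Finite A] (τ : A ≃+ A) (g : V →+ A), Function.Surjective g →
      (∀ v, g (t v) = τ (g v)) → Nat.card A ≤ 4) →
    Finite V ∧ Nat.card V ≤ 4

/-- [F8x rk] the rank of a free group with an automorphism. (Uses `S_mod`.)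

Proof. Let `K` be the subgroup of `M` generated by all the squares; it is characteristic, `M ⧸ K` is a
commutative group of exponent `2`; `V = Additive (M ⧸ K)` with the automorphism induced by `t` and the
image of `S`. `S_mod` gives `|M ⧸ K| ≤ 4`. `M ≃ FreeGroup X`. If `X` had three different elements then there
would be a surjection `M → (ℤ/2)³` (`FreeGroup.lift`), which factors through `M ⧸ K`: contradiction. So `X` is
finite with `r ≤ 2` elements (`FreeGroup.freeGroupCongr`). -/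
def S_rk : Prop := ∀ (M : Type) [Group M] [IsFreeGroup M] (t : MulAut M) (S : Set M), S.Finite →
    (∀ W : Subgroup M, S ⊆ W → (∀ x, t x ∈ W ↔ x ∈ W) → W = ⊤) →
    (∀ (A : Type) [CommGroup A] [Finite A] (τ : MulAut A) (g : M →* A), Function.Surjective g →
      (∀ a : A, a * a = 1) → (∀ x, g (t x) = τ (g x)) → Nat.card A ≤ 4) →
    ∃ r : ℕ, r ≤ 2 ∧ Nonempty (M ≃* FreeGroup (Fin r))

/-- [F8x mat] the matrix of the monodromy. (Uses `S_tw` and `F2X.S_tr`.)

Proof. For every `m > 0`: let `N = Multiplicative (Fin 2 → ZMod m)`, `s : F → N` the reduction of `vec` modulo `m`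
(onto by `vec_surj`), `τ ∈ Aut N` the multiplication by `red m (AM ψ)`; `s (ψ w) = τ (s w)` (`AM_vec`). `S_tw` for
`s.comp g` gives `g' : F → N` onto with `g' (phi w) = τ (g' w)` (`N` is commutative). `g' w = Y (vec w)` modulo `m` for
the matrix `Y` with columns `g' ga, g' gb` (`hom_ext`); `Y` is invertible because `g'` is onto
(a surjective endomorphism of a finite set is bijective). `Y * red m (AM phi) = red m (AM ψ) * Y`. `F2X.S_tr`
gives `trace (AM ψ) = trace (AM phi) = 3`, `det = 1` (`amat_eq`, `phi_ga`, `phi_gb`: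
`AM phi = [[3, 1], [-1, 0]]`). -/
def S_mat : Prop := ∀ (Λ : Type) [Group Λ] (Φ : NatBij G8 Λ) (nL : Λ →* Multiplicative ℤ),
    Function.Surjective nL → Cmp Φ nL → ∀ l₀ : Λ, nL l₀ = Multiplicative.ofAdd 1 →
    ∀ (g : nL.ker →* F) (ψ : MulAut F), Function.Surjective g →
    (∀ x : nL.ker, g (MulAut.conjNormal l₀ x) = ψ (g x)) →
    (AM ψ).val.trace = 3 ∧ (AM ψ).val.det = 1

/-- [F8x cj] matrices of trace `3` and determinant `1` are conjugate in `GL₂(ℤ)`.

Proof. `A = [[p, q], [r, s]]`, `p + s = 3`, `p s - q r = 1`, so `(p - s)² + 4 q r = 5`; `q, r ≠ 0` (`5` is not a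
square). Induction on `|r|`. Conjugating by `[[1, n], [0, 1]]` changes `p - s` by `2 n r` and fixes `r`, so we may
assume `|p - s| ≤ |r|`. If `(p - s)² > 5` then `4 |q| |r| = (p - s)² - 5 < r²`, so `|q| < |r|`; conjugate by
`[[0, -1], [1, 0]]` (exchanges `q` and `r` up to sign), induction. If `(p - s)² ≤ 5` then `p - s` is odd, so `±1`, and
`q r = 1`: `r = ±1`. Conjugating by `diag(1, -1)`: `r = -1`; conjugating by `[[1, n], [0, 1]]`: `p = 3`, `s = 0`,
`q = 1`, and this is `AM phi` (`amat_eq`, `phi_ga`, `phi_gb`). -/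
def S_cj : Prop := ∀ A : GL (Fin 2) ℤ, A.val.trace = 3 → A.val.det = 1 →
    ∃ X : GL (Fin 2) ℤ, X * A = AM phi * X

/-- [F8x end] the end of the proof, from a surjection of the kernel onto `F`. (Uses `S_mat`, `S_cj`,
`F2X.S_sur`, `F2X.S_out`.)

Proof. `S_mat` and `S_cj` give `X` with `X * AM ψ = AM phi * X`, `X = AM α` (`S_sur`). Replace `g` by `α ∘ g` and `ψ` by
`α ψ α⁻¹`: so `AM ψ = AM phi`. `AM (ψ⁻¹ * phi) = 1`, so `phi = ψ * conj w` for some `w` (`S_out`); `w = g x`;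
replace `l₀` by `l₀ * x`: `g (l₀ x y x⁻¹ l₀⁻¹) = ψ (w (g y) w⁻¹) = phi (g y)`. So we may assume `ψ = phi`. Now
`π : Λ → G8`, `π l = inl (g (l * l₀ ^ (-n))) * aa ^ n`, `n = toAdd (nL l)`, is a homomorphism (as in `S_hol`;
or use `S_hol`-style lemma; `aa_conj`), onto because `g` is onto. `injective_of_surj` (Genus.lean). `G8` is
finitely generated by `uu, vv, aa`. -/
def S_end : Prop := ∀ (Λ : Type) [Group Λ] (Φ : NatBij G8 Λ) (nL : Λ →* Multiplicative ℤ),
    Group.FG Λ → Group.ResiduallyFinite Λ → SameFiniteQuotients Λ G8 →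
    Function.Surjective nL → Cmp Φ nL → ∀ l₀ : Λ, nL l₀ = Multiplicative.ofAdd 1 →
    ∀ (g : nL.ker →* F) (ψ : MulAut F), Function.Surjective g →
    (∀ x : nL.ker, g (MulAut.conjNormal l₀ x) = ψ (g x)) → Nonempty (Λ ≃* G8)

/-- [F8x sec] PART 1. (Uses `S_tw`, `S_gn`, `S_rk`, `S_end`.)

Proof. Choose `l₀` with `nL l₀ = ofAdd 1`. `M = h.range`, a subgroup of the free group `F`, so free
(`IsFreeGroup`, Nielsen-Schreier: `subgroupIsFreeOfIsFree`). Conjugation with `l₀` on `nL.ker` induces an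
automorphism `t` of `M`: `t (h x) = h (conjNormal l₀ x)`; well defined and injective because the kernel of `h`
is stable under conjugation with `l₀` and `l₀⁻¹`. The finite set from `S_gn` is mapped to a finite set
`S ⊆ M` with the property of `S_rk`. Let `A`, `τ`, `g : M → A` be as in the last hypothesis of `S_rk`; `S_tw` for
`g ∘ h : nL.ker → A` gives a surjection `g' : F → A`; `A` is commutative of exponent `2` and generated by
`g' ga`, `g' gb`, so `|A| ≤ 4` (every element is `(g' ga) ^ i * (g' gb) ^ j`, `0 ≤ i, j ≤ 1`). So `M ≃ FreeGroup (Fin r)`,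
`r ≤ 2`, and `r = 2` because `M` is not cyclic. `g : nL.ker → M ≃ F` is onto, `ψ` = the automorphism `t`
transported to `F`. `S_end`. -/
def S_sec : Prop := ∀ (Λ : Type) [Group Λ] (Φ : NatBij G8 Λ) (nL : Λ →* Multiplicative ℤ),
    Group.FG Λ → Group.ResiduallyFinite Λ → SameFiniteQuotients Λ G8 →
    Function.Surjective nL → Cmp Φ nL → ∀ h : nL.ker →* F,
    (∀ (l : Λ) (x : nL.ker), h x = 1 → h (MulAut.conjNormal l x) = 1) → ¬ IsCyclic h.range →
    Nonempty (Λ ≃* G8)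

/-! ## Part 2 -/

/-- [F8x bn] representations with the same traces are conjugate.

Proof. `s (g h g⁻¹ h⁻¹)` has trace `≠ 2`, so the same holds for `r`. (1) For `P, Q ∈ SL₂(K)` with
`tr (P Q P⁻¹ Q⁻¹) ≠ 2` the matrices `1, P, Q, P Q` are a basis of `M₂(K)`: the determinant of the `4 × 4` matrix of
their entries is `± det (P Q - Q P) = ± (2 - tr (P Q P⁻¹ Q⁻¹))`. (2) Write `r l = ∑ c_i r (l_i)`,
`l_i ∈ {1, g, h, g h}`. Then `tr (r (l l_j)) = ∑ c_i tr (r (l_i l_j))`, so the same for `s`, and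
`s l - ∑ c_i s (l_i)` is orthogonal to all `s (l_j)` for the trace form, which is non-degenerate, so
`s l = ∑ c_i s (l_i)`. So the linear map `T : M₂(K) → M₂(K)` with `T (r (l_i)) = s (l_i)` satisfies `T (r l) = s l` for
all `l`; it is bijective, and multiplicative because it is multiplicative on the `r l`. (3) An algebra
automorphism of `M₂(K)` is inner (`AlgEquiv.eq_linearEquivConjAlgEquiv` with `Matrix.toLinAlgEquiv'`; or
directly: choose `w` with `T (E₁₁) w ≠ 0`; the matrix `X` with the columns `T (E₁₁) w`, `T (E₂₁) w` satisfies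
`X A = T (A) X`, and it is invertible). -/
def S_bn : Prop := ∀ (G K : Type) [Group G] [Field K] (r s : G →* SL2 K),
    (∀ g, tr (r g) = tr (s g)) → Irr s →
    ∃ X : GL (Fin 2) K, ∀ g, X.val * (r g).val = (s g).val * X.val

/-- [F8x li] reduction modulo `2` is onto.

Proof. `Es (ZMod 2)` is the field `𝔽₄` (finite checks by `decide`, e.g. for every `c ≠ 0` there is `c'` with
`c c' = 1`). `[[a, b], [c, d]]` with `c ≠ 0` is
`[[1, (a - 1)/c], [0, 1]] [[1, 0], [c, 1]] [[1, (d - 1)/c], [0, 1]]`; if `c = 0` multiply by `[[1, 0], [1, 1]]`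
first. The elementary matrices `[[1, x], [0, 1]]`, `[[1, 0], [x, 1]]` are images of matrices of the same kind
(`Es ℤ → Es (ZMod 2)` is onto). -/
def S_li : Prop := Function.Surjective r2

/-- [F8x two] conjugation into `Npre`. (Uses `S_bn`, `S_li`.)

Proof. `Es (ZMod 2)` is a field (`QuadraticAlgebra` has a `Field` instance if there is no `r` with
`r ^ 2 = a + b r`; `decide`). `s = Φ (rho8 (om (ZMod 2)))` has the same range as `rho8 (om (ZMod 2))`
(`NatBij.range_eq`), and this is `D5` (`G8` is generated by `aa, bb`: `rho8_aa`, `rho8_bb`, `uu_eq`, `vv_eq`; only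
`range ≤ D5` is needed). `s` is irreducible: choose `l₁, l₂` with `s l₁ = ma`, `s l₂ = mb om`; the trace of
`[ma, mb ω]` is `2 + ω² ≠ 2`. `S_bn` gives `X` with `X (r2 (ρ l)) = (s l) X`. `det X = δ = ε²` (`ε = δ²` because
`δ³ = 1`, `δ⁴ = δ`), so `ε⁻¹ X` has determinant `1`; `S_li` gives `Y ∈ SL₂(O)` with `r2 Y = ε⁻¹ X`. Then
`r2 (Y ρ l Y⁻¹) = s l ∈ D5`. -/
def S_two : Prop := ∀ (Λ : Type) [Group Λ] (Φ : NatBij G8 Λ) (ρ : Λ →* SL2 O),
    (∀ l, Qd.map (-1) (Int.castRingHom (ZMod 2)) (tr (ρ l)) =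
      tr (Φ.toFun (SL2 (Es (ZMod 2))) (rho8 (om (ZMod 2)) (om_sq (ZMod 2))) l)) →
    ∃ Y : SL2 O, ∀ l, Y * ρ l * Y⁻¹ ∈ Npre

/-- [F8x three] the image modulo `√-3`. (Uses `S_bn`.)

Proof. Let `ev : Es (ZMod 3) → ZMod 3`, `ω ↦ 1` (`Qd.ev`), and `ev' : O → ZMod 3`, `ω ↦ 1` (the ring homomorphism in
`r3`), so `ev ∘ Qd.map = ev'` and `ev' ∘ star = ev'` (`star ω = -1 - ω ↦ -2 = 1`). By `Φ.nat` for `SLm ev`,
`s := Φ (rho8 (1 : ZMod 3) _) = SLm ev ∘ Φ (rho8 (om (ZMod 3)) _)`. Applying `ev` to the hypothesis gives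
`tr (r3 (ρ l)) = tr (s l)`. `s` has the same range as `rho8 1` (`NatBij.range_eq`), which contains
`ma = [[1, 1], [0, 1]]` and `mb 1 = [[1, 0], [-1, 1]]`, so it is `SL₂(𝔽₃)` (`24` elements; e.g. every element of
`SL₂(𝔽₃)` is a product of powers of these: `decide`, or as in `S_li`). `tr [ma, mb 1] = 2 + 1 = 0 ≠ 2`, so `s` is
irreducible, and `S_bn` gives `X` with `r3 (ρ l) = X⁻¹ (s l) X`; as `s` is onto, so is `r3 ∘ ρ` (for
`y ∈ SL₂(𝔽₃)` choose `l` with `s l = X y X⁻¹`, of determinant `1`). -/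
def S_three : Prop := ∀ (Λ : Type) [Group Λ] (Φ : NatBij G8 Λ) (ρ : Λ →* SL2 O) (σ : O → O),
    (σ = id ∨ σ = star) → (∀ l, Qd.map (-1) (Int.castRingHom (ZMod 3)) (σ (tr (ρ l))) =
      tr (Φ.toFun (SL2 (Es (ZMod 3))) (rho8 (om (ZMod 3)) (om_sq (ZMod 3))) l)) →
    Function.Surjective fun l => r3 (ρ l)

/-- [F8x fst] PART 2. (Uses `S_two`, `S_three`.)

Proof. Replace `ρ` by `Y ρ Y⁻¹` (`S_two`; `r3 ∘ ρ` stays onto). So `ρ : Λ → Npre`; `f = Ψ ∘ ρ : Λ → N2`. The
homomorphisms `ep2 ∘ f` and `nu2 ∘ f` to commutative groups are trivial on `nL.ker`, so by `mem_F` there is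
for every `x ∈ nL.ker` an `h x ∈ F` with `f x = i8 (inl (h x))`; it is unique (`inl` is injective), so `h` is a
homomorphism. `h x = 1` iff `f x = 1`, so the kernel is normal in `Λ`. Suppose that `h.range` is cyclic,
generated by `h z`. For `x ∈ nL.ker`, `h x = (h z) ^ k`, so `Ψ (ρ (x z ^ (-k))) = 1`, `ρ x = ± (ρ z) ^ k`. So
`r3 (ρ x)` and `r3 (ρ y)` commute for all `x, y ∈ nL.ker`. But the elements `i = [[0, -1], [1, 0]]` and
`j = [[1, 1], [1, -1]]` of `SL₂(𝔽₃)` are commutators (`decide`), `r3 ∘ ρ` is onto and commutators of elements of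
`Λ` lie in `nL.ker`, and `i j ≠ j i`: contradiction. -/
def S_fst : Prop := ∀ (Λ : Type) [Group Λ] (Φ : NatBij G8 Λ) (nL : Λ →* Multiplicative ℤ),
    (∀ (C : Type) [CommGroup C] (f : Λ →* C), nL.ker ≤ f.ker) →
    ∀ (ρ : Λ →* SL2 O) (σ : O → O), (σ = id ∨ σ = star) →
    (∀ l, Qd.map (-1) (Int.castRingHom (ZMod 2)) (tr (ρ l)) =
      tr (Φ.toFun (SL2 (Es (ZMod 2))) (rho8 (om (ZMod 2)) (om_sq (ZMod 2))) l)) →
    (∀ l, Qd.map (-1) (Int.castRingHom (ZMod 3)) (σ (tr (ρ l))) =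
      tr (Φ.toFun (SL2 (Es (ZMod 3))) (rho8 (om (ZMod 3)) (om_sq (ZMod 3))) l)) →
    ∀ Ψ : Npre →* N2, (∀ x : Npre, Ψ x = 1 → x.val.val = 1 ∨ x.val.val = -1) →
    ∃ h : nL.ker →* F, (∀ (l : Λ) (x : nL.ker), h x = 1 → h (MulAut.conjNormal l x) = 1) ∧
      ¬ IsCyclic h.range

/-- [F8x H] BLOCK H. (Uses `S_sec`, `S_fst`.) -/
def S_H : Prop := ∀ (Λ : Type) [Group Λ] (Φ : NatBij G8 Λ) (nL : Λ →* Multiplicative ℤ),
    Group.FG Λ → Group.ResiduallyFinite Λ → SameFiniteQuotients Λ G8 →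
    Function.Surjective nL → (∀ (C : Type) [CommGroup C] (f : Λ →* C), nL.ker ≤ f.ker) →
    Cmp Φ nL → ∀ (ρ : Λ →* SL2 O) (σ : O → O), (σ = id ∨ σ = star) →
    (∀ l, Qd.map (-1) (Int.castRingHom (ZMod 2)) (tr (ρ l)) =
      tr (Φ.toFun (SL2 (Es (ZMod 2))) (rho8 (om (ZMod 2)) (om_sq (ZMod 2))) l)) →
    (∀ l, Qd.map (-1) (Int.castRingHom (ZMod 3)) (σ (tr (ρ l))) =
      tr (Φ.toFun (SL2 (Es (ZMod 3))) (rho8 (om (ZMod 3)) (om_sq (ZMod 3))) l)) →
    ∀ Ψ : Npre →* N2, (∀ x : Npre, Ψ x = 1 → x.val.val = 1 ∨ x.val.val = -1) →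
    Nonempty (Λ ≃* G8)

theorem p_H (h1 : S_sec) (h2 : S_fst) : S_H := by
  intro Λ _ Φ nL hfg hrf hs hsur hcomm hcmp ρ σ hσ ht2 ht3 Ψ hΨ
  obtain ⟨h, hn, hc⟩ := h2 Λ Φ nL hcomm ρ σ hσ ht2 ht3 Ψ hΨ
  exact h1 Λ Φ nL hfg hrf hs hsur hcmp h hn hc

end Pool.Agent.F8.H
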