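import Pool.Agent.Lib.MP_305fdd_al.F8.MainH
import Pool.Agent.Lib.MP_305fdd_al.F8.P.cmpA
import Pool.Agent.Lib.MP_305fdd_al.F8.P.G2h
import Pool.Agent.Lib.MP_305fdd_al.F8.P.matA
import Pool.Agent.Lib.MP_305fdd_al.F8.P.threeA
import Pool.Agent.Lib.MP_305fdd_al.F8.P.endA
import Pool.Agent.Lib.MP_305fdd_al.F8.P.secA
import Pool.Agent.Lib.MP_305fdd_al.F8.P.cjN
import Pool.Agent.Lib.MP_305fdd_al.F8.P.HN
import Pool.Agent.Lib.MP_305fdd_al.F8.P.twoA
import Pool.Agent.Lib.MP_305fdd_al.F8.P.twA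
import Pool.Agent.Lib.MP_305fdd_al.F8.P.fstA

/-!
# MP_305fdd_al: groups `F ⋊ ℤ` commensurable with the figure-eight knot group, block HN: assembly
-/

set_option autoImplicit false

namespace Pool.Agent.F8.HN

theorem all_twA : S_twA := p_twA p_cmpA H.p_hol

theorem all_matA : S_matA := p_matA all_twA

theorem all_endA : S_endA := p_endA all_matA Pool.Agent.F2X.p_sur Pool.Agent.F2X.all_out

theorem all_secA : S_secA := p_secA all_twA H.p_gn H.all_rk all_endA

theorem all_fstA : S_fstA := p_fstA (p_twoA H.p_bn H.p_li) (p_threeA H.p_bn p_cmpA) p_cmpA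

/-- block HN for a general automorphism -/
theorem all_HA : S_HA := p_HA all_secA all_fstA p_G2

/-- BLOCK HN: block H for the cyclic covers `GN n` -/
theorem all_HN : S_HN := p_HN all_HA (p_cjN H.p_cj Pool.Agent.F2X.p_tr)

end Pool.Agent.F8.HN
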