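import Pool.Agent.Lib.MP_305fdd_al.F8.OV.OV
import Pool.Agent.Lib.MP_305fdd_al.F8.OV.act
import Pool.Agent.Lib.MP_305fdd_al.F8.OV.b1
import Pool.Agent.Lib.MP_305fdd_al.F8.OV.cjg
import Pool.Agent.Lib.MP_305fdd_al.F8.OV.cm
import Pool.Agent.Lib.MP_305fdd_al.F8.OV.com
import Pool.Agent.Lib.MP_305fdd_al.F8.OV.cs
import Pool.Agent.Lib.MP_305fdd_al.F8.OV.fai
import Pool.Agent.Lib.MP_305fdd_al.F8.OV.fin
import Pool.Agent.Lib.MP_305fdd_al.F8.OV.hei
import Pool.Agent.Lib.MP_305fdd_al.F8.OV.hy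
import Pool.Agent.Lib.MP_305fdd_al.F8.OV.inj
import Pool.Agent.Lib.MP_305fdd_al.F8.OV.iso
import Pool.Agent.Lib.MP_305fdd_al.F8.OV.lc
import Pool.Agent.Lib.MP_305fdd_al.F8.OV.lo
import Pool.Agent.Lib.MP_305fdd_al.F8.OV.mx
import Pool.Agent.Lib.MP_305fdd_al.F8.OV.nrm
import Pool.Agent.Lib.MP_305fdd_al.F8.OV.pr
import Pool.Agent.Lib.MP_305fdd_al.F8.OV.pw
import Pool.Agent.Lib.MP_305fdd_al.F8.OV.star
import Pool.Agent.Lib.MP_305fdd_al.F8.OV.tor
import Pool.Agent.Lib.MP_305fdd_al.F8.OV.un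
import Pool.Agent.Lib.MP_305fdd_al.F8.OV.Cyc
import Pool.Agent.Lib.MP_305fdd_al.F2X.Main

/-!
# MP_305fdd_al: groups which contain `F ⋊ ℤ` as a normal subgroup of finite index, assembled

`ov_main`: for the powers of `phi`, from the rigidity and regularity of `GA (phi ^ n)`.
-/

set_option autoImplicit false

namespace Pool.Agent.F8.OV

open Pool.Agent.MP_305fdd_al Pool.Agent.Lib.MP_305fdd_al Pool.Agent.F2X Pool.Agent.F8
  Pool.Agent.F8.HN

theorem all_pw : S_pw := p_pw p_cs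

theorem all_tor : S_tor := p_tor p_fo p_cm all_pw

theorem all_com : S_com := p_com all_pw p_cm p_cs

theorem all_star : S_star := p_star p_cs all_pw p_cm all_tor

theorem all_mx : S_mx := p_mx all_com all_star p_cm all_pw

theorem all_lo : S_lo := p_lo p_un

theorem all_act : S_act := p_act p_b1

theorem all_nrm : S_nrm := p_nrm all_pw p_b1

theorem all_fai : S_fai := p_fai all_pw p_cen all_out

theorem all_pr : S_pr := p_pr p_b1

theorem all_lc : S_lc := p_lc p_hei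

theorem all_inj : S_inj := p_inj all_lc all_star all_nrm all_fai

theorem all_iso : S_iso := p_iso p_sur all_out

theorem all_cjg : S_cjg := p_cjg all_lc all_mx all_nrm

theorem all_OV : S_OV := p_OV all_act all_pr all_inj all_cjg all_iso all_fai p_fin all_pw p_same p_fgrf

/-- the overgroups of the groups `GA (phi ^ n)` -/
theorem ov_main (h : ∀ n : ℕ, 0 < n → ProfinitelyRigid (GA (phi ^ n)) ∧ Reg (phi ^ n))
    (Γ : Type) [Group Γ] (N : Subgroup Γ) (n : ℕ) (hn : 0 < n) (hN : N.Normal)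
    (hi : N.FiniteIndex) (e : Nonempty (N ≃* GA (phi ^ n)))
    (hK : ∀ K : Subgroup Γ, K.Normal → Finite K → K = ⊥) : ProfinitelyRigid Γ :=
  all_OV phi p_hy.1 all_lo ⟨_, p_hy.2⟩ h Γ N n hn hN hi e hK

/-- the groups `F ⋊_β ℤ` for the roots `β` of the powers of `phi` -/
theorem ov_cyc (h : ∀ n : ℕ, 0 < n → ProfinitelyRigid (GA (phi ^ n)) ∧ Reg (phi ^ n))
    (β : MulAut F) (n k : ℕ) (hn : 0 < n) (hk : 0 < k) (hb : AM β ^ k = AM phi ^ n) :
    ProfinitelyRigid (GA β) :=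
  ov_main h (GA β) (subA β k) n hn (by unfold subA; infer_instance) (subA_fi β k hk)
    (GA_contains all_out phi β n k hk hb) fun K _ hf => GA_nf β K hf

end Pool.Agent.F8.OV
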