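import Pool.Agent.Lib.MP_305fdd_al.F8.PN.Jd
import Pool.Agent.Lib.MP_305fdd_al.F8.PN.Jq
import Pool.Agent.Lib.MP_305fdd_al.F8.PN.Lu
import Pool.Agent.Lib.MP_305fdd_al.F8.PN.NI
import Pool.Agent.Lib.MP_305fdd_al.F8.PN.Pcl
import Pool.Agent.Lib.MP_305fdd_al.F8.PN.U
import Pool.Agent.Lib.MP_305fdd_al.F8.PN.ccp
import Pool.Agent.Lib.MP_305fdd_al.F8.PN.cg
import Pool.Agent.Lib.MP_305fdd_al.F8.PN.cpm
import Pool.Agent.Lib.MP_305fdd_al.F8.PN.cpx
import Pool.Agent.Lib.MP_305fdd_al.F8.PN.ex0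
import Pool.Agent.Lib.MP_305fdd_al.F8.PN.fou
import Pool.Agent.Lib.MP_305fdd_al.F8.PN.fr3
import Pool.Agent.Lib.MP_305fdd_al.F8.PN.gen
import Pool.Agent.Lib.MP_305fdd_al.F8.PN.irn
import Pool.Agent.Lib.MP_305fdd_al.F8.PN.lin
import Pool.Agent.Lib.MP_305fdd_al.F8.PN.n1a
import Pool.Agent.Lib.MP_305fdd_al.F8.PN.n1b
import Pool.Agent.Lib.MP_305fdd_al.F8.PN.ncb
import Pool.Agent.Lib.MP_305fdd_al.F8.PN.ocp
import Pool.Agent.Lib.MP_305fdd_al.F8.PN.ocv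
import Pool.Agent.Lib.MP_305fdd_al.F8.PN.od
import Pool.Agent.Lib.MP_305fdd_al.F8.PN.ot
import Pool.Agent.Lib.MP_305fdd_al.F8.PN.pos
import Pool.Agent.Lib.MP_305fdd_al.F8.PN.pr
import Pool.Agent.Lib.MP_305fdd_al.F8.PN.seq
import Pool.Agent.Lib.MP_305fdd_al.F8.PN.trq
import Pool.Agent.Lib.MP_305fdd_al.F8.PN.w123

/-!
# MP_305fdd_al, cyclic covers of the figure-eight knot complement. Block NI assembled.
-/

set_option autoImplicit false

namespace Pool.Agent.F8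

theorem all_lin : S_lin := p_lin p_trq
theorem all_pos : S_pos := p_pos p_ccp
theorem all_pr : S_pr := p_pr p_ocp p_ccp all_pos
theorem all_w123 : S_w123 := p_w123 p_ccp
theorem all_Jq : S_Jq := p_Jq p_Jd
theorem all_cg : S_cg := p_cg p_Lu
theorem all_U : S_U := p_U all_Jq p_Lu all_cg
theorem all_Pcl : S_Pcl := p_Pcl all_U
theorem all_n1a : S_n1a := p_n1a p_ocv all_lin p_od p_ot p_ncb
theorem all_n1b : S_n1b := p_n1b p_ocv all_lin p_od p_ot p_ncb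
theorem all_seq : S_seq := p_seq all_n1a
theorem all_fou : S_fou := p_fou all_U
theorem all_cpx : S_cpx := p_cpx all_cg p_Lu
theorem all_cpm : S_cpm := p_cpm
theorem all_ex0 : S_ex0 := p_ex0 all_n1b p_irn

/-- BLOCK NI: the matched conditions isolate the character of `rN n w` -/
theorem all_NI : S_NI := p_NI all_seq all_fou p_fr3 p_gen p_irn all_pr all_w123 all_Pcl

end Pool.Agent.F8
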