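import Pool.Agent.Lib.MP_305fdd_al.F8.MainD
import Pool.Agent.Lib.MP_305fdd_al.F8.MainNI
import Pool.Agent.Lib.MP_305fdd_al.F8.PT.A1N
import Pool.Agent.Lib.MP_305fdd_al.F8.PT.A2N
import Pool.Agent.Lib.MP_305fdd_al.F8.PT.A4N
import Pool.Agent.Lib.MP_305fdd_al.F8.PT.A5N
import Pool.Agent.Lib.MP_305fdd_al.F8.PT.A6N
import Pool.Agent.Lib.MP_305fdd_al.F8.PT.B1N
import Pool.Agent.Lib.MP_305fdd_al.F8.PT.CNp
import Pool.Agent.Lib.MP_305fdd_al.F8.PT.CNq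
import Pool.Agent.Lib.MP_305fdd_al.F8.PT.LCp
import Pool.Agent.Lib.MP_305fdd_al.F8.PT.NA
import Pool.Agent.Lib.MP_305fdd_al.F8.PT.NT
import Pool.Agent.Lib.MP_305fdd_al.F8.PT.RL
import Pool.Agent.Lib.MP_305fdd_al.F8.PT.RR
import Pool.Agent.Lib.MP_305fdd_al.F8.PT.TN
import Pool.Agent.Lib.MP_305fdd_al.F8.PT.Wsc
import Pool.Agent.Lib.MP_305fdd_al.F8.PT.aLN
import Pool.Agent.Lib.MP_305fdd_al.F8.PT.abN
import Pool.Agent.Lib.MP_305fdd_al.F8.PT.cgu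
import Pool.Agent.Lib.MP_305fdd_al.F8.PT.chn
import Pool.Agent.Lib.MP_305fdd_al.F8.PT.edG
import Pool.Agent.Lib.MP_305fdd_al.F8.PT.emb
import Pool.Agent.Lib.MP_305fdd_al.F8.PT.euG
import Pool.Agent.Lib.MP_305fdd_al.F8.PT.exG
import Pool.Agent.Lib.MP_305fdd_al.F8.PT.exT
import Pool.Agent.Lib.MP_305fdd_al.F8.PT.f3N
import Pool.Agent.Lib.MP_305fdd_al.F8.PT.fct
import Pool.Agent.Lib.MP_305fdd_al.F8.PT.gl2
import Pool.Agent.Lib.MP_305fdd_al.F8.PT.ig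
import Pool.Agent.Lib.MP_305fdd_al.F8.PT.irF
import Pool.Agent.Lib.MP_305fdd_al.F8.PT.irp
import Pool.Agent.Lib.MP_305fdd_al.F8.PT.lft
import Pool.Agent.Lib.MP_305fdd_al.F8.PT.m1G
import Pool.Agent.Lib.MP_305fdd_al.F8.PT.mlt
import Pool.Agent.Lib.MP_305fdd_al.F8.PT.mx
import Pool.Agent.Lib.MP_305fdd_al.F8.PT.nmn
import Pool.Agent.Lib.MP_305fdd_al.F8.PT.pe
import Pool.Agent.Lib.MP_305fdd_al.F8.PT.pe2
import Pool.Agent.Lib.MP_305fdd_al.F8.PT.rL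
import Pool.Agent.Lib.MP_305fdd_al.F8.PT.sTm
import Pool.Agent.Lib.MP_305fdd_al.F8.PT.spc
import Pool.Agent.Lib.MP_305fdd_al.F8.PT.spl
import Pool.Agent.Lib.MP_305fdd_al.F8.PT.spt
import Pool.Agent.Lib.MP_305fdd_al.F8.PT.tl
import Pool.Agent.Lib.MP_305fdd_al.F8.PT.u1N
import Pool.Agent.Lib.MP_305fdd_al.F8.PT.un1
import Pool.Agent.Lib.MP_305fdd_al.F8.PT.un2
import Pool.Agent.Lib.MP_305fdd_al.F8.PT.val

/-!
# MP_305fdd_al, cyclic covers of the figure-eight knot complement. Blocks NT and NA assembled.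
-/

set_option autoImplicit false

namespace Pool.Agent.F8

theorem all_chn : S_chn := p_chn p_Lu
theorem all_abN : S_abN := p_abN all_chn p_Lu
theorem all_TN : S_TN := p_TN pf_mT
theorem all_nmn : S_nmn := p_nmn pf_f1
theorem all_B1N : S_B1N := p_B1N all_chn
theorem all_m1G : S_m1G := p_m1G pf_mt p_euG
theorem all_u1N : S_u1N := p_u1N all_q1 all_m1G all_B1N
theorem all_A1N : S_A1N :=
  p_A1N all_TN all_nmn p_euG pf_mp pf_wm pf_nz pf_nc pf_lz pf_lq pf_lh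
theorem all_A2N : S_A2N := p_A2N pf_nc pf_f1
theorem all_A4N : S_A4N := p_A4N all_q1 pf_A3 (pf_P1m pf_wm) pf_gal pf_int
theorem all_A5N : S_A5N := p_A5N pf_nc
theorem all_f3N : S_f3N := p_f3N pf_f1 (pf_f2 pf_f1)
theorem all_A6N : S_A6N := p_A6N pf_f1 (pf_f2 pf_f1) all_f3N

/-- BLOCK NA -/
theorem all_NA : S_NA :=
  p_NA all_abN p_aLN p_exG p_edG all_u1N all_A1N all_A2N all_A4N all_A5N all_A6N

theorem all_mxN : S_mx := p_mx p_cgu p_mlt
theorem all_exT : S_exT := p_exT pf_mt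
theorem all_irF : S_irF := p_irF pf_mp
theorem all_un1 : S_un1 := p_un1 all_NI all_n1b p_irn all_mxN all_exT all_irF pf_mp
theorem all_tl : S_tl := p_tl all_cpm p_sTm pf_wm
theorem all_fct : S_fct := p_fct all_tl
theorem all_spl : S_spl := p_spl all_tl pf_wm p_sTm
theorem all_spc : S_spc := p_spc all_spl
theorem all_spt : S_spt := p_spt (pf_spf pf_des) (pf_spq pf_des)
theorem all_un2 : S_un2 := p_un2 all_un1 all_spc all_spt
theorem all_rL : S_rL := p_rL pf_lz pf_lq pf_lh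
theorem all_irp : S_irp := p_irp pf_mp p_irn pf_nz pf_nc
theorem all_RL : S_RL := p_RL pf_lz
theorem all_RR : S_RR := p_RR all_RL
theorem all_lft : S_lft := p_lft p_ig all_RR
theorem all_pe : S_pe := p_pe pf_lh all_mxN pf_mt pf_mp pf_wm
theorem all_pe2 : S_pe2 := p_pe2 all_pe all_lft p_Wsc pf_wm
theorem all_LCp : S_LCp := p_LCp all_cpx all_ex0 all_pe2
theorem all_CNp : S_CNp := p_CNp all_LCp all_irp
theorem all_CNq : S_CNq := p_CNq all_CNp all_rL all_spc all_spt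
theorem all_gl2 : S_gl2 := p_gl2 pf_gal
theorem all_val : S_val := p_val all_un2 all_fct all_CNp all_gl2 p_emb pf_int

/-- BLOCK NT -/
theorem all_NT : S_NT := p_NT all_CNq all_val all_rL

end Pool.Agent.F8
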