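import Pool.Agent.Lib.MP_305fdd_al.F8.ModelsK
import Pool.Agent.Lib.MP_305fdd_al.F8.DefsO

/-!
# MP_305fdd_al, figure-eight project: the groups of the cyclic covers as Kleinian groups

`Kc n` is the subgroup of `PSL₂(ℂ)` generated by `b a⁻¹`, `a⁻¹ b` and `a ^ n`; it is isomorphic to
`GN n` for `n ≥ 1`.
-/

set_option autoImplicit false

namespace Pool.Agent.F8

open Pool.Agent.MP_305fdd_al Pool.Agent.Lib.MP_305fdd_al Pool.Agent.F2X
open scoped QuadraticAlgebra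

/-- the group of the `n`-fold cyclic cover of the figure-eight knot complement -/
noncomputable def Kc (n : ℕ) : Subgroup PC :=
  Subgroup.closure {pc (mb wC) * (pc (ma ℂ))⁻¹, (pc (ma ℂ))⁻¹ * pc (mb wC), pc (ma ℂ) ^ n}

/-- the representation of `GN n` -/
noncomputable def rCn (n : ℕ) : GN n →* PC := rC.comp (toG8 n)

theorem rCn_injective (n : ℕ) (hn : 0 < n) : Function.Injective (rCn n) :=
  rC_injective.comp (toG8_injective n hn)

theorem rCn_ga (n : ℕ) : rCn n (iN n ga) = pc (mb wC) * (pc (ma ℂ))⁻¹ := by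
  show rC (toG8 n (iN n ga)) = _
  rw [toG8_iN, ← rC_aa, ← rC_bb, ← map_inv, ← map_mul, ← uu_eq]
  rfl

theorem rCn_gb (n : ℕ) : rCn n (iN n gb) = (pc (ma ℂ))⁻¹ * pc (mb wC) := by
  show rC (toG8 n (iN n gb)) = _
  rw [toG8_iN, ← rC_aa, ← rC_bb, ← map_inv, ← map_mul, ← vv_eq]
  rfl

theorem rCn_tN (n : ℕ) : rCn n (tN n) = pc (ma ℂ) ^ n := by
  show rC (toG8 n (tN n)) = _
  rw [toG8_tN, map_pow, rC_aa]

theorem rCn_range (n : ℕ) : (rCn n).range = Kc n := by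
  apply le_antisymm
  · rintro _ ⟨g, rfl⟩
    have hF : ∀ w : F, rCn n (iN n w) ∈ Kc n := by
      intro w
      have h1 : (⊤ : Subgroup F) ≤ (Kc n).comap ((rCn n).comp (iN n)) := by
        rw [← FreeGroup.closure_range_of, Subgroup.closure_le]
        rintro _ ⟨i, rfl⟩
        fin_cases i
        · show rCn n (iN n ga) ∈ Kc n
          rw [rCn_ga]; exact Subgroup.subset_closure (by simp)
        · show rCn n (iN n gb) ∈ Kc n
          rw [rCn_gb]; exact Subgroup.subset_closure (by simp)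
      exact h1 (Subgroup.mem_top w)
    obtain ⟨w, k, rfl⟩ := GN_cases g
    rw [map_mul, map_zpow]
    refine mul_mem (hF w) (zpow_mem ?_ k)
    rw [rCn_tN]; exact Subgroup.subset_closure (by simp)
  · unfold Kc
    rw [Subgroup.closure_le]
    rintro _ (rfl | rfl | rfl)
    · exact ⟨iN n ga, rCn_ga n⟩
    · exact ⟨iN n gb, rCn_gb n⟩
    · exact ⟨tN n, rCn_tN n⟩

/-- `Kc n` is isomorphic to `GN n` -/
noncomputable def kcE (n : ℕ) (hn : 0 < n) : GN n ≃* Kc n :=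
  (MonoidHom.ofInjective (rCn_injective n hn)).trans (MulEquiv.subgroupCongr (rCn_range n))

/-- `a ^ n ∈ Kc n` -/
theorem a_mem (n : ℕ) : pc (ma ℂ) ^ n ∈ Kc n := Subgroup.subset_closure (by simp)

/-- `b ^ n ∈ Kc n` -/
theorem b_mem (n : ℕ) : pc (mb wC) ^ n ∈ Kc n := by
  have h : ∀ k : ℕ, pc (mb wC) ^ k * (pc (ma ℂ) ^ k)⁻¹ ∈ (rCn n).range := by
    intro k
    have h1 : n8 (bb ^ k * (aa ^ k)⁻¹) = 1 := by
      rw [map_mul, map_inv, map_pow, map_pow, n8_bb, n8_aa, mul_inv_cancel]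
    obtain ⟨⟨w, z⟩, hwz⟩ : ∃ x : G8, x = bb ^ k * (aa ^ k)⁻¹ := ⟨_, rfl⟩
    rw [← hwz] at h1
    have hz : z = 1 := h1
    refine ⟨iN n w, ?_⟩
    show rC (toG8 n (iN n w)) = _
    rw [toG8_iN]
    have h2 : (SemidirectProduct.inl w : G8) = bb ^ k * (aa ^ k)⁻¹ := by
      rw [← hwz, hz]; rfl
    rw [h2, map_mul, map_inv, map_pow, map_pow, rC_aa, rC_bb]
  have h1 := h n
  rw [rCn_range] at h1
  have h2 := mul_mem h1 (a_mem n)
  rwa [inv_mul_cancel_right] at h2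

end Pool.Agent.F8
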