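import Pool.Agent.Lib.MP_305fdd_al.F8.StmC

/-!
# MP_305fdd_al, figure-eight knot group: part A, regularity

MAIN RESULT of this part (`S_A`): after the choice of the abelianisation `n : Λ → ℤ`, the
homomorphisms `n8` and `n` modulo `m` correspond to each other, for all `m`.

Every piece may use the statements named in its docstring as hypotheses.
-/

set_option autoImplicit false

namespace Pool.Agent.F8

open Pool.Agent.MP_305fdd_al Pool.Agent.Lib.MP_305fdd_al Pool.Agent.F2X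
open scoped QuadraticAlgebra

noncomputable section

/-- the algebraic closure of `ℚ_p` -/
abbrev Fl (p : ℕ) [Fact p.Prime] : Type := AlgebraicClosure ℚ_[p]

/-- the inclusion of `ℤ_p` -/
def iz (p : ℕ) [Fact p.Prime] : ℤ_[p] →+* Fl p :=
  (algebraMap ℚ_[p] (Fl p)).comp PadicInt.Coe.ringHom

/-! ### Generalities -/

/-- [F8 gal] Galois descent (Mathlib: `IsGalois ℚ (AlgebraicClosure ℚ)`, `IsGalois.mem_bot_iff_fixed` or
`InfiniteGalois`; or: all roots of the minimal polynomial of `x` are conjugate to `x`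
(`minpoly`, `IsAlgClosed.lift`), so it has degree one). -/
def S_gal : Prop := ∀ x : AlgebraicClosure ℚ,
  (∀ g : AlgebraicClosure ℚ ≃ₐ[ℚ] AlgebraicClosure ℚ, g x = x) →
  ∃ q : ℚ, x = algebraMap ℚ (AlgebraicClosure ℚ) q

/-- [F8 int] a rational number which is a `p`-adic integer for all `p` is an integer.

Proof. If a prime `p` divides the denominator then `‖q‖_p > 1` (`padicNorm`, `padicValRat`). -/
def S_int : Prop := ∀ q : ℚ, (∀ (p : ℕ) [Fact p.Prime], ∃ y : ℤ_[p], (q : ℚ_[p]) = (y : ℚ_[p])) →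
  ∃ a : ℤ, q = a

/-- [F8 P1m] `P1` and homomorphisms of fields (`S_wm`; ring homomorphisms of fields are injective). -/
def S_P1m : Prop := ∀ (Λ : Type) [Group Λ] (n : Λ →* Multiplicative ℤ) (K K' : Type) [Field K]
  [Field K'] (f : K →+* K') (τ : Kˣ), P1 n K τ → P1 n K' (Units.map f.toMonoidHom τ)

/-- [F8 P2m] `P2` and homomorphisms of fields. (Uses `S_wm`.) -/
def S_P2m : Prop := ∀ (Λ : Type) [Group Λ] (n : Λ →* Multiplicative ℤ) (K K' : Type) [Field K]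
  [Field K'] (f : K →+* K') (Θ : Λ →* Q2 K), P2 n K Θ → P2 n K' ((Q2.map f).comp Θ) ∧
  ∀ g, ch ((Q2.map f).comp Θ) g = f (ch Θ g)

/-- [F8 nz] nonvanishing of images.

Proof. `f` is injective on `ℤ_p` (a nonzero element is `p ^ k` times a unit, and `f p = p ≠ 0`). In `Qd q R`
`z * star z = algebraMap (norm z)` (`QuadraticAlgebra.algebraMap_norm_eq_mul_star`). So `f z = 0` implies
`f (norm z) = 0`; for `E4` use this twice. -/
def S_nz : Prop := ∀ (p : ℕ) [Fact p.Prime] (K : Type) [Field K] [CharZero K],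
  (∀ (q : ℤ) (f : Qd q ℤ_[p] →+* K) (x : Qd q ℤ_[p]), x.norm ≠ 0 → f x ≠ 0) ∧
  ∀ (f : E4 ℤ_[p] →+* K) (x : E4 ℤ_[p]), x.norm.norm ≠ 0 → f x ≠ 0

/-- [F8 nc] the norm and reduction (`QuadraticAlgebra.norm_def`, `ring`). -/
def S_nc : Prop := ∀ (R S : Type) [CommRing R] [CommRing S] (f : R →+* S),
  (∀ (q : ℤ) (x : Qd q R), (Qd.map q f x).norm = f x.norm ∧ (Qd.map q f x).trace = f x.trace) ∧
  ∀ x : E4 R, (E4m f x).norm.norm = f x.norm.norm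

/-! ### The `p`-adic exceptional values -/

/-- the thing we know about the exceptional value `σ` over `ℤ_p[θ]` -/
structure Sig {Λ : Type} [Group Λ] (Φ : NatBij G8 Λ) (n : Λ →* Multiplicative ℤ) (p : ℕ)
    [Fact p.Prime] (σ : (Qd 3 ℤ_[p])ˣ) : Prop where
  /-- it is exceptional under all homomorphisms to fields -/
  exc : ∀ (K : Type) [Field K] [CharZero K] (j : Qd 3 ℤ_[p] →+* K),
    P1 n K (Units.map j.toMonoidHom σ)
  /-- its reductions are powers of the generator -/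
  red : ∀ (k m : ℕ) [NeZero m] (e : ℤ), Ex Φ n m e → thu 3 (ZMod (p ^ k)) ^ m = 1 →
    Units.map (Qd.map 3 (PadicInt.toZModPow k)).toMonoidHom σ = thu 3 (ZMod (p ^ k)) ^ e

/-- [F8 A1] existence of `σ`. (Uses `S_L1`, `S_pwl`, `S_exu`, `S_mp`, `S_wm`, `S_nc1`, `S_nz`, `S_nc`, `S_lz`, `S_lq`.)

Proof. `Θ` from `S_L1`. `mH.comp Θ = 1`: its reductions are `Φ (mH.comp (T1 ..)) = Φ 1 = 1` (naturality, `mH_Th1`) for
all `k`; uniqueness of limits. `tH.comp Θ = (pw σ).comp n` (`S_pwl`, `(Qd 3 ℤ_p)ˣ` is commutative). Reductions: by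
naturality `Φ (tH.comp (T1 ..)) = Φ ((pw thu).comp n8) = (pw (thu ^ e)).comp n` (`tH_Th1`, `S_exu`), evaluate at an element
with `n = ofAdd 1`. `NC`: `k = 1`: by `range_eq` there are `l, l'` with `Θ l, Θ l'` modulo `p` equal to `T1 aa`, `T1 vv`;
`W (Θ l) (Θ l') 0` is congruent to `θ` (`S_nc1`, `S_wm`), its norm is congruent to `1`, so it is not `0`; `S_nz`. -/
def S_A1 : Prop := ∀ (Λ : Type) [Group Λ] (Φ : NatBij G8 Λ) (n : Λ →* Multiplicative ℤ),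
  IsAb n → ∀ (p : ℕ) [Fact p.Prime], ∃ σ : (Qd 3 ℤ_[p])ˣ, Sig Φ n p σ

/-- [F8 A2] `σ` has norm one and is not rational. (Uses `S_ex`, `S_nc`.)

Proof. For every `k` let `m = orderOf (thu 3 (ZMod (p ^ k)))` (or the order of the finite unit group),
`e` from `S_ex`. The norm of `σ` is congruent to the norm of `thu ^ e`, which is `1`; for all `k`, so it is `1`
(`PadicInt.ext_of_toZModPow`). If `im = 0` then `σ = x`, `x² = 1`, `σ² = 1`. For `k = 1`: `thu ^ (2 e) = 1`, `e` is coprime to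
`m` and `thu ^ m = 1`, so `thu ^ 2 = 1`, i.e. `3 θ - 2 = 0` in `Qd 3 (ZMod (p ^ 1))`, so `3 = 0` and `2 = 0`, contradiction. -/
def S_A2 : Prop := ∀ (Λ : Type) [Group Λ] (Φ : NatBij G8 Λ) (n : Λ →* Multiplicative ℤ),
  IsAb n → ∀ (p : ℕ) [Fact p.Prime] (σ : (Qd 3 ℤ_[p])ˣ), Sig Φ n p σ →
  σ.val.norm = 1 ∧ σ.val.im ≠ 0

/-- [F8 A3] two values and their sum.

Proof. There are roots `t₁ ≠ t₂` of `T² - q T + 1` in the algebraically closed field `K` with `t₁ + t₂ = q`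
(discriminant `q² - 4 ≠ 0` in characteristic zero). `j_i = Qd.ev q f t_i`:
`j₁ x - j₂ x = f x.im (t₁ - t₂)`, `j₁ x + j₂ x = 2 f x.re + q f x.im = f (trace x)`, `j₁ x * j₂ x = f (norm x)`. -/
def S_A3 : Prop := ∀ (K : Type) [Field K] [CharZero K] [IsAlgClosed K] (R : Type) [CommRing R]
  (f : R →+* K) (q : ℤ), q ≠ 2 → q ≠ -2 → ∃ j₁ j₂ : Qd q R →+* K,
  (∀ x, j₁ x - j₂ x = 0 → f x.im = 0) ∧ (∀ x, j₁ x + j₂ x = f x.trace) ∧
    (∀ x, j₁ x * j₂ x = f x.norm) ∧ (∀ x, j₁ (star x) = j₂ x) ∧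
    (∀ r, j₁ (algebraMap R _ r) = f r) ∧ (∀ r, j₂ (algebraMap R _ r) = f r)

/-- [F8 A4] the trace of the monodromy is an integer. (Uses `S_u1`, `S_q1`, `S_A3`, `S_P1m`, `S_gal`, `S_int`.)

Proof. For every `p` and `K = Fl p` the elements `Units.map j_i (σ p)` (`j_i` from `S_A3` for `iz p`, injective) are two
different exceptional values with sum `iz (trace)`. For `p = 2` this gives `Good1 n (Fl 2) 2`, so by `S_q1`
`Good1 n (AlgebraicClosure ℚ) 2`: `τ 0 ≠ τ 1`. Put `s = τ 0 + τ 1`. Let `ι : AlgebraicClosure ℚ →+* Fl p` (`IsAlgClosed.lift`).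
`ι (τ 0), ι (τ 1)` are exceptional (`S_P1m`) and different, so by `S_u1` they are `Units.map j₁ σ`, `Units.map j₂ σ` in some
order; so `ι s = iz (trace (σ p))`. For an automorphism `g` of `AlgebraicClosure ℚ` `g (τ 0), g (τ 1)` are
exceptional, so `{g (τ 0), g (τ 1)} = {τ 0, τ 1}`, `g s = s`. By `S_gal` `s = q` is rational, and
`(q : ℚ_p) = trace (σ p)` (`algebraMap ℚ_p (Fl p)` is injective), so `q` is an integer by `S_int`. -/
def S_A4 : Prop := ∀ (Λ : Type) [Group Λ] [Group.FG Λ] (Φ : NatBij G8 Λ)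
  (n : Λ →* Multiplicative ℤ), IsAb n →
  ∀ σ : (∀ (p : ℕ) [Fact p.Prime], (Qd 3 ℤ_[p])ˣ), (∀ (p : ℕ) [Fact p.Prime], Sig Φ n p (σ p)) →
  (∀ (p : ℕ) [Fact p.Prime], (σ p).val.im ≠ 0) →
  ∃ a₀ : ℤ, ∀ (p : ℕ) [Fact p.Prime], (a₀ : ℤ_[p]) = (σ p).val.trace

/-- [F8 A5] congruences for the trace. (Uses `S_nc`.)

Proof. Let `d = a₀ - trace (thu 3 ℤ ^ e)` (an integer; `thu 3 (ZMod M) = Units.map (thu 3 ℤ)`). For every prime power
`p ^ k ∣ M` `thu 3 (ZMod (p ^ k)) ^ m = 1` (reduce), so `σ p` is congruent to `thu ^ e` modulo `p ^ k`, and `p ^ k ∣ d`. So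
`M ∣ d` (`Nat.factorization`; `Int.natAbs d`; or induction on coprime products). -/
def S_A5 : Prop := ∀ (Λ : Type) [Group Λ] (Φ : NatBij G8 Λ) (n : Λ →* Multiplicative ℤ)
  (σ : ∀ (p : ℕ) [Fact p.Prime], (Qd 3 ℤ_[p])ˣ), (∀ (p : ℕ) [Fact p.Prime], Sig Φ n p (σ p)) →
  ∀ a₀ : ℤ, (∀ (p : ℕ) [Fact p.Prime], (a₀ : ℤ_[p]) = (σ p).val.trace) →
  ∀ (M m : ℕ) [NeZero M] [NeZero m] (e : ℤ), Ex Φ n m e → thu 3 (ZMod M) ^ m = 1 →
  (a₀ : ZMod M) = (thu 3 (ZMod M) ^ e).val.trace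

/-! ### Fibonacci arithmetic -/

/-- the numbers `f 0 = 0, f 1 = 1, f (j+2) = 3 f (j+1) - f j` (Fibonacci numbers of even index) -/
def ff : ℕ → ℤ
  | 0 => 0
  | 1 => 1
  | (j + 2) => 3 * ff (j + 1) - ff j

/-- the Lucas numbers of even index -/
def LL (e : ℤ) : ℤ := (thu 3 ℤ ^ e).val.trace

/-- [F8 f1] basic facts.

Proof. Induction: `thu ^ (j+1) = ⟨-ff j, ff (j+1)⟩`; norm `1` gives the quadratic relation; the trace of `⟨x, y⟩` is
`2 x + 3 y`; `thu⁻¹ = star thu` and `trace (star z) = trace z` give `LL (-e) = LL e`. `ff` is increasing. -/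
def S_f1 : Prop := (∀ j : ℕ, (thu 3 ℤ ^ (j + 1)).val = ⟨-ff j, ff (j + 1)⟩) ∧
  (∀ j : ℕ, ff (j + 1) * ff (j + 1) - 3 * ff (j + 1) * ff j + ff j * ff j = 1) ∧
  (∀ j : ℕ, LL ((j : ℤ) + 1) = 3 * ff (j + 1) - 2 * ff j) ∧ (∀ e : ℤ, LL (-e) = LL e) ∧
  (∀ j : ℕ, ff j < ff (j + 1)) ∧ (∀ j : ℕ, (j : ℤ) ≤ ff j) ∧ (∀ j : ℕ, LL j < LL (j + 1)) ∧
  (∀ j : ℕ, 0 < LL j) ∧ (∀ j : ℕ, LL ((j : ℤ) + 1) = ff (j + 2) - ff j)

/-- [F8 f2] the period modulo `ff j`. (Uses `S_f1`.)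

Proof. For `j ≥ 1`, modulo `ff j`: `thu ^ j = ⟨-ff (j-1), 0⟩` and `ff (j-1)² = 1`, so `thu ^ (2 j) = 1`. -/
def S_f2 : Prop := ∀ (j M : ℕ), 1 ≤ j → (M : ℤ) = ff j → thu 3 (ZMod M) ^ (2 * j) = 1

/-- [F8 f3] the representative. (Uses `S_f1`, `S_f2`.)

Proof. `k` = the representative of `± e` modulo `2 j` in `[0, j]`. `k` is coprime to `2 j`, so `0 < k < j` for `j ≥ 2`.
`thu ^ e = thu ^ (± k)` modulo `ff j` by `S_f2`, and `trace (thu ^ (-k)) = trace (thu ^ k)`. Base change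
`ℤ → ZMod M` (`thu 3 (ZMod M) = Units.map .. (thu 3 ℤ)`). -/
def S_f3 : Prop := ∀ (j M : ℕ) (e : ℤ), 2 ≤ j → (M : ℤ) = ff j → IsCoprime e (2 * j : ℤ) →
  ∃ k : ℕ, 0 < k ∧ k < j ∧ IsCoprime (k : ℤ) (2 * j : ℤ) ∧
    ((2 * j : ℤ) ∣ e - k ∨ (2 * j : ℤ) ∣ e + k) ∧
    (thu 3 (ZMod M) ^ e).val.trace = (LL k : ZMod M)

/-- [F8 A6] the exponents are `±1`. (Uses `S_f1`, `S_f2`, `S_f3`.)

Proof. Let `j ≥ 3` with `ff (j-2) > |a₀|`, `M = ff j`, `m = 2 j`, `k` from `S_f3` for `e (2 j)`. Then `a₀ = LL k` modulo `ff j`, and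
`0 < LL k ≤ LL (j-1) = ff j - ff (j-2)`, so `|LL k - a₀| < ff j` and `a₀ = LL k`. As `LL` is injective on `ℕ`, `k = k₀` is the
same for all `j ≥ j₀`. `k₀` is coprime to all `2 j`, `j ≥ j₀`, so `k₀ = 1` (take `j = k₀ j₀`). So `e (2 j) = ±1` modulo `2 j`
for all `j ≥ j₀`, and `e m = ±1` modulo `m` for every `m` (`m ∣ 2 m j₀`). Consistency of the sign: if `e m` is not `1`
modulo `m` and `e m'` is not `-1` modulo `m'` then `e (m m')` is neither `1` nor `-1` modulo `m m'`. -/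
def S_A6 : Prop := ∀ (a₀ : ℤ) (e : ℕ → ℤ), (∀ m : ℕ, 0 < m → IsCoprime (e m) (m : ℤ)) →
  (∀ m m' : ℕ, 0 < m → 0 < m' → m ∣ m' → (m : ℤ) ∣ e m - e m') →
  (∀ M m : ℕ, 0 < M → 0 < m → thu 3 (ZMod M) ^ m = 1 →
    (a₀ : ZMod M) = (thu 3 (ZMod M) ^ (e m)).val.trace) →
  (∀ m : ℕ, 0 < m → (m : ℤ) ∣ e m - 1) ∨ (∀ m : ℕ, 0 < m → (m : ℤ) ∣ e m + 1)

/-- [F8 A] MAIN RESULT of part A. (Uses `S_abL`, `S_ex`, `S_exd`, `S_A1`, `S_A2`, `S_A4`, `S_A5`, `S_A6`.)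

Proof. `n₀` from `S_abL`, `e m` from `S_ex`, `σ p` from `S_A1`, `a₀` from `S_A4`, then `S_A5`, `S_A6`. `Ex Φ n m e` only depends on `e`
modulo `m`. In the first case take `n = n₀`, in the second `n = n₀⁻¹` (`(zpowGroupHom (-1)).comp n₀`). -/
def S_A : Prop := ∀ (Λ : Type) [Group Λ] [Group.FG Λ], SameFiniteQuotients Λ G8 →
  ∀ Φ : NatBij G8 Λ, ∃ n : Λ →* Multiplicative ℤ, IsAb n ∧ ∀ (m : ℕ) [NeZero m], Ex Φ n m 1

end

end Pool.Agent.F8
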