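import Pool.Agent.Lib.MP_305fdd_al.F8.StmNI
import Pool.Agent.Lib.MP_305fdd_al.F8.StmA

/-!
# MP_305fdd_al, cyclic covers of the figure-eight knot complement. Block NA: regularity

MAIN RESULT (`S_NA`): if `Λ` has the same finite quotients as `GN n` (`n ≥ 1`), there is a surjective
homomorphism `nL : Λ → ℤ` with `IsAbF nL` (the abelianisation modulo torsion) such that `nN n` and `nL` modulo `k` correspond to each other, for all `k` (`CmG`).

The pieces are variants of the pieces `A..` of the figure-eight knot group (`n = 1`), see `StmA.lean` and the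
proofs in `F8/P/`; the exceptional values are now the powers `θ ^ (± n)`, `θ² = 3 θ - 1`, and the abelianisation
has a finite torsion subgroup.

Every piece may use the statements named in its docstring as hypotheses.
-/

set_option autoImplicit false

namespace Pool.Agent.F8

open Pool.Agent.MP_305fdd_al Pool.Agent.Lib.MP_305fdd_al Pool.Agent.F2X
open scoped QuadraticAlgebra

noncomputable section

/-! ### Definitions -/

/-- `nG` modulo `m` corresponds to `e nL` modulo `m` -/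
def ExG {G Λ : Type} [Group G] [Group Λ] (Φ : NatBij G Λ) (nG : G →* Multiplicative ℤ)
    (nL : Λ →* Multiplicative ℤ) (m : ℕ) [NeZero m] (e : ℤ) : Prop :=
  Φ.toFun (Multiplicative (ZMod m)) ((redZ m).comp nG) =
    (redZ m).comp ((zpowGroupHom e).comp nL)

/-- `n` is the abelianisation modulo torsion -/
def IsAbF {Λ : Type} [Group Λ] (n : Λ →* Multiplicative ℤ) : Prop :=
  Function.Surjective n ∧ ∃ E : ℕ, 0 < E ∧ ∀ (A : Type) [CommGroup A] (f : Λ →* A) (x : Λ),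
    n x = 1 → f x ^ E = 1

/-- the affine representation of `GN n` with trivial matrix part and scalar part `θ ^ n` -/
def TN (n : ℕ) (R : Type) [CommRing R] : GN n →* Q2 (Qd 3 R) := (T1 R).comp (toG8 n)

/-- the thing we know about the exceptional value `σ` over `ℤ_p[θ]` -/
structure SigN (n : ℕ) {Λ : Type} [Group Λ] (Φ : NatBij (GN n) Λ) (nL : Λ →* Multiplicative ℤ)
    (p : ℕ) [Fact p.Prime] (σ : (Qd 3 ℤ_[p])ˣ) : Prop where
  /-- it is exceptional under all homomorphisms to fields -/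
  exc : ∀ (K : Type) [Field K] [CharZero K] (j : Qd 3 ℤ_[p] →+* K),
    P1 nL K (Units.map j.toMonoidHom σ)
  /-- its reductions are powers of the generator -/
  red : ∀ (k m : ℕ) [NeZero m] (e : ℤ), ExG Φ (nN n) nL m e → thu 3 (ZMod (p ^ k)) ^ m = 1 →
    Units.map (Qd.map 3 (PadicInt.toZModPow k)).toMonoidHom σ = thu 3 (ZMod (p ^ k)) ^ ((n : ℤ) * e)

/-! ### Abelianisations -/

/-- [F8N chn] the Cayley-Hamilton relation for additive maps. (Uses `S_Lu`.)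

Proof. `f w` only depends on `vec w`: `f w = f ga ^ (vec w 0) * f gb ^ (vec w 1)` (`FreeGroup` lift: both sides are homomorphisms in
`w`). With `M = (AM (phi ^ n)).val`: `M * M = M.trace • M - 1` (`det M = 1`, `S_Lu`; `Matrix.det_fin_two`, `Matrix.trace_fin_two`), so
`vec (phi^n (phi^n w)) = Lu n • vec (phi^n w) - vec w` (`AM_vec`). -/
def S_chn : Prop := ∀ (n : ℕ) (A : Type) [CommGroup A] (f : F →* A) (w : F),
  f ((phi ^ n) ((phi ^ n) w)) = f ((phi ^ n) w) ^ (Lu n) * (f w)⁻¹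

/-- [F8N abN] the abelianisation of `GN n`. (Uses `S_chn`, `S_Lu`.)

Proof. `nN n` is onto. `E = (Lu n - 2).toNat > 0` (`S_Lu`). If `nN n x = 1` then `x = iN n w` (`GN_cases`). `g = f.comp (iN n)` satisfies
`g (phi^n w) = g w` (`tN_conj`, `A` is commutative), so by `S_chn` `g w = g w ^ (Lu n) * (g w)⁻¹`, `g w ^ (Lu n - 2) = 1`. -/
def S_abN : Prop := ∀ n : ℕ, 1 ≤ n → IsAbF (nN n)

/-- [F8N aLN] the abelianisation of `Λ`. (Uses nothing.)

Proof. `B = Abelianization Λ`, `C = Abelianization G`; `same_ab h` (`Solv/Abel.lean`): same finite quotients, both finitely generated. By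
`exists_free_prod` `B ≅ ℤ^r × T`, `C ≅ ℤ^s × S` with finite `T, S` of orders `t, u`. `ix_eq`, `ix_congr`, `ix_prod`, `ix_free`: `m ^ r * ix T m = m ^ s * ix S m`, and
`ix T m = t` if `t ∣ m` (see `P/abL.lean`). For `m = t u` and `m = 2 t u`: `2 ^ r = 2 ^ s`, so `r = s`. `s = 1`: `nG` gives an onto homomorphism
`C → ℤ` whose kernel is torsion of exponent dividing `E` (apply `IsAbF` to `Abelianization.of`), so `s ≠ 0` (a finite group has no onto
homomorphism to `ℤ`), and if `s ≥ 2` let `a, b` be the values at the basis vectors `e₀, e₁`: `b e₀ - a e₁` (or `e₀` if `a = b = 0`) is in the kernel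
and has infinite order. So `B ≅ ℤ × T`; `nL` = the projection of `Abelianization.of`; if `nL x = 1` then `(Abelianization.of x) ^ t = 1`, and
every `f` factors through `Abelianization.of`. -/
def S_aLN : Prop := ∀ (G Λ : Type) [Group G] [Group.FG G] [Group Λ] [Group.FG Λ],
  SameFiniteQuotients Λ G → ∀ nG : G →* Multiplicative ℤ, IsAbF nG →
  ∃ nL : Λ →* Multiplicative ℤ, IsAbF nL

/-- [F8N exG] existence of the exponents.

Proof. Let `E` be as in `IsAbF nL`, `f' = Φ ((redZ (m * E)).comp nG)`. If `nL x = 1` then `f' x ^ E = 1`, i.e. `E • (toAdd (f' x)) = 0` in `ZMod (m * E)`, so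
`toAdd (f' x)` is a multiple of `m` and goes to `0` in `ZMod m`; by naturality (`ZMod.castHom (Dvd.intro E rfl) (ZMod m)`)
`f = Φ ((redZ m).comp nG)` is trivial at `x`. So `f` factors through `nL`: with `nL l₀ = ofAdd 1`, `f l₀ = ofAdd (e : ZMod m)`, `x * l₀ ^ (-nL x)` is in
the kernel, `f x = (f l₀) ^ (nL x)`. `f` is onto (`NatBij.range_eq`), so `e` is a unit modulo `m`. -/
def S_exG : Prop := ∀ (G Λ : Type) [Group G] [Group Λ] (Φ : NatBij G Λ)
  (nG : G →* Multiplicative ℤ) (nL : Λ →* Multiplicative ℤ), Function.Surjective nG → IsAbF nL →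
  ∀ (m : ℕ) [NeZero m], ∃ e : ℤ, ExG Φ nG nL m e ∧ IsCoprime e (m : ℤ)

/-- [F8N edG] compatibility of the exponents (as `P/exd.lean`). -/
def S_edG : Prop := ∀ (G Λ : Type) [Group G] [Group Λ] (Φ : NatBij G Λ)
  (nG : G →* Multiplicative ℤ) (nL : Λ →* Multiplicative ℤ), Function.Surjective nL →
  ∀ (m m' : ℕ) [NeZero m] [NeZero m'] (e e' : ℤ), m ∣ m' → ExG Φ nG nL m e →
  ExG Φ nG nL m' e' → (m : ℤ) ∣ e - e'

/-- [F8N euG] characters with values in any finite group (as `P/exu.lean`). -/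
def S_euG : Prop := ∀ (G Λ : Type) [Group G] [Group Λ] (Φ : NatBij G Λ)
  (nG : G →* Multiplicative ℤ) (nL : Λ →* Multiplicative ℤ) (m : ℕ) [NeZero m] (e : ℤ),
  ExG Φ nG nL m e → ∀ (A : Type) [Group A] [Finite A] (a : A), a ^ m = 1 →
  Φ.toFun A ((pw a).comp nG) = (pw (a ^ e)).comp nL

/-! ### At most two exceptional values -/

/-- [F8N B1N] the exceptional values of `GN n`. (Uses `S_chn`.)

Proof. Let `c g = (Θ g).v`, `t = tN n`. The scalar and the matrix part of `Θ` are trivial on `iN n w`, so `w ↦ c (iN n w)` is additive, and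
`t * iN w = iN (phi^n w) * t` gives `c t + τ c(iN w) = c(iN (phi^n w)) + c t`, so `c(iN (phi^n w)) = τ c(iN w)`. `S_chn` (for
`A = Multiplicative (Fin 2 → K)`): `τ² c(w) = Lu n τ c(w) - c(w)`. If `τ² ≠ Lu n τ - 1` then `c = 0` on `iN F`, and the rest is as in `P/B1.lean`:
`(τ - 1) c(t ^ i) = (τ ^ i - 1) c t`, `W = 0`, contradiction to `NC` (`GN_cases`). -/
def S_B1N : Prop := ∀ (n : ℕ) (K : Type) [Field K] (τ : Kˣ), P1 (nN n) K τ →
  τ.val * τ.val = (Lu n : K) * τ.val - 1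

/-- [F8N m1G] matching of `Good1`. (Uses `S_mt`, `S_euG`.)

Proof. As `P/m1.lean`. Let `m = Nat.card kˣ`, `e` as in the hypothesis, `e e' = 1` modulo `m`, `s i = τ i ^ e'`. By `S_euG`
`Φ ((pw (s i)).comp nG) = (pw (s i ^ e)).comp nL = (pw (τ i)).comp nL`. `Θ'' i = Φ.invFun _ (Θ i)`. The `s i` are different because
`s i ^ e = τ i`. -/
def S_m1G : Prop := ∀ (G Λ : Type) [Group G] [Group Λ] (Φ : NatBij G Λ)
  (nG : G →* Multiplicative ℤ) (nL : Λ →* Multiplicative ℤ),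
  (∀ (m : ℕ) [NeZero m], ∃ e : ℤ, ExG Φ nG nL m e ∧ IsCoprime e (m : ℤ)) →
  ∀ (k : Type) [Field k] [Finite k] (N : ℕ), Good1 nL k N → Good1 nG k N

/-- [F8N u1N] at most two exceptional values in characteristic zero. (Uses `S_q1`, `S_m1G`, `S_B1N`; as `P/u1.lean`.) -/
def S_u1N : Prop := ∀ (n : ℕ) (Λ : Type) [Group Λ] [Group.FG Λ] (Φ : NatBij (GN n) Λ)
  (nL : Λ →* Multiplicative ℤ), Function.Surjective nL →
  (∀ (m : ℕ) [NeZero m], ∃ e : ℤ, ExG Φ (nN n) nL m e ∧ IsCoprime e (m : ℤ)) →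
  ∀ (K : Type) [Field K] [CharZero K], ¬ Good1 nL K 3

/-! ### The `p`-adic exceptional values -/

/-- [F8N TN] the tautological affine representation of `GN n`.

Proof. Functoriality: `S_mT`-type computation, `map_Th1` (or use `(Q2.map (Qd.map 3 f)).comp (T1 R) = T1 S`). Scalar part: `tH_Th1`, `n8 ∘ toG8 n = (zpowGroupHom n) ∘ nN n`
(`homN_ext`: `n8_inl`, `n8_aa`). Matrix part: `mH_Th1`. `TN n R (tN n) = T1 R (aa ^ n) = ⟨θ ^ n, 1, 0⟩` (induction, `Th1_aa`),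
`TN n R (iN n gb) = T1 R vv = ⟨1, 1, ![1, 0]⟩`; `W = det X • v`. -/
def S_TN : Prop := (∀ (n : ℕ) (R S : Type) [CommRing R] [CommRing S] (f : R →+* S),
    (Q2.map (Qd.map 3 f)).comp (TN n R) = TN n S) ∧
  ∀ (n : ℕ) (R : Type) [CommRing R], Q2.tH.comp (TN n R) = (pw (thu 3 R ^ n)).comp (nN n) ∧
    Q2.mH.comp (TN n R) = 1 ∧
    Q2.W (TN n R (tN n)) (TN n R (iN n gb)) 0 = (th 3 R ^ n - 1) * (th 3 R ^ n - 1)

/-- [F8N nmn] a norm. (Uses `S_f1`.)

Proof. `norm (x - 1) = norm x - trace x + 1` for `x = θ ^ n`, `norm θ = 1`, so the norm over `ℤ` is `(2 - LL n)²` and `LL n > LL 0 = 2` for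
`n ≥ 1` (`S_f1`). Base change `ℤ → R` (`Qd.map 3 (Int.castRingHom R)`, `Qd.map_th`). -/
def S_nmn : Prop := ∀ n : ℕ, 1 ≤ n → ∃ D : ℤ, D ≠ 0 ∧ ∀ (R : Type) [CommRing R],
  ((th 3 R ^ n - 1) * (th 3 R ^ n - 1)).norm = (D : R)

/-- [F8N A1N] existence of `σ`. (Uses `S_TN`, `S_nmn`, `S_euG`, `S_mp`, `S_wm`, `S_nz`, `S_nc`, `S_lz`, `S_lq`, `S_lh`.)

Proof. As `P/L1.lean` and `P/A1.lean`. `Θ : Λ →* Q2 (Qd 3 ℤ_p)` is the limit of `Φ (TN n (ZMod (p ^ k)))` (`S_TN`, `S_lh`). `mH.comp Θ = 1` by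
uniqueness of limits. Let `nL l₀ = ofAdd 1`, `σ = (Θ l₀).t`. For every `k` let `m` be the order of the finite group `(Qd 3 (ZMod (p ^ k)))ˣ`
and `e` as in the hypothesis: by naturality and `S_euG` `Φ (tH.comp (TN ..)) = Φ ((pw (thu ^ n)).comp (nN n)) = (pw (thu ^ (n e))).comp nL`; so
`(Θ l).t` and `σ ^ (nL l)` are congruent modulo `p ^ k` for all `k`, so they are equal, and `red` holds (for all `m, e` with `thu ^ m = 1`).
`NC`: choose `k` with `|D| < p ^ k`, `D` from `S_nmn`. By `S_mp` there are `l, l'` with `Θ l, Θ l'` modulo `p ^ k` equal to `TN (tN n)`,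
`TN (iN n gb)`; `W (Θ l) (Θ l') 0` is congruent to `(θ ^ n - 1)²` modulo `p ^ k`, its norm to `D`, so its norm is not zero; `S_nz`. -/
def S_A1N : Prop := ∀ (n : ℕ), 1 ≤ n → ∀ (Λ : Type) [Group Λ] (Φ : NatBij (GN n) Λ)
  (nL : Λ →* Multiplicative ℤ), Function.Surjective nL →
  (∀ (m : ℕ) [NeZero m], ∃ e : ℤ, ExG Φ (nN n) nL m e ∧ IsCoprime e (m : ℤ)) →
  ∀ (p : ℕ) [Fact p.Prime], ∃ σ : (Qd 3 ℤ_[p])ˣ, SigN n Φ nL p σ

/-- [F8N A2N] `σ` has norm one and is not rational. (Uses `S_nc`, `S_f1`.)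

Proof. As `P/A2.lean`. For every `k` let `m = orderOf (thu 3 (ZMod (p ^ k)))`, `e` as in the hypothesis. The norm of `σ` is congruent to
`norm (thu ^ (n e)) = 1`. If `im σ = 0` then `σ² = 1`, so `thu ^ (2 n e) = 1` modulo `p ^ k`; `e` is coprime to `m`, so `thu ^ (2 n) = 1` modulo
`p ^ k`. By `S_f1` `thu ^ (2 n) = ⟨-ff (2 n - 1), ff (2 n)⟩`, so `p ^ k ∣ ff (2 n)` for all `k`, but `ff (2 n) > 0`. -/
def S_A2N : Prop := ∀ (n : ℕ), 1 ≤ n → ∀ (Λ : Type) [Group Λ] (Φ : NatBij (GN n) Λ)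
  (nL : Λ →* Multiplicative ℤ),
  (∀ (m : ℕ) [NeZero m], ∃ e : ℤ, ExG Φ (nN n) nL m e ∧ IsCoprime e (m : ℤ)) →
  ∀ (p : ℕ) [Fact p.Prime] (σ : (Qd 3 ℤ_[p])ˣ), SigN n Φ nL p σ →
  σ.val.norm = 1 ∧ σ.val.im ≠ 0

/-- [F8N A4N] the trace of the monodromy is an integer. (Uses `S_q1`, `S_A3`, `S_P1m`, `S_gal`, `S_int`.)

Proof. As `P/A4.lean` (which only uses the conclusion of `S_u1`, here a hypothesis). -/
def S_A4N : Prop := ∀ (Λ : Type) [Group Λ] [Group.FG Λ] (nL : Λ →* Multiplicative ℤ),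
  Function.Surjective nL → (∀ (K : Type) [Field K] [CharZero K], ¬ Good1 nL K 3) →
  ∀ σ : (∀ (p : ℕ) [Fact p.Prime], (Qd 3 ℤ_[p])ˣ),
  (∀ (p : ℕ) [Fact p.Prime] (K : Type) [Field K] [CharZero K] (j : Qd 3 ℤ_[p] →+* K),
    P1 nL K (Units.map j.toMonoidHom (σ p))) →
  (∀ (p : ℕ) [Fact p.Prime], (σ p).val.im ≠ 0) →
  ∃ a₀ : ℤ, ∀ (p : ℕ) [Fact p.Prime], (a₀ : ℤ_[p]) = (σ p).val.trace

/-- [F8N A5N] congruences for the trace. (Uses `S_nc`; as `P/A5.lean` with `n e` instead of `e`.) -/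
def S_A5N : Prop := ∀ (n : ℕ) (Λ : Type) [Group Λ] (Φ : NatBij (GN n) Λ)
  (nL : Λ →* Multiplicative ℤ) (σ : ∀ (p : ℕ) [Fact p.Prime], (Qd 3 ℤ_[p])ˣ),
  (∀ (p : ℕ) [Fact p.Prime], SigN n Φ nL p (σ p)) →
  ∀ a₀ : ℤ, (∀ (p : ℕ) [Fact p.Prime], (a₀ : ℤ_[p]) = (σ p).val.trace) →
  ∀ (M m : ℕ) [NeZero M] [NeZero m] (e : ℤ), ExG Φ (nN n) nL m e → thu 3 (ZMod M) ^ m = 1 →
  (a₀ : ZMod M) = (thu 3 (ZMod M) ^ ((n : ℤ) * e)).val.trace

/-! ### Fibonacci arithmetic -/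

/-- [F8N f3N] the representative. (Uses `S_f1`, `S_f2`; as `P/f3.lean`.)

Proof. `k` = the representative of `± a` modulo `2 j` in `[0, j]`. `thu ^ a = thu ^ (± k)` modulo `ff j` by `S_f2`, and
`trace (thu ^ (-k)) = trace (thu ^ k)`. `k = 0` and `k = j` are excluded because `j` does not divide `a`. -/
def S_f3N : Prop := ∀ (j M : ℕ) (a : ℤ), 2 ≤ j → (M : ℤ) = ff j → ¬ (j : ℤ) ∣ a →
  ∃ k : ℕ, 0 < k ∧ k < j ∧ ((2 * j : ℤ) ∣ a - k ∨ (2 * j : ℤ) ∣ a + k) ∧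
    (thu 3 (ZMod M) ^ a).val.trace = (LL k : ZMod M)

/-- [F8N A6N] the exponents are `±1`. (Uses `S_f1`, `S_f2`, `S_f3N`.)

Proof. Let `j₀ > n`, `j₀ ≥ 3`, be such that `ff (j-2) > |a₀|` for `j ≥ j₀`. Let `j ≥ j₀`, `M = ff j`, `m = 2 j`, `a = n * e (2 j)`. `j` does not divide `a`: `e (2 j)` is
coprime to `j` and `0 < n < j`. `k` from `S_f3N`: `a₀ = LL k` modulo `ff j` and `0 < LL k ≤ LL (j-1) = ff j - ff (j-2)`, so `|LL k - a₀| < ff j` and
`a₀ = LL k`. As `LL` is injective on `ℕ`, `k = k₀` is the same for all `j ≥ j₀`, `k₀ > 0`. Take `j = n k₀ j₀`: `2 j` divides `n e ∓ k₀`, so `n ∣ k₀`, and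
`k₀ ∣ n e`, `k₀ ∣ 2 j` with `e` coprime to `2 j`, so `k₀ ∣ n`. So `k₀ = n`. For every `m > 0` take `j = n m j₀`: `2 n m j₀ ∣ n (e (2 j) ∓ 1)`, so
`m ∣ e (2 j) ∓ 1` and (`m ∣ 2 j`) `m ∣ e m ∓ 1`. Consistency of the sign: if `m` does not divide `e m - 1` and `m'` does not divide `e m' + 1` then
`m m'` divides neither `e (m m') - 1` nor `e (m m') + 1`. -/
def S_A6N : Prop := ∀ (n : ℕ), 1 ≤ n → ∀ (a₀ : ℤ) (e : ℕ → ℤ),
  (∀ m : ℕ, 0 < m → IsCoprime (e m) (m : ℤ)) →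
  (∀ m m' : ℕ, 0 < m → 0 < m' → m ∣ m' → (m : ℤ) ∣ e m - e m') →
  (∀ M m : ℕ, 0 < M → 0 < m → thu 3 (ZMod M) ^ m = 1 →
    (a₀ : ZMod M) = (thu 3 (ZMod M) ^ ((n : ℤ) * e m)).val.trace) →
  (∀ m : ℕ, 0 < m → (m : ℤ) ∣ e m - 1) ∨ (∀ m : ℕ, 0 < m → (m : ℤ) ∣ e m + 1)

/-- [F8N NA] MAIN RESULT of block NA. (Uses `S_abN`, `S_aLN`, `S_exG`, `S_edG`, `S_u1N`, `S_A1N`, `S_A2N`, `S_A4N`, `S_A5N`, `S_A6N`.)

Proof. As `P/A.lean`. `GN n` is finitely generated (by `iN n ga`, `iN n gb`, `tN n`; `GN_cases`). `nL` from `S_aLN`, `e m` from `S_exG`, `σ p` from `S_A1N`, `a₀` from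
`S_A4N` (`S_u1N`), then `S_A5N`, `S_A6N`. `ExG Φ nG nL m e` only depends on `e` modulo `m`. In the first case take `nL`, in the second
`(zpowGroupHom (-1)).comp nL` (again `IsAbF`); `ExG .. m 1` is `CmG`. -/
def S_NA : Prop := ∀ (n : ℕ), 1 ≤ n → ∀ (Λ : Type) [Group Λ] [Group.FG Λ],
  SameFiniteQuotients Λ (GN n) → ∀ Φ : NatBij (GN n) Λ,
  ∃ nL : Λ →* Multiplicative ℤ, IsAbF nL ∧ CmG Φ (nN n) nL

end

end Pool.Agent.F8
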