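import Pool.Agent.Lib.MP_305fdd_al.F8.DefsN

/-!
# MP_305fdd_al, cyclic covers of the figure-eight knot complement. Block NI: isolation of `ρ₀`

MAIN RESULT (`S_NI`): over a field `K`, an irreducible representation `ρ` of `GN n` (`n ≥ 2`) has the
character of `rN n w` as soon as the twisted cohomology of the subgroups `GN n`, `GN (2 n)`, `GN (3 n)` with
characters `χ` from complete families is non-zero for the same exceptional values `τ`.

The idea. The trace of `t⁻¹` on `H¹(F, ρ ⊗ χ)` is `s(ρ, χ) = ∑ χ(w) tr ρ(t⁻¹ w) - tr ρ(t)`, the sum over the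
occurrences `phi ^ N (lt i) = w (lt i) w'`; every non-trivial class of `ℤ² / (phi ^ N - 1)` contains exactly
one occurrence, so `s(ρ, χ)` for all `χ` determines the numbers `tr ρ(t⁻¹ w)`. For `n ≥ 2` the elements
`t⁻¹ u x`, `t⁻¹ u x u x`, `t⁻¹ u x u x u` generate `GN n` and their products are `t⁻ᵏ w`, `w` again an
occurrence; seven traces determine the character of a group with three generators.

Every piece may use the statements named in its docstring as hypotheses.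
-/

set_option autoImplicit false

namespace Pool.Agent.F8

open Pool.Agent.MP_305fdd_al Pool.Agent.Lib.MP_305fdd_al Pool.Agent.F2X
open scoped QuadraticAlgebra

noncomputable section

/-! ## Part 1: occurrences -/

/-- [F8N ocp] occurrences compose.

Proof. Induction on `N` for all `i, w`. `N = 0`: `w = 1`, `i = k`. `N + 1`, `i = false` (unfold `oc`, `List.mem_append`,
`List.mem_map`): if `w ∈ oc N false k` then by induction `phi^M w * w' ∈ oc (N+M) false j ⊆ oc (N+M+1) false j`; if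
`w = phi^N x0 * w₀`, `w₀ ∈ oc N true k`, then `phi^M w * w' = phi^(N+M) x0 * (phi^M w₀ * w')` (`pow_add`, `MulAut.mul_apply`,
commutativity of powers) and `phi^M w₀ * w' ∈ oc (N+M) true j`. `i = true`: three cases, the same.
(`N + 1 + M = N + M + 1`: `Nat.add_right_comm`.) -/
def S_ocp : Prop := ∀ (N M : ℕ) (i k j : Bool) (w w' : F), w ∈ oc N i k → w' ∈ oc M k j →
  (phi ^ M) w * w' ∈ oc (N + M) i j

/-- [F8N ocv] the translation part of an affine representation on `phi ^ M (lt i)` (fundamental formula of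
Fox calculus).

Proof. Induction on `M`: `phi^(M+1) (lt i) = phi^M (phi (lt i))` (`pow_succ`, `MulAut.mul_apply`), `phi_x0`, `phi_ga'`; `Q2.mul_v`,
and `(phi^M) (ga * x0 * ga) = phi^M (ga) * phi^M x0 * phi^M ga`, `Q2.mul_t`, `Q2.mul_m`; distribute
`t • m.mulVec` over the sums (`List.sum_map_add`, `Matrix.mulVec_add`, `Matrix.mulVec_smul`, induction on lists). -/
def S_ocv : Prop := ∀ (R : Type) [CommRing R] (f : F →* Q2 R) (M : ℕ) (i : Bool),
  (f ((phi ^ M) (lt i))).v =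
    ((oc M i false).map fun w => (f w).t.val • (f w).m.val.mulVec (f x0).v).sum +
    ((oc M i true).map fun w => (f w).t.val • (f w).m.val.mulVec (f ga).v).sum

/-- [F8N ccp] `phi` in the coordinates `cx, cu`, and growth.

Proof. `cx (phi w) = cx w + cu w`, `cu (phi w) = cx w + 2 cu w`: `vec (phi w) = amat phi * vec w` (`vec_hom phi.toMonoidHom`,
`amat_eq`, `phi_ga`, `phi_gb`). The rest by induction on `M` (`pow_succ`). -/
def S_ccp : Prop := (∀ w : F, cx (phi w) = cx w + cu w ∧ cu (phi w) = cx w + 2 * cu w) ∧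
  ∀ (M : ℕ) (w : F), 0 ≤ cx w → 0 ≤ cu w → 0 ≤ cx ((phi ^ M) w) ∧ 0 ≤ cu ((phi ^ M) w) ∧
    cx w + cu w ≤ cx ((phi ^ M) w) + cu ((phi ^ M) w)

/-- [F8N pos] occurrences are prefixes of positive words. (Uses `S_ccp`.)

Proof. Induction on `N`: for `w ∈ oc (N+1) false j`: `w ∈ oc N false j`, and `cx (phi^(N+1) x0) = cx (phi^N x0) + cx (phi^N ga)` with
a non-negative second term (`S_ccp` for `w = ga`); or `w = phi^N x0 * w₀`. Same for `true`. -/
def S_pos : Prop := ∀ (N : ℕ) (i j : Bool) (w : F), w ∈ oc N i j → 0 ≤ cx w ∧ 0 ≤ cu w ∧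
  cx w + cx (lt j) ≤ cx ((phi ^ N) (lt i)) ∧ cu w + cu (lt j) ≤ cu ((phi ^ N) (lt i))

/-- [F8N pr] proper occurrences compose. (Uses `S_ocp`, `S_ccp`, `S_pos`.)

Proof. Membership: `S_ocp`. Let `l = cx + cu`. `l (phi^M w) ≥ l w > 0` and `l w' > 0`. Let `r = ga⁻¹ * w⁻¹ * phi^N ga`; by `S_pos`
`cx r, cu r ≥ 0`. `phi^(N+M) ga = phi^M w * phi^M ga * phi^M r`, `l (phi^M r) ≥ l r > 0`, `l (phi^M ga) > l w' + 1`. -/
def S_pr : Prop := ∀ (N M : ℕ) (w w' : F), Pr N w → Pr M w' → Pr (N + M) ((phi ^ M) w * w')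

/-- [F8N w123] the three loops. (Uses `S_ccp`.)

Proof. Induction on `n` from `2`. `oc 2 true true = [1, ga * x0, phi ga * x0, phi (ga * x0) * 1, phi (ga * x0) * (ga * x0)]`
(up to `1 *`), where `phi ga = ga * x0 * ga`, `phi (ga * x0) = ga * x0 * ga * (x0 * ga)`; `l (phi^2 ga) = 8`, `l w1 = 2`, `l w2 = 4`, `l w3 = 5`.
Step: `oc n true true ⊆ oc (n+1) true true`, `l (phi^(n+1) ga) ≥ l (phi^n ga)`. -/
def S_w123 : Prop := ∀ n : ℕ, 2 ≤ n → Pr n w1 ∧ Pr n w2 ∧ Pr n w3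

/-! ## Part 2: uniqueness of the occurrences in a class -/

/-- [F8N Jd] the abelianised Jacobian matrix.

Proof. Write `a N i j` for the sums. From the definition of `oc` (`List.map_append`, `List.sum_append`, `List.sum_map_mul_left`):
`a (N+1) false j = a N false j + X a N true j`, `a (N+1) true j = a N true j + U (a (N+1) false j)` with `X = c (phi^N x0)`,
`U = c (phi^N ga)` (as `c (phi^N (ga * x0)) = U X`). Two row operations: the determinant does not change.
Second assertion by induction: `(X - 1) + X (U - 1) = X U - 1 = c (phi^N (x0 * ga)) - 1`, and `(U - 1) + U (X U - 1) = U X U - 1`. -/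
def S_Jd : Prop := ∀ (R : Type) [CommRing R] (c : F →* R) (N : ℕ),
  ((oc N false false).map c).sum * ((oc N true true).map c).sum -
      ((oc N false true).map c).sum * ((oc N true false).map c).sum = 1 ∧
    ∀ i, ((oc N i false).map c).sum * (c x0 - 1) + ((oc N i true).map c).sum * (c ga - 1) =
      c ((phi ^ N) (lt i)) - 1

/-- [F8N Jq] `2 - tr J` kills the augmentation ideal. (Uses `S_Jd`.)

Proof. With `p = c x0 - 1`, `q = c ga - 1`, entries `a, b, c', d` of the matrix: `(a - 1) p + b q = 0`, `c' p + (d - 1) q = 0`, so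
`((a - 1)(d - 1) - b c') p = 0`, same for `q`, and `(a - 1)(d - 1) - b c' = 2 - (a + d)` by the determinant. So `z = 2 - (a + d)`
satisfies `z c(x0) = z`, `z c(ga) = z`. The `w` with `z c(w) = z` form a subgroup of `F` (`c w` is invertible),
which contains `gb = ga * x0⁻¹`. -/
def S_Jq : Prop := ∀ (R : Type) [CommRing R] (c : F →* R) (N : ℕ),
  (∀ w, c ((phi ^ N) w) = c w) → ∀ w, (2 - ((oT N).map c).sum) * c w = 2 - ((oT N).map c).sum

/-- [F8N Lu] the trace of `phi ^ N` and the number of occurrences.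

Proof. `A = AM phi` has trace `3` and determinant `1` (`amat_eq`); `A² = 3 A - 1` (Cayley-Hamilton, or compute), so
`tr A^(N+2) = 3 tr A^(N+1) - tr A^N`; `det A^N = 1`. The lengths `l N i j` of `oc N i j` satisfy `l (N+1) false j = l N false j + l N true j`,
`l (N+1) true j = l N false j + 2 l N true j`; so `l (N+2) i j = 3 l (N+1) i j - l N i j`, and `l 0 = 1`. `Lu (N+1) > Lu N ≥ 2`
by induction. -/
def S_Lu : Prop := ∀ N : ℕ, (AM (phi ^ N)).val.trace = Lu N ∧ (AM (phi ^ N)).val.det = 1 ∧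
  ((oT N).length : ℤ) = Lu N ∧ 2 < Lu (N + 1)

/-- [F8N cg] the order of the class group. (Uses `S_Lu`.)

Proof. `M = A^N - 1` has determinant `det A^N - tr A^N + 1 = 2 - Lu N ≠ 0`, so `v ↦ M v` is injective on `ℤ²` and its range has
index `|det M|` (Mathlib: `AddSubgroup.index_eq_natAbs_det`, `Submodule.natAbs_det_equiv`,
`LinearAlgebra/FreeModule/Finite/CardQuotient.lean`); `LinearMap.det_toLin'`. -/
def S_cg : Prop := ∀ N : ℕ, 1 ≤ N → Finite (CG N) ∧ (Nat.card (CG N) : ℤ) = Lu N - 2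

open Classical in
/-- [F8N U] THE KEY LEMMA: every non-trivial class contains exactly one occurrence, the trivial class
three. (Uses `S_Jq`, `S_Lu`, `S_cg`.)

Proof. `R = MonoidAlgebra ℤ (CG N)`, `c w = single (cl N w) 1` (`MonoidAlgebra.of`), invariant by `cl_phi`. The coefficient of
`z = 2 - ∑_(w ∈ oT N) c w` at `g` is `2 [g = 1] - count g`. By `S_Jq` and `cl_surjective` `z * single g 1 = z` for all `g`, so all
coefficients of `z` are equal, `= -q`. Summing over `g ∈ CG N`: `2 - Lu N = -q (Lu N - 2)` with `Lu N - 2 > 0`, so `q = 1`. -/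
def S_U : Prop := ∀ N : ℕ, 1 ≤ N → ∀ c : CG N,
  (oT N).countP (fun w => decide (cl N w = c)) = if c = 1 then 3 else 1

/-- [F8N Pcl] proper occurrences have non-trivial class. (Uses `S_U`, `S_ocp`, `S_pos`.)

Proof. `1 ∈ oc N i i` for both `i`, and `e = phi^N ga * ga⁻¹ ∈ oc N true true` (induction on `N`: last entry
`phi^N (ga * x0) * (phi^N ga * ga⁻¹) = phi^(N+1) ga * ga⁻¹`), `cl N e = 1` (`cl_phi`). If `cl N w = 1` for a proper occurrence `w` then
`1, e, w` are three different elements of `oc N true true` (`l 1 = 0 < l w < l e = l (phi^N ga) - 1`) of class `1`; together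
with `1 ∈ oc N false false` the count for the class `1` is at least `4`. (`List.countP_append`; three different members of a
list satisfying `p` give `3 ≤ countP p`.) -/
def S_Pcl : Prop := ∀ (N : ℕ) (w : F), 1 ≤ N → Pr N w → cl N w ≠ 1

/-! ## Part 3: linear algebra -/

/-- `K² × K²` -/
abbrev E2 (K : Type) : Type := (Fin 2 → K) × (Fin 2 → K)

/-- [F8N trq] the trace and invariant subspaces.

Proof. As Mathlib's `LinearMap.det_eq_det_mul_det` (`LinearAlgebra/Determinant.lean`): in the basis `sumQuot bW bQ` the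
matrix is `fromBlocks A B 0 D`; `LinearMap.trace_eq_matrix_trace`, `Matrix.trace_fromBlocks`. -/
def S_trq : Prop := ∀ (K V : Type) [Field K] [AddCommGroup V] [Module K V]
  [FiniteDimensional K V] (W : Submodule K V) (e : V →ₗ[K] V) (he : W ≤ W.comap e),
  LinearMap.trace K V e = LinearMap.trace K W (e.restrict he) +
    LinearMap.trace K (V ⧸ W) (W.mapQ W e he)

/-- [F8N lin] the eigenvalues on the quotient. (Uses `S_trq`.)

Proof. `W = range δ` has dimension `2` and is stable under `U`; `U` on `W` is conjugate to `S` by `δ`, so has trace `tr S` and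
determinant `1`. So `Ū` on `Q = E2 / W` (dimension `2`) has determinant `1` (`LinearMap.det_eq_det_mul_det`) and trace
`s = tr U - tr S` (`S_trq`). There is `c̄ ≠ 0` with `Ū c̄ = τ c̄` iff `det (Ū - τ) = 0` (`Module.End.hasEigenvalue_iff..`,
`LinearMap.det_eq_zero_iff_ker_ne_bot`), and in dimension `2` `det (Ū - τ) = τ² - s τ + 1` (choose a basis:
`Matrix.det_fin_two`). -/
def S_lin : Prop := ∀ (K : Type) [Field K] (U : E2 K →ₗ[K] E2 K) (δ : (Fin 2 → K) →ₗ[K] E2 K)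
  (S : Matrix (Fin 2) (Fin 2) K), Function.Injective δ → (∀ y, U (δ y) = δ (S.mulVec y)) →
  S.det = 1 → LinearMap.det U = 1 → ∀ τ : K,
  (∃ c, c ∉ LinearMap.range δ ∧ U c - τ • c ∈ LinearMap.range δ) ↔
    τ * τ - (LinearMap.trace K _ U - S.trace) * τ + 1 = 0

/-- the entry `(i, j)` of the Jacobian matrix -/
def Jm {R : Type} [CommRing R] (N : ℕ) (m : F →* Matrix (Fin 2) (Fin 2) R) (i j : Bool) :
    Matrix (Fin 2) (Fin 2) R := ((oc N i j).map m).sum

/-- the operator `c ↦ T c ∘ phi ^ N` on the cocycles of `F` (pairs of values at `x0, u`) -/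
def opU {K : Type} [Field K] (N : ℕ) (m : F →* Matrix (Fin 2) (Fin 2) K)
    (T : Matrix (Fin 2) (Fin 2) K) : E2 K →ₗ[K] E2 K where
  toFun c := (T.mulVec ((Jm N m false false).mulVec c.1 + (Jm N m false true).mulVec c.2),
    T.mulVec ((Jm N m true false).mulVec c.1 + (Jm N m true true).mulVec c.2))
  map_add' c d := by
    simp only [Prod.fst_add, Prod.snd_add, Matrix.mulVec_add, Prod.mk_add_mk, Prod.mk.injEq]
    constructor <;> abel
  map_smul' r c := by
    simp only [Prod.smul_fst, Prod.smul_snd, Matrix.mulVec_smul, RingHom.id_apply, Prod.smul_mk,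
      Matrix.mulVec_add, smul_add]

/-- [F8N od] its determinant.

Proof. `opU N m T = (T, T) ∘ J_N`, `J_N = opU N m 1`, and `J_(N+1) = B ∘ A ∘ J_N` with the transvections
`A (p, q) = (p + X q, q)`, `B (p, q) = (p, q + U p)`, `X = m (phi^N x0)`, `U = m (phi^N ga)` (as in `S_Jd`). `J_0 = id`. Determinants: of
`(T, T)` it is `(det T)²`, of transvections `1`: e.g. in matrices indexed by `Fin 2 ⊕ Fin 2`:
`Matrix.det_fromBlocks_zero₁₂`, `Matrix.det_fromBlocks_zero₂₁`; `LinearMap.det_toMatrix`, or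
`LinearMap.det_prodMap`, `LinearEquiv` shear maps. -/
def S_od : Prop := ∀ (K : Type) [Field K] (N : ℕ) (m : F →* Matrix (Fin 2) (Fin 2) K)
  (T : Matrix (Fin 2) (Fin 2) K), LinearMap.det (opU N m T) = T.det * T.det

/-- [F8N ot] its trace.

Proof. The trace of a block operator `(p, q) ↦ (a p + b q, c p + d q)` is `tr a + tr d`
(`LinearMap.trace_eq_matrix_trace` with the product basis, `Matrix.trace_fromBlocks`; or `LinearMap.trace_prodMap`
and trace zero of the off-diagonal part), `a = T * Jm false false`, `d = T * Jm true true`; `oT` is the concatenation. -/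
def S_ot : Prop := ∀ (K : Type) [Field K] (N : ℕ) (m : F →* Matrix (Fin 2) (Fin 2) K)
  (T : Matrix (Fin 2) (Fin 2) K),
  LinearMap.trace K _ (opU N m T) = ((oT N).map fun w => (T * m w).trace).sum

/-- [F8N ncb] `NC` means: not a coboundary.

Proof. If `(Θ g).v = -(X (Θ g)) y` for all `g` then `W (Θ g) (Θ h) = -det X_g X_h y + X_h adj(X_g) X_g y = 0`
(`Matrix.adjugate_mul`). Conversely if `W (Θ k) (Θ h) = 0` for all `h` then `(Θ h).v = X_h (det X_k)⁻¹ adj(X_k) (Θ k).v`; take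
`y = -(det X_k)⁻¹ adj(X_k) (Θ k).v`. -/
def S_ncb : Prop := ∀ (K : Type) [Field K] (G : Type) [Group G] (Θ : G →* Q2 K) (k : G),
  (Q2.X (Θ k)).det ≠ 0 → (NC Θ ↔ ¬ ∃ y : Fin 2 → K, ∀ g, (Θ g).v = -((Q2.X (Θ g)).mulVec y))

/-- [F8N n1a] from an affine representation to the quadratic equation. (Uses `S_ocv`, `S_lin`, `S_od`, `S_ot`, `S_ncb`.)

Proof. `ρ, σ` the matrix and the scalar part, `m w = σ(w) ρ(w)` for `w ∈ F`, `T = ρ(t)`, `τ = σ(t)`, `v` the translation part,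
`c = (v(x0), v(u))`, `δ y = ((1 - m x0) y, (1 - m u) y)`, `U = opU N m T⁻¹`. There is `k ∈ F`, a commutator, with
`det (1 - ρ(k)) = 2 - tr ρ(k) ≠ 0` (`Irr`), `σ(k) = 1`. `δ` is injective: if `m x0 y = y = m u y` then `m w y = y` for all `w`, so
`(1 - ρ(k)) y = 0`. `U (δ y) = δ (T⁻¹ y)`: `S_ocv` for `w ↦ (σ w, ρ w, (1 - m w) y)` gives
`J (δ y) = ((1 - m (phi^N x0)) y, ..)`, and `T⁻¹ m(phi^N w) = m(w) T⁻¹` (`tN_conj`). The relation `t w = phi^N(w) t` gives
`v(t) + τ T v(w) = v(phi^N w) + m(phi^N w) v(t)`, so with `S_ocv` `U c = τ c + δ (T⁻¹ v(t))`. `c ∉ range δ`: if `c = δ y` then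
`v(w) = (1 - m w) y` for `w = x0, u`, so for all `w ∈ F`; `U c = δ(T⁻¹ y)` gives `δ (T⁻¹ y - τ y - T⁻¹ v(t)) = 0`, so
`v(t) = (1 - τ T) y`, and `(Θ g).v = -(X (Θ g)) y` for all `g` (a subgroup of `g`'s, `GN_cases`): contradiction to
`NC` by `S_ncb`. Now `S_lin` with `S = T⁻¹`, `det U = 1` (`S_od`), `tr U = ∑ σ(w) tr(T⁻¹ ρ(w))` (`S_ot`), `tr T⁻¹ = tr T`. -/
def S_n1a : Prop := ∀ (K : Type) [Field K] (N : ℕ) (ρ : GN N →* SL2 K) (σ : GN N →* Kˣ),
  Irr (ρ.comp (iN N)) → Ex1 ρ σ →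
  (σ (tN N)).val * (σ (tN N)).val - sT ρ σ * (σ (tN N)).val + 1 = 0

/-- [F8N n1b] the converse. (Uses `S_ocv`, `S_lin`, `S_od`, `S_ot`, `S_ncb`.)

Proof. Notation of `S_n1a`. `S_lin` gives `c = (p, q) ∉ range δ` and `y'` with `U c - τ c = δ y'`. Let `f : F →* Q2 K` be the
homomorphism with `f ga = (σ u, ρ u, q)`, `f x0 = (σ x0, ρ x0, p)` (`FreeGroup.lift`, `f gb = f ga * (f x0)⁻¹`); its matrix and scalar
parts are `ρ`, `σ` on `F`. Let `s = (τ, T, T y')`. Then `f (phi^N w) = s (f w) s⁻¹` for `w = x0, u`, hence for all `w` (both sides are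
homomorphisms): the translation part by `S_ocv`: `v(phi^N w) = (T U c)_w = τ T v(w) + T (1 - m w) y' = τ T v(w) + (1 - m (phi^N w)) T y'`.
`Θ = liftN f s`. Not a coboundary: otherwise `c = δ(-y)` or so, in the range of `δ`; `S_ncb` with `k` as before. -/
def S_n1b : Prop := ∀ (K : Type) [Field K] (N : ℕ) (ρ : GN N →* SL2 K) (σ : GN N →* Kˣ),
  Irr (ρ.comp (iN N)) →
  (σ (tN N)).val * (σ (tN N)).val - sT ρ σ * (σ (tN N)).val + 1 = 0 → Ex1 ρ σ

/-! ## Part 4: inversion -/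

/-- [F8N seq] equal exceptional values give equal traces. (Uses `S_n1a`.)

Proof. `σ = χ * (pw τ).comp (nN N)` has `σ(t) = τ` and `σ(w) = χ(w)` for `w ∈ F` (`nN_iN`), so `sT ρ σ = sT ρ χ`. Subtract the two
quadratic equations: `(sT ρ χ - sT ρ' χ) τ = 0`. -/
def S_seq : Prop := ∀ (K : Type) [Field K] (N : ℕ) (ρ ρ' : GN N →* SL2 K) (χ : GN N →* Kˣ)
  (τ : Kˣ), χ (tN N) = 1 → Irr (ρ.comp (iN N)) → Irr (ρ'.comp (iN N)) →
  Ex1 ρ (χ * (pw τ).comp (nN N)) → Ex1 ρ' (χ * (pw τ).comp (nN N)) → sT ρ χ = sT ρ' χ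

/-- [F8N fou] Fourier inversion. (Uses `S_U`.)

Proof. Let `d(w') = tr ρ(t⁻¹ w') - tr ρ'(t⁻¹ w')`. Then
`0 = ∑_i χ_i(w)⁻¹ (sT ρ χ_i - sT ρ' χ_i) = ∑_(w' ∈ oT N) (∑_i χ_i(w⁻¹ w')) d(w') - (∑_i χ_i(w⁻¹)) (tr ρ(t) - tr ρ'(t))`. The inner sum is
`0` if `cl N w' ≠ cl N w` (`Cpl.orth`), and the last sum is `0` because `cl N w⁻¹ ≠ 1`. By `S_U` `w` is the only entry of `oT N` with
class `cl N w`; for it the inner sum is `c`. So `c d(w) = 0`, `d(w) = 0`. (E.g. write the sum over the list as the sum over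
the filtered list `(oT N).filter (cl N · = cl N w)`, which has length one and contains `w`, so it is `[w]`.) -/
def S_fou : Prop := ∀ (K : Type) [Field K] (N c : ℕ) (X : Fin c → (GN N →* Kˣ)), 1 ≤ N →
  Cpl N X → ∀ ρ ρ' : GN N →* SL2 K, (∀ i, sT ρ (X i) = sT ρ' (X i)) →
  ∀ w ∈ oT N, cl N w ≠ 1 → tr (ρ (gl N w)) = tr (ρ' (gl N w))

/-! ## Part 5: determination -/

/-- [F8N fr3] seven traces determine a triple up to conjugation (Fricke, Vogt).

Proof. Let `A₀, A₁, A₂` and `B₀, B₁, B₂` be the triples. `tr [A₀, A₁] = x² + y² + z² - x y z - 2` for the traces `x, y, z` of `A₀, A₁, A₀ A₁`,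
so it is also `tr [B₀, B₁] ≠ 2`, and `1, A₀, A₁, A₀ A₁` is a basis of `M₂(K)` (the determinant of the four matrices is
`± (2 - tr [A₀, A₁])`), same for `B`. The Gram matrices of the trace form in the two bases are equal (entries are
integral polynomials in `x, y, z`). `A₂ = ∑ c_i a_i` with the coefficients determined by the Gram matrix and the numbers
`tr A₂, tr (A₂ A₀), tr (A₂ A₁), tr (A₂ A₀ A₁)`, the same for `B₂`. The linear bijection `a_i ↦ b_i` of `M₂(K)` is multiplicative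
(structure constants are polynomials in `x, y, z`: `A₀² = x A₀ - 1`, `A₁ A₀ = ...`), so it is conjugation by a `P` (as in
`H.S_bn`). Alternatively directly: `P` with `P A₀ = B₀ P`, `P A₁ = B₁ P` exists and is invertible, then the matrix
`B₂ - P A₂ P⁻¹` is orthogonal to `1, B₀, B₁, B₀ B₁` for the trace form, so it is `0`. -/
def S_fr3 : Prop := ∀ (K : Type) [Field K] (A₀ A₁ A₂ B₀ B₁ B₂ : SL2 K),
  tr A₀ = tr B₀ → tr A₁ = tr B₁ → tr A₂ = tr B₂ → tr (A₀ * A₁) = tr (B₀ * B₁) →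
  tr (A₀ * A₂) = tr (B₀ * B₂) → tr (A₁ * A₂) = tr (B₁ * B₂) →
  tr (A₀ * A₁ * A₂) = tr (B₀ * B₁ * B₂) → tr (A₀ * A₁ * A₀⁻¹ * A₁⁻¹) ≠ 2 →
  ∃ P : GL (Fin 2) K, P.val * A₀.val = B₀.val * P.val ∧ P.val * A₁.val = B₁.val * P.val ∧
    P.val * A₂.val = B₂.val * P.val

/-- [F8N gen] the three loops generate, and their products are loops.

Proof. The subgroup contains `(gl w2)⁻¹ * gl w3 = iN ga` (`w3 = w2 * ga`), `(gl w1)⁻¹ * gl w2 = iN (ga * x0)` (`w2 = w1 * (ga * x0)`), so `iN x0`,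
`iN gb` (`gb = ga * x0⁻¹`), `iN w` for all `w`, and `t`; `GN_cases`. Products: `t⁻¹ w t⁻¹ w' = t⁻² (t w t⁻¹) w' = t⁻² phi^n(w) w'`
(`tN_conj`), `inc_tN`, `inc_iN`; for three factors `t⁻³ phi^(2n)(w) phi^n(w') w''`, `tN_pow_conj`. -/
def S_gen : Prop := ∀ n : ℕ,
  Subgroup.closure {gl n w1, gl n w2, gl n w3} = ⊤ ∧
  (∀ w : F, gl n w = inc n 1 (gl (n * 1) w)) ∧
  (∀ w w' : F, gl n w * gl n w' = inc n 2 (gl (n * 2) ((phi ^ n) w * w'))) ∧
  ∀ w w' w'' : F, gl n w * gl n w' * gl n w'' =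
    inc n 3 (gl (n * 3) ((phi ^ n) ((phi ^ n) w * w') * w''))

/-- [F8N ir] irreducibility of `rN`.

Proof. `rN (iN ·)` = `rho8 ∘ inl`; `tr (rho8 [uu, vv]) = -2`: compute with `matU`, `matV`. `gl n w2 = gl n w1 * iN w1`, so the commutator
`[gl w1, gl w2]` is conjugate (by `gl w1`) to `[gl w1, iN w1]`, `gl w1 = t⁻¹ (iN w1)`, so it is `t⁻¹ y t y⁻¹`, `y = iN w1`;
`rN t⁻¹ = ma⁻ⁿ = [[1, -n], [0, 1]]`, `y = u v⁻¹ u ↦ [[.., ..], [w², ..]]` with lower left entry `w²`, and
`tr [[[1, -n], [0, 1]], y] = 2 + n² (w²)² = 2 + n² w` (`w³ = 1`). -/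
def S_irn : Prop := ∀ (R : Type) [CommRing R] (n : ℕ) (w : R) (hw : w * w + w + 1 = 0),
  tr (rN n w hw (iN n (ga * gb * ga⁻¹ * gb⁻¹))) = -2 ∧
  tr (rN n w hw (gl n w1 * gl n w2 * (gl n w1)⁻¹ * (gl n w2)⁻¹)) = 2 + (n : R) * n * w

/-- [F8N NI] MAIN RESULT of block NI. (Uses `S_seq`, `S_fou`, `S_fr3`, `S_gen`, `S_irn`, `S_pr`, `S_w123`, `S_Pcl`.)

Proof. For `m : Fin 3`, `N = n (m+1)`, `ρ_m = ρ.comp (inc n (m+1))`, `ρ_m.comp (iN N) = ρ.comp (iN n)` (`inc_iN`), so irreducible; `rN N w` is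
irreducible on `F` by `S_irn` (`-2 ≠ 2`). `S_seq` and `S_fou`: `tr ρ_m(gl N w') = tr rN N (gl N w')` for all `w' ∈ oT N` of non-trivial class,
in particular (`S_Pcl`, `oc N true true ⊆ oT N`) for all proper `w'`. By `S_w123` and `S_pr` the elements `w_i`, `phi^n(w_i) w_j`,
`phi^n(phi^n(w_i) w_j) w_k` are proper at the levels `n * 1`, `n * 2`, `n * 3` (`n + n = n * 2` etc.: `Pr` with an equation of the
index). With `S_gen` and `rN_inc` `ρ` and `rN n w` have the same traces on `g_i = gl n w_i`, `g_i g_j`, `g₁ g₂ g₃`. By `S_irn`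
`tr [g₁, g₂] - 2 = n² w ≠ 0` (`w ≠ 0` because `w (w + 1) = -1`). `S_fr3` gives `P` with `P (rN g_i) = (ρ g_i) P`; the `g` with
`P (rN g) = (ρ g) P` form a subgroup, so all `g` (`S_gen`), and the traces are equal. -/
def S_NI : Prop := ∀ (n : ℕ), 2 ≤ n → ∀ (K : Type) [Field K], (2 : K) ≠ 0 → (n : K) ≠ 0 →
  ∀ (w : K) (hw : w * w + w + 1 = 0) (ρ : GN n →* SL2 K), Irr (ρ.comp (iN n)) →
  ∀ (c : Fin 3 → ℕ) (X : ∀ m : Fin 3, Fin (c m) → (GN (n * (m.val + 1)) →* Kˣ))
    (τ : ∀ m : Fin 3, Fin (c m) → Kˣ), (∀ m, Cpl (n * (m.val + 1)) (X m)) →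
  (∀ m i, Ex1 (rN (n * (m.val + 1)) w hw)
      (X m i * (pw (τ m i)).comp (nN (n * (m.val + 1)))) ∧
    Ex1 (ρ.comp (inc n (m.val + 1)))
      (X m i * (pw (τ m i)).comp (nN (n * (m.val + 1))))) →
  ∀ g, tr (ρ g) = tr (rN n w hw g)

/-! ## Part 6: complete families -/

/-- [F8N cpx] the characters over an algebraically closed field of characteristic zero form a complete
family. (Uses `S_cg`, `S_Lu`.)

Proof. A homomorphism `ψ : CG N →* Kˣ` gives `χ = liftN (ψ.comp (cl N)) 1` (`cl_phi`). `CG N` is a finite commutative group of order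
`c = Lu N - 2 > 0`, and it has `c` homomorphisms to `Kˣ` (Mathlib: `HasEnoughRootsOfUnity`,
`CommGroup.monoidHom_mulEquiv_of_hasEnoughRootsOfUnity` or similar; `IsAlgClosed` gives the instance); enumerate
them by `Fin c`. Orthogonality: for `g = cl N w ≠ 1` there is `ψ₀` with `ψ₀ g ≠ 1`
(`CommGroup.exists_apply_ne_one_of_hasEnoughRootsOfUnity`), and multiplication by `ψ₀` permutes the `ψ`. -/
def S_cpx : Prop := ∀ (K : Type) [Field K] [IsAlgClosed K] [CharZero K] (N : ℕ), 1 ≤ N →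
  ∃ (c : ℕ) (X : Fin c → (GN N →* Kˣ)), (c : ℤ) = Lu N - 2 ∧ Cpl N X ∧ ∀ i g, X i g ^ c = 1

/-- [F8N cpm] complete families and ring homomorphisms. (`Units.map`, `map_sum`.) -/
def S_cpm : Prop := ∀ (R S : Type) [CommRing R] [CommRing S] (f : R →+* S) (N c : ℕ)
  (X : Fin c → (GN N →* Rˣ)), Cpl N X → (c : S) ≠ 0 →
  Cpl N fun i => (Units.map f.toMonoidHom).comp (X i)

/-- [F8N ex0] the exceptional values of `rN` over an algebraically closed field. (Uses `S_n1b`, `S_irn`.)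

Proof. `τ` a root of `X² - s X + 1`, `s = sT (rN ..) χ` (`IsAlgClosed.exists_root` or a square root of `s² - 4`), `τ ≠ 0`;
`sT ρ (χ * (pw τ).comp nN) = sT ρ χ`. -/
def S_ex0 : Prop := ∀ (K : Type) [Field K] [IsAlgClosed K], (2 : K) ≠ 0 → ∀ (N : ℕ)
  (w : K) (hw : w * w + w + 1 = 0) (χ : GN N →* Kˣ), χ (tN N) = 1 →
  ∃ τ : Kˣ, Ex1 (rN N w hw) (χ * (pw τ).comp (nN N)) ∧
    τ.val * τ.val - sT (rN N w hw) χ * τ.val + 1 = 0

end

end Pool.Agent.F8
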