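import Pool.Agent.Lib.MP_305fdd_al.F8.DefsNT
import Pool.Agent.Lib.MP_305fdd_al.F8.StmNI

/-!
# MP_305fdd_al, cyclic covers of the figure-eight knot complement. Block NT: transfer

MAIN RESULT (`S_NT`): there are a function `T : Λ → O = ℤ[ω]` and a representation `s` of `Λ` over
`AlgebraicClosure ℚ` with character `T`, irreducible on the kernel of `nL`, such that `T` modulo `p ^ k` is the
trace of the matched representation `Φ (rE n (ZMod (p ^ k)))`, for all primes `p` and all `k`.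

The idea. `CN nL Ψ w hw ρ` (see `DefsNT`) says that `ρ : Λ → SL₂(K)` has the same exceptional values as `rN n w` at the
levels `1, 2, 3`. Over finite fields `CN` implies that `ρ` has the character of `Φ (rN n w)` (block NI), so by
specialisation there is at most one character with `CN` for every root `w` over a field of characteristic
zero. The `p`-adic representation `(jw (iz p) w hw) ∘ r`, `r = lim Φ (rE n (ZMod (p ^ k)))`, satisfies `CN` for both roots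
`w ∈ Fl p`. Then Galois descent.

Every piece may use the statements named in its docstring as hypotheses.
-/

set_option autoImplicit false

namespace Pool.Agent.F8

open Pool.Agent.MP_305fdd_al Pool.Agent.Lib.MP_305fdd_al Pool.Agent.F2X
open scoped QuadraticAlgebra

noncomputable section

/-! ## Part 1: matching -/

/-- [F8N cgu] characters with values in any finite group.

Proof. Let `k = Nat.card A > 0`, so `a ^ k = 1`. There is `g : Multiplicative (ZMod k) →* A` with `g ∘ redZ k = pw a` (as in `P/exu.lean`).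
Naturality (`Φ.nat`) and `CmG` for `k`. -/
def S_cgu : Prop := ∀ (G Λ : Type) [Group G] [Group Λ] (Φ : NatBij G Λ)
  (nG : G →* Multiplicative ℤ) (nL : Λ →* Multiplicative ℤ), CmG Φ nG nL →
  ∀ (A : Type) [Group A] [Finite A] (a : A), Φ.toFun A ((pw a).comp nG) = (pw a).comp nL

/-- [F8N mlt] products of characters.

Proof. `f * g = m ∘ (f.prod g)` with `m : A × A →* A` the multiplication (`MulMonoidHom`/`mulMonoidHom`, or
`MonoidHom.coprod (MonoidHom.id A) (MonoidHom.id A)`), and `Φ (f.prod g) = (Φ f).prod (Φ g)` by naturality for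
`MonoidHom.fst`, `MonoidHom.snd` (as in `P/mp.lean`). -/
def S_mlt : Prop := ∀ (G Λ : Type) [Group G] [Group Λ] (Φ : NatBij G Λ) (A : Type) [CommGroup A]
  [Finite A] (f g : G →* A), Φ.toFun A (f * g) = Φ.toFun A f * Φ.toFun A g

/-- [F8N mx] the scalar parts. (Uses `S_cgu`, `S_mlt`; `Finite Rˣ` for finite `R`.) -/
def S_mx : Prop := ∀ (N : ℕ) (L : Type) [Group L] (Ψ : NatBij (GN N) L)
  (nL : L →* Multiplicative ℤ), CmG Ψ (nN N) nL → ∀ (R : Type) [CommRing R] [Finite R]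
  (μ : Type) [CommGroup μ] [Finite μ] (x : GN N →* μ) (α : μ →* Rˣ) (τ : Rˣ),
  Ψ.toFun Rˣ (α.comp x * (pw τ).comp (nN N)) = α.comp (Ψ.toFun μ x) * (pw τ).comp nL

/-- [F8N exT] `Ex1` and matching. (Uses `S_mt`.)

Proof. If `Θ` is as in `Ex1 ρ σ` then `Ψ.toFun _ Θ` is as in `Ex1 (Ψ ρ) (Ψ σ)`. Conversely `Θ' = Ψ.invFun _ Θ` for `Θ : L →* Q2 R`
(`Ψ.toFun (Ψ.invFun Θ) = Θ`): `Ψ (mH.comp Θ') = mH.comp Θ = Ψ ρ`, so `mH.comp Θ' = ρ` (`Ψ.left_inv` or `NatBij.injective`), the same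
for `tH`; `NC`. (`Finite (SL2 R)`, `Finite Rˣ`, `Finite (Q2 R)`.) -/
def S_exT : Prop := ∀ (G L : Type) [Group G] [Group L] (Ψ : NatBij G L) (R : Type) [CommRing R]
  [Finite R] (ρ : G →* SL2 R) (σ : G →* Rˣ), Ex1 ρ σ ↔ Ex1 (Ψ.toFun _ ρ) (Ψ.toFun _ σ)

/-- [F8N irF] irreducibility on the fibre. (Uses `S_mp`.)

Proof. Let `u, v ∈ ker nL` be the witnesses, `ρ' = Φ.toFun _ ρ`, `M = Nat.card (SL2 k)`, so `y ^ M = 1` in `SL2 k`. `S_mp` for the pair
`ρ`, `(redZ M).comp (nN n)` (which corresponds to `(redZ M).comp nL` by `CmG`): there is `g` with `ρ g = ρ' u` and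
`redZ M (nN n g) = redZ M (nL u) = 1`. Write `g = iN n f * tN n ^ i` (`GN_cases`), so `M ∣ i` and `ρ (tN n) ^ i = 1`, `ρ (iN n f) = ρ' u`.
Same for `v`: `f'`. The commutator of `f, f'` is the witness. -/
def S_irF : Prop := ∀ (n : ℕ) (Λ : Type) [Group Λ] (Φ : NatBij (GN n) Λ)
  (nL : Λ →* Multiplicative ℤ), CmG Φ (nN n) nL → ∀ (k : Type) [Field k] [Finite k]
  (ρ : GN n →* SL2 k), Irr ((Φ.toFun _ ρ).comp nL.ker.subtype) → Irr (ρ.comp (iN n))

/-- [F8N un1] over finite fields `CN` determines the character. (Uses `S_NI`, `S_n1b`, `S_irn`, `S_mx`, `S_exT`, `S_irF`, `S_mp`.)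

Proof. `ρ' = Φ.invFun _ ρ : GN n →* SL2 k`, so `Φ.toFun _ ρ' = ρ`; `Irr (ρ'.comp (iN n))` by `S_irF`. From the second half of `CN` choose
`c m, μ m, x m, α m, τ m` (`choose`; `m : Fin 3`) and apply `S_NI` for `ρ'` with `X m i = (α m).comp (x m i)`. First `Ex1`: `S_n1b` for
`rN N w` and the character `X m i * (pw (τ m i)).comp (nN N)`: its value at `tN N` is `τ m i` (`Cpl.t1`, `nN_tN`), `sT` of it is
`sT .. (X m i)` (it has the same values on `iN N w`, as `nN_iN`), `Irr` by `S_irn` (`-2 ≠ 2` as `2 ≠ 0`; the commutator of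
`iN n ga`, `iN n gb`). Second `Ex1`: by `S_exT` for `Ψ m` it is equivalent to `Ex1` for
`(Ψ m) (ρ'.comp (inc ..)) = (Φ ρ').comp subtype = ρ.comp subtype` (`Twr.res`) and
`(Ψ m) (X m i * (pw ..).comp nN) = (α m).comp ((Ψ m) (x m i)) * (pw ..).comp (nm ..)` (`S_mx`), which is in `CN`.
So `tr (ρ' g) = tr (rN n w hw g)` for all `g`; for `l : Λ` choose `g` by `S_mp` for the pair `ρ'`, `rN n w hw`. -/
def S_un1 : Prop := ∀ (n : ℕ), 2 ≤ n → ∀ (Λ : Type) [Group Λ] (Φ : NatBij (GN n) Λ)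
  (nL : Λ →* Multiplicative ℤ)
  (Ψ : ∀ m : Fin 3, NatBij (GN (n * (m.val + 1))) (Lm nL (m.val + 1))),
  CmG Φ (nN n) nL → Twr Φ nL Ψ → ∀ (k : Type) [Field k] [Finite k], (2 : k) ≠ 0 → (n : k) ≠ 0 →
  ∀ (w : k) (hw : w * w + w + 1 = 0) (ρ : Λ →* SL2 k), CN nL Ψ w hw ρ →
  ∀ l, tr (ρ l) = tr (Φ.toFun _ (rN n w hw) l)

/-! ## Part 2: specialisation -/

/-- [F8N sTm] functoriality of `sT` (`tr_map`, `map_sum`/`map_list_sum`, `List.map_map`). -/
def S_sTm : Prop := ∀ (R S : Type) [CommRing R] [CommRing S] (f : R →+* S) (N : ℕ)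
  (ρ : GN N →* SL2 R) (χ : GN N →* Rˣ),
  sT ((SLm f).comp ρ) ((Units.map f.toMonoidHom).comp χ) = f (sT ρ χ)

/-- [F8N tl] transport of the condition at one level. (Uses `S_cpm`, `S_sTm`, `S_wm`.)

Proof. The same `c, μ, x`, `α' = (Units.map f).comp α`, `τ' i = Units.map f (τ i)`. `Cpl`: `S_cpm`. The equation: apply `f`, `S_sTm`, `map_rN`.
`Ex1`: `(Q2.map f).comp Θ`, with `mH.comp (Q2.map f) = (SLm f).comp mH`, `tH.comp (Q2.map f) = (Units.map f).comp tH`; `NC`: the witnesses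
`g, h`, component `j`, by `S_wm`. -/
def S_tl : Prop := ∀ (R S : Type) [CommRing R] [CommRing S] (f : R →+* S) (N : ℕ) (L : Type)
  [Group L] (Ψ : NatBij (GN N) L) (nL : L →* Multiplicative ℤ) (w : R) (hw : w * w + w + 1 = 0)
  (ρ : L →* SL2 R) (c : ℕ) (μ : Type) [CommGroup μ] [Finite μ] (x : Fin c → (GN N →* μ))
  (α : μ →* Rˣ) (τ : Fin c → Rˣ), Cpl N (fun i => α.comp (x i)) → (c : S) ≠ 0 →
  (∀ i, (τ i).val * (τ i).val - sT (rN N w hw) (α.comp (x i)) * (τ i).val + 1 = 0) →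
  (∀ i, ∃ Θ : L →* Q2 R, Q2.mH.comp Θ = ρ ∧
    Q2.tH.comp Θ = α.comp (Ψ.toFun μ (x i)) * (pw (τ i)).comp nL ∧
    ∃ g h : L, ∃ j : Fin 2, f (Q2.W (Θ g) (Θ h) j) ≠ 0) →
  LC N Ψ nL (f w) (map_om_eq f hw) ((SLm f).comp ρ)

/-- [F8N fct] functoriality under homomorphisms of fields. (Uses `S_tl`; `f` is injective. For `CN` use the
equality `((SLm f).comp ρ).comp subtype = (SLm f).comp (ρ.comp subtype)` and `tr_map`.) -/
def S_fct : Prop := ∀ (K K' : Type) [Field K] [Field K'] (f : K →+* K') (n : ℕ) (Λ : Type)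
  [Group Λ] (nL : Λ →* Multiplicative ℤ)
  (Ψ : ∀ m : Fin 3, NatBij (GN (n * (m.val + 1))) (Lm nL (m.val + 1)))
  (w : K) (hw : w * w + w + 1 = 0) (ρ : Λ →* SL2 K), CN nL Ψ w hw ρ →
  CN nL Ψ (f w) (map_om_eq f hw) ((SLm f).comp ρ)

/-- [F8N spl] specialisation of the condition at one level. (Uses `S_tl`, `S_wm`, `S_sTm`.)

Proof. Let `c, μ, x, α, τ` and `Θ i` (with witnesses `g i, h i, j i` of `NC`) be the data over `K`. `T = {Θ i}`, `X` consists of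
`(c : K)`, the `α z` (`z ∈ μ`), the `τ i`, `(τ i)⁻¹` and the numbers `Q2.W (Θ i (g i)) (Θ i (h i)) (j i)`. Given `k, R, π` and `w', ρ'`:
`α : μ → Kˣ` and `τ i` lift to `α' : μ →* Rˣ`, `τ' i : Rˣ` (`(α z)⁻¹ = α z⁻¹`; `Units.map R.subtype` is injective).
`Θ' i : L →* Q2 R` with `(Q2.map R.subtype).comp (Θ' i) = Θ i`. As `R.subtype` is injective (on `R`, `Rˣ`, `SL2 R`, matrices):
`Cpl N (fun i => α'.comp (x i))` (`c ≠ 0` in `R`), the quadratic equation over `R` (`S_sTm`, `map_rN`), `mH.comp (Θ' i) = ρ'`,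
`tH.comp (Θ' i) = ..`. `(c : k) ≠ 0` and `π (W ..) ≠ 0` by `SpR.ne` (`S_wm` for `R.subtype`). Now `S_tl` for `π`. -/
def S_spl : Prop := ∀ (N : ℕ) (L : Type) [Group L] (Ψ : NatBij (GN N) L)
  (nL : L →* Multiplicative ℤ) (K : Type) [Field K] (w : K) (hw : w * w + w + 1 = 0)
  (ρ : L →* SL2 K), LC N Ψ nL w hw ρ →
  ∃ (T : Set (L →* Q2 K)) (X : Set K), T.Finite ∧ X.Finite ∧ ∀ (k : Type) [Field k]
    (R : Subring K) (π : R →+* k), SpR π T X →
    ∀ (w' : R) (hw' : w' * w' + w' + 1 = 0) (ρ' : L →* SL2 R), (w' : K) = w →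
    (SLm R.subtype).comp ρ' = ρ → LC N Ψ nL (π w') (map_om_eq π hw') ((SLm π).comp ρ')

/-- [F8N spc] specialisation of `CN`, for two representations with the same `w`. (Uses `S_spl`.)

Proof. `P = Λ × (Lm nL 1 × (Lm nL 2 × Lm nL 3))`, finitely generated: Mathlib has the instances for products and for
subgroups of finite index (`Subgroup.fg_of_index_ne_zero`; `Lm nL m` is the kernel of a homomorphism to a
finite group for `m > 0`: `Subgroup.finiteIndex_ker`). `S_spl` for `ρ₁` and `ρ₂` at the three levels gives `T_(i,m), X_(i,m)`. `T` is the union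
of the images of the `T_(i,m)` under `Θ ↦ Θ ∘ (projection of P)` and of `{(q0 ρ₁) ∘ fst, (q0 ρ₂) ∘ fst}`. `X` is the union of the `X_(i,m)` and of `w`,
`2`, `(n : K)`, `tr (ρ_i [u, v]) - 2` (the witnesses of `Irr`), `tr (ρ₁ l) - tr (ρ₂ l)`. Given `k, R, π`: `w ∈ R`; from `Θ'` for `(q0 ρ_i) ∘ fst`,
composed with `MonoidHom.inl`, and `mH`, we get `ρ_i' : Λ →* SL2 R`; `SpR π T_(i,m) X_(i,m)` holds (compose with the injection
`Lm nL m → P`). The result is `(SLm π).comp ρ_i'`. -/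
def S_spc : Prop := ∀ (n : ℕ), 1 ≤ n → ∀ (Λ : Type) [Group Λ] [Group.FG Λ]
  (nL : Λ →* Multiplicative ℤ)
  (Ψ : ∀ m : Fin 3, NatBij (GN (n * (m.val + 1))) (Lm nL (m.val + 1)))
  (K : Type) [Field K] [CharZero K] (w : K) (hw : w * w + w + 1 = 0) (ρ₁ ρ₂ : Λ →* SL2 K),
  CN nL Ψ w hw ρ₁ → CN nL Ψ w hw ρ₂ → ∀ l : Λ,
  ∃ (P : Type) (_ : Group P) (_ : Group.FG P) (T : Set (P →* Q2 K)) (X : Set K), T.Finite ∧
    X.Finite ∧ ∀ (k : Type) [Field k] (R : Subring K) (π : R →+* k), SpR π T X →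
    (2 : k) ≠ 0 ∧ (n : k) ≠ 0 ∧ ∃ (w' : k) (hw' : w' * w' + w' + 1 = 0)
      (ρ₁' ρ₂' : Λ →* SL2 k), CN nL Ψ w' hw' ρ₁' ∧ CN nL Ψ w' hw' ρ₂' ∧
      (tr (ρ₁ l) ≠ tr (ρ₂ l) → tr (ρ₁' l) ≠ tr (ρ₂' l))

/-- [F8N spt] specialisation of finite sets of data. (Uses `S_spf`, `S_spq`.)

Proof. Enumerate `T` and `X` by `Fin n`, `Fin m` (`Set.Finite.fin_param`, `Finite.exists_equiv_fin`) and apply `S_spf`, `S_spq`. -/
def S_spt : Prop := ∀ (K : Type) [Field K] (P : Type) [Group P] [Group.FG P]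
  (T : Set (P →* Q2 K)) (X : Set K), T.Finite → X.Finite →
  (∃ (k : Type) (_ : Field k) (_ : Finite k) (R : Subring K) (π : R →+* k), SpR π T X) ∧
  (CharZero K → ∃ (R : Subring K) (π : R →+* AlgebraicClosure ℚ), SpR π T X)

/-- [F8N un2] uniqueness in characteristic zero. (Uses `S_un1`, `S_spc`, `S_spt`.)

Proof. Otherwise `tr (ρ₁ l) ≠ tr (ρ₂ l)`; `S_spc` and the first part of `S_spt` give a finite field and two representations with
`CN` for the same `w'` and different traces at `l`, contradiction to `S_un1`. -/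
def S_un2 : Prop := ∀ (n : ℕ), 2 ≤ n → ∀ (Λ : Type) [Group Λ] [Group.FG Λ] (Φ : NatBij (GN n) Λ)
  (nL : Λ →* Multiplicative ℤ)
  (Ψ : ∀ m : Fin 3, NatBij (GN (n * (m.val + 1))) (Lm nL (m.val + 1))),
  CmG Φ (nN n) nL → Twr Φ nL Ψ → ∀ (K : Type) [Field K] [CharZero K] (w : K)
  (hw : w * w + w + 1 = 0) (ρ₁ ρ₂ : Λ →* SL2 K), CN nL Ψ w hw ρ₁ → CN nL Ψ w hw ρ₂ →
  ∀ l, tr (ρ₁ l) = tr (ρ₂ l)

/-! ## Part 3: the `p`-adic representation -/

/-- [F8N rL] the limit of the matched representations. (Uses `S_lz`, `S_lq`, `S_lh`.)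

Proof. As `P/L2.lean`: `Θ k = Φ.toFun _ (q0 (rE n (ZMod (p ^ k))))`, compatible by naturality (`Q2.map f ∘ q0 ρ = q0 (SLm f ∘ ρ)`, `map_rN`,
`Qd.map_th`); the limit `Θ : Λ →* Q2 (Es ℤ_p)`; `r = mH.comp Θ`. -/
def S_rL : Prop := ∀ (n : ℕ) (Λ : Type) [Group Λ] (Φ : NatBij (GN n) Λ) (p : ℕ) [Fact p.Prime],
  ∃ r : Λ →* SL2 (Es ℤ_[p]), ∀ k : ℕ,
    (SLm (Qd.map (-1) (PadicInt.toZModPow k))).comp r = Φ.toFun _ (rE n (ZMod (p ^ k)))

/-- [F8N irp] irreducibility on the kernel of `nL`. (Uses `S_mp`, `S_irn`, `S_nz`, `S_nc`.)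

Proof. `k = 5`, `A = SL2 (Es (ZMod (p ^ 5)))`, `M = Nat.card A`. `S_mp` for the pair `rE n (ZMod (p ^ 5))`, `(redZ M).comp (nN n)` (corresponding to
`(redZ M).comp nL` by `CmG`) and `g = iN n ga`: `l ∈ Λ` with `r l = rE n (iN n ga)` modulo `p ^ 5` and `M ∣ nL l`. Let `t₀ ∈ Λ` with
`nL t₀ = ofAdd 1`; `l' = l * t₀ ^ (-nL l)` is in the kernel of `nL`, and `r t₀ ^ M = 1` modulo `p ^ 5`, so `r l' = rE n (iN n ga)` modulo
`p ^ 5`. The same for `gb`: `l''`. `x = tr (r [l', l'']) - 2` is congruent to `-4` modulo `p ^ 5` (`S_irn`), its norm to `16`, and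
`16` is not `0` modulo `p ^ 5`; so `x.norm ≠ 0` and `jw .. x ≠ 0` by `S_nz`. -/
def S_irp : Prop := ∀ (n : ℕ) (Λ : Type) [Group Λ] (Φ : NatBij (GN n) Λ)
  (nL : Λ →* Multiplicative ℤ), Function.Surjective nL → CmG Φ (nN n) nL →
  ∀ (p : ℕ) [Fact p.Prime] (r : Λ →* SL2 (Es ℤ_[p])),
  (∀ k : ℕ, (SLm (Qd.map (-1) (PadicInt.toZModPow k))).comp r =
    Φ.toFun _ (rE n (ZMod (p ^ k)))) →
  ∀ (w : Fl p) (hw : w * w + w + 1 = 0),
  Irr (((SLm (jw (iz p) w hw)).comp r).comp nL.ker.subtype)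

/-- [F8N ig] integral multiples.

Proof. `Fl p` is algebraic over `ℚ_p` and `ℚ_p` is the fraction field of `ℤ_p` (`PadicInt.isFractionRing`), so `Fl p` is algebraic
over `ℤ_p` (`iz p` as algebra map: `(iz p).toAlgebra`, or the instance from `AlgebraicClosure`; they agree): Mathlib
`Algebra.IsAlgebraic.exists_integral_multiples`, `IsFractionRing.comap_isAlgebraic_iff`. One `a` for finitely many elements:
the product. -/
def S_ig : Prop := ∀ (p : ℕ) [Fact p.Prime] (b : ℕ) (z : Fin b → Fl p),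
  ∃ a : ℤ_[p], a ≠ 0 ∧ ∀ i, (iz p).IsIntegralElem (iz p a * z i)

/-- [F8N RL] finite free `ℤ_p`-algebras are limits. (Uses `S_lz`.)

Proof. Let `b` be a basis of `R`, `R ≅ ℤ_p ^ d`. `Rk = R ⧸ (p ^ k)` (`Ideal.span {(p : R) ^ k}`): an element `∑ y_i b_i` is in the ideal iff
`p ^ k ∣ y_i` for all `i`, i.e. `toZModPow k y_i = 0` (`PadicInt.ker_toZModPow`); so `Rk ≅ (ZMod (p ^ k)) ^ d` additively, finite, and the
limit statement follows from `S_lz` in every coordinate (the compatible family in `R ⧸ (p ^ k)` gives compatible families of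
coordinates). `fk` is `ZMod (p ^ k) ≅ ℤ_p ⧸ (p ^ k) → R ⧸ (p ^ k)` (or `ZMod.castHom`-like: `ZMod.lift`, since `p ^ k = 0` in `Rk`;
`(fk k).comp (toZModPow k) = (π k).comp f`: for `z ∈ ℤ_p` let `a = (toZModPow k z).val`, `z - a ∈ (p ^ k)`); the transition maps are
`Ideal.Quotient.factor`. -/
def S_RL : Prop := ∀ (p : ℕ) [Fact p.Prime] (R : Type) [CommRing R] [Algebra ℤ_[p] R]
  [Module.Free ℤ_[p] R] [Module.Finite ℤ_[p] R],
  ∃ (Rk : ℕ → Type) (_ : ∀ k, CommRing (Rk k)) (π : ∀ k, R →+* Rk k)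
    (q : ∀ k, Rk (k + 1) →+* Rk k) (fk : ∀ k, ZMod (p ^ k) →+* Rk k), IsLim R Rk π q ∧
    (∀ k, Finite (Rk k)) ∧
    (∀ k, (fk k).comp (PadicInt.toZModPow k) = (π k).comp (algebraMap ℤ_[p] R)) ∧
    ∀ k, (q k).comp (fk (k + 1)) = (fk k).comp (tz p k)

/-- [F8N RR] finitely many integral elements lie in a good ring. (Uses `S_RL`.)

Proof. Make `Fl p` a `ℤ_p`-algebra by `iz p`. `R = Algebra.adjoin ℤ_p (Set.range z)` is a finite module (`fg_adjoin_of_finite` or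
`Algebra.adjoin` of finitely many integral elements), torsion free (a subring of a field, `iz p` injective), so free
(`Module.free_of_finite_type_torsion_free'`, `ℤ_p` is a principal ideal domain). `ι = R.val`, `f = algebraMap`. -/
def S_RR : Prop := ∀ (p : ℕ) [Fact p.Prime] (b : ℕ) (z : Fin b → Fl p),
  (∀ i, (iz p).IsIntegralElem (z i)) →
  ∃ (R : Type) (_ : CommRing R) (ι : R →+* Fl p) (f : ℤ_[p] →+* R) (Rk : ℕ → Type)
    (_ : ∀ k, CommRing (Rk k)) (π : ∀ k, R →+* Rk k) (q : ∀ k, Rk (k + 1) →+* Rk k)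
    (fk : ∀ k, ZMod (p ^ k) →+* Rk k), LR p ι f π q fk ∧ ∀ i, ∃ y, ι y = z i

/-- [F8N lft] descent of an affine representation to a good ring. (Uses `S_ig`, `S_RR`.)

Proof. `GN N` is generated by `iN N ga`, `iN N gb`, `tN N`; let `S` be these three elements. By `S_ig` there is `a ≠ 0` such that
`iz p a * (Θ g).v i` is integral for `g ∈ S`, `i = 0, 1`. Let `R` contain (`S_RR`) these elements, the entries of `(Θ g).m` and
the numbers `(Θ g).t`, `(Θ g).t⁻¹` for `g ∈ S` (integral by assumption, `(Θ g).t⁻¹ = (Θ g⁻¹).t`), and the `z i`. The range of the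
homomorphism `Q2.map ι : Q2 R →* Q2 (Fl p)` contains `scl (iz p a) Θ g` for `g ∈ S` (find a preimage: the determinant is one
because `ι` is injective), so for all `g`; `Q2.map ι` is injective. So there is `Θ' : GN N →* Q2 R` with
`(Q2.map ι).comp Θ' = scl (iz p a) Θ` (e.g. `MonoidHom.liftOfRightInverse`-like, `Function.Injective` + range:
`MonoidHom.ofInjective`, or by `liftN`). -/
def S_lft : Prop := ∀ (p : ℕ) [Fact p.Prime] (N : ℕ) (Θ : GN N →* Q2 (Fl p)) (b : ℕ)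
  (z : Fin b → Fl p), (∀ g, (iz p).IsIntegralElem (Θ g).t.val) →
  (∀ g i j, (iz p).IsIntegralElem ((Θ g).m.val i j)) → (∀ i, (iz p).IsIntegralElem (z i)) →
  ∃ (a : ℤ_[p]) (R : Type) (_ : CommRing R) (ι : R →+* Fl p) (f : ℤ_[p] →+* R) (Rk : ℕ → Type)
    (_ : ∀ k, CommRing (Rk k)) (π : ∀ k, R →+* Rk k) (q : ∀ k, Rk (k + 1) →+* Rk k)
    (fk : ∀ k, ZMod (p ^ k) →+* Rk k) (Θ' : GN N →* Q2 R), a ≠ 0 ∧ LR p ι f π q fk ∧
    (∀ i, ∃ y, ι y = z i) ∧ (Q2.map ι).comp Θ' = scl (iz p a) Θ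

/-- [F8N Wsc] scaling (`Q2.W` is linear in the translation parts; `mulVec_smul`). -/
def S_Wsc : Prop := ∀ (G K : Type) [Group G] [Field K] (a : K) (Θ : G →* Q2 K), a ≠ 0 →
  (NC Θ → NC (scl a Θ)) ∧ Q2.mH.comp (scl a Θ) = Q2.mH.comp Θ ∧
  Q2.tH.comp (scl a Θ) = Q2.tH.comp Θ

/-- [F8N pe] the matched affine representation over a good ring. (Uses `S_lh`, `S_mx`, `S_mt`, `S_mp`, `S_wm`.)

Proof. `Θ_k = (Q2.map (π k)).comp Θ : GN N →* Q2 (Rk k)`, `Θ'_k = Ψ.toFun _ Θ_k`, compatible by naturality and `IsLim`; `S_lh` gives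
`Θ' : L →* Q2 R` with `(Q2.map (π k)).comp Θ' = Θ'_k`.
Matrix part: let `w_R`, `j_R = jw f w_R : Es ℤ_p → R`, `j_k = jw (fk k) (π k w_R) : Es (ZMod (p ^ k)) → Rk k`;
`j_k ∘ Qd.map (-1) (toZModPow k) = π k ∘ j_R` (`LR.ck`, `jw_apply`). `(SLm (π k)).comp (mH.comp Θ') = mH.comp Θ'_k = Ψ (mH.comp Θ_k)` (`S_mt`)
`= Ψ (rN N (π k w_R)) = Ψ ((SLm j_k).comp (rE N (ZMod (p ^ k))))` (`map_rN`, `jw_om`) `= (SLm j_k).comp (Ψ (rE ..))` (naturality)
`= (SLm j_k).comp ((SLm (Qd.map ..)).comp r) = (SLm (π k)).comp ((SLm j_R).comp r)`; by uniqueness of limits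
`mH.comp Θ' = (SLm j_R).comp r`. Scalar part: `(Units.map (π k)).comp (tH.comp Θ') = Ψ (tH.comp Θ_k) = Ψ (α_k.comp x * (pw τ_k).comp nN)` with
`α_k = (Units.map (π k)).comp α`, `= α_k.comp (Ψ x) * (pw τ_k).comp nL` (`S_mx`); uniqueness of limits in `R`.
`NC`: let `δ = Q2.W (Θ g) (Θ h) i ≠ 0`; by uniqueness of limits there is `k` with `π k δ ≠ 0`. By `S_mp` for the pair `Θ_k, Θ_k` there
are `l, l'` with `Θ'_k l = Θ_k g`, `Θ'_k l' = Θ_k h`, so `π k (Q2.W (Θ' l) (Θ' l') i) = π k δ ≠ 0` (`S_wm`). -/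
def S_pe : Prop := ∀ (p : ℕ) [Fact p.Prime] (N : ℕ) (L : Type) [Group L] (Ψ : NatBij (GN N) L)
  (nL : L →* Multiplicative ℤ), CmG Ψ (nN N) nL → ∀ (r : L →* SL2 (Es ℤ_[p])),
  (∀ k : ℕ, (SLm (Qd.map (-1) (PadicInt.toZModPow k))).comp r =
    Ψ.toFun _ (rE N (ZMod (p ^ k)))) →
  ∀ (R : Type) [CommRing R] (ι : R →+* Fl p) (f : ℤ_[p] →+* R) (Rk : ℕ → Type)
    [∀ k, CommRing (Rk k)] (π : ∀ k, R →+* Rk k) (q : ∀ k, Rk (k + 1) →+* Rk k)
    (fk : ∀ k, ZMod (p ^ k) →+* Rk k), LR p ι f π q fk →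
  ∀ (w : R) (hw : w * w + w + 1 = 0) (μ : Type) [CommGroup μ] [Finite μ] (x : GN N →* μ)
    (α : μ →* Rˣ) (τ : Rˣ) (Θ : GN N →* Q2 R), Q2.mH.comp Θ = rN N w hw →
    Q2.tH.comp Θ = α.comp x * (pw τ).comp (nN N) → NC Θ →
  Ex1 ((SLm (jw f w hw)).comp r) (α.comp (Ψ.toFun μ x) * (pw τ).comp nL)

/-- [F8N pe2] the matched affine representation over `Fl p`. (Uses `S_pe`, `S_lft`, `S_Wsc`, `S_wm`.)

Proof. `w` is integral (root of `X² + X + 1`), the entries of `rN N w hw g` are in `ℤ[w]`: for integrality use that the entries of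
`rN N w hw g` are `jw (iz p) w hw` of entries of `rE N ℤ_p g` (`map_rN`), i.e. `iz p a + iz p b * w`. The `α z` are roots of unity. `τ` and
`τ⁻¹` are roots of `X² - s X + 1`, `s = sT ..` is a sum of products of integral elements (`RingHom.IsIntegralElem.add`, `.mul`; or
`integralClosure` as a subring; `isIntegral_trans`). So the scalar parts `α (x g) * τ ^ (..)` of `Θ` are integral. `S_lft` with `z` containing `w`,
the `α z` (`z ∈ μ`), `τ`, `τ⁻¹` gives `R, Θ'`. `w, α, τ` lift to `R` (`α' : μ →* Rˣ`, `τ' : Rˣ`; `ι` injective). The matrix and scalar part of `Θ'` are as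
in `S_pe` (`ι` injective), `NC Θ'` (`S_Wsc`, `S_wm`). `S_pe` gives `Ex1` over `R`; apply `Q2.map ι` (`S_wm`, `ι` injective), and
`ι.comp (jw f w' _) = jw (iz p) w hw` (`LR.cf`). -/
def S_pe2 : Prop := ∀ (p : ℕ) [Fact p.Prime] (N : ℕ) (L : Type) [Group L] (Ψ : NatBij (GN N) L)
  (nL : L →* Multiplicative ℤ), CmG Ψ (nN N) nL → ∀ (r : L →* SL2 (Es ℤ_[p])),
  (∀ k : ℕ, (SLm (Qd.map (-1) (PadicInt.toZModPow k))).comp r =
    Ψ.toFun _ (rE N (ZMod (p ^ k)))) →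
  ∀ (w : Fl p) (hw : w * w + w + 1 = 0) (μ : Type) [CommGroup μ] [Finite μ] (x : GN N →* μ)
    (α : μ →* (Fl p)ˣ) (τ : (Fl p)ˣ),
    τ.val * τ.val - sT (rN N w hw) (α.comp x) * τ.val + 1 = 0 →
    Ex1 (rN N w hw) (α.comp x * (pw τ).comp (nN N)) →
  Ex1 ((SLm (jw (iz p) w hw)).comp r) (α.comp (Ψ.toFun μ x) * (pw τ).comp nL)

/-- [F8N LCp] the condition at one level. (Uses `S_cpx`, `S_ex0`, `S_pe2`.)

Proof. `S_cpx` for `K = Fl p` (algebraically closed of characteristic zero) gives `c, X`. `c ≠ 0`. `μ = rootsOfUnity c (Fl p)` (a finite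
commutative group), `α` the inclusion, `x i` = `X i` with values in `μ` (`MonoidHom.codRestrict`, `X i g ^ c = 1`), `α.comp (x i) = X i`.
`τ i` from `S_ex0` (`X i (tN N) = 1`, `Cpl.t1`). `Ex1` by `S_pe2`. -/
def S_LCp : Prop := ∀ (p : ℕ) [Fact p.Prime] (N : ℕ), 1 ≤ N → ∀ (L : Type) [Group L]
  (Ψ : NatBij (GN N) L) (nL : L →* Multiplicative ℤ), CmG Ψ (nN N) nL →
  ∀ (r : L →* SL2 (Es ℤ_[p])),
  (∀ k : ℕ, (SLm (Qd.map (-1) (PadicInt.toZModPow k))).comp r =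
    Ψ.toFun _ (rE N (ZMod (p ^ k)))) →
  ∀ (w : Fl p) (hw : w * w + w + 1 = 0), LC N Ψ nL w hw ((SLm (jw (iz p) w hw)).comp r)

/-- [F8N CNp] the `p`-adic representations satisfy `CN`. (Uses `S_LCp`, `S_irp`.)

Proof. `S_irp` is the first half. At the level `m` use `S_LCp` for `r.comp (Lm ..).subtype`: its reductions are
`(Φ (rE n ..)).comp subtype = (Ψ m) ((rE n ..).comp (inc n (m+1))) = (Ψ m) (rE (n (m+1)) ..)` (`Twr.res`, `rN_inc`). -/
def S_CNp : Prop := ∀ (n : ℕ), 1 ≤ n → ∀ (Λ : Type) [Group Λ] (Φ : NatBij (GN n) Λ)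
  (nL : Λ →* Multiplicative ℤ)
  (Ψ : ∀ m : Fin 3, NatBij (GN (n * (m.val + 1))) (Lm nL (m.val + 1))),
  Function.Surjective nL → CmG Φ (nN n) nL → Twr Φ nL Ψ → ∀ (p : ℕ) [Fact p.Prime]
  (r : Λ →* SL2 (Es ℤ_[p])),
  (∀ k : ℕ, (SLm (Qd.map (-1) (PadicInt.toZModPow k))).comp r =
    Φ.toFun _ (rE n (ZMod (p ^ k)))) →
  ∀ (w : Fl p) (hw : w * w + w + 1 = 0), CN nL Ψ w hw ((SLm (jw (iz p) w hw)).comp r)

/-! ## Part 4: descent to `ℤ[ω]` -/

/-- [F8N CNq] a representation over `AlgebraicClosure ℚ`. (Uses `S_CNp`, `S_rL`, `S_spc`, `S_spt`.)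

Proof. `p = 2`, `w` a root of `X² + X + 1` in `Fl 2`, `r` from `S_rL`; `S_spc` with `ρ₁ = ρ₂ = (SLm (jw ..)).comp r` and the second part of
`S_spt`. -/
def S_CNq : Prop := ∀ (n : ℕ), 1 ≤ n → ∀ (Λ : Type) [Group Λ] [Group.FG Λ] (Φ : NatBij (GN n) Λ)
  (nL : Λ →* Multiplicative ℤ)
  (Ψ : ∀ m : Fin 3, NatBij (GN (n * (m.val + 1))) (Lm nL (m.val + 1))),
  Function.Surjective nL → CmG Φ (nN n) nL → Twr Φ nL Ψ →
  ∃ (w : AlgebraicClosure ℚ) (hw : w * w + w + 1 = 0) (s : Λ →* SL2 (AlgebraicClosure ℚ)),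
    CN nL Ψ w hw s

/-- [F8N gl2] Galois descent to `ℚ(w)`. (Uses `S_gal`.)

Proof. `w' = -1 - w ≠ w` is the other root. There is an automorphism `g₀` with `g₀ w = w'` (`w`, `w'` have the same minimal
polynomial `X² + X + 1` over `ℚ`, e.g. `minpoly`/`IsConjRoot`, `exists_algEquiv..`, `Normal`; if no automorphism moves `w` then `w` would be
rational by `S_gal`, but `(2 w + 1)² = -3`; every automorphism maps `w` to `w` or `w'`). Let `x' = g₀ x`. For an automorphism `g`: if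
`g w = w` then `g x = x`, and `g₀⁻¹ g g₀` fixes `w` (`g w' = w'`), so `g x' = x'`. If `g w = w'` then `g₀⁻¹ g` fixes `w`, so `g x = g₀ x = x'`, and
`g g₀` fixes `w`, so `g x' = g g₀ x = x`. So `x + x'` and `(x - x') (2 w + 1)` are fixed by all `g`, hence rational, `S` and `D`. As
`(2 w + 1)² = -3`: `x - x' = -D (2 w + 1) / 3`, `x = (S - D (2 w + 1) / 3) / 2`. -/
def S_gl2 : Prop := ∀ (w x : AlgebraicClosure ℚ), w * w + w + 1 = 0 →
  (∀ g : AlgebraicClosure ℚ ≃ₐ[ℚ] AlgebraicClosure ℚ, g w = w → g x = x) →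
  ∃ q₁ q₂ : ℚ, x = algebraMap ℚ _ q₁ + algebraMap ℚ _ q₂ * w

/-- [F8N emb] embeddings with a given value at `w`.

Proof. `ι₀ : AlgebraicClosure ℚ →+* Fl p` exists (`IsAlgClosed.lift`), `ι₀ w₀` is a root of `X² + X + 1`, so it is `w` or `-1 - w`. In the
second case compose `ι₀` with an automorphism `g` with `g w₀ = -1 - w₀` (see `S_gl2`; or: use `IsAlgClosed.lift` relative to
the field `ℚ(w₀)`; or use the homomorphism `ℚ⟮w₀⟯ → Fl p`, `w₀ ↦ w` of `IntermediateField.adjoin` and extend it). -/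
def S_emb : Prop := ∀ (p : ℕ) [Fact p.Prime] (w₀ : AlgebraicClosure ℚ), w₀ * w₀ + w₀ + 1 = 0 →
  ∀ w : Fl p, w * w + w + 1 = 0 → ∃ ι : AlgebraicClosure ℚ →+* Fl p, ι w₀ = w

/-- [F8N val] the values. (Uses `S_un2`, `S_fct`, `S_CNp`, `S_gl2`, `S_emb`, `S_int`.)

Proof. Let `l : Λ`, `x = tr (s l)`. For an automorphism `g` with `g w₀ = w₀` the representation `(SLm g).comp s` satisfies `CN` for `g w₀ = w₀`
(`S_fct`), so by `S_un2` `g x = tr (g s l) = x`. By `S_gl2` `x = q₁ + q₂ w₀`. Let `p` be a prime, `tr (r p l) = ⟨x₁, x₂⟩`. For every root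
`w ∈ Fl p` let `ι` be as in `S_emb`. `(SLm ι).comp s` (`S_fct`) and `(SLm (jw (iz p) w hw)).comp (r p)` (`S_CNp`) satisfy `CN` for `w`, so by
`S_un2` `q₁ + q₂ w = iz p x₁ + iz p x₂ * w`. The two roots `w`, `-1 - w` are different, so `q₂ = iz p x₂` and `q₁ = iz p x₁` in `Fl p`,
hence in `ℚ_p` (`algebraMap` is injective). For all `p`: by `S_int` `q₁ = a₁`, `q₂ = a₂` are integers. `T l = ⟨a₁, a₂⟩`; `x₁ = a₁`,
`x₂ = a₂` in `ℤ_p`. -/
def S_val : Prop := ∀ (n : ℕ), 2 ≤ n → ∀ (Λ : Type) [Group Λ] [Group.FG Λ] (Φ : NatBij (GN n) Λ)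
  (nL : Λ →* Multiplicative ℤ)
  (Ψ : ∀ m : Fin 3, NatBij (GN (n * (m.val + 1))) (Lm nL (m.val + 1))),
  Function.Surjective nL → CmG Φ (nN n) nL → Twr Φ nL Ψ →
  ∀ (w : AlgebraicClosure ℚ) (hw : w * w + w + 1 = 0) (s : Λ →* SL2 (AlgebraicClosure ℚ)),
  CN nL Ψ w hw s → ∀ r : (∀ (p : ℕ) [Fact p.Prime], Λ →* SL2 (Es ℤ_[p])),
  (∀ (p : ℕ) [Fact p.Prime] (k : ℕ),
    (SLm (Qd.map (-1) (PadicInt.toZModPow k))).comp (r p) = Φ.toFun _ (rE n (ZMod (p ^ k)))) →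
  ∀ l : Λ, ∃ t : O, tr (s l) = ev0 w (ew hw) t ∧
    ∀ (p : ℕ) [Fact p.Prime], tr (r p l) = Qd.map (-1) (Int.castRingHom ℤ_[p]) t

/-- [F8N NT] MAIN RESULT of block NT. (Uses `S_CNq`, `S_val`, `S_rL`.)

Proof. `w, s` from `S_CNq`, `r p` from `S_rL` (choice), `T l` from `S_val`. `char`; `irr` is part of `CN`; `red`: reduce `tr (r p l)` modulo `p ^ k`
(`tr_map`; `Qd.map` of `Qd.map`, `toZModPow k` of an integer is the cast: `map_intCast`). -/
def S_NT : Prop := ∀ (n : ℕ), 2 ≤ n → ∀ (Λ : Type) [Group Λ] [Group.FG Λ] (Φ : NatBij (GN n) Λ)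
  (nL : Λ →* Multiplicative ℤ)
  (Ψ : ∀ m : Fin 3, NatBij (GN (n * (m.val + 1))) (Lm nL (m.val + 1))),
  Function.Surjective nL → CmG Φ (nN n) nL → Twr Φ nL Ψ →
  ∃ (T : Λ → O) (s : Λ →* SL2 (AlgebraicClosure ℚ)) (w : AlgebraicClosure ℚ)
    (hw : w * w = ((-1 : ℤ) : AlgebraicClosure ℚ) * w - 1), OutN Φ nL T s w hw

end

end Pool.Agent.F8
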