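import Pool.Agent.Lib.MP_305fdd_al.F8.Final
import Pool.Agent.Lib.MP_305fdd_al.F8.MainHN
import Pool.Agent.Lib.MP_305fdd_al.F8.StmNT
import Pool.Agent.Lib.MP_305fdd_al.F8.StmNA
import Pool.Agent.Lib.MP_305fdd_al.F8.Tower
import Pool.Agent.Lib.MP_305fdd_al.F8.MainO
import Pool.Agent.Lib.MP_305fdd_al.F8.ModelsC

/-!
# MP_305fdd_al: all cyclic covers of the figure-eight knot complement and the groups containing them
# are profinitely rigid. Final assembly, from the blocks NT and NA.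
-/

set_option autoImplicit false

namespace Pool.Agent.F8

open Pool.Agent.MP_305fdd_al Pool.Agent.Lib.MP_305fdd_al Pool.Agent.F2X Pool.Agent.F8.HN
open scoped QuadraticAlgebra

theorem fg_GN (n : ℕ) : Group.FG (GN n) := (OV.p_fin (phi ^ n)).1

/-- the first Betti number is one -/
theorem abF_ker {Λ : Type} [Group Λ] {nL : Λ →* Multiplicative ℤ} (h : IsAbF nL)
    (f : Λ →* Multiplicative ℤ) : nL.ker ≤ f.ker := by
  obtain ⟨_, E, hE, h2⟩ := h
  intro x hx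
  have h1 := h2 _ f x hx
  have h3 := congrArg Multiplicative.toAdd h1
  rw [toAdd_pow, toAdd_one, nsmul_eq_mul, mul_eq_zero] at h3
  rcases h3 with h | h
  · exact absurd h (by exact_mod_cast hE.ne')
  · exact Multiplicative.toAdd.injective h

/-- regularity -/
theorem reg_of (hNA : S_NA) (n : ℕ) (hn : 0 < n) : OV.Reg (phi ^ n) := by
  intro Λ _ hfg _ hs Φ
  have := hfg
  obtain ⟨nL, hab, hC⟩ := hNA n hn Λ hs Φ
  exact ⟨nL, hab.1, hC, fun f => abF_ker hab f⟩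

/-- `GN 1` is the figure-eight knot group -/
theorem GN_one : Nonempty (G8 ≃* GN 1) := by
  have h : Sub8 1 = ⊤ := by
    rw [eq_top_iff]
    intro x _
    show n8 x ∈ Subgroup.zpowers (Multiplicative.ofAdd ((1 : ℕ) : ℤ))
    rw [Subgroup.mem_zpowers_iff]
    refine ⟨Multiplicative.toAdd (n8 x), ?_⟩
    rw [← ofAdd_zsmul]
    simp
  exact ⟨((cycE 1 one_pos).trans ((MulEquiv.subgroupCongr h).trans Subgroup.topEquiv)).symm⟩

/-- the output of block NT gives a representation over `ℤ[ω]` -/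
theorem NT_out {n : ℕ} {Λ : Type} [Group Λ] (Φ : NatBij (GN n) Λ) (nL : Λ →* Multiplicative ℤ)
    (T : Λ → O) (s : Λ →* SL2 (AlgebraicClosure ℚ)) (w : AlgebraicClosure ℚ)
    (hw : w * w = ((-1 : ℤ) : AlgebraicClosure ℚ) * w - 1) (hO : OutN Φ nL T s w hw) :
    ∃ ρ : Λ →* SL2 O, ∀ l, tr (ρ l) = T l := by
  have hirr : Irr s := by
    obtain ⟨g, h, hgh⟩ := hO.irr
    exact ⟨g, h, hgh⟩
  refine E_main Λ (AlgebraicClosure ℚ) (ev0 w hw) (eout_inj w hw) s T hO.char hirr ?_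
  intro p hp _ k
  have : Fact p.Prime := ⟨hp⟩
  exact ⟨RingHom.id O, Or.inl rfl, Φ.toFun _ (rE n (ZMod (p ^ k))),
    fun l => (hO.red p k l).symm⟩

/-- transport of the trace congruence from `ZMod (p ^ 1)` to `ZMod p` -/
theorem red_oneN {n : ℕ} {Λ : Type} [Group Λ] (Φ : NatBij (GN n) Λ) (p : ℕ) [Fact p.Prime] (x : O)
    (l : Λ) (h : Qd.map (-1) (Int.castRingHom (ZMod (p ^ 1))) x =
      tr (Φ.toFun _ (rE n (ZMod (p ^ 1))) l)) :
    Qd.map (-1) (Int.castRingHom (ZMod p)) x =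
      tr (Φ.toFun (SL2 (Es (ZMod p))) (rN n (om (ZMod p)) (om_sq (ZMod p))) l) := by
  have key : ∀ (q : ℕ) (hq : q = p) [NeZero q],
      Qd.map (-1) (Int.castRingHom (ZMod q)) x = tr (Φ.toFun _ (rE n (ZMod q)) l) →
      Qd.map (-1) (Int.castRingHom (ZMod p)) x = tr (Φ.toFun _ (rE n (ZMod p)) l) := by
    intro q hq
    subst hq
    intro _ h'
    exact h'
  exact key (p ^ 1) (pow_one p) h

/-- the cyclic covers, from the blocks NT and NA -/
theorem rigid_of (hNT : S_NT) (hNA : S_NA) (n : ℕ) (hn : 0 < n) : ProfinitelyRigid (GN n) := by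
  rcases Nat.lt_or_ge n 2 with h | hn2
  · have h1 : n = 1 := by omega
    subst h1
    obtain ⟨e⟩ := GN_one
    exact rigid_equiv e rigid_G8
  intro Λ _ hΛ
  obtain ⟨hfg, hrf, hs⟩ := hΛ
  have := hfg
  have := fg_GN n
  obtain ⟨Φ⟩ := exists_natBij hs.symm
  obtain ⟨nL, hab, hC⟩ := hNA n hn Λ hs Φ
  have htow : ∀ m : Fin 3, ∃ Ψ : NatBij (GN (n * (m.val + 1))) (Lm nL (m.val + 1)),
      CmG Ψ (nN (n * (m.val + 1))) (nm nL (m.val + 1)) ∧
      ∀ (R : Type) [Group R] [Finite R] (θ : GN n →* R),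
        Ψ.toFun R (θ.comp (inc n (m.val + 1))) =
          (Φ.toFun R θ).comp (Lm nL (m.val + 1)).subtype :=
    fun m => tower n (m.val + 1) (Nat.succ_pos _) Φ nL hC
  choose Ψ hΨ1 hΨ2 using htow
  have hT : Twr Φ nL Ψ := ⟨fun m Q _ _ f => hΨ2 m Q f, hΨ1⟩
  obtain ⟨T, s, w, hw, hO⟩ := hNT n hn2 Λ Φ nL Ψ hab.1 hC hT
  obtain ⟨ρ, hρ⟩ := NT_out Φ nL T s w hw hO
  have p2 : Fact (Nat.Prime 2) := ⟨Nat.prime_two⟩
  have p3 : Fact (Nat.Prime 3) := ⟨Nat.prime_three⟩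
  refine all_HN n hn Λ Φ nL hfg hrf hs hab.1 hC (fun f => abF_ker hab f) ρ ?_ ?_
  · intro l
    rw [hρ]
    exact red_oneN Φ 2 (T l) l (hO.red 2 1 l)
  · intro l
    rw [hρ]
    exact red_oneN Φ 3 (T l) l (hO.red 3 1 l)

end Pool.Agent.F8
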