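import Pool.Agent.Lib.MP_305fdd_al.F8.Defs

/-!
# Figure-eight knot group, block E (from characters to matrices over `O`): definitions

`O = ℤ[ω]`, `nn` its norm, `LS π a b` local solvability of `a x² + b y² = z²` at the prime `π`,
`Sol a b` solvability.
-/

set_option autoImplicit false

namespace Pool.Agent.F8

/-- the norm of an Eisenstein integer, as a natural number -/
def nn (z : O) : ℕ := (z.re * z.re - z.re * z.im + z.im * z.im).toNat

theorem nn_nonneg (z : O) : 0 ≤ z.re * z.re - z.re * z.im + z.im * z.im := by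
  nlinarith [sq_nonneg (z.re - z.im), sq_nonneg z.re, sq_nonneg z.im]

theorem nn_cast (z : O) : (nn z : ℤ) = z.re * z.re - z.re * z.im + z.im * z.im :=
  Int.toNat_of_nonneg (nn_nonneg z)

theorem nn_mul (x y : O) : nn (x * y) = nn x * nn y := by
  have : (nn (x * y) : ℤ) = nn x * nn y := by
    rw [nn_cast, nn_cast, nn_cast]
    simp only [QuadraticAlgebra.re_mul, QuadraticAlgebra.im_mul, Int.cast_neg, Int.cast_one]
    ring
  exact_mod_cast this

theorem nn_zero : nn 0 = 0 := rfl
theorem nn_one : nn 1 = 1 := rfl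

theorem nn_eq_zero {x : O} : nn x = 0 ↔ x = 0 := by
  constructor
  · intro h
    have h1 := nn_cast x
    rw [h] at h1
    push_cast at h1
    have h2 : x.im = 0 := by nlinarith [sq_nonneg (2 * x.re - x.im), sq_nonneg x.im]
    have h3 : x.re = 0 := by nlinarith [sq_nonneg (2 * x.im - x.re), sq_nonneg x.re]
    ext
    · exact h3
    · exact h2
  · rintro rfl; rfl

instance : IsDomain O := by
  have : NoZeroDivisors O := ⟨by
    intro a b h
    have h1 : nn a * nn b = 0 := by rw [← nn_mul, h, nn_zero]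
    rcases Nat.mul_eq_zero.mp h1 with h2 | h2
    · exact Or.inl (nn_eq_zero.mp h2)
    · exact Or.inr (nn_eq_zero.mp h2)⟩
  exact NoZeroDivisors.to_isDomain O

/-- the conjugate, `z * cj z = nn z` -/
theorem mul_star_nn (z : O) : z * star z = ((nn z : ℤ) : O) := by
  ext
  · rw [QuadraticAlgebra.re_mul, QuadraticAlgebra.re_star, QuadraticAlgebra.im_star,
      QuadraticAlgebra.re_intCast, nn_cast]
    simp only [Int.cast_neg, Int.cast_one, Int.cast_id]
    ring
  · rw [QuadraticAlgebra.im_mul, QuadraticAlgebra.re_star, QuadraticAlgebra.im_star,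
      QuadraticAlgebra.im_intCast]
    simp only [Int.cast_neg, Int.cast_one]
    ring

theorem nn_star (z : O) : nn (star z) = nn z := by
  have : (nn (star z) : ℤ) = nn z := by
    rw [nn_cast, nn_cast, QuadraticAlgebra.re_star, QuadraticAlgebra.im_star]
    simp only [Int.cast_neg, Int.cast_one]
    ring
  exact_mod_cast this

theorem hex (n s t : ℤ) (hs : t ≤ s) (ht : 0 ≤ t) (hn : s ≤ n) (hn0 : 0 < n) :
    ∃ e f : ℤ, 3 * ((s - n * e) * (s - n * e) - (s - n * e) * (t - n * f) +
      (t - n * f) * (t - n * f)) ≤ n * n := by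
  by_contra hcon
  push Not at hcon
  have h0 := hcon 0 0
  have h1 := hcon 1 0
  have h2 := hcon 1 1
  have k0 := mul_le_mul_of_nonneg_left h0.le (show 0 ≤ n - s by linarith)
  have k1 := mul_le_mul_of_nonneg_left h1.le (show 0 ≤ s - t by linarith)
  have k2 := mul_le_mul_of_nonneg_left h2.le ht
  have q : (n - s) * (s - t) + (n - s) * t + (s - t) * t < n * n := by nlinarith
  have pos : 0 < (n - s) + (s - t) + t := by linarith
  have strict : n * (n * n) <
      (n - s) * (3 * ((s - n * 0) * (s - n * 0) - (s - n * 0) * (t - n * 0) +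
        (t - n * 0) * (t - n * 0))) +
      (s - t) * (3 * ((s - n * 1) * (s - n * 1) - (s - n * 1) * (t - n * 0) +
        (t - n * 0) * (t - n * 0))) +
      t * (3 * ((s - n * 1) * (s - n * 1) - (s - n * 1) * (t - n * 1) +
        (t - n * 1) * (t - n * 1))) := by
    rcases lt_or_ge s n with h | h
    · have := mul_lt_mul_of_pos_left h0 (show 0 < n - s by linarith)
      nlinarith
    · rcases lt_or_ge t s with h' | h'
      · have := mul_lt_mul_of_pos_left h1 (show 0 < s - t by linarith)
        nlinarith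
      · have := mul_lt_mul_of_pos_left h2 (show 0 < t by linarith)
        nlinarith
  have id : (n - s) * (3 * ((s - n * 0) * (s - n * 0) - (s - n * 0) * (t - n * 0) +
        (t - n * 0) * (t - n * 0))) +
      (s - t) * (3 * ((s - n * 1) * (s - n * 1) - (s - n * 1) * (t - n * 0) +
        (t - n * 0) * (t - n * 0))) +
      t * (3 * ((s - n * 1) * (s - n * 1) - (s - n * 1) * (t - n * 1) +
        (t - n * 1) * (t - n * 1))) = 3 * n * ((n - s) * (s - t) + (n - s) * t + (s - t) * t) := by
    ring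
  rw [id] at strict
  have fin : 3 * ((n - s) * (s - t) + (n - s) * t + (s - t) * t) ≤ n * n := by
    nlinarith [sq_nonneg ((n - s) - (s - t)), sq_nonneg ((n - s) - t), sq_nonneg ((s - t) - t)]
  nlinarith

theorem hex' (n A B : ℤ) (hn0 : 0 < n) :
    ∃ e f : ℤ, 3 * ((A - n * e) * (A - n * e) - (A - n * e) * (B - n * f) +
      (B - n * f) * (B - n * f)) ≤ n * n := by
  have a1 := Int.emod_nonneg A hn0.ne'
  have a2 := Int.emod_lt_of_pos A hn0
  have a3 := Int.emod_add_mul_ediv A n
  have b1 := Int.emod_nonneg B hn0.ne'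
  have b2 := Int.emod_lt_of_pos B hn0
  have b3 := Int.emod_add_mul_ediv B n
  rcases le_total (B % n) (A % n) with h | h
  · obtain ⟨e, f, hef⟩ := hex n (A % n) (B % n) h b1 a2.le hn0
    refine ⟨A / n + e, B / n + f, ?_⟩
    have e1 : A - n * (A / n + e) = A % n - n * e := by linarith
    have e2 : B - n * (B / n + f) = B % n - n * f := by linarith
    rw [e1, e2]; exact hef
  · obtain ⟨e, f, hef⟩ := hex n (B % n) (A % n) h a1 b2.le hn0
    refine ⟨A / n + f, B / n + e, ?_⟩
    have e1 : A - n * (A / n + f) = A % n - n * f := by linarith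
    have e2 : B - n * (B / n + e) = B % n - n * e := by linarith
    rw [e1, e2]; linarith

/-- division with a small remainder -/
theorem exists_small (a b : O) (hb : b ≠ 0) : ∃ q : O, 3 * nn (a - b * q) ≤ nn b := by
  have hn : 0 < nn b := Nat.pos_of_ne_zero fun h => hb (nn_eq_zero.mp h)
  obtain ⟨e, f, hef⟩ := hex' (nn b) (a * star b).re (a * star b).im (by exact_mod_cast hn)
  refine ⟨⟨e, f⟩, ?_⟩
  have h1 : (a - b * ⟨e, f⟩) * star b = ⟨(a * star b).re - nn b * e, (a * star b).im - nn b * f⟩ := by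
    have h2 : (a - b * ⟨e, f⟩) * star b = a * star b - (b * star b) * ⟨e, f⟩ := by ring
    rw [h2, mul_star_nn]
    ext
    · simp
    · simp
  have h3 : nn (a - b * ⟨e, f⟩) * nn b = nn ((a - b * ⟨e, f⟩) * star b) := by
    rw [nn_mul, nn_star]
  have h4 : (3 * (nn (a - b * ⟨e, f⟩) * nn b) : ℤ) ≤ nn b * nn b := by
    have h6 := nn_cast ((a - b * ⟨e, f⟩) * star b)
    rw [← h3, h1] at h6
    push_cast at h6
    rw [h6]
    exact hef
  have h5 : 3 * nn (a - b * ⟨e, f⟩) * nn b ≤ nn b * nn b := by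
    have : 3 * (nn (a - b * ⟨e, f⟩) * nn b) ≤ nn b * nn b := by exact_mod_cast h4
    linarith
  exact Nat.le_of_mul_le_mul_right h5 hn

instance : IsPrincipalIdealRing O where
  principal I := by
    classical
    by_cases hI : I = ⊥
    · exact ⟨0, by rw [hI]; simp⟩
    · obtain ⟨x, hxI, hx0⟩ := Submodule.exists_mem_ne_zero_of_ne_bot hI
      have hex : ∃ n : ℕ, ∃ x ∈ I, x ≠ 0 ∧ nn x = n := ⟨nn x, x, hxI, hx0, rfl⟩
      obtain ⟨b, hbI, hb0, hbn⟩ := Nat.find_spec hex
      have hmin := fun m (hm : m < Nat.find hex) => Nat.find_min hex hm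
      rw [← hbn] at hmin
      refine ⟨b, le_antisymm (fun a haI => ?_) ?_⟩
      · obtain ⟨q, hq⟩ := exists_small a b hb0
        have hr : a - b * q ∈ I := I.sub_mem haI (I.mul_mem_right q hbI)
        have hn : 0 < nn b := Nat.pos_of_ne_zero fun h => hb0 (nn_eq_zero.mp h)
        have h0 : a - b * q = 0 := by
          by_contra h
          exact hmin (nn (a - b * q)) (by omega) ⟨_, hr, h, rfl⟩
        rw [sub_eq_zero] at h0
        rw [h0]
        exact Ideal.mem_span_singleton.mpr (Dvd.intro q rfl)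
      · rw [Submodule.span_singleton_le_iff_mem]; exact hbI

/-- units have norm one -/
theorem nn_unit {x : O} (hx : IsUnit x) : nn x = 1 := by
  obtain ⟨u, rfl⟩ := hx
  have h : nn (u : O) * nn ((u⁻¹ : Oˣ) : O) = 1 := by
    rw [← nn_mul, Units.mul_inv, nn_one]
  exact Nat.eq_one_of_mul_eq_one_right h

theorem isUnit_of_nn {x : O} (hx : nn x = 1) : IsUnit x := by
  refine IsUnit.of_mul_eq_one (star x) ?_
  rw [mul_star_nn, hx]; simp

/-- the identity or the conjugation of `O` -/
def SG (σ : O →+* O) : Prop := σ = RingHom.id O ∨ σ = starRingEnd O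

/-- `O / 2` is the field with four elements: `a ^ 4 = a` modulo `2` -/
theorem two_dvd_pow_four (a : O) : (2 : O) ∣ a ^ 4 - a := by
  have e1 : (a ^ 4 - a).re % 2 = 0 := by
    simp only [pow_succ, pow_zero, one_mul, QuadraticAlgebra.re_sub, QuadraticAlgebra.re_mul,
      QuadraticAlgebra.im_mul, Int.cast_neg, Int.cast_one]
    rcases Int.even_or_odd' a.re with ⟨k, hk | hk⟩ <;>
      rcases Int.even_or_odd' a.im with ⟨l, hl | hl⟩ <;> rw [hk, hl] <;> ring_nf <;> omega
  have e2 : (a ^ 4 - a).im % 2 = 0 := by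
    simp only [pow_succ, pow_zero, one_mul, QuadraticAlgebra.im_sub, QuadraticAlgebra.re_mul,
      QuadraticAlgebra.im_mul, Int.cast_neg, Int.cast_one]
    rcases Int.even_or_odd' a.re with ⟨k, hk | hk⟩ <;>
      rcases Int.even_or_odd' a.im with ⟨l, hl | hl⟩ <;> rw [hk, hl] <;> ring_nf <;> omega
  refine ⟨⟨(a ^ 4 - a).re / 2, (a ^ 4 - a).im / 2⟩, ?_⟩
  ext
  · rw [two_mul, QuadraticAlgebra.re_add]
    dsimp only
    omega
  · rw [two_mul, QuadraticAlgebra.im_add]
    dsimp only
    omega

/-- local solvability of `a x² + b y² = z²` at `π`: approximate solutions modulo all powers of `π`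
which are not all divisible by a fixed power -/
def LS (π a b : O) : Prop := ∃ C : ℕ, ∀ K : ℕ, ∃ x y z : O, π ^ K ∣ a * x ^ 2 + b * y ^ 2 - z ^ 2 ∧
  ¬ (π ^ C ∣ x ∧ π ^ C ∣ y ∧ π ^ C ∣ z)

/-- local solvability at all primes which do not divide `2` -/
def LA (a b : O) : Prop := ∀ π : O, Prime π → ¬ π ∣ 2 → LS π a b

/-- a nontrivial solution of `a x² + b y² = z²` -/
def Sol (a b : O) : Prop := ∃ x y z : O, ¬ (x = 0 ∧ y = 0 ∧ z = 0) ∧ a * x ^ 2 + b * y ^ 2 = z ^ 2

/-- no square of a nonunit divides `b` -/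
def Sf (b : O) : Prop := ∀ c : O, c ^ 2 ∣ b → IsUnit c

end Pool.Agent.F8
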