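import Pool.Agent.Lib.MP_305fdd_al.F8.Defs2

/-!
# MP_305fdd_al: the cyclic covers of the figure-eight knot complement. Definitions.

`GN N = F ⋊ ℤ`, the generator `tN N` acts through `phi ^ N`. `GN N` is the fundamental group of the
`N`-fold cyclic cover of the figure-eight knot complement. In the basis `x0 = v⁻¹ u`, `u` the
automorphism `phi` is positive: `phi x0 = x0 u`, `phi u = u x0 u`. `oc N i j` is the list of the
prefixes `w` of `phi ^ N (lt i) = w (lt j) w'` in front of the letter `lt j`.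
-/

set_option autoImplicit false

namespace Pool.Agent.F8

open Pool.Agent.MP_305fdd_al Pool.Agent.Lib.MP_305fdd_al Pool.Agent.F2X
open scoped QuadraticAlgebra

/-! ### The groups -/

/-- the action of `ℤ` through `phi ^ N` -/
def phN (N : ℕ) : Multiplicative ℤ →* MulAut F := zpowersHom (MulAut F) (phi ^ N)

/-- `F ⋊ ℤ`, the generator of `ℤ` acts by `phi ^ N` -/
abbrev GN (N : ℕ) : Type := F ⋊[phN N] Multiplicative ℤ

/-- the generator of `ℤ` -/
def tN (N : ℕ) : GN N := SemidirectProduct.inr (Multiplicative.ofAdd 1)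

/-- the inclusion of `F` -/
def iN (N : ℕ) : F →* GN N := SemidirectProduct.inl

/-- the projection to `ℤ` -/
def nN (N : ℕ) : GN N →* Multiplicative ℤ := SemidirectProduct.rightHom

theorem tN_conj (N : ℕ) (w : F) : tN N * iN N w * (tN N)⁻¹ = iN N ((phi ^ N) w) := by
  unfold tN iN
  rw [← map_inv, ← SemidirectProduct.inl_aut]
  congr 1

theorem nN_tN (N : ℕ) : nN N (tN N) = Multiplicative.ofAdd 1 := rfl
theorem nN_iN (N : ℕ) (w : F) : nN N (iN N w) = 1 := rfl

theorem iN_injective (N : ℕ) : Function.Injective (iN N) := SemidirectProduct.inl_injective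

section liftN

variable {Q : Type} [Group Q] {N : ℕ}

theorem liftN_aux (f : F →* Q) (s : Q) (h : ∀ w, f ((phi ^ N) w) = s * f w * s⁻¹)
    (g : Multiplicative ℤ) : f.comp (phN N g).toMonoidHom =
      (MulAut.conj (zpowersHom Q s g)).toMonoidHom.comp f := by
  have hi : ∀ w : F, f ((phi ^ N)⁻¹ w) = s⁻¹ * f w * s := by
    intro w
    have := h ((phi ^ N)⁻¹ w)
    rw [MulAut.apply_inv_self] at this
    rw [this]; group
  have hz : ∀ (n : ℤ) (w : F), f (((phi ^ N) ^ n) w) = s ^ n * f w * (s ^ n)⁻¹ := by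
    intro n
    induction n using Int.induction_on with
    | zero => intro w; simp
    | succ i ih =>
      intro w
      rw [zpow_add_one, MulAut.mul_apply, ih, h, zpow_add_one]; group
    | pred i ih =>
      intro w
      rw [zpow_sub_one, MulAut.mul_apply, ih, hi, zpow_sub_one]; group
  ext w
  exact hz (Multiplicative.toAdd g) _

/-- the universal property of `GN N` -/
def liftN (f : F →* Q) (s : Q) (h : ∀ w, f ((phi ^ N) w) = s * f w * s⁻¹) : GN N →* Q :=
  SemidirectProduct.lift f (zpowersHom Q s) (liftN_aux f s h)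

theorem liftN_iN (f : F →* Q) (s : Q) (h : ∀ w, f ((phi ^ N) w) = s * f w * s⁻¹) (w : F) :
    liftN f s h (iN N w) = f w := SemidirectProduct.lift_inl _ _ _ w

theorem liftN_tN (f : F →* Q) (s : Q) (h : ∀ w, f ((phi ^ N) w) = s * f w * s⁻¹) :
    liftN f s h (tN N) = s := by
  unfold tN liftN
  rw [SemidirectProduct.lift_inr, zpowersHom_apply]; simp

/-- every element of `GN N` is `w t ^ n` -/
theorem GN_cases (g : GN N) : ∃ (w : F) (n : ℤ), g = iN N w * tN N ^ n := by
  refine ⟨g.left, Multiplicative.toAdd g.right, ?_⟩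
  unfold tN iN
  rw [← map_zpow, ← ofAdd_zsmul]
  simp

/-- homomorphisms on `GN N` are determined by their values on `F` and `t` -/
theorem homN_ext {f g : GN N →* Q} (h : ∀ w, f (iN N w) = g (iN N w)) (ht : f (tN N) = g (tN N)) :
    f = g := by
  ext x
  obtain ⟨w, n, rfl⟩ := GN_cases x
  rw [map_mul, map_mul, map_zpow, map_zpow, h, ht]

end liftN

/-- powers of `t` -/
theorem tN_pow_conj (N k : ℕ) (w : F) :
    tN N ^ k * iN N w * (tN N ^ k)⁻¹ = iN N ((phi ^ (N * k)) w) := by
  induction k generalizing w with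
  | zero => simp
  | succ k ih =>
    have : tN N ^ (k + 1) * iN N w * (tN N ^ (k + 1))⁻¹ =
        tN N ^ k * (tN N * iN N w * (tN N)⁻¹) * (tN N ^ k)⁻¹ := by rw [pow_succ]; group
    rw [this, tN_conj, ih, ← MulAut.mul_apply, ← pow_add]
    rfl

/-- the subgroup of index `m` -/
def inc (n m : ℕ) : GN (n * m) →* GN n := liftN (iN n) (tN n ^ m) fun w => (tN_pow_conj n m w).symm

theorem inc_iN (n m : ℕ) (w : F) : inc n m (iN (n * m) w) = iN n w := liftN_iN _ _ _ _
theorem inc_tN (n m : ℕ) : inc n m (tN (n * m)) = tN n ^ m := liftN_tN _ _ _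

theorem aa_pow_conj (k : ℕ) (w : F) : aa ^ k * SemidirectProduct.inl w * (aa ^ k)⁻¹ =
    (SemidirectProduct.inl ((phi ^ k) w) : G8) := by
  induction k generalizing w with
  | zero => simp
  | succ k ih =>
    have : aa ^ (k + 1) * SemidirectProduct.inl w * (aa ^ (k + 1))⁻¹ =
        aa ^ k * (aa * SemidirectProduct.inl w * aa⁻¹) * (aa ^ k)⁻¹ := by rw [pow_succ]; group
    rw [this, aa_conj, ih, ← MulAut.mul_apply, ← pow_succ]

/-- the homomorphism to the figure-eight knot group, `t ↦ a ^ N` -/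
def toG8 (N : ℕ) : GN N →* G8 :=
  liftN SemidirectProduct.inl (aa ^ N) fun w => (aa_pow_conj N w).symm

theorem toG8_iN (N : ℕ) (w : F) : toG8 N (iN N w) = SemidirectProduct.inl w := liftN_iN _ _ _ _
theorem toG8_tN (N : ℕ) : toG8 N (tN N) = aa ^ N := liftN_tN _ _ _

/-- the representation of `GN N` given by a root `w` of `w² + w + 1` -/
def rN (N : ℕ) {R : Type} [CommRing R] (w : R) (hw : w * w + w + 1 = 0) : GN N →* SL2 R :=
  (rho8 w hw).comp (toG8 N)

theorem rN_inc (n m : ℕ) {R : Type} [CommRing R] (w : R) (hw : w * w + w + 1 = 0) :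
    (rN n w hw).comp (inc n m) = rN (n * m) w hw := by
  apply homN_ext
  · intro x
    show rho8 w hw (toG8 n (inc n m (iN (n * m) x))) = rho8 w hw (toG8 (n * m) (iN (n * m) x))
    rw [inc_iN, toG8_iN, toG8_iN]
  · show rho8 w hw (toG8 n (inc n m (tN (n * m)))) = rho8 w hw (toG8 (n * m) (tN (n * m)))
    rw [inc_tN, map_pow, toG8_tN, toG8_tN, ← pow_mul]

theorem map_rN (N : ℕ) {R S : Type} [CommRing R] [CommRing S] (f : R →+* S) (w : R)
    (hw : w * w + w + 1 = 0) : (SLm f).comp (rN N w hw) = rN N (f w) (map_om_eq f hw) := by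
  unfold rN
  rw [← MonoidHom.comp_assoc, map_rho8]

/-! ### The positive form of `phi` -/

/-- the first letter, `x = v⁻¹ u`; the second letter is `u = ga` -/
def x0 : F := gb⁻¹ * ga

theorem phi_x0 : phi x0 = x0 * ga := by
  unfold x0; rw [map_mul, map_inv, phi_ga, phi_gb]; group

theorem phi_ga' : phi ga = ga * x0 * ga := by
  unfold x0; rw [phi_ga]; group

/-- the two letters -/
def lt : Bool → F
  | false => x0
  | true => ga

/-- the prefixes of `phi ^ N (lt i)` in front of the letter `lt j` -/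
def oc : ℕ → Bool → Bool → List F
  | 0, i, j => if i = j then [1] else []
  | N + 1, false, j => oc N false j ++ (oc N true j).map (fun w => (phi ^ N) x0 * w)
  | N + 1, true, j => oc N true j ++ (oc N false j).map (fun w => (phi ^ N) ga * w) ++
      (oc N true j).map (fun w => (phi ^ N) (ga * x0) * w)

/-- the occurrences of `lt i` in `phi ^ N (lt i)`, for both letters -/
def oT (N : ℕ) : List F := oc N false false ++ oc N true true

/-- the numbers `tr (phi ^ N)`: `2, 3, 7, 18, 47, ..` -/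
def Lu : ℕ → ℤ
  | 0 => 2
  | 1 => 3
  | (N + 2) => 3 * Lu (N + 1) - Lu N

/-! ### The trace on `H¹` -/

/-- `s(ρ, χ) = ∑ χ(w) tr ρ(t⁻¹ w) - tr ρ(t)`, the trace of `t⁻¹` on `H¹(F, ρ ⊗ χ)` -/
def sT {N : ℕ} {K : Type} [CommRing K] (ρ : GN N →* SL2 K) (χ : GN N →* Kˣ) : K :=
  ((oT N).map fun w => (χ (iN N w)).val * tr (ρ ((tN N)⁻¹ * iN N w))).sum - tr (ρ (tN N))

/-- `H¹(G, ρ ⊗ σ) ≠ 0`, in the form: there is an affine representation with matrix part `ρ` and
scalar part `σ` which is not a coboundary -/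
def Ex1 {G K : Type} [Group G] [CommRing K] (ρ : G →* SL2 K) (σ : G →* Kˣ) : Prop :=
  ∃ Θ : G →* Q2 K, Q2.mH.comp Θ = ρ ∧ Q2.tH.comp Θ = σ ∧ NC Θ

/-- the class group `ℤ² / (phi ^ N - 1)`, written multiplicatively -/
abbrev CG (N : ℕ) : Type :=
  Multiplicative ((Fin 2 → ℤ) ⧸ (((AM (phi ^ N)).val - 1).mulVecLin.toAddMonoidHom).range)

/-- the class of an element of `F` -/
def cl (N : ℕ) : F →* CG N :=
  (AddMonoidHom.toMultiplicative (QuotientAddGroup.mk' _)).comp abh

theorem cl_phi (N : ℕ) (w : F) : cl N ((phi ^ N) w) = cl N w := by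
  apply Multiplicative.toAdd.injective
  show (QuotientAddGroup.mk (vec ((phi ^ N) w)) : (Fin 2 → ℤ) ⧸ _) = QuotientAddGroup.mk (vec w)
  rw [QuotientAddGroup.eq_iff_sub_mem, AM_vec]
  exact ⟨vec w, by
    show ((AM (phi ^ N)).val - 1).mulVec (vec w) = _
    rw [Matrix.sub_mulVec, Matrix.one_mulVec]⟩

theorem cl_surjective (N : ℕ) : Function.Surjective (cl N) := by
  intro c
  obtain ⟨v, hv⟩ := QuotientAddGroup.mk_surjective (Multiplicative.toAdd c)
  obtain ⟨w, hw⟩ := vec_surj v
  refine ⟨w, ?_⟩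
  apply Multiplicative.toAdd.injective
  rw [← hv, ← hw]
  rfl

/-- A complete family of characters of `GN N`: characters `χ` with `χ t = 1`, whose number is
nonzero in `K`, and such that `∑ χ(w) = 0` for all `w ∈ F` of non-trivial class. -/
structure Cpl (N : ℕ) {K : Type} [CommRing K] {c : ℕ} (X : Fin c → (GN N →* Kˣ)) : Prop where
  /-- trivial on `t` -/
  t1 : ∀ i, X i (tN N) = 1
  /-- the number of elements is nonzero -/
  card : (c : K) ≠ 0
  /-- orthogonality -/
  orth : ∀ w : F, cl N w ≠ 1 → ∑ i, (X i (iN N w)).val = 0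

/-! ### Coordinates in the basis `x0, u` -/

/-- the exponent sum of `x0` -/
def cx (w : F) : ℤ := -vec w 1

/-- the exponent sum of `u` -/
def cu (w : F) : ℤ := vec w 0 + vec w 1

theorem cx_mul (v w : F) : cx (v * w) = cx v + cx w := by
  unfold cx; rw [vec_mul, Pi.add_apply]; ring
theorem cu_mul (v w : F) : cu (v * w) = cu v + cu w := by
  unfold cu; rw [vec_mul, Pi.add_apply, Pi.add_apply]; ring
theorem cx_one : cx 1 = 0 := by unfold cx; simp
theorem cu_one : cu 1 = 0 := by unfold cu; simp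
theorem cx_inv (w : F) : cx w⁻¹ = -cx w := by unfold cx; simp
theorem cu_inv (w : F) : cu w⁻¹ = -cu w := by unfold cu; simp; ring
theorem cx_ga : cx ga = 0 := by unfold cx; simp
theorem cu_ga : cu ga = 1 := by unfold cu; simp
theorem cx_gb : cx gb = -1 := by unfold cx; simp
theorem cu_gb : cu gb = 1 := by unfold cu; simp
theorem cx_x0 : cx x0 = 1 := by unfold x0; rw [cx_mul, cx_inv, cx_gb, cx_ga]; ring
theorem cu_x0 : cu x0 = 0 := by unfold x0; rw [cu_mul, cu_inv, cu_gb, cu_ga]; ring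

/-- a proper occurrence of `u` in `phi ^ N u`: neither the first nor the last letter -/
def Pr (N : ℕ) (w : F) : Prop :=
  w ∈ oc N true true ∧ 0 < cx w + cu w ∧
    cx w + cu w + 1 < cx ((phi ^ N) ga) + cu ((phi ^ N) ga)

/-- the loops `t⁻¹ w` -/
def gl (N : ℕ) (w : F) : GN N := (tN N)⁻¹ * iN N w

/-- `u x` -/
def w1 : F := ga * x0
/-- `u x u x` -/
def w2 : F := ga * x0 * ga * x0
/-- `u x u x u` -/
def w3 : F := ga * x0 * ga * x0 * ga

/-! ### Levels -/

/-- `nG` and `nL` correspond to each other modulo every `k > 0` -/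
def CmG {G Λ : Type} [Group G] [Group Λ] (Φ : NatBij G Λ) (nG : G →* Multiplicative ℤ)
    (nL : Λ →* Multiplicative ℤ) : Prop :=
  ∀ (k : ℕ) [NeZero k], Φ.toFun (Multiplicative (ZMod k)) ((redZ k).comp nG) = (redZ k).comp nL

/-- the subgroup of the elements whose exponent is divisible by `m` -/
abbrev Lm {Λ : Type} [Group Λ] (nL : Λ →* Multiplicative ℤ) (m : ℕ) : Subgroup Λ :=
  ((redZ m).comp nL).ker

theorem Lm_dvd {Λ : Type} [Group Λ] (nL : Λ →* Multiplicative ℤ) (m : ℕ) (x : Lm nL m) :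
    (m : ℤ) ∣ Multiplicative.toAdd (nL x) := by
  have h : redZ m (nL x) = 1 := x.2
  have h' : ((Multiplicative.toAdd (nL x) : ℤ) : ZMod m) = 0 := h
  exact (ZMod.intCast_zmod_eq_zero_iff_dvd _ _).1 h'

/-- the exponent divided by `m` -/
def nm {Λ : Type} [Group Λ] (nL : Λ →* Multiplicative ℤ) (m : ℕ) : Lm nL m →* Multiplicative ℤ where
  toFun x := Multiplicative.ofAdd (Multiplicative.toAdd (nL x) / m)
  map_one' := by simp
  map_mul' x y := by
    rw [← ofAdd_add]
    congr 1
    rw [Subgroup.coe_mul, map_mul, toAdd_mul]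
    exact Int.add_ediv_of_dvd_left (Lm_dvd nL m x)

theorem nm_pow {Λ : Type} [Group Λ] (nL : Λ →* Multiplicative ℤ) (m : ℕ) (x : Lm nL m) :
    nm nL m x ^ m = nL x := by
  show Multiplicative.ofAdd (Multiplicative.toAdd (nL x) / m) ^ m = nL x
  rw [← ofAdd_nsmul, nsmul_eq_mul, Int.mul_ediv_cancel' (Lm_dvd nL m x), ofAdd_toAdd]

theorem nm_surjective {Λ : Type} [Group Λ] (nL : Λ →* Multiplicative ℤ) (m : ℕ) (hm : 0 < m)
    (h : Function.Surjective nL) : Function.Surjective (nm nL m) := by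
  intro z
  obtain ⟨l, hl⟩ := h (z ^ m)
  have hmem : l ∈ Lm nL m := by
    show redZ m (nL l) = 1
    rw [hl, map_pow]
    show Multiplicative.ofAdd ((m : ℕ) • ((Multiplicative.toAdd z : ℤ) : ZMod m)) = 1
    rw [nsmul_eq_mul, CharP.cast_eq_zero, zero_mul]; rfl
  refine ⟨⟨l, hmem⟩, ?_⟩
  show Multiplicative.ofAdd (Multiplicative.toAdd (nL l) / m) = z
  rw [hl, toAdd_pow, nsmul_eq_mul, Int.mul_ediv_cancel_left _ (by exact_mod_cast hm.ne'),
    ofAdd_toAdd]

end Pool.Agent.F8
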