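import Pool.Agent.Lib.MP_305fdd_al.F8.StmA

/-!
# MP_305fdd_al, figure-eight knot group: part D, the two characters and their values

MAIN RESULT of this part (`S_D`): there is `T : Λ → O = ℤ[ω]` which is the character of an irreducible
representation over `AlgebraicClosure ℚ`, and whose reduction modulo `p ^ k` is (up to conjugation
`ω ↦ ω²`, depending on `p` only, and not for `p = 2`) the trace of the matched representation.

Every piece may use the statements named in its docstring as hypotheses.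
-/

set_option autoImplicit false

namespace Pool.Agent.F8

open Pool.Agent.MP_305fdd_al Pool.Agent.Lib.MP_305fdd_al Pool.Agent.F2X
open scoped QuadraticAlgebra

noncomputable section

/-- the thing we know about the limits of the matched `T2`, `r8` -/
structure Dat {Λ : Type} [Group Λ] (Φ : NatBij G8 Λ) (n : Λ →* Multiplicative ℤ) (p : ℕ)
    [Fact p.Prime] (Θ : Λ →* Q2 (E4 ℤ_[p])) (r : Λ →* SL2 (Es ℤ_[p])) : Prop where
  /-- the matrix part -/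
  mat : Q2.mH.comp Θ = (SLm (algebraMap (Es ℤ_[p]) (E4 ℤ_[p]))).comp r
  /-- `P2` under all homomorphisms to fields -/
  good : ∀ (K : Type) [Field K] [CharZero K] (j : E4 ℤ_[p] →+* K), P2 n K ((Q2.map j).comp Θ)
  /-- the reductions -/
  red : ∀ k : ℕ, (SLm (Qd.map (-1) (PadicInt.toZModPow k))).comp r =
    Φ.toFun _ (r8 (ZMod (p ^ k)))
  /-- the character is not rational -/
  ne : ∃ g, (tr (r g)).im ≠ 0

/-- [F8 D1] existence. (Uses `S_L2`, `S_exu`, `S_mt`, `S_wm`, `S_nc0`, `S_ir0`, `S_nz`, `S_nc`, `S_lz`, `S_lq`.)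

Proof. `Θ, r` from `S_L2`. Scalar part: for every `k` with `m` = the order of the finite group `(E4 (ZMod (p ^ k)))ˣ`:
`Φ (tH.comp (T2 ..)) = Φ ((pw thu).comp n8) = (pw thu).comp n` (`tH_Th0`, `S_exu`, `e = 1`); so by uniqueness of limits
`tH.comp Θ = (pw (thu 4 (Es ℤ_p))).comp n`, and under `j` this is `(pw τ).comp n`, `τ² = 4 τ - 1` (`thu_eq4`).
`Irr`: by `range_eq` (for `Φ (r8 (ZMod (p ^ 1)))`) there are `l, l'` with `r l, r l'` congruent to `r8 aa`, `r8 bb` modulo `p`;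
`tr (r (l l' l⁻¹ l'⁻¹)) - 2` is congruent to `ω²` (`S_ir0`), its norm to `1`, so the norm is not `0`; `S_nz`
(for the homomorphism `j.comp algebraMap` of `Es = Qd (-1)`). `NC`: the same with `k = 6`, `l, l'` for `T2 vv`, `T2 aa`:
`W (Θ l) (Θ l') 1` is congruent to `-(ω² (1 + θ))` (`S_nc0`), whose norm `norm.norm` is `36`; `36` is not `0` modulo
`p ^ 6`; `S_nz`, `S_nc`. `ne`: `g` with `r g` congruent to `r8 (aa * bb⁻¹)` modulo `p`: `tr` is congruent to `2 + ω`. -/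
def S_D1 : Prop := ∀ (Λ : Type) [Group Λ] (Φ : NatBij G8 Λ) (n : Λ →* Multiplicative ℤ),
  Function.Surjective n → (∀ (m : ℕ) [NeZero m], Ex Φ n m 1) → ∀ (p : ℕ) [Fact p.Prime],
  ∃ (Θ : Λ →* Q2 (E4 ℤ_[p])) (r : Λ →* SL2 (Es ℤ_[p])), Dat Φ n p Θ r

/-- two homomorphisms of `Es R` to `K` exchanged by conjugation -/
structure JJ {R K : Type} [CommRing R] [Field K] (f : R →+* K) (j₁ j₂ : Es R →+* K) : Prop where
  /-- they are jointly injective, if `f` is -/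
  inj : ∀ x, j₁ x = j₂ x → f x.im = 0
  sum : ∀ x, j₁ x + j₂ x = f x.trace
  prod : ∀ x, j₁ x * j₂ x = f x.norm
  st : ∀ x, j₁ (star x) = j₂ x
  al1 : ∀ r, j₁ (algebraMap R _ r) = f r
  al2 : ∀ r, j₂ (algebraMap R _ r) = f r

/-- [F8 D2] the two `p`-adic representations. (Uses `S_A3`, `S_P2m`.)

Proof. `j₁, j₂` from `S_A3` for `iz p`, `q = -1`; `t` a root of `t² = 4 t - 1` in `Fl p`; `i_j = Qd.ev 4 j_j t : E4 ℤ_p →+* Fl p`;
`Ψ j = (Q2.map i_j).comp Θ`. `ch (Ψ j) g = i_j (tr (Θ g).m) = i_j (algebraMap (tr (r g))) = j_j (tr (r g))`. -/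
def S_D2 : Prop := ∀ (Λ : Type) [Group Λ] (Φ : NatBij G8 Λ) (n : Λ →* Multiplicative ℤ)
  (p : ℕ) [Fact p.Prime] (Θ : Λ →* Q2 (E4 ℤ_[p])) (r : Λ →* SL2 (Es ℤ_[p])), Dat Φ n p Θ r →
  ∃ (j₁ j₂ : Es ℤ_[p] →+* Fl p) (Ψ₁ Ψ₂ : Λ →* Q2 (Fl p)), JJ (iz p) j₁ j₂ ∧
    P2 n (Fl p) Ψ₁ ∧ P2 n (Fl p) Ψ₂ ∧ (∀ g, ch Ψ₁ g = j₁ (tr (r g))) ∧
    (∀ g, ch Ψ₂ g = j₂ (tr (r g))) ∧ ∃ g, ch Ψ₁ g ≠ ch Ψ₂ g

/-- [F8 D3] two pairs of different characters are the same pair. (Pure logic from `¬ Good2 n K 3`.)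

Proof. If the character of `B₁` is different from those of `A₁` and `A₂` then `![A₁, A₂, B₁]` shows `Good2 n K 3`. Same for
`B₂`. -/
def S_D3 : Prop := ∀ (Λ : Type) [Group Λ] (n : Λ →* Multiplicative ℤ) (K : Type) [Field K],
  ¬ Good2 n K 3 → ∀ A₁ A₂ B₁ B₂ : Λ →* Q2 K, P2 n K A₁ → P2 n K A₂ → P2 n K B₁ → P2 n K B₂ →
  (∃ g, ch A₁ g ≠ ch A₂ g) → (∃ g, ch B₁ g ≠ ch B₂ g) →
  (∀ g, ch B₁ g = ch A₁ g ∧ ch B₂ g = ch A₂ g) ∨ (∀ g, ch B₁ g = ch A₂ g ∧ ch B₂ g = ch A₁ g)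

/-- [F8 D4] sum and product of the two characters are integers. (Uses `S_u2`, `S_D3`, `S_D2`, `S_P2m`, `S_gal`, `S_int`.)

Proof. For an automorphism `g` of `AlgebraicClosure ℚ` the pair `(Q2.map g).comp Ψ_i` also has `P2` and different
characters, so by `S_D3` (`S_u2`) the values of `ch Ψ₁ l + ch Ψ₂ l` and of the product are fixed by `g`, hence
rational (`S_gal`). For every `p` let `ι : AlgebraicClosure ℚ →+* Fl p`; by `S_D3` for the pairs `(Q2.map ι).comp Ψ_i` and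
`S_D2` the sum goes to `j₁ x + j₂ x = iz (trace x)`, `x = tr (r l)`, and the product to `iz (norm x)`. So they are `p`-adic
integers for all `p`, hence integers (`S_int`), and the last assertions hold (`iz p` is injective). -/
def S_D4 : Prop := ∀ (Λ : Type) [Group Λ] [Group.FG Λ] (Φ : NatBij G8 Λ)
  (n : Λ →* Multiplicative ℤ), Function.Surjective n → (∀ (m : ℕ) [NeZero m], Ex Φ n m 1) →
  ∀ Ψ₁ Ψ₂ : Λ →* Q2 (AlgebraicClosure ℚ), P2 n _ Ψ₁ → P2 n _ Ψ₂ → (∃ g, ch Ψ₁ g ≠ ch Ψ₂ g) →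
  ∀ l : Λ, ∃ S P : ℤ, ch Ψ₁ l + ch Ψ₂ l = (S : AlgebraicClosure ℚ) ∧
    ch Ψ₁ l * ch Ψ₂ l = (P : AlgebraicClosure ℚ) ∧
    ∀ (p : ℕ) [Fact p.Prime] (Θ : Λ →* Q2 (E4 ℤ_[p])) (r : Λ →* SL2 (Es ℤ_[p])),
      Dat Φ n p Θ r → (S : ℤ_[p]) = (tr (r l)).trace ∧ (P : ℤ_[p]) = (tr (r l)).norm

/-- [F8 sq] a local-global principle for squares.

Proof. `p = 3`: `3 ∣ D` (`PadicInt`: `(D : ℤ_3)` is in the ideal generated by `3`; e.g. `PadicInt.norm_int_lt_one_iff_dvd`), `D = -3 N`,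
and `N = y²` in `ℤ_p` for all `p`. If `N ≠ 0`: the `p`-adic valuation of `N` is even for all `p`, so `N = ± m²`
(`Int.sq_of..`, or `Nat.sq_mul_squarefree`: `|N| = b² a`, `a` squarefree; a prime `p ∣ a` has odd valuation). The
sign: if `N = -m²`, `m ≠ 0`, then `-1` is a square in `ℚ_3`, so in `ℤ_3`, so modulo `3`, contradiction. -/
def S_sq : Prop := ∀ D : ℤ, (∀ (p : ℕ) [Fact p.Prime], ∃ y : ℤ_[p], (D : ℤ_[p]) = -3 * (y * y)) →
  ∃ m : ℤ, D = -3 * (m * m)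

/-- evaluation of Eisenstein integers at a root -/
def ev0 {K : Type} [CommRing K] (w : K) (hw : w * w = ((-1 : ℤ) : K) * w - 1) : O →+* K :=
  Qd.ev (-1) (Int.castRingHom K) w hw

/-- [F8 D5] one value.

Proof. `(2 c - S)² = S² - 4 P = -3 m² = (m (2 w + 1))²` (`(2 w + 1)² = -3`), so `2 c - S = ± m (2 w + 1)`. Replace `m` by `-m` in the
second case. `S² + 3 m² = 4 P` implies `S + m` even, `c = (S + m) / 2 + m w`: `T = ⟨(S + m) / 2, m⟩`. Then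
`c' = S - c = (S - m) / 2 - m w = ev0 (star T)` (`star ⟨x, y⟩ = ⟨x - y, -y⟩`). -/
def S_D5 : Prop := ∀ (K : Type) [Field K] [CharZero K] (w : K)
  (hw : w * w = ((-1 : ℤ) : K) * w - 1) (c c' : K) (S P m : ℤ), c + c' = S → c * c' = P →
  S * S - 4 * P = -3 * (m * m) → ∃ T : O, c = ev0 w hw T ∧ c' = ev0 w hw (star T)

/-- [F8 D6] comparison with the `p`-adic character. (Uses `S_D3`, `S_u2`, `S_D2`, `S_P2m`.)

Proof. Let `ι : AlgebraicClosure ℚ →+* Fl p`. By `S_D3` there are two cases: `ι (ch Ψ₁ g) = j₁ (tr (r g))` and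
`ι (ch Ψ₂ g) = j₂ (tr (r g))` for all `g`, or exchanged. The element `ι w` is a root of `X² + X + 1`, and so are
`j₁ ω`, `j₂ ω` (different: `inj`), so `ι (ev0 x) = j₁ (x')` for all `x`, or `= j₂ (x')` for all `x`, where
`x' = Qd.map (-1) (Int.castRingHom ℤ_p) x`. If both are of the first kind: `j₁ x' = j₁ y`, `x = T g`, `y = tr (r g)`, and
`ι (ch Ψ₂ g) = ι (ev0 (star x)) = j₁ (star x') = j₂ x' = j₂ y`; so `j₁ (x' - y) = j₂ (x' - y) = 0`, hence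
`(x' - y).im = 0` and then `x' - y = algebraMap re`, `re = 0`: `x' = y`. In the other cases similarly `x' = y` or
`star x' = y`. -/
def S_D6 : Prop := ∀ (Λ : Type) [Group Λ] [Group.FG Λ] (Φ : NatBij G8 Λ)
  (n : Λ →* Multiplicative ℤ), Function.Surjective n → (∀ (m : ℕ) [NeZero m], Ex Φ n m 1) →
  ∀ Ψ₁ Ψ₂ : Λ →* Q2 (AlgebraicClosure ℚ), P2 n _ Ψ₁ → P2 n _ Ψ₂ → (∃ g, ch Ψ₁ g ≠ ch Ψ₂ g) →
  ∀ (w : AlgebraicClosure ℚ) (hw : w * w = ((-1 : ℤ) : AlgebraicClosure ℚ) * w - 1) (T : Λ → O),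
  (∀ g, ch Ψ₁ g = ev0 w hw (T g) ∧ ch Ψ₂ g = ev0 w hw (star (T g))) →
  ∀ (p : ℕ) [Fact p.Prime] (Θ : Λ →* Q2 (E4 ℤ_[p])) (r : Λ →* SL2 (Es ℤ_[p])), Dat Φ n p Θ r →
  (∀ g, tr (r g) = Qd.map (-1) (Int.castRingHom ℤ_[p]) (T g)) ∨
    (∀ g, tr (r g) = Qd.map (-1) (Int.castRingHom ℤ_[p]) (star (T g)))

/-- the output of parts A to D -/
structure Out {Λ : Type} [Group Λ] (Φ : NatBij G8 Λ) (T : Λ → O)
    (s : Λ →* SL2 (AlgebraicClosure ℚ)) (w : AlgebraicClosure ℚ)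
    (hw : w * w = ((-1 : ℤ) : AlgebraicClosure ℚ) * w - 1) : Prop where
  /-- `T` is the character of `s` -/
  char : ∀ g, tr (s g) = ev0 w hw (T g)
  /-- `s` is irreducible -/
  irr : Irr s
  /-- the reductions of `T` -/
  red : ∀ (p : ℕ) [Fact p.Prime], ∃ c : Bool, (p = 2 → c = false) ∧ ∀ (k : ℕ) (g : Λ),
    Qd.map (-1) (Int.castRingHom (ZMod (p ^ k))) (if c then star (T g) else T g) =
      tr (Φ.toFun _ (r8 (ZMod (p ^ k))) g)

/-- [F8 D] MAIN RESULT of part D. (Uses `S_D1`, `S_D2`, `S_D4`, `S_D5`, `S_D6`, `S_sq`, `S_q1`.)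

Proof. `Dat` for all `p` from `S_D1`; for `p = 2` `S_D2` gives `Good2 n (Fl 2) 2`, so by `S_q1` `Good2 n (AlgebraicClosure ℚ) 2`:
`Ψ₁, Ψ₂`. For `l : Λ` `S, P` from `S_D4`; `S² - 4 P = trace² - 4 norm = -3 im²` in `ℤ_p` for all `p`
(`(2x - y)² - 4 (x² - x y + y²) = -3 y²`), so `S_sq` gives `m` and `S_D5` gives `T l`. `S_D6` for all `p`; reduce modulo `p ^ k`
(`Dat.red`, `tr_map`; `PadicInt.toZModPow k` of an integer is the cast). If for `p = 2` the second case occurs,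
replace `T` by `star ∘ T` and `Ψ₁` by `Ψ₂`. `s = Q2.mH.comp Ψ₁`. -/
def S_D : Prop := ∀ (Λ : Type) [Group Λ] [Group.FG Λ] (Φ : NatBij G8 Λ)
  (n : Λ →* Multiplicative ℤ), Function.Surjective n → (∀ (m : ℕ) [NeZero m], Ex Φ n m 1) →
  ∃ (T : Λ → O) (s : Λ →* SL2 (AlgebraicClosure ℚ)) (w : AlgebraicClosure ℚ)
    (hw : w * w = ((-1 : ℤ) : AlgebraicClosure ℚ) * w - 1), Out Φ T s w hw

end

end Pool.Agent.F8
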