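import Pool.Agent.Lib.MP_305fdd_al.F8.DefsN
import Pool.Agent.Lib.MP_305fdd_al.F8.StmD

/-!
# MP_305fdd_al: the cyclic covers of the figure-eight knot complement. Definitions for the transfer.

`Λ` is a group with the same finite quotients as `GN n`, `Φ : NatBij (GN n) Λ`, `nL : Λ → ℤ`
corresponds to `nN n`. `Lm nL m` (kernel of `nL` modulo `m`) corresponds to `GN (n * m)` by
`Ψ : NatBij (GN (n * m)) (Lm nL m)`. The condition `CN` on a representation `ρ : Λ →* SL2 K` says:
it is irreducible on the kernel of `nL`, and at the levels `m = 1, 2, 3` it has the same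
exceptional values `τ` for all characters of a complete family as the representation `rN`.
-/

set_option autoImplicit false

namespace Pool.Agent.F8

open Pool.Agent.MP_305fdd_al Pool.Agent.Lib.MP_305fdd_al Pool.Agent.F2X
open scoped QuadraticAlgebra

noncomputable section

/-- the equation of `w` in the other form -/
theorem ew {S : Type} [CommRing S] {w : S} (hw : w * w + w + 1 = 0) :
    w * w = ((-1 : ℤ) : S) * w - 1 := by
  push_cast
  linear_combination hw

/-- the equation of `w` in the other form -/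
theorem we {S : Type} [CommRing S] {w : S} (hw : w * w = ((-1 : ℤ) : S) * w - 1) :
    w * w + w + 1 = 0 := by
  push_cast at hw
  linear_combination hw

/-- the homomorphism `R[ω] → K` given by a root `w` of `w² + w + 1` -/
def jw {R K : Type} [CommRing R] [CommRing K] (f : R →+* K) (w : K) (hw : w * w + w + 1 = 0) :
    Es R →+* K := Qd.ev (-1) f w (ew hw)

theorem jw_apply {R K : Type} [CommRing R] [CommRing K] (f : R →+* K) (w : K)
    (hw : w * w + w + 1 = 0) (z : Es R) : jw f w hw z = f z.re + f z.im * w := rfl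

theorem jw_om {R K : Type} [CommRing R] [CommRing K] (f : R →+* K) (w : K)
    (hw : w * w + w + 1 = 0) : jw f w hw (om R) = w := by
  rw [jw_apply]
  simp [th]

/-- the representation `GN n → SL₂(R[ω])` -/
abbrev rE (n : ℕ) (R : Type) [CommRing R] : GN n →* SL2 (Es R) := rN n (om R) (om_eq R)

/-- The condition at one level: `GN N` corresponds to `L` by `Ψ`. There are a complete family of
characters `α ∘ x i` of `GN N` and numbers `τ i` such that `τ i` is an exceptional value
of the representation `rN N w` for `α ∘ x i` (a quadratic equation), and `τ i` is an exceptional value of `ρ`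
for the corresponding character of `L`. -/
def LC (N : ℕ) {L : Type} [Group L] (Ψ : NatBij (GN N) L) (nL : L →* Multiplicative ℤ)
    {K : Type} [CommRing K] (w : K) (hw : w * w + w + 1 = 0) (ρ : L →* SL2 K) : Prop :=
  ∃ (c : ℕ) (μ : Type) (_ : CommGroup μ) (_ : Finite μ) (x : Fin c → (GN N →* μ)) (α : μ →* Kˣ)
    (τ : Fin c → Kˣ), Cpl N (fun i => α.comp (x i)) ∧ ∀ i,
      (τ i).val * (τ i).val - sT (rN N w hw) (α.comp (x i)) * (τ i).val + 1 = 0 ∧
      Ex1 ρ (α.comp (Ψ.toFun μ (x i)) * (pw (τ i)).comp nL)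

section

variable {Λ : Type} [Group Λ] {n : ℕ}

/-- the levels `1, 2, 3`: the natural bijections are compatible with restriction and with the
exponents -/
structure Twr (Φ : NatBij (GN n) Λ) (nL : Λ →* Multiplicative ℤ)
    (Ψ : ∀ m : Fin 3, NatBij (GN (n * (m.val + 1))) (Lm nL (m.val + 1))) : Prop where
  /-- restriction -/
  res : ∀ (m : Fin 3) (Q : Type) [Group Q] [Finite Q] (f : GN n →* Q),
    (Ψ m).toFun Q (f.comp (inc n (m.val + 1))) =
      (Φ.toFun Q f).comp (Lm nL (m.val + 1)).subtype
  /-- exponents -/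
  cmp : ∀ m : Fin 3, CmG (Ψ m) (nN (n * (m.val + 1))) (nm nL (m.val + 1))

/-- the condition on a representation of `Λ` -/
def CN (nL : Λ →* Multiplicative ℤ)
    (Ψ : ∀ m : Fin 3, NatBij (GN (n * (m.val + 1))) (Lm nL (m.val + 1)))
    {K : Type} [CommRing K] (w : K) (hw : w * w + w + 1 = 0) (ρ : Λ →* SL2 K) : Prop :=
  Irr (ρ.comp nL.ker.subtype) ∧ ∀ m : Fin 3, LC (n * (m.val + 1)) (Ψ m) (nm nL (m.val + 1)) w hw
    (ρ.comp (Lm nL (m.val + 1)).subtype)

/-- the output of the transfer -/
structure OutN (Φ : NatBij (GN n) Λ) (nL : Λ →* Multiplicative ℤ) (T : Λ → O)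
    (s : Λ →* SL2 (AlgebraicClosure ℚ)) (w : AlgebraicClosure ℚ)
    (hw : w * w = ((-1 : ℤ) : AlgebraicClosure ℚ) * w - 1) : Prop where
  /-- `T` is the character of `s` -/
  char : ∀ g, tr (s g) = ev0 w hw (T g)
  /-- `s` is irreducible on the kernel of `nL` -/
  irr : Irr (s.comp nL.ker.subtype)
  /-- the reductions of `T` -/
  red : ∀ (p : ℕ) [Fact p.Prime] (k : ℕ) (g : Λ),
    Qd.map (-1) (Int.castRingHom (ZMod (p ^ k))) (T g) = tr (Φ.toFun _ (rE n (ZMod (p ^ k))) g)

end

/-- the data `T` (affine representations), `X` (elements of `K`) are defined over `R`, and the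
homomorphism `π : R → k` does not kill the nonzero elements of `X` -/
structure SpR {K k : Type} [Field K] [Field k] {R : Subring K} (π : R →+* k) {G : Type} [Group G]
    (T : Set (G →* Q2 K)) (X : Set K) : Prop where
  /-- descent of the homomorphisms -/
  hom : ∀ Θ ∈ T, ∃ Θ' : G →* Q2 R, (Q2.map R.subtype).comp Θ' = Θ
  /-- descent of the elements -/
  mem : ∀ x ∈ X, x ∈ R
  /-- nonvanishing -/
  ne : ∀ (x : K) (h : x ∈ R), x ∈ X → x ≠ 0 → π ⟨x, h⟩ ≠ 0

/-- a representation as an affine representation with trivial scalar and translation part -/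
def q0 {G R : Type} [Group G] [CommRing R] (ρ : G →* SL2 R) : G →* Q2 R where
  toFun g := ⟨1, ρ g, 0⟩
  map_one' := by
    apply Q2.ext
    · rfl
    · exact map_one ρ
    · rfl
  map_mul' g h := by
    apply Q2.ext
    · simp
    · simp
    · simp

/-- `Θ` with the translation part multiplied by `a` -/
def scl {G R : Type} [Group G] [CommRing R] (a : R) (Θ : G →* Q2 R) : G →* Q2 R where
  toFun g := ⟨(Θ g).t, (Θ g).m, a • (Θ g).v⟩
  map_one' := by
    apply Q2.ext
    · simp
    · simp
    · simp
  map_mul' g h := by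
    apply Q2.ext
    · simp
    · simp
    · simp only [map_mul, Q2.mul_v, smul_add, Matrix.mulVec_smul]
      rw [smul_comm]

/-- A finitely generated subring `R` (with `ι : R → Fl p` injective) of the integral closure of `ℤ_p`,
as the limit of finite rings `Rk k` over `ZMod (p ^ k)`. -/
structure LR (p : ℕ) [Fact p.Prime] {R : Type} [CommRing R] (ι : R →+* Fl p) (f : ℤ_[p] →+* R)
    {Rk : ℕ → Type} [∀ k, CommRing (Rk k)] (π : ∀ k, R →+* Rk k) (q : ∀ k, Rk (k + 1) →+* Rk k)
    (fk : ∀ k, ZMod (p ^ k) →+* Rk k) : Prop where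
  /-- injective -/
  inj : Function.Injective ι
  /-- a limit -/
  lim : IsLim R Rk π q
  /-- of finite rings -/
  fin : ∀ k, Finite (Rk k)
  /-- the structure of `ℤ_p`-algebra -/
  cf : ι.comp f = iz p
  /-- compatibility -/
  ck : ∀ k, (fk k).comp (PadicInt.toZModPow k) = (π k).comp f
  /-- compatibility -/
  cq : ∀ k, (q k).comp (fk (k + 1)) = (fk k).comp (tz p k)

end

end Pool.Agent.F8
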