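import Pool.Agent.Lib.MP_305fdd_al.F8.MainD
import Pool.Agent.Lib.MP_305fdd_al.F8.E.Main
import Pool.Agent.Lib.MP_305fdd_al.F8.E.Out
import Pool.Agent.Lib.MP_305fdd_al.F8.G.End
import Pool.Agent.Lib.MP_305fdd_al.F8.StmH
import Pool.Agent.Lib.MP_305fdd_al.F8.P.fst
import Pool.Agent.Lib.MP_305fdd_al.F8.P.sec
import Pool.Agent.Lib.MP_305fdd_al.F8.P.end
import Pool.Agent.Lib.MP_305fdd_al.F8.P.cj
import Pool.Agent.Lib.MP_305fdd_al.F8.P.mat
import Pool.Agent.Lib.MP_305fdd_al.F8.P.tw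
import Pool.Agent.Lib.MP_305fdd_al.F8.P.gn
import Pool.Agent.Lib.MP_305fdd_al.F8.P.rk
import Pool.Agent.Lib.MP_305fdd_al.F8.P.mod
import Pool.Agent.Lib.MP_305fdd_al.F8.P.cmp
import Pool.Agent.Lib.MP_305fdd_al.F8.P.hol
import Pool.Agent.Lib.MP_305fdd_al.F8.P.bn
import Pool.Agent.Lib.MP_305fdd_al.F8.P.li
import Pool.Agent.Lib.MP_305fdd_al.F8.P.two
import Pool.Agent.Lib.MP_305fdd_al.F8.P.three
import Pool.Agent.Lib.MP_305fdd_al.F2X.P.sur
import Pool.Agent.Lib.MP_305fdd_al.F2X.P.cor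
import Pool.Agent.Lib.MP_305fdd_al.F2X.P.out
import Pool.Agent.Lib.MP_305fdd_al.F2X.P.niel
import Pool.Agent.Lib.MP_305fdd_al.F2X.P.mv
import Pool.Agent.Lib.MP_305fdd_al.F2X.P.half
import Pool.Agent.Lib.MP_305fdd_al.F2X.P.four
import Pool.Agent.Lib.MP_305fdd_al.F2X.P.pre
import Pool.Agent.Lib.MP_305fdd_al.F2X.P.sqn
import Pool.Agent.Lib.MP_305fdd_al.F2X.P.gen
import Pool.Agent.Lib.MP_305fdd_al.F2X.P.word

/-!
# MP_305fdd_al: the figure-eight knot group is profinitely rigid in the absolute sense.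
-/

set_option autoImplicit false

namespace Pool.Agent.F8

open Pool.Agent.MP_305fdd_al Pool.Agent.Lib.MP_305fdd_al Pool.Agent.F2X
open scoped QuadraticAlgebra

theorem niel_all : S_niel :=
  p_niel p_mv (p_half p_four p_pre p_sqn) (p_gen (p_word p_four)) p_sqn

theorem all_H : H.S_H := by
  have htw : H.S_tw := H.p_tw H.p_cmp H.p_hol
  exact H.p_H (H.p_sec htw H.p_gn (H.p_rk H.p_mod)
    (H.p_end (H.p_mat htw p_tr) H.p_cj p_sur (p_out niel_all)))
    (H.p_fst (H.p_two H.p_bn H.p_li) (H.p_three H.p_bn))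

/-- the figure-eight knot group is finitely generated -/
theorem fg_G8 : Group.FG G8 := by
  rw [Group.fg_def]
  refine ⟨{aa, uu, vv}, ?_⟩
  rw [eq_top_iff]
  rintro ⟨w, n⟩ -
  have h1 : (⟨w, n⟩ : G8) = SemidirectProduct.inl w * aa ^ (Multiplicative.toAdd n) := by
    unfold aa
    rw [← map_zpow, ← ofAdd_zsmul]
    simp
  rw [h1]
  refine mul_mem ?_ (zpow_mem (Subgroup.subset_closure (by simp)) _)
  have h2 : ∀ w : F, (SemidirectProduct.inl w : G8) ∈
      Subgroup.closure (({aa, uu, vv} : Finset G8) : Set G8) := by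
    intro w
    have h3 : w ∈ (Subgroup.closure (({aa, uu, vv} : Finset G8) : Set G8)).comap
        (SemidirectProduct.inl : F →* G8) := by
      have h4 : (⊤ : Subgroup F) ≤ (Subgroup.closure (({aa, uu, vv} : Finset G8) : Set G8)).comap
          (SemidirectProduct.inl : F →* G8) := by
        rw [← FreeGroup.closure_range_of, Subgroup.closure_le]
        rintro _ ⟨i, rfl⟩
        fin_cases i
        · exact Subgroup.subset_closure (by simp [uu, ga])
        · exact Subgroup.subset_closure (by simp [vv, gb])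
      exact h4 (Subgroup.mem_top w)
    exact h3
  exact h2 w

/-- transport of the trace congruence from `ZMod (p ^ 1)` to `ZMod p` -/
theorem red_one {Λ : Type} [Group Λ] (Φ : NatBij G8 Λ) (p : ℕ) [Fact p.Prime] (x : O) (l : Λ)
    (h : Qd.map (-1) (Int.castRingHom (ZMod (p ^ 1))) x = tr (Φ.toFun _ (r8 (ZMod (p ^ 1))) l)) :
    Qd.map (-1) (Int.castRingHom (ZMod p)) x =
      tr (Φ.toFun (SL2 (Es (ZMod p))) (rho8 (om (ZMod p)) (om_sq (ZMod p))) l) := by
  have key : ∀ (q : ℕ) (hq : q = p) [NeZero q],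
      Qd.map (-1) (Int.castRingHom (ZMod q)) x = tr (Φ.toFun _ (r8 (ZMod q)) l) →
      Qd.map (-1) (Int.castRingHom (ZMod p)) x = tr (Φ.toFun _ (r8 (ZMod p)) l) := by
    intro q hq
    subst hq
    intro _ h'
    exact h'
  exact key (p ^ 1) (pow_one p) h

/-- **Main theorem**: the figure-eight knot group is profinitely rigid in the absolute sense. -/
theorem rigid_G8 : ProfinitelyRigid G8 := by
  intro Λ _ hΛ
  obtain ⟨hfg, hrf, hs⟩ := hΛ
  have := hfg
  have := fg_G8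
  obtain ⟨Φ⟩ := exists_natBij hs.symm
  obtain ⟨n, ⟨hsur, hab⟩, hex⟩ := all_A Λ hs Φ
  obtain ⟨T, s, w, hw, hO⟩ := all_D Λ Φ n hsur hex
  obtain ⟨ρ, hρ⟩ := E_out E_main Λ Φ T s w hw hO
  obtain ⟨Ψ, hΨ⟩ := G.G_main
  obtain ⟨c2, hc2, h2⟩ := hO.red 2
  obtain ⟨c3, _, h3⟩ := hO.red 3
  have hcmp : H.Cmp Φ n := by
    intro m _
    have h := hex m
    unfold Ex at h
    rw [h]
    ext l
    show redZ m ((n l) ^ (1 : ℤ)) = redZ m (n l)
    rw [zpow_one]
  refine all_H Λ Φ n hfg hrf hs hsur hab hcmp ρ (if c3 then star else id) ?_ ?_ ?_ Ψ hΨ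
  · cases c3
    · exact Or.inl rfl
    · exact Or.inr rfl
  · intro l
    have h := h2 1 l
    rw [hc2 rfl] at h
    rw [hρ]
    exact red_one Φ 2 (T l) l h
  · intro l
    have h := h3 1 l
    rw [hρ]
    cases c3
    · exact red_one Φ 3 (T l) l h
    · exact red_one Φ 3 (star (T l)) l h

end Pool.Agent.F8
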