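import Pool.Agent.Lib.MP_305fdd_al.F8.P.A
import Pool.Agent.Lib.MP_305fdd_al.F8.P.A1
import Pool.Agent.Lib.MP_305fdd_al.F8.P.A2
import Pool.Agent.Lib.MP_305fdd_al.F8.P.A3
import Pool.Agent.Lib.MP_305fdd_al.F8.P.A4
import Pool.Agent.Lib.MP_305fdd_al.F8.P.A5
import Pool.Agent.Lib.MP_305fdd_al.F8.P.A6
import Pool.Agent.Lib.MP_305fdd_al.F8.P.B
import Pool.Agent.Lib.MP_305fdd_al.F8.P.B1
import Pool.Agent.Lib.MP_305fdd_al.F8.P.Bc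
import Pool.Agent.Lib.MP_305fdd_al.F8.P.D
import Pool.Agent.Lib.MP_305fdd_al.F8.P.D1
import Pool.Agent.Lib.MP_305fdd_al.F8.P.D2
import Pool.Agent.Lib.MP_305fdd_al.F8.P.D3
import Pool.Agent.Lib.MP_305fdd_al.F8.P.D4
import Pool.Agent.Lib.MP_305fdd_al.F8.P.D5
import Pool.Agent.Lib.MP_305fdd_al.F8.P.D6
import Pool.Agent.Lib.MP_305fdd_al.F8.P.G2
import Pool.Agent.Lib.MP_305fdd_al.F8.P.L1
import Pool.Agent.Lib.MP_305fdd_al.F8.P.L2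
import Pool.Agent.Lib.MP_305fdd_al.F8.P.P1m
import Pool.Agent.Lib.MP_305fdd_al.F8.P.P2m
import Pool.Agent.Lib.MP_305fdd_al.F8.P.ab8
import Pool.Agent.Lib.MP_305fdd_al.F8.P.abL
import Pool.Agent.Lib.MP_305fdd_al.F8.P.coc
import Pool.Agent.Lib.MP_305fdd_al.F8.P.dM
import Pool.Agent.Lib.MP_305fdd_al.F8.P.des
import Pool.Agent.Lib.MP_305fdd_al.F8.P.ex
import Pool.Agent.Lib.MP_305fdd_al.F8.P.exd
import Pool.Agent.Lib.MP_305fdd_al.F8.P.exu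
import Pool.Agent.Lib.MP_305fdd_al.F8.P.f1
import Pool.Agent.Lib.MP_305fdd_al.F8.P.f2
import Pool.Agent.Lib.MP_305fdd_al.F8.P.f3
import Pool.Agent.Lib.MP_305fdd_al.F8.P.gal
import Pool.Agent.Lib.MP_305fdd_al.F8.P.int
import Pool.Agent.Lib.MP_305fdd_al.F8.P.ir
import Pool.Agent.Lib.MP_305fdd_al.F8.P.ir0
import Pool.Agent.Lib.MP_305fdd_al.F8.P.lh
import Pool.Agent.Lib.MP_305fdd_al.F8.P.lq
import Pool.Agent.Lib.MP_305fdd_al.F8.P.lz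
import Pool.Agent.Lib.MP_305fdd_al.F8.P.m1
import Pool.Agent.Lib.MP_305fdd_al.F8.P.m2
import Pool.Agent.Lib.MP_305fdd_al.F8.P.mT
import Pool.Agent.Lib.MP_305fdd_al.F8.P.mp
import Pool.Agent.Lib.MP_305fdd_al.F8.P.mt
import Pool.Agent.Lib.MP_305fdd_al.F8.P.nc
import Pool.Agent.Lib.MP_305fdd_al.F8.P.nc0
import Pool.Agent.Lib.MP_305fdd_al.F8.P.nc1
import Pool.Agent.Lib.MP_305fdd_al.F8.P.nf
import Pool.Agent.Lib.MP_305fdd_al.F8.P.nz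
import Pool.Agent.Lib.MP_305fdd_al.F8.P.pwl
import Pool.Agent.Lib.MP_305fdd_al.F8.P.q1
import Pool.Agent.Lib.MP_305fdd_al.F8.P.ril
import Pool.Agent.Lib.MP_305fdd_al.F8.P.s1
import Pool.Agent.Lib.MP_305fdd_al.F8.P.s2
import Pool.Agent.Lib.MP_305fdd_al.F8.P.spf
import Pool.Agent.Lib.MP_305fdd_al.F8.P.spq
import Pool.Agent.Lib.MP_305fdd_al.F8.P.sq
import Pool.Agent.Lib.MP_305fdd_al.F8.P.tab
import Pool.Agent.Lib.MP_305fdd_al.F8.P.tg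
import Pool.Agent.Lib.MP_305fdd_al.F8.P.u1
import Pool.Agent.Lib.MP_305fdd_al.F8.P.u2
import Pool.Agent.Lib.MP_305fdd_al.F8.P.van
import Pool.Agent.Lib.MP_305fdd_al.F8.P.wc
import Pool.Agent.Lib.MP_305fdd_al.F8.P.wm

/-!
# MP_305fdd_al, figure-eight knot group: parts A to D, assembled
-/

set_option autoImplicit false

namespace Pool.Agent.F8

theorem all_B : S_B :=
  pf_B (pf_Bc pf_wc pf_van pf_ir pf_tab pf_nf pf_ril pf_dM pf_coc) pf_wm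

theorem all_G2 : S_G2 := pf_G2 all_B pf_tab pf_tg

theorem all_q1 : S_q1 := pf_q1 (pf_spf pf_des) (pf_spq pf_des) (pf_s1 pf_wm) (pf_s2 pf_wm)

theorem all_ex : S_ex := pf_ex pf_ab8 pf_pwl

theorem all_u1 : S_u1 := pf_u1 all_q1 (pf_m1 pf_mt pf_ab8 pf_pwl) pf_B1

theorem all_u2 : S_u2 := pf_u2 all_q1 (pf_m2 pf_mt pf_mp pf_exu) all_G2

theorem all_L1 : S_L1 := pf_L1 pf_lz pf_lq pf_lh pf_mT

theorem all_L2 : S_L2 := pf_L2 pf_lz pf_lq pf_lh pf_mT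

theorem all_A1 : S_A1 :=
  pf_A1 all_L1 pf_pwl pf_exu pf_mp pf_wm pf_nc1 pf_nz pf_nc pf_lz pf_lq

theorem all_A2 : S_A2 := pf_A2 all_ex pf_nc

theorem all_A4 : S_A4 := pf_A4 all_u1 all_q1 pf_A3 (pf_P1m pf_wm) pf_gal pf_int

theorem all_A6 : S_A6 := pf_A6 pf_f1 (pf_f2 pf_f1) (pf_f3 pf_f1 (pf_f2 pf_f1))

theorem all_A : S_A :=
  pf_A (pf_abL pf_ab8) all_ex pf_exd all_A1 all_A2 all_A4 (pf_A5 pf_nc) all_A6

theorem all_D1 : S_D1 := pf_D1 all_L2 pf_exu pf_mt pf_wm pf_nc0 pf_ir0 pf_nz pf_nc pf_lz pf_lq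

theorem all_D2 : S_D2 := pf_D2 pf_A3 (pf_P2m pf_wm)

theorem all_D4 : S_D4 := pf_D4 all_u2 pf_D3 all_D2 (pf_P2m pf_wm) pf_gal pf_int all_D1

theorem all_D6 : S_D6 := pf_D6 pf_D3 all_u2 all_D2 (pf_P2m pf_wm)

theorem all_D : S_D := pf_D all_D1 all_D2 all_D4 pf_D5 all_D6 pf_sq all_q1

end Pool.Agent.F8
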