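import Pool.Agent.Lib.MP_305fdd_al.F8.FinalN
import Pool.Agent.Lib.MP_305fdd_al.F8.MainPT

/-!
# MP_305fdd_al: all cyclic covers of the figure-eight knot complement and all groups without finite
# normal subgroups which contain one of them as a normal subgroup of finite index are profinitely
# rigid in the absolute sense.
-/

set_option autoImplicit false

namespace Pool.Agent.F8

open Pool.Agent.MP_305fdd_al Pool.Agent.Lib.MP_305fdd_al Pool.Agent.F2X Pool.Agent.F8.HN

/-- the cyclic covers of the figure-eight knot complement -/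
theorem rigid_GN (n : ℕ) (hn : 0 < n) : ProfinitelyRigid (GN n) := rigid_of all_NT all_NA n hn

theorem reg_GN (n : ℕ) (hn : 0 < n) : OV.Reg (phi ^ n) := reg_of all_NA n hn

/-- **Main theorem**. -/
theorem rigid_over (Γ : Type) [Group Γ] (N : Subgroup Γ) (n : ℕ) (hn : 0 < n) (hN : N.Normal)
    (hi : N.FiniteIndex) (e : Nonempty (N ≃* GN n))
    (hK : ∀ K : Subgroup Γ, K.Normal → Finite K → K = ⊥) : ProfinitelyRigid Γ :=
  OV.ov_main (fun m hm => ⟨rigid_GN m hm, reg_GN m hm⟩) Γ N n hn hN hi e hK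

/-- the groups `F ⋊_β ℤ` for the roots `β` of the powers of `phi` -/
theorem rigid_cyc (β : MulAut F) (n k : ℕ) (hn : 0 < n) (hk : 0 < k)
    (hb : AM β ^ k = AM phi ^ n) : ProfinitelyRigid (GA β) :=
  OV.ov_cyc (fun m hm => ⟨rigid_GN m hm, reg_GN m hm⟩) β n k hn hk hb

end Pool.Agent.F8
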