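import Pool.Agent.Lib.MP_305fdd_al.F8.P.mod
import Pool.Agent.Lib.MP_305fdd_al.F8.P.bn
import Pool.Agent.Lib.MP_305fdd_al.F8.P.end
import Pool.Agent.Lib.MP_305fdd_al.F8.P.sec
import Pool.Agent.Lib.MP_305fdd_al.F8.P.mat
import Pool.Agent.Lib.MP_305fdd_al.F8.P.cj
import Pool.Agent.Lib.MP_305fdd_al.F8.P.rk
import Pool.Agent.Lib.MP_305fdd_al.F8.P.fst
import Pool.Agent.Lib.MP_305fdd_al.F8.P.two
import Pool.Agent.Lib.MP_305fdd_al.F8.P.tw
import Pool.Agent.Lib.MP_305fdd_al.F8.P.three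
import Pool.Agent.Lib.MP_305fdd_al.F8.P.gn
import Pool.Agent.Lib.MP_305fdd_al.F8.P.hol
import Pool.Agent.Lib.MP_305fdd_al.F8.P.cmp
import Pool.Agent.Lib.MP_305fdd_al.F8.P.li
import Pool.Agent.Lib.MP_305fdd_al.F2X.Main

/-!
# MP_305fdd_al: the figure-eight knot group, block H (the conclusion): assembly
-/

set_option autoImplicit false

namespace Pool.Agent.F8.H

theorem all_tw : S_tw := p_tw p_cmp p_hol

theorem all_mat : S_mat := p_mat all_tw Pool.Agent.F2X.p_tr

theorem all_end : S_end := p_end all_mat p_cj Pool.Agent.F2X.p_sur Pool.Agent.F2X.all_out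

theorem all_rk : S_rk := p_rk p_mod

theorem all_sec : S_sec := p_sec all_tw p_gn all_rk all_end

theorem all_fst : S_fst := p_fst (p_two p_bn p_li) (p_three p_bn)

/-- BLOCK H -/
theorem all_H : S_H := p_H all_sec all_fst

end Pool.Agent.F8.H
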