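import Pool.Agent.Lib.MP_305fdd_al.F8.ModelsN

/-!
# MP_305fdd_al, figure-eight project: subgroups of `PSL₂(ℂ)` containing powers of `a` and `b`

A subgroup of `PSL₂(ℂ)` which contains positive powers of the classes of `[[1, 1], [0, 1]]` and
`[[1, 0], [-ω, 1]]` has no non-trivial finite normal subgroup.
-/

set_option autoImplicit false
set_option linter.unusedSimpArgs false

namespace Pool.Agent.F8

open Pool.Agent.MP_305fdd_al Pool.Agent.Lib.MP_305fdd_al Pool.Agent.F2X
open scoped QuadraticAlgebra

theorem ma_pow (m : ℕ) : ((ma ℂ) ^ m).val = !![1, (m : ℂ); 0, 1] := by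
  induction m with
  | zero =>
    ext i j
    fin_cases i <;> fin_cases j <;> simp
  | succ m ih =>
    rw [pow_succ, Matrix.SpecialLinearGroup.coe_mul, ih]
    ext i j
    fin_cases i <;> fin_cases j <;> simp [ma, Matrix.mul_apply, Fin.sum_univ_two, add_comm]

theorem mb_pow (w : ℂ) (m : ℕ) : ((mb w) ^ m).val = !![1, 0; -(m * w), 1] := by
  induction m with
  | zero =>
    ext i j
    fin_cases i <;> fin_cases j <;> simp
  | succ m ih =>
    rw [pow_succ, Matrix.SpecialLinearGroup.coe_mul, ih]
    ext i j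
    fin_cases i <;> fin_cases j <;> simp [mb, Matrix.mul_apply, Fin.sum_univ_two]
    ring

theorem mul_lit (x : Matrix (Fin 2) (Fin 2) ℂ) (a b c d : ℂ) : x * !![a, b; c, d] =
    !![x 0 0 * a + x 0 1 * c, x 0 0 * b + x 0 1 * d; x 1 0 * a + x 1 1 * c,
      x 1 0 * b + x 1 1 * d] := by
  ext i j
  fin_cases i <;> fin_cases j <;> simp [Matrix.mul_apply, Fin.sum_univ_two]

theorem lit_mul (x : Matrix (Fin 2) (Fin 2) ℂ) (a b c d : ℂ) : !![a, b; c, d] * x =
    !![a * x 0 0 + b * x 1 0, a * x 0 1 + b * x 1 1; c * x 0 0 + d * x 1 0,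
      c * x 0 1 + d * x 1 1] := by
  rw [Matrix.eta_fin_two x, Matrix.mul_fin_two]
  simp

/-- commuting in `PSL₂(ℂ)` -/
theorem pc_comm {x y : SL2 ℂ} (h : pc x * pc y = pc y * pc x) :
    x.val * y.val = y.val * x.val ∨ x.val * y.val = -(y.val * x.val) := by
  rw [← map_mul, ← map_mul] at h
  have h1 : (y * x)⁻¹ * (x * y) ∈ Subgroup.center (SL2 ℂ) := QuotientGroup.eq.1 h.symm
  rw [Matrix.SpecialLinearGroup.mem_center_iff] at h1
  obtain ⟨r, hr, hs⟩ := h1
  have hr' : r = 1 ∨ r = -1 := by
    rw [Fintype.card_fin] at hr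
    exact mul_self_eq_one_iff.1 (by rw [← sq]; exact hr)
  have h2 : (x * y).val = (y * x).val * (Matrix.scalar (Fin 2) r) := by
    rw [hs, ← Matrix.SpecialLinearGroup.coe_mul, mul_inv_cancel_left]
  have h3 : x.val * y.val = r • (y.val * x.val) := by
    rw [← Matrix.SpecialLinearGroup.coe_mul, ← Matrix.SpecialLinearGroup.coe_mul, h2]
    ext i j
    simp [Matrix.scalar_apply, Matrix.mul_diagonal, mul_comm]
  rcases hr' with rfl | rfl
  · left; rw [h3, one_smul]
  · right; rw [h3, neg_one_smul]

/-- an element which commutes with powers of `a` and `b` is trivial -/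
theorem pc_central {x : PC} {m k : ℕ} (hm : 0 < m) (hk : 0 < k)
    (h1 : x * pc (ma ℂ) ^ m = pc (ma ℂ) ^ m * x) (h2 : x * pc (mb wC) ^ k = pc (mb wC) ^ k * x) :
    x = 1 := by
  obtain ⟨x, rfl⟩ := QuotientGroup.mk'_surjective _ x
  rw [← map_pow] at h1 h2
  have hm' : (m : ℂ) ≠ 0 := by exact_mod_cast hm.ne'
  have hk' : (k : ℂ) ≠ 0 := by exact_mod_cast hk.ne'
  have hw : wC ≠ 0 := by
    intro h
    have := congrArg Complex.re h
    simp [wC] at this
  have hd := x.2
  rw [Matrix.det_fin_two] at hd
  have e1 : x.val 1 0 = 0 ∧ x.val 0 0 = x.val 1 1 := by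
    rcases pc_comm h1 with h | h
    · rw [ma_pow, mul_lit, lit_mul] at h
      have h00 := congrFun (congrFun h 0) 0
      have h01 := congrFun (congrFun h 0) 1
      simp at h00 h01
      have h10 : x.val 1 0 = 0 := by
        rcases h00 with h | h
        · exact absurd h hm.ne'
        · exact h
      refine ⟨h10, ?_⟩
      have : (m : ℂ) * (x.val 0 0 - x.val 1 1) = 0 := by linear_combination h01
      rcases mul_eq_zero.1 this with h | h
      · exact absurd h hm'
      · exact sub_eq_zero.1 h
    · exfalso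
      rw [ma_pow, mul_lit, lit_mul] at h
      have h00 := congrFun (congrFun h 0) 0
      have h10 := congrFun (congrFun h 1) 0
      simp at h00 h10
      have e10 : x.val 1 0 = 0 := by
        have : (2 : ℂ) * x.val 1 0 = 0 := by linear_combination h10
        simpa using this
      have e00 : x.val 0 0 = 0 := by
        have : (2 : ℂ) * x.val 0 0 = 0 := by
          rw [e10] at h00
          linear_combination h00
        simpa using this
      rw [e10, e00] at hd
      simp at hd
  have e2 : x.val 0 1 = 0 := by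
    rcases pc_comm h2 with h | h
    · rw [mb_pow, mul_lit, lit_mul] at h
      have h00 := congrFun (congrFun h 0) 0
      simp at h00
      rcases h00 with h | h
      · exact h
      · rcases h with h | h
        · exact absurd h hk.ne'
        · exact absurd h hw
    · exfalso
      rw [mb_pow, mul_lit, lit_mul] at h
      have h11 := congrFun (congrFun h 1) 1
      have h01 := congrFun (congrFun h 0) 1
      simp at h11 h01
      have e01 : x.val 0 1 = 0 := by
        have : (2 : ℂ) * x.val 0 1 = 0 := by linear_combination h01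
        simpa using this
      have e11 : x.val 1 1 = 0 := by
        have : (2 : ℂ) * x.val 1 1 = 0 := by
          rw [e01] at h11
          linear_combination h11
        simpa using this
      rw [e01, e11] at hd
      simp at hd
  rw [← map_one (QuotientGroup.mk' (Subgroup.center (SL2 ℂ)))]
  apply QuotientGroup.eq.2
  rw [mul_one]
  apply Subgroup.inv_mem
  rw [Matrix.SpecialLinearGroup.mem_center_iff]
  refine ⟨x.val 0 0, ?_, ?_⟩
  · rw [Fintype.card_fin]
    rw [e1.1, ← e1.2] at hd
    rw [sq]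
    linear_combination hd
  · ext i j
    fin_cases i <;> fin_cases j
    · simp
    · simp [e2]
    · simp [e1.1]
    · simp [e1.2]

/-- a subgroup of `PSL₂(ℂ)` which contains powers of `a` and `b` has no non-trivial finite normal
subgroup -/
theorem no_finite_normal (Γ : Subgroup PC) {m k : ℕ} (hm : 0 < m) (hk : 0 < k)
    (ha : pc (ma ℂ) ^ m ∈ Γ) (hb : pc (mb wC) ^ k ∈ Γ) (K : Subgroup Γ) (hK : K.Normal)
    (hf : Finite K) : K = ⊥ := by
  rw [eq_bot_iff]
  intro x hx
  have key : ∀ g : Γ, ∃ r : ℕ, 0 < r ∧ x * g ^ r = g ^ r * x := by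
    intro g
    let f : Γ →* MulAut K := MulAut.conjNormal
    have hfin : Finite (MulAut K) := inferInstance
    have h1 : f g ^ (Nat.card (MulAut K)) = 1 := pow_card_eq_one'
    refine ⟨Nat.card (MulAut K), Nat.card_pos, ?_⟩
    rw [← map_pow] at h1
    have h2 := congrArg (fun s : MulAut K => ((s ⟨x, hx⟩ : K) : Γ)) h1
    have h3 : g ^ (Nat.card (MulAut K)) * x * (g ^ (Nat.card (MulAut K)))⁻¹ = x := h2
    rw [mul_inv_eq_iff_eq_mul] at h3
    exact h3.symm
  obtain ⟨r, hr, h1⟩ := key ⟨_, ha⟩
  obtain ⟨s, hs, h2⟩ := key ⟨_, hb⟩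
  have h1' := congrArg (fun y : Γ => (y : PC)) h1
  have h2' := congrArg (fun y : Γ => (y : PC)) h2
  simp only [Subgroup.coe_mul, Subgroup.coe_pow, ← pow_mul] at h1' h2'
  rw [Subgroup.mem_bot]
  exact Subtype.ext (pc_central (Nat.mul_pos hm hr) (Nat.mul_pos hk hs) h1' h2')

end Pool.Agent.F8
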