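import Pool.Agent.Lib.MP_305fdd_al.F8.MainFin

/-!
# MP_305fdd_al, figure-eight project: models for the final statement

The index of `Kc n` in `Kc 1`, the mapping tori of the automorphisms of `F` with matrix `± [[1,1],[1,0]] ^ j`,
the subgroups of `PSL₂(ℂ)` which contain `Kc n`.
-/

set_option autoImplicit false

namespace Pool.Agent.F8

open Pool.Agent.MP_305fdd_al Pool.Agent.Lib.MP_305fdd_al Pool.Agent.F2X Pool.Agent.F8.HN
  Pool.Agent.F8.OV
open scoped QuadraticAlgebra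

/-! ### Index -/

theorem Sub8_index (n : ℕ) : (Sub8 n).index = n := by
  have hsur : Function.Surjective n8 := by
    intro z
    refine ⟨aa ^ (Multiplicative.toAdd z), ?_⟩
    rw [map_zpow, n8_aa, ← ofAdd_zsmul]
    simp
  unfold Sub8
  rw [Subgroup.index_comap_of_surjective _ hsur]
  have h := Int.index_zmultiples (n : ℤ)
  rw [Int.natAbs_natCast] at h
  exact h

theorem Sub8_one : Sub8 1 = ⊤ := by
  rw [eq_top_iff]
  intro x _
  show n8 x ∈ Subgroup.zpowers (Multiplicative.ofAdd ((1 : ℕ) : ℤ))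
  rw [Subgroup.mem_zpowers_iff]
  refine ⟨Multiplicative.toAdd (n8 x), ?_⟩
  rw [← ofAdd_zsmul]
  simp

theorem toG8_range (n : ℕ) : (toG8 n).range = Sub8 n := by
  apply le_antisymm
  · rintro _ ⟨g, rfl⟩
    exact toG8_mem n g
  · intro x hx
    exact toG8_surj n ⟨x, hx⟩

theorem Kc_map (n : ℕ) : Kc n = (Sub8 n).map rC := by
  rw [← rCn_range, ← toG8_range]
  exact MonoidHom.range_comp _ _

theorem Kc_one_range : Kc 1 = rC.range := by
  rw [Kc_map, Sub8_one, MonoidHom.range_eq_map]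

theorem Kc_one : Kc 1 = K8 := by rw [Kc_one_range, rC_range]

theorem Kc_le (n : ℕ) : Kc n ≤ Kc 1 := by
  rw [Kc_one_range, Kc_map]
  exact Subgroup.map_le_range _ _

theorem Kc_relIndex (n : ℕ) : (Kc n).relIndex (Kc 1) = n := by
  rw [Kc_map, Kc_map 1, Subgroup.relIndex_map_map_of_injective _ _ rC_injective, Sub8_one,
    Subgroup.relIndex_top_right, Sub8_index]

theorem Kc_normal (n : ℕ) : ((Kc n).subgroupOf (Kc 1)).Normal := by
  constructor
  rintro ⟨x, hx⟩ hx' ⟨g, hg⟩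
  rw [Subgroup.mem_subgroupOf] at hx' ⊢
  show g * x * g⁻¹ ∈ Kc n
  rw [Kc_one_range] at hg
  obtain ⟨g', rfl⟩ := hg
  have h1 : x ∈ Kc n := hx'
  rw [Kc_map] at h1 ⊢
  obtain ⟨x', hx1, rfl⟩ := h1
  refine ⟨g' * x' * g'⁻¹, ?_, by rw [map_mul, map_mul, map_inv]⟩
  show n8 (g' * x' * g'⁻¹) ∈ Subgroup.zpowers (Multiplicative.ofAdd (n : ℤ))
  rw [map_mul, map_mul, map_inv, mul_inv_cancel_comm]
  exact hx1

/-! ### The abstract and the Kleinian overgroups -/

/-- groups without finite normal subgroups which contain `Kc n` as a normal subgroup of finite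
index -/
theorem rigid_overK (n : ℕ) (hn : 0 < n) (Γ : Type) [Group Γ] (N : Subgroup Γ) (hN : N.Normal)
    (hi : N.FiniteIndex) (e : Nonempty (N ≃* Kc n))
    (hK : ∀ K : Subgroup Γ, K.Normal → Finite K → K = ⊥) : ProfinitelyRigid Γ :=
  rigid_over Γ N n hn hN hi ⟨e.some.trans (kcE n hn).symm⟩ hK

theorem Kc_nf (n : ℕ) (hn : 0 < n) (Γ : Subgroup PC) (hle : Kc n ≤ Γ) (K : Subgroup Γ)
    (hK : K.Normal) (hf : Finite K) : K = ⊥ :=
  no_finite_normal Γ hn hn (hle (a_mem n)) (hle (b_mem n)) K hK hf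

/-- subgroups of `PSL₂(ℂ)` which contain `Kc n` as a normal subgroup of finite index -/
theorem rigid_klein (n : ℕ) (hn : 0 < n) (Γ : Subgroup PC) (hle : Kc n ≤ Γ)
    (hN : ((Kc n).subgroupOf Γ).Normal) (hi : ((Kc n).subgroupOf Γ).FiniteIndex) :
    ProfinitelyRigid Γ :=
  rigid_overK n hn Γ ((Kc n).subgroupOf Γ) hN hi ⟨Subgroup.subgroupOfEquivOfLe hle⟩
    fun K hK hf => Kc_nf n hn Γ hle K hK hf

/-- the covers -/
theorem rigid_Kc (n : ℕ) (hn : 0 < n) : ProfinitelyRigid (Kc n) :=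
  rigid_equiv (kcE n hn) (rigid_GN n hn)

/-! ### Mapping tori -/

/-- conjugate automorphisms give isomorphic mapping tori -/
theorem GA_conj (α β : MulAut F) : Nonempty (GA (α⁻¹ * β * α) ≃* GA β) := by
  have h1 : ∀ w, iA β (α ((α⁻¹ * β * α) w)) = tA β * iA β (α w) * (tA β)⁻¹ := by
    intro w
    rw [tA_conj, MulAut.mul_apply, MulAut.mul_apply, MulAut.apply_inv_self]
  have h2 : ∀ w, iA (α⁻¹ * β * α) (α⁻¹ (β w)) =
      tA (α⁻¹ * β * α) * iA (α⁻¹ * β * α) (α⁻¹ w) * (tA (α⁻¹ * β * α))⁻¹ := by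
    intro w
    rw [tA_conj, MulAut.mul_apply, MulAut.mul_apply, MulAut.apply_inv_self]
  let f : GA (α⁻¹ * β * α) →* GA β := liftA ((iA β).comp α.toMonoidHom) (tA β) h1
  let g : GA β →* GA (α⁻¹ * β * α) :=
    liftA ((iA (α⁻¹ * β * α)).comp (α⁻¹).toMonoidHom) (tA (α⁻¹ * β * α)) h2
  have fi : ∀ w, f (iA _ w) = iA β (α w) := fun w => liftA_iA _ _ _ w
  have ft : f (tA _) = tA β := liftA_tA _ _ _
  have gi : ∀ w, g (iA _ w) = iA _ (α⁻¹ w) := fun w => liftA_iA _ _ _ w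
  have gt : g (tA _) = tA _ := liftA_tA _ _ _
  refine ⟨MonoidHom.toMulEquiv f g ?_ ?_⟩
  · apply homA_ext
    · intro w
      show g (f (iA _ w)) = iA _ w
      rw [fi, gi, MulAut.inv_apply_self]
    · show g (f (tA _)) = tA _
      rw [ft, gt]
  · apply homA_ext
    · intro w
      show f (g (iA _ w)) = iA _ w
      rw [gi, fi, MulAut.apply_inv_self]
    · show f (g (tA _)) = tA _
      rw [gt, ft]

/-- the matrix `[[1, 0], [1, 1]]` -/
def XX : GL (Fin 2) ℤ := ⟨!![1, 0; 1, 1], !![1, 0; -1, 1], by decide, by decide⟩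

theorem AM_phi : (AM phi).val = !![3, 1; -1, 0] := by decide

theorem XX_phi : XX.val * (AM phi).val = !![2, 1; 1, 1] * XX.val := by
  rw [AM_phi]
  decide

/-- the matrix `[[1, 1], [1, 0]]` -/
def GG : Matrix (Fin 2) (Fin 2) ℤ := !![1, 1; 1, 0]

theorem GG_sq : GG * GG = !![2, 1; 1, 1] := by decide

theorem sq_pow (j : ℕ) (B : Matrix (Fin 2) (Fin 2) ℤ) (h : B = GG ^ j ∨ B = -GG ^ j) :
    B * B = !![2, 1; 1, 1] ^ j := by
  have h1 : (GG ^ j) * (GG ^ j) = !![2, 1; 1, 1] ^ j := by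
    rw [← GG_sq, ← pow_two, ← pow_mul, mul_comm, pow_mul, pow_two]
  rcases h with h | h
  · rw [h, h1]
  · rw [h, neg_mul_neg, h1]

/-- the mapping tori of the automorphisms with matrix `± [[1,1],[1,0]] ^ j` -/
theorem rigid_torus (β : MulAut F) (j : ℕ) (hj : 0 < j)
    (h : (AM β).val = GG ^ j ∨ (AM β).val = -GG ^ j) : ProfinitelyRigid (GA β) := by
  obtain ⟨α, hα⟩ := p_sur XX
  obtain ⟨e⟩ := GA_conj α β
  refine rigid_equiv e (rigid_cyc (α⁻¹ * β * α) j 2 hj two_pos ?_)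
  have hB := sq_pow j _ h
  have hC : XX * AM phi ^ j * XX⁻¹ = AM β * AM β := by
    have h0 : XX * AM phi * XX⁻¹ * (XX * AM phi ^ (j - 1) * XX⁻¹) = XX * AM phi ^ j * XX⁻¹ := by
      have : AM phi ^ j = AM phi * AM phi ^ (j - 1) := by
        rw [← pow_succ']
        congr 1
        omega
      rw [this]
      group
    have h1 : ∀ k : ℕ, (XX * AM phi ^ k * XX⁻¹).val = !![2, 1; 1, 1] ^ k := by
      intro k
      induction k with
      | zero =>
        rw [pow_zero, mul_one, mul_inv_cancel, pow_zero]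
        rfl
      | succ k ih =>
        have h2 : XX * AM phi ^ (k + 1) * XX⁻¹ = XX * AM phi * XX⁻¹ * (XX * AM phi ^ k * XX⁻¹) := by
          rw [pow_succ']
          group
        have h3 : (XX * AM phi * XX⁻¹).val = !![2, 1; 1, 1] := by
          rw [Units.val_mul, Units.val_mul, XX_phi, mul_assoc, ← Units.val_mul, mul_inv_cancel,
            Units.val_one, mul_one]
        rw [h2, Units.val_mul, ih, h3, pow_succ']
    apply Units.ext
    rw [h1, Units.val_mul, hB]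
  rw [map_mul, map_mul, map_inv, hα]
  have h4 : (XX⁻¹ * AM β * XX) ^ 2 = XX⁻¹ * (AM β * AM β) * XX := by
    rw [pow_two]
    group
  rw [h4, ← hC]
  group

end Pool.Agent.F8
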