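import Pool.Agent.Lib.MP_305fdd_al.F8.Models
import Pool.Agent.Lib.MP_305fdd_al.F8.Tower

/-!
# MP_305fdd_al, figure-eight project: models of the groups of the cyclic covers

`GN n = F ⋊ ℤ` is isomorphic to the subgroup of the elements of the figure-eight knot group whose
exponent sum is divisible by `n`.
-/

set_option autoImplicit false

namespace Pool.Agent.F8

open Pool.Agent.MP_305fdd_al Pool.Agent.Lib.MP_305fdd_al Pool.Agent.F2X
open scoped QuadraticAlgebra

theorem n8_toG8 (n : ℕ) (g : GN n) : n8 (toG8 n g) = nN n g ^ n := by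
  have h : n8.comp (toG8 n) = (powMonoidHom n).comp (nN n) := by
    apply homN_ext
    · intro w
      show n8 (toG8 n (iN n w)) = nN n (iN n w) ^ n
      rw [toG8_iN, nN_iN, one_pow]
      rfl
    · show n8 (toG8 n (tN n)) = nN n (tN n) ^ n
      rw [toG8_tN, map_pow, nN_tN, n8_aa]
  exact DFunLike.congr_fun h g

theorem inl_aa_eq_one {w : F} {k : ℤ} (h : (SemidirectProduct.inl w : G8) * aa ^ k = 1) :
    w = 1 ∧ k = 0 := by
  have h1 : n8 ((SemidirectProduct.inl w : G8) * aa ^ k) = 1 := by rw [h, map_one]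
  rw [map_mul, n8_inl, one_mul, map_zpow, n8_aa] at h1
  have hk : k = 0 := by
    have h2 := congrArg Multiplicative.toAdd h1
    rw [toAdd_zpow, toAdd_ofAdd, toAdd_one] at h2
    simpa using h2
  subst hk
  rw [zpow_zero, mul_one] at h
  exact ⟨SemidirectProduct.inl_injective (h.trans (map_one _).symm), rfl⟩

theorem toG8_injective (n : ℕ) (hn : 0 < n) : Function.Injective (toG8 n) := by
  rw [injective_iff_map_eq_one]
  intro g hg
  obtain ⟨w, k, rfl⟩ := GN_cases g
  rw [map_mul, map_zpow, toG8_iN, toG8_tN, ← zpow_natCast, ← zpow_mul] at hg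
  obtain ⟨hw, hk⟩ := inl_aa_eq_one hg
  have hk' : k = 0 := by
    rcases mul_eq_zero.1 hk with h | h
    · exact absurd h (by exact_mod_cast hn.ne')
    · exact h
  rw [hw, hk', map_one, zpow_zero, mul_one]

/-- the elements whose exponent is a multiple of `n` -/
def Sub8 (n : ℕ) : Subgroup G8 :=
  (Subgroup.zpowers (Multiplicative.ofAdd (n : ℤ))).comap n8

theorem toG8_mem (n : ℕ) (g : GN n) : toG8 n g ∈ Sub8 n := by
  show n8 (toG8 n g) ∈ Subgroup.zpowers (Multiplicative.ofAdd (n : ℤ))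
  rw [n8_toG8, Subgroup.mem_zpowers_iff]
  refine ⟨Multiplicative.toAdd (nN n g), ?_⟩
  apply Multiplicative.toAdd.injective
  rw [toAdd_zpow, toAdd_ofAdd, toAdd_pow]
  simp [mul_comm]

theorem toG8_surj (n : ℕ) (x : Sub8 n) : ∃ g, toG8 n g = x := by
  obtain ⟨⟨w, z⟩, hx⟩ := x
  obtain ⟨j, hj⟩ := Subgroup.mem_zpowers_iff.1 (show n8 (⟨w, z⟩ : G8) ∈ _ from hx)
  refine ⟨iN n w * tN n ^ j, ?_⟩
  rw [map_mul, map_zpow, toG8_iN, toG8_tN, ← zpow_natCast, ← zpow_mul]
  have h1 : z = Multiplicative.ofAdd ((n : ℤ) * j) := by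
    have h2 : n8 (⟨w, z⟩ : G8) = z := rfl
    rw [h2] at hj
    rw [← hj, ← ofAdd_zsmul]
    simp [mul_comm]
  show (SemidirectProduct.inl w : G8) * aa ^ ((n : ℤ) * j) = ⟨w, z⟩
  rw [h1]
  unfold aa
  rw [← map_zpow, ← ofAdd_zsmul]
  simp

/-- `GN n` as a subgroup of the figure-eight knot group -/
noncomputable def cycE (n : ℕ) (hn : 0 < n) : GN n ≃* Sub8 n :=
  MulEquiv.ofBijective ((toG8 n).codRestrict (Sub8 n) (toG8_mem n))
    ⟨fun x y h => toG8_injective n hn (congrArg Subtype.val h), fun x => by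
      obtain ⟨g, hg⟩ := toG8_surj n x
      exact ⟨g, Subtype.ext hg⟩⟩

/-- subgroups given by corresponding conditions on isomorphic groups -/
def comapE {G H A : Type} [Group G] [Group H] [Group A] (e : G ≃* H) (f : G →* A) (g : H →* A)
    (h : ∀ x, g (e x) = f x) (S : Subgroup A) : S.comap f ≃* S.comap g where
  toFun x := ⟨e x, by show g (e x) ∈ S; rw [h]; exact x.2⟩
  invFun y := ⟨e.symm y, by
    show f (e.symm y) ∈ S
    rw [← h, MulEquiv.apply_symm_apply]; exact y.2⟩
  left_inv x := Subtype.ext (e.symm_apply_apply _)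
  right_inv y := Subtype.ext (e.apply_symm_apply _)
  map_mul' x y := Subtype.ext (map_mul e _ _)

/-- the exponent sum on the presented group -/
theorem ex_prE (f : Pr8 →* Multiplicative ℤ) (hx : f px = Multiplicative.ofAdd 1)
    (hy : f py = Multiplicative.ofAdd 1) (x : Pr8) : n8 (prE x) = f x := by
  have h : n8.comp pr1 = f := by
    apply PresentedGroup.ext
    intro i
    fin_cases i
    · show n8 (pr1 px) = f px
      rw [pr1_px, n8_bb, hx]
    · show n8 (pr1 py) = f py
      rw [pr1_py, n8_aa, hy]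
  exact DFunLike.congr_fun h x

end Pool.Agent.F8
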