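import Pool.Agent.Lib.MP_305fdd_al.F8.DefsN
import Pool.Agent.Lib.MP_305fdd_al.F8.StmH
import Pool.Agent.Lib.MP_305fdd_al.F8.G.End

/-!
# MP_305fdd_al: groups `F ⋊ ℤ` in the commensurability class of the figure-eight knot group.
# Block HN: the conclusion for `GA α = F ⋊ ℤ`, in particular for the cyclic covers `GN n = GA (phi ^ n)`.

This is block H (`StmH.lean`) for a general automorphism `α` of `F` instead of `phi`. The proofs of the
pieces `cmpA`, `twA`, `matA`, `endA`, `secA`, `threeA`, `fstA` are adaptations of the proofs in `F8/P/cmp.lean`,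
`tw.lean`, `mat.lean`, `end.lean`, `sec.lean`, `three.lean`, `fst.lean` (copy and change them).
-/

set_option autoImplicit false

namespace Pool.Agent.F8.HN

open Pool.Agent.MP_305fdd_al Pool.Agent.Lib.MP_305fdd_al Pool.Agent.F2X Pool.Agent.F8
open scoped QuadraticAlgebra

/-! ### The groups `GA α` -/

/-- `F ⋊ ℤ`, the generator of `ℤ` acts by `α` -/
abbrev GA (α : MulAut F) : Type := F ⋊[zpowersHom (MulAut F) α] Multiplicative ℤ

/-- the generator of `ℤ` -/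
def tA (α : MulAut F) : GA α := SemidirectProduct.inr (Multiplicative.ofAdd 1)

/-- the inclusion of `F` -/
def iA (α : MulAut F) : F →* GA α := SemidirectProduct.inl

/-- the projection to `ℤ` -/
def nA (α : MulAut F) : GA α →* Multiplicative ℤ := SemidirectProduct.rightHom

theorem tA_conj (α : MulAut F) (w : F) : tA α * iA α w * (tA α)⁻¹ = iA α (α w) := by
  unfold tA iA
  rw [← map_inv, ← SemidirectProduct.inl_aut]
  congr 1

theorem nA_tA (α : MulAut F) : nA α (tA α) = Multiplicative.ofAdd 1 := rfl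
theorem nA_iA (α : MulAut F) (w : F) : nA α (iA α w) = 1 := rfl

theorem nA_surjective (α : MulAut F) : Function.Surjective (nA α) :=
  fun z => ⟨SemidirectProduct.inr z, rfl⟩

theorem iA_injective (α : MulAut F) : Function.Injective (iA α) := SemidirectProduct.inl_injective

/-- every element of `GA α` is `w t ^ n` -/
theorem GA_cases (α : MulAut F) (g : GA α) : ∃ (w : F) (n : ℤ), g = iA α w * tA α ^ n := by
  refine ⟨g.left, Multiplicative.toAdd g.right, ?_⟩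
  unfold tA iA
  rw [← map_zpow, ← ofAdd_zsmul]
  simp

theorem GA_ker (α : MulAut F) (g : GA α) (h : nA α g = 1) : ∃ w : F, g = iA α w := by
  obtain ⟨w, n⟩ := g
  have hn : n = 1 := h
  subst hn
  exact ⟨w, rfl⟩

/-- the class of the matrix of `α` is determined by its classes modulo all `m` -/
def Loc (α : MulAut F) : Prop := ∀ A : GL (Fin 2) ℤ,
  (∀ m : ℕ, 0 < m → ∃ X : GL (Fin 2) (ZMod m), X * red m (AM α) = red m A * X) →
  ∃ X : GL (Fin 2) ℤ, X * A = AM α * X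

/-! ## Part 1 -/

/-- [F8h cmpA] see `H.S_cmp`. -/
def S_cmpA : Prop := ∀ (α : MulAut F) (Λ : Type) [Group Λ] (Φ : NatBij (GA α) Λ)
    (nL : Λ →* Multiplicative ℤ), Function.Surjective nL → CmG Φ (nA α) nL →
    ∀ (Q : Type) [Group Q] [Finite Q] (θ : GA α →* Q) (q : Q) (n : Multiplicative ℤ),
    (∃ g, nA α g = n ∧ θ g = q) ↔ ∃ l, nL l = n ∧ Φ.toFun Q θ l = q

/-- [F8h twA] see `H.S_tw`. (Uses `S_cmpA`, `H.S_hol`.) -/
def S_twA : Prop := ∀ (α : MulAut F) (Λ : Type) [Group Λ] (Φ : NatBij (GA α) Λ)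
    (nL : Λ →* Multiplicative ℤ), Function.Surjective nL → CmG Φ (nA α) nL →
    ∀ l₀ : Λ, nL l₀ = Multiplicative.ofAdd 1 →
    ∀ (N : Type) [Group N] [Finite N] (g : nL.ker →* N) (τ : MulAut N),
    (∀ x : nL.ker, g (MulAut.conjNormal l₀ x) = τ (g x)) →
    ∃ (g' : F →* N) (y : N), g'.range = g.range ∧ y ∈ g.range ∧
      ∀ w, g' (α w) = y * τ (g' w) * y⁻¹

/-- [F8h matA] see the first half of `H.S_mat`. (Uses `S_twA`.) -/
def S_matA : Prop := ∀ (α : MulAut F) (Λ : Type) [Group Λ] (Φ : NatBij (GA α) Λ)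
    (nL : Λ →* Multiplicative ℤ), Function.Surjective nL → CmG Φ (nA α) nL →
    ∀ l₀ : Λ, nL l₀ = Multiplicative.ofAdd 1 →
    ∀ (g : nL.ker →* F) (ψ : MulAut F), Function.Surjective g →
    (∀ x : nL.ker, g (MulAut.conjNormal l₀ x) = ψ (g x)) →
    ∀ m : ℕ, 0 < m → ∃ X : GL (Fin 2) (ZMod m), X * red m (AM α) = red m (AM ψ) * X

/-- [F8h endA] see `H.S_end`. (Uses `S_matA`, `F2X.S_sur`, `F2X.S_out`.) -/
def S_endA : Prop := ∀ (α : MulAut F), Loc α → ∀ (Λ : Type) [Group Λ] (Φ : NatBij (GA α) Λ)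
    (nL : Λ →* Multiplicative ℤ),
    Group.FG Λ → Group.ResiduallyFinite Λ → SameFiniteQuotients Λ (GA α) →
    Function.Surjective nL → CmG Φ (nA α) nL → ∀ l₀ : Λ, nL l₀ = Multiplicative.ofAdd 1 →
    ∀ (g : nL.ker →* F) (ψ : MulAut F), Function.Surjective g →
    (∀ x : nL.ker, g (MulAut.conjNormal l₀ x) = ψ (g x)) → Nonempty (Λ ≃* GA α)

/-- [F8h secA] see `H.S_sec`. (Uses `S_twA`, `H.S_gn`, `H.S_rk`, `S_endA`.) -/
def S_secA : Prop := ∀ (α : MulAut F), Loc α → ∀ (Λ : Type) [Group Λ] (Φ : NatBij (GA α) Λ)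
    (nL : Λ →* Multiplicative ℤ),
    Group.FG Λ → Group.ResiduallyFinite Λ → SameFiniteQuotients Λ (GA α) →
    Function.Surjective nL → CmG Φ (nA α) nL → ∀ h : nL.ker →* F,
    (∀ (l : Λ) (x : nL.ker), h x = 1 → h (MulAut.conjNormal l x) = 1) → ¬ IsCyclic h.range →
    Nonempty (Λ ≃* GA α)

/-- [F8h cjN] the powers of `phi`. (Uses `H.S_cj` and `F2X.S_tr`.)

Proof. `B = AM phi = [[3, 1], [-1, 0]]` (`amat_eq`, `phi_ga`, `phi_gb`), `f : ℕ → ℤ`, `f 0 = 0`, `f 1 = 1`,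
`f (k+2) = 3 f (k+1) - f k`; `B² = 3 B - 1` and `B^(k+1) = f (k+1) B - f k` by induction, `f (k+1) ≥ 1`. Let
`n = k + 1`, `m = f n`, `A` as in `Loc`. Modulo `m` the matrix `B^n` is the scalar `-f k`, so `red m A` is the same
scalar: `A = m C - f k` with an integral matrix `C`. By `F2X.S_tr` `A` and `B^n` have the same trace and
determinant; `m tr C - 2 f k = 3 m - 2 f k` gives `tr C = 3`, and
`det (m C - f k) = m² det C - m f k tr C + f k²`, the same for `B`, gives `det C = det B = 1`. So `C ∈ GL₂(ℤ)`, `H.S_cj` gives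
`X` with `X C = B X`, so `X A = B^n X`. (`AM (phi ^ n) = (AM phi) ^ n`.) -/
def S_cjN : Prop := ∀ n : ℕ, 1 ≤ n → Loc (phi ^ n)

/-! ## Part 2 -/

/-- [F8h G2] BLOCK G with the values of `Ψ`. (Copy the proof of `G.G_main` in `F8/G/End.lean`: `hV x.val` and `hp x`
give `pj x = pj 1 * Th (Ψ x)`.) -/
def S_G2 : Prop := ∃ Ψ : Npre →* N2, ∀ x : Npre, G.Th (Ψ x) = G.pj x.val

/-- the standing assumptions on the representation `ρ₀` of `GA α`: it is the representation of the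
figure-eight knot group on `F`, and its reduction modulo `2` has values in `D5` -/
structure Std (α : MulAut F) (ρ₀ : GA α →* SL2 O) : Prop where
  /-- the restriction to `F` -/
  F : ∀ w, ρ₀ (iA α w) = G.rO (SemidirectProduct.inl w)
  /-- the reduction modulo `2` -/
  D : ∀ g, r2 (ρ₀ g) ∈ D5

/-- [F8h twoA] conjugation modulo `2`. (Uses `H.S_bn`, `H.S_li`, `S_cmpA`.)

Proof. `K = Es (ZMod 2)` is a field with `4` elements (see `F8/P/two.lean`: `two_fact`, `two_four`). `r = r2 ∘ ρ`,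
`s = Φ (r2 ∘ ρ₀)` have the same traces. `U = r2 mu`, `mu = G.rO uu` (`G.rO_uu`), of trace `ω` or `ω²`. `U` is in the range
of `s` (`NatBij.range_eq`): `s x = U`. It is enough to find `X ∈ GL₂(K)` with `X (r l) = (s l) X` for all `l` (then
scale `X` to determinant `1` and lift it to `SL₂(O)` as in `F8/P/two.lean`).
Case 1: some `R = s l` does not commute with `U`. Then `tr (U R U⁻¹ R⁻¹) ≠ 2` (finite check over the `60`
elements `R` of `SL₂(K)`; or: `Z = U R - R U ≠ 0` satisfies `Z U = (adj U) Z` and `tr Z = 0`, if `det Z = 0` its kernel is a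
line stable under `U`, but `U` has no eigenvector in `K²` because its characteristic polynomial has no root in
`K`), so `s` is irreducible, and `H.S_bn` gives `X`.
Case 2: all `s l` commute with `U`. `P = r x` and `U` have the same trace, and `P 1 0 ≠ 0` (otherwise the trace would
be `a + a⁻¹ ∈ {0, 1}`, `a ∈ K`), `U 1 0 ≠ 0`; so both are conjugate to the companion matrix `[[0, -1], [1, tr U]]` (with
`Q = [[1, P 0 0], [0, P 1 0]]` (columns `e₁, P e₁`) one has `P Q = Q [[0, -1], [1, tr P]]`). So there is `X ∈ GL₂(K)` with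
`X P = U X`. Put `r' l = X (r l) X⁻¹`, `r' x = U`. For every `l` the matrices `R = r' l` and `S = s l` have determinant
`1`, the same trace, `tr (R U) = tr (S U)` (traces of `l x`), and `S U = U S`; this implies `R = S` (finite check; or
by hand: `S = a + b U`, `Y = R - S` is orthogonal to `1, U` for the trace form, so `Y U = (adj U) Y`,
`det (S + Y) = det S + det Y`, so `det Y = 0`, and `Y = 0` because the kernel of `Y` is stable under `U`). -/
def S_twoA : Prop := ∀ (α : MulAut F) (ρ₀ : GA α →* SL2 O), Std α ρ₀ → ∀ (Λ : Type) [Group Λ]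
    (Φ : NatBij (GA α) Λ) (ρ : Λ →* SL2 O),
    (∀ l, tr (r2 (ρ l)) = tr (Φ.toFun (SL2 (Es (ZMod 2))) (r2.comp ρ₀) l)) →
    ∃ Y : SL2 O, ∀ l, r2 (Y * ρ l * Y⁻¹) = Φ.toFun (SL2 (Es (ZMod 2))) (r2.comp ρ₀) l

/-- [F8h threeA] the image of `nL.ker` modulo `√-3` is not commutative. (Uses `H.S_bn`, `S_cmpA`.)

Proof. `s = Φ (r3 ∘ ρ₀)`, and by `S_cmpA` (with `n = 1`) there are `x₁, x₂ ∈ nL.ker` with `s x₁ = r3 (G.rO uu)`,
`s x₂ = r3 (G.rO vv)` (`Std.F`; `uu = inl ga`, `vv = inl gb`). The trace of `[r3 mu, r3 mv]` is `-2 ≠ 2` in `𝔽₃`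
(`G.rO_uu`, `G.rO_vv`; `decide`), so `s` is irreducible; `H.S_bn` (`K = ZMod 3`) gives `X` with `X (r3 (ρ l)) = (s l) X`.
`r3 mu` and `r3 mv` do not commute, so neither do `r3 (ρ x₁)` and `r3 (ρ x₂)`. -/
def S_threeA : Prop := ∀ (α : MulAut F) (ρ₀ : GA α →* SL2 O), Std α ρ₀ → ∀ (Λ : Type) [Group Λ]
    (Φ : NatBij (GA α) Λ) (nL : Λ →* Multiplicative ℤ), Function.Surjective nL →
    CmG Φ (nA α) nL → ∀ ρ : Λ →* SL2 O,
    (∀ l, tr (r3 (ρ l)) = tr (Φ.toFun (SL2 (ZMod 3)) (r3.comp ρ₀) l)) →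
    ∃ x y : nL.ker, r3 (ρ x) * r3 (ρ y) ≠ r3 (ρ y) * r3 (ρ x)

/-- [F8h fstA] PART 2; see `H.S_fst`. (Uses `S_twoA`, `S_threeA`, `S_cmpA`.)

Proof. Replace `ρ` by `Y ρ Y⁻¹` (`S_twoA`); now `r2 (ρ l) = s l`, `s = Φ (r2 ∘ ρ₀)`, has values in `D5` (`NatBij.range_le`), so
`ρ : Λ → Npre`, `f = Ψ ∘ ρ : Λ → N2`. `nu2 ∘ f : Λ → ℤ` is trivial on `nL.ker`. Let `x ∈ nL.ker`. Claim: `ep2 (f x) = 1`.
Otherwise `f x = i8 (inl w) * kk` for some `w ∈ F` (`nu2 (f x) = 1`), so `pj (ρ x) = Th (f x) = pj (rO (inl w)) * pj (mk2 ℤ)` and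
`r2 (ρ x) = r2 (rO (inl w)) * r2 (mk2 ℤ)` (apply `G.r2p`; `G.r2p_pj`). By `S_cmpA` (`n = 1`) and `Std.F`
`r2 (ρ x) = s x = r2 (rO (inl w'))` for some `w' ∈ F`. So `r2 (mk2 ℤ)` is in the image of `r2 ∘ rO ∘ inl : F → SL₂(𝔽₄)`; this
image is commutative, because the images of `ga, gb` commute (`G.rO_uu`, `G.rO_vv`, `decide`), but `r2 (mk2 ℤ)` does not
commute with `r2 mu` (`decide`): contradiction. So by `mem_F` there is for every `x ∈ nL.ker` a unique `h x ∈ F` with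
`f x = i8 (inl (h x))`; the rest is as in `F8/P/fst.lean`: the kernel of `h` is normal in `Λ`, and if `h.range` were
cyclic then all `r3 (ρ x)`, `x ∈ nL.ker`, would commute up to sign with powers of one element (`Ψ y = 1` gives
`pj y = Th 1 = 1`, `y = ±1`, `G.pj_eq_one`), so they would commute, contradiction to `S_threeA` (conjugating by `Y` does not
matter). -/
def S_fstA : Prop := ∀ (α : MulAut F) (ρ₀ : GA α →* SL2 O), Std α ρ₀ → ∀ (Λ : Type) [Group Λ]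
    (Φ : NatBij (GA α) Λ) (nL : Λ →* Multiplicative ℤ), Function.Surjective nL →
    CmG Φ (nA α) nL → (∀ f : Λ →* Multiplicative ℤ, nL.ker ≤ f.ker) → ∀ ρ : Λ →* SL2 O,
    (∀ l, tr (r2 (ρ l)) = tr (Φ.toFun (SL2 (Es (ZMod 2))) (r2.comp ρ₀) l)) →
    (∀ l, tr (r3 (ρ l)) = tr (Φ.toFun (SL2 (ZMod 3)) (r3.comp ρ₀) l)) →
    ∀ Ψ : Npre →* N2, (∀ x : Npre, G.Th (Ψ x) = G.pj x.val) →
    ∃ h : nL.ker →* F, (∀ (l : Λ) (x : nL.ker), h x = 1 → h (MulAut.conjNormal l x) = 1) ∧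
      ¬ IsCyclic h.range

/-- [F8h HA] BLOCK HN. (Uses `S_secA`, `S_fstA`, `S_G2`.) -/
def S_HA : Prop := ∀ (α : MulAut F), Loc α → ∀ ρ₀ : GA α →* SL2 O, Std α ρ₀ →
    ∀ (Λ : Type) [Group Λ] (Φ : NatBij (GA α) Λ) (nL : Λ →* Multiplicative ℤ),
    Group.FG Λ → Group.ResiduallyFinite Λ → SameFiniteQuotients Λ (GA α) →
    Function.Surjective nL → CmG Φ (nA α) nL → (∀ f : Λ →* Multiplicative ℤ, nL.ker ≤ f.ker) →
    ∀ ρ : Λ →* SL2 O,
    (∀ l, tr (r2 (ρ l)) = tr (Φ.toFun (SL2 (Es (ZMod 2))) (r2.comp ρ₀) l)) →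
    (∀ l, tr (r3 (ρ l)) = tr (Φ.toFun (SL2 (ZMod 3)) (r3.comp ρ₀) l)) →
    Nonempty (Λ ≃* GA α)

theorem p_HA (h1 : S_secA) (h2 : S_fstA) (h3 : S_G2) : S_HA := by
  intro α hα ρ₀ hρ₀ Λ _ Φ nL hfg hrf hs hsur hcmp hz ρ ht2 ht3
  obtain ⟨Ψ, hΨ⟩ := h3
  obtain ⟨h, hn, hc⟩ := h2 α ρ₀ hρ₀ Λ Φ nL hsur hcmp hz ρ ht2 ht3 Ψ hΨ
  exact h1 α hα Λ Φ nL hfg hrf hs hsur hcmp h hn hc

/-- [F8h HN] BLOCK HN for the cyclic covers. (Uses `S_HA`, `S_cjN`.)

Proof. `GN n` is `GA (phi ^ n)` by definition (`phN n = zpowersHom (MulAut F) (phi ^ n)`), `ρ₀ = rN n (om ℤ) (om_sq ℤ)`;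
`Std`: `toG8_iN`, `rO = rho8 (om ℤ) _`; `r2 (ρ₀ g)` lies in the range of `r2 ∘ rho8 (om ℤ)`, which is contained in `D5`
(`F8/P/two.lean`: `two_range`, `map_rho8`). `r2.comp (rN n (om ℤ)) = rN n (om (ZMod 2))` and `r3.comp (rN n (om ℤ)) = rN n 1`
(`map_rN`; proofs of `w * w + w + 1 = 0` are irrelevant, the values agree by `decide` or `simp`); the traces: `tr_map`. -/
def S_HN : Prop := ∀ n : ℕ, 1 ≤ n → ∀ (Λ : Type) [Group Λ] (Φ : NatBij (GN n) Λ)
    (nL : Λ →* Multiplicative ℤ),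
    Group.FG Λ → Group.ResiduallyFinite Λ → SameFiniteQuotients Λ (GN n) →
    Function.Surjective nL → CmG Φ (nN n) nL → (∀ f : Λ →* Multiplicative ℤ, nL.ker ≤ f.ker) →
    ∀ ρ : Λ →* SL2 O,
    (∀ l, Qd.map (-1) (Int.castRingHom (ZMod 2)) (tr (ρ l)) =
      tr (Φ.toFun (SL2 (Es (ZMod 2))) (rN n (om (ZMod 2)) (om_sq (ZMod 2))) l)) →
    (∀ l, Qd.map (-1) (Int.castRingHom (ZMod 3)) (tr (ρ l)) =
      tr (Φ.toFun (SL2 (Es (ZMod 3))) (rN n (om (ZMod 3)) (om_sq (ZMod 3))) l)) →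
    Nonempty (Λ ≃* GN n)

end Pool.Agent.F8.HN
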