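import Pool.Agent.Lib.MP_305fdd_al.F8.Defs2

/-!
# MP_305fdd_al, figure-eight knot group: part B, the twisted Alexander polynomial

MAIN RESULT of this part (`S_B`): if `Θ : G8 →* Q2 K` has scalar part `τ ^ n8`, irreducible matrix
part and is not a coboundary, then `τ² - 2 x τ + 1 = 0` for `x = tr (Θ a).m`, and
`z² - (x² - 5) z + (5 - x²) = 0` for `z = tr (Θ (a b⁻¹)).m - 2`.

Every piece may use the statements named in its docstring as hypotheses.
-/

set_option autoImplicit false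

namespace Pool.Agent.F8

open Pool.Agent.MP_305fdd_al Pool.Agent.Lib.MP_305fdd_al Pool.Agent.F2X
open scoped QuadraticAlgebra

/-- [F8 wc] conjugation and the obstruction `W`.

Proof. `q x q⁻¹` has scalar `x.t`, matrix `P m P⁻¹` (`P = q.m`) and translation
`q.v + q.t P x.v - X' q.v - q.v = q.t P x.v - X' q.v`, `X' = x.t P m P⁻¹ - 1 = P (X x) P⁻¹`. So
`W' = det X (q.t P y.v - Y' q.v) - Y' adj(X') (q.t P x.v - X' q.v)`; `det X' = det X`,
`adj X' X' = det X`, `adj X' = P adj(X) P⁻¹`. Everything with `q.v` cancels. (Or brute force: entries and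
`linear_combination` with `det P = 1`, `P⁻¹ = adj P`.) -/
def S_wc : Prop := ∀ (R : Type) [CommRing R] (q x y : Q2 R),
  Q2.W (q * x * q⁻¹) (q * y * q⁻¹) = q.t.val • q.m.val.mulVec (Q2.W x y)

/-- [F8 wm] functoriality of `W` (`Matrix.det_fin_two`, `Matrix.adjugate_fin_two`, `mulVec2`). -/
def S_wm : Prop := ∀ (R S : Type) [CommRing R] [CommRing S] (f : R →+* S) (x y : Q2 R) (i : Fin 2),
  Q2.W (Q2.map f x) (Q2.map f y) i = f (Q2.W x y i)

/-- [F8 van] an affine representation of `G8` whose translation part vanishes on `u, v, a` has no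
translation part; then `W = 0`.

Proof. `{x : Q2 R | x.v = 0}` is a subgroup; its preimage in `G8` contains `uu, vv, aa`, so it is everything
(`G8` is generated by them: every element is `inl w * inr n`, `FreeGroup.closure_range_of`; or:
`Θ = (section) ∘ (projection)` by `hom8_ext`, where the section `(t, m) ↦ (t, m, 0)` is a homomorphism). -/
def S_van : Prop := ∀ (R : Type) [CommRing R] (Θ : G8 →* Q2 R),
  (Θ uu).v = 0 → (Θ vv).v = 0 → (Θ aa).v = 0 → (∀ g, (Θ g).v = 0) ∧ ¬ NC Θ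

/-- [F8 ir] an irreducible representation of `G8` has no common eigenvector of `a` and `b`.

Proof. Let `e ≠ 0` be a common eigenvector of `ρ aa` and `ρ bb`. The elements `g` of `G8` for which `e` is an
eigenvector of `ρ g` form a subgroup (the eigenvalue is nonzero because `ρ g` is invertible) containing
`aa, bb`, hence `uu, vv` (`uu_eq, vv_eq`), hence everything. Choose `f` with `(e, f)` a basis (`f` a standard
basis vector). In this basis all `ρ g` are upper triangular with determinant one, so a commutator has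
the diagonal `1, 1` and trace `2`, contradiction to `Irr`. (Alternatively with the matrix `Q = (e, f)`:
`Q⁻¹ (ρ g) Q` upper triangular; trace is invariant under conjugation.) -/
def S_ir : Prop := ∀ (K : Type) [Field K] (ρ : G8 →* SL2 K), Irr ρ →
  ¬ ∃ (e : Fin 2 → K) (α β : K), e ≠ 0 ∧ (ρ aa).val.mulVec e = α • e ∧ (ρ bb).val.mulVec e = β • e

/-- [F8 tab] the meridians have the same trace.

Proof. By `ab_rel` `a V = V b` with `V = b a⁻¹ b⁻¹ a`:
`a b a⁻¹ b⁻¹ a = (a b a⁻¹) (b⁻¹ a) = b a⁻¹ b⁻¹ a b a⁻¹ b b⁻¹ a = b a⁻¹ b⁻¹ a b`. -/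
def S_tab : Prop := (∃ V : G8, V = bb * aa⁻¹ * bb⁻¹ * aa ∧ aa * V = V * bb) ∧
  ∀ (R : Type) [CommRing R] (ρ : G8 →* SL2 R), tr (ρ aa) = tr (ρ bb)

/-- [F8 nf] normal form of an irreducible pair with equal traces.

Proof. Let `s` be a root of `X² - (tr A) X + 1` (`IsAlgClosed`), `r = s⁻¹`, so `s + r = tr A`, `s r = 1`. There are
`e ≠ 0` with `A e = s e` and `f ≠ 0` with `B f = r f` (eigenvalues of `A` and of `B`, same characteristic
polynomial). `e, f` are linearly independent: otherwise `e` is a common eigenvector. In the basis `(e, f)`: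
`A e = s e`, `A f = α e + β f` with `β = r` (determinant `1`), `B f = r f`, `B e = s e + γ f` (similarly).
`α ≠ 0` (otherwise `f` is a common eigenvector), `γ ≠ 0` (otherwise `e` is). Replace `e` by `α e`: then `α = 1`, and
`-z = γ'` (rescaled). The change of basis matrix `Q` (columns `e, f`) has determinant `δ ≠ 0`; divide both
vectors by a square root of `δ` (`IsAlgClosed`): `P = Q⁻¹ ∈ SL2 K`. -/
def S_nf : Prop := ∀ (K : Type) [Field K] [IsAlgClosed K] (A B : SL2 K), tr A = tr B →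
  (¬ ∃ (e : Fin 2 → K) (α β : K), e ≠ 0 ∧ A.val.mulVec e = α • e ∧ B.val.mulVec e = β • e) →
  ∃ (P : SL2 K) (s r z : K), s * r = 1 ∧ z ≠ 0 ∧ (P * A * P⁻¹).val = !![s, 1; 0, r] ∧
    (P * B * P⁻¹).val = !![s, 0; -z, r]

/-- [F8 ril] Riley's polynomial.

Proof. From the relation `A V = V B` with `V = B A⁻¹ B⁻¹ A` (see `S_tab`, same computation). The entry `(0, 1)` of
`A V - V B` is exactly `z² - ((s + r)² - 5) z + (5 - (s + r)²)` modulo `s r = 1` (inverse = adjugate: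
`A⁻¹ = [[r, -1], [0, s]]`, `B⁻¹ = [[r, 0], [z, s]]`). -/
def S_ril : Prop := ∀ (R : Type) [CommRing R] (s r z : R) (A B : SL2 R), s * r = 1 →
  A.val = !![s, 1; 0, r] → B.val = !![s, 0; -z, r] →
  A * B * A⁻¹ = B * A⁻¹ * B⁻¹ * A * B * A⁻¹ * B →
  z * z - ((s + r) * (s + r) - 5) * z + (5 - (s + r) * (s + r)) = 0

/-- the matrix `(1 + u v⁻¹ + u v⁻¹ u - t A) (1 - u) - (1 - A u A⁻¹)`, `u = B A⁻¹`, `v = A⁻¹ B` -/
def Mt {R : Type} [CommRing R] (t : R) (A B : SL2 R) : Matrix (Fin 2) (Fin 2) R :=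
  (1 + (B * A⁻¹ * (A⁻¹ * B)⁻¹).val + (B * A⁻¹ * (A⁻¹ * B)⁻¹ * (B * A⁻¹)).val - t • A.val) *
    (1 - (B * A⁻¹).val) - (1 - (A * (B * A⁻¹) * A⁻¹).val)

/-- [F8 dM] the determinant of `Mt`.

Proof. Polynomial identity: with `x = s + r`, `ρ = z² - (x² - 5) z + (5 - x²)` and
`q = z² (s² + r²) - 3 z² + z² t (s + r) - 3 z - z³` one has modulo `s r = 1`
`det (Mt t A B) + z (t² - 2 x t + 1) = q ρ`. (Compute the matrices step by step, e.g. name the entries of
`u = B A⁻¹ = [[s r, -s], [-z r, z + r s]]` etc.; eliminate `r = s⁻¹` by `field_simp` over the field, or give the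
multiple of `s r - 1` to `linear_combination` with `ring_nf` help.) -/
def S_dM : Prop := ∀ (K : Type) [Field K] (s r z t : K) (A B : SL2 K), s * r = 1 →
  A.val = !![s, 1; 0, r] → B.val = !![s, 0; -z, r] →
  z * z - ((s + r) * (s + r) - 5) * z + (5 - (s + r) * (s + r)) = 0 →
  (Mt t A B).det = -z * (t * t - 2 * (s + r) * t + 1)

/-- [F8 coc] the cocycle equations if the translation part vanishes on `v`.

Proof. Take the `v`-components of `aa * vv = uu * aa` and `aa * uu = (uu * vv⁻¹ * uu * uu) * aa` under `Θ`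
(`aa_vv`, `aa_uu`), with `A = (Θ aa).m`, `u = (Θ uu).m`, `α = (Θ aa).v`, `U = (Θ uu).v`:
`α + τ A 0 = U + u α`, and `α + τ A U = U + u v⁻¹ (U + u U) + (u v⁻¹ u u) α` (`(Θ vv⁻¹).v = 0`), where
`u v⁻¹ u u = A u A⁻¹`. Substitute `U = (1 - u) α` in the second equation. `(Θ bb) = (Θ uu) (Θ aa)`, so
`u = B A⁻¹`, `v = A⁻¹ B` for `B = (Θ bb).m` (`uu_eq`, `vv_eq`). -/
def S_coc : Prop := ∀ (R : Type) [CommRing R] (Θ : G8 →* Q2 R) (τ : Rˣ),
  Q2.tH.comp Θ = (pw τ).comp n8 → (Θ vv).v = 0 →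
  (Θ uu).v = (1 - (Θ uu).m.val).mulVec (Θ aa).v ∧
    (Mt τ.val (Θ aa).m (Θ bb).m).mulVec (Θ aa).v = 0

/-- [F8 Bc] the main result over an algebraically closed field. (Uses `S_wc`, `S_van`, `S_ir`, `S_tab`, `S_nf`,
`S_ril`, `S_dM`, `S_coc`.)

Proof. By `S_ir`, `S_tab`, `S_nf` there is `P`; put `q₁ = ⟨1, P, 0⟩` and replace `Θ` by `g ↦ q₁ (Θ g) q₁⁻¹` (`MulAut.conj`):
the scalar part and the traces do not change, `Irr` and `NC` are preserved (`S_wc`; `Irr`: traces are the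
same). So `A = (Θ aa).m`, `B = (Θ bb).m` are in normal form; `S_ril` (apply the matrix part of `Θ` to `ab_rel`) gives
the second assertion (`tr (A B⁻¹) = 2 + z`). The matrix `(Θ vv).m - 1 = A⁻¹ B - 1` has determinant
`2 - tr (A⁻¹ B) = -z ≠ 0`; let `v₀` be the solution of `((Θ vv).m - 1) v₀ = (Θ vv).v`, `q₂ = ⟨1, 1, v₀⟩` or its
inverse: after conjugation with `q₂` also `(Θ vv).v = 0`, and the matrices are unchanged. Suppose
`τ² - 2 x τ + 1 ≠ 0`. Then `det (Mt τ A B) ≠ 0` (`S_dM`), so `(Θ aa).v = 0` and `(Θ uu).v = 0` by `S_coc`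
(`Matrix.eq_zero_of_mulVec_eq_zero`), contradiction to `NC` by `S_van`. -/
def S_Bc : Prop := ∀ (K : Type) [Field K] [IsAlgClosed K] (Θ : G8 →* Q2 K) (τ : Kˣ),
  Q2.tH.comp Θ = (pw τ).comp n8 → Irr (Q2.mH.comp Θ) → NC Θ →
  τ.val * τ.val - 2 * ch Θ aa * τ.val + 1 = 0 ∧
    (ch Θ (aa * bb⁻¹) - 2) * (ch Θ (aa * bb⁻¹) - 2) -
      (ch Θ aa * ch Θ aa - 5) * (ch Θ (aa * bb⁻¹) - 2) + (5 - ch Θ aa * ch Θ aa) = 0

/-- [F8 B] MAIN RESULT of part B. (Uses `S_Bc`, `S_wm`: pass to `AlgebraicClosure K` with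
`Q2.map (algebraMap K (AlgebraicClosure K))`, which is injective on entries; `tr_map`.) -/
def S_B : Prop := ∀ (K : Type) [Field K] (Θ : G8 →* Q2 K) (τ : Kˣ),
  Q2.tH.comp Θ = (pw τ).comp n8 → Irr (Q2.mH.comp Θ) → NC Θ →
  τ.val * τ.val - 2 * ch Θ aa * τ.val + 1 = 0 ∧
    (ch Θ (aa * bb⁻¹) - 2) * (ch Θ (aa * bb⁻¹) - 2) -
      (ch Θ aa * ch Θ aa - 5) * (ch Θ (aa * bb⁻¹) - 2) + (5 - ch Θ aa * ch Θ aa) = 0

/-- [F8 B1] the one-dimensional analogue.

Proof. Let `m = 1`. Write `c = (Θ ·).v`, `U = c uu`, `V = c vv`, `α = c aa`. `aa * vv = uu * aa`: `α + τ V = U + α`, so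
`U = τ V`. `aa * uu = (uu vv⁻¹ uu uu) aa`: `τ U = 3 U - V` (`c vv⁻¹ = -V` as the scalar and matrix parts of
`uu, vv` are trivial). So `(τ² - 3 τ + 1) V = 0`. Suppose `τ² ≠ 3 τ - 1`; then `V = U = 0`, and `c` vanishes on `F`
(`inl`), so `c (inl w * inr n) = c (inr n)`, and with `γ_n = c (inr n)`: `(τ - 1) γ_n = (τ ^ n - 1) α` for all `n : ℤ`
(induction). If `τ = 1` then `X = 0` for all elements and `W = 0`. Otherwise, with `n = n8 g`, `n' = n8 h`:
`W (Θ g) (Θ h) = (τ^n - 1)² γ_(n') - (τ^(n') - 1) (τ^n - 1) γ_n`, multiplied by `τ - 1` it vanishes. So `W = 0`,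
contradiction to `NC`. -/
def S_B1 : Prop := ∀ (K : Type) [Field K] (τ : Kˣ), P1 n8 K τ → τ.val * τ.val = 3 * τ.val - 1

/-- [F8 nc1] `Th1` is not a coboundary, in the strong form that `W` has a unit component.

Proof. `W (Th1 aa) (Th1 vv)`: `X aa = (t - 1) • 1`, determinant `(t - 1)²`, `(Th1 vv).v = ![1, 0]`, `(Th1 aa).v = 0`, so
`W = ![(t - 1)², 0]`; `(t - 1)² = t² - 2 t + 1 = t`. -/
def S_nc1 : Prop := ∀ (R : Type) [CommRing R] (t : Rˣ) (ht : t.val * t.val = 3 * t.val - 1),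
  Q2.W (Th1 t ht aa) (Th1 t ht vv) = ![t.val, 0]

/-- [F8 nc0] `Th0` is not a coboundary.

Proof. `W (Th0 vv) (Th0 aa) = det (v - 1) α` with `det (v - 1) = 2 - tr v = -w` and `α = (Th0 aa).v`
(`(Th0 vv).v = 0`). The component `1` is `-w (w (1 + t))`. -/
def S_nc0 : Prop := ∀ (R : Type) [CommRing R] (w : R) (hw : w * w + w + 1 = 0) (t : Rˣ)
  (ht : t.val * t.val = 4 * t.val - 1),
  Q2.W (Th0 w hw t ht vv) (Th0 w hw t ht aa) 1 = -(w * w * (1 + t.val))

/-- [F8 ir0] irreducibility of `rho8`, in the strong form: `tr [a, b] - 2 = w²` is a unit.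

Proof. `a = [[1, 1], [0, 1]]`, `b = [[1, 0], [-w, 1]]`: `tr (a b a⁻¹ b⁻¹) = 2 + w²`. -/
def S_ir0 : Prop := ∀ (R : Type) [CommRing R] (w : R) (hw : w * w + w + 1 = 0),
  tr (rho8 w hw (aa * bb * aa⁻¹ * bb⁻¹)) = 2 + w * w ∧ tr (rho8 w hw (aa * bb⁻¹)) = 2 + w ∧
    tr (rho8 w hw aa) = 2

/-- [F8 tg] characters of `G8` are determined by their values on `a, b, a b⁻¹`.

Proof. The trace identities `tr (x y) + tr (x⁻¹ y) = tr x tr y`, `tr x⁻¹ = tr x` in `SL2`; see `PChar.unique` and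
`PChar.of_rep` in `Lib/MP_305fdd_al/PSL/PChar.lean` (or directly: `T = tr ρ - ...`). `G8` is generated by `aa, bb`
(`uu_eq`, `vv_eq`). Direct proof: by induction on words every `tr ρ(w)`, `w` a word in `a^(±1), b^(±1)`, is the
value of an integral polynomial (depending on `w` only) at the traces of `a, b, a b`. -/
def S_tg : Prop := ∀ (K : Type) [Field K] (ρ ρ' : G8 →* SL2 K), tr (ρ aa) = tr (ρ' aa) →
  tr (ρ bb) = tr (ρ' bb) → tr (ρ (aa * bb⁻¹)) = tr (ρ' (aa * bb⁻¹)) → ∀ g, tr (ρ g) = tr (ρ' g)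

/-- [F8 G2] at most two characters with `P2`. (Uses `S_B`, `S_tab`, `S_tg`.)

Proof. By `S_B` and the equation of `τ`: `(4 - 2 x) τ = 0`, so `x = ch Θ aa = 2` (characteristic not two), and
`z² + z + 1 = 0` for `z = ch Θ (aa * bb⁻¹) - 2`. The three values of `z` are roots of one quadratic polynomial, so
two of them are equal: `(z - z') (z + z' + 1) = 0` etc. Then `S_tg` (`ch Θ bb = ch Θ aa` by `S_tab`). -/
def S_G2 : Prop := ∀ (K : Type) [Field K], (2 : K) ≠ 0 → ∀ Θ : Fin 3 → (G8 →* Q2 K),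
  (∀ i, P2 n8 K (Θ i)) → ∃ i j, i ≠ j ∧ ∀ g, ch (Θ i) g = ch (Θ j) g

end Pool.Agent.F8
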