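import Pool.Agent.Lib.MP_305fdd_al.F8.DefsE

/-!
# Figure-eight knot group, block E (from characters to matrices over `O`): statements

Main statement `S_E`. Pieces `S_Ech .. S_El2`. All statements are proved in `F8/E/`.
-/

set_option autoImplicit false

namespace Pool.Agent.F8

/-- the matrix `2 G - tr G` -/
def qI {R : Type} [CommRing R] (G : SL2 R) : Matrix (Fin 2) (Fin 2) R :=
  (2 : R) • G.val - tr G • (1 : Matrix (Fin 2) (Fin 2) R)

/-- the matrix `G H - H G` -/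
def qJ {R : Type} [CommRing R] (G H : SL2 R) : Matrix (Fin 2) (Fin 2) R :=
  G.val * H.val - H.val * G.val

/-- the reduction `O → (ZMod n)[ω]` -/
abbrev rd (n : ℕ) : O →+* Es (ZMod n) := Qd.map (-1) (Int.castRingHom (ZMod n))

/-- the local hypothesis: for every odd prime `p` and every `k` the function `T`, or its conjugate,
is modulo `p ^ k` the trace of a representation -/
def Loc {Λ : Type} [Group Λ] (T : Λ → O) : Prop :=
  ∀ p : ℕ, p.Prime → p ≠ 2 → ∀ k : ℕ, ∃ σ : O →+* O, SG σ ∧ ∃ r : Λ →* SL2 (Es (ZMod (p ^ k))),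
    ∀ l, tr (r l) = rd (p ^ k) (σ (T l))

/-- common denominators -/
def Bdd {Λ : Type} [Group Λ] (ρ : Λ →* SL2 (FractionRing O)) : Prop :=
  ∃ D : O, D ≠ 0 ∧ ∀ l i k, ∃ n : O,
    algebraMap O (FractionRing O) D * (ρ l).val i k = algebraMap O (FractionRing O) n

/-- **Piece Ech** (30 lines): the choice of `g, h`.

Proof. For `A, B ∈ SL2 K` with `x = tr A`, `y = tr B`, `z = tr (A B)` one has
`tr (A B A⁻¹ B⁻¹) - 2 = x² + y² + z² - x y z - 4` (expand in the entries, use the two determinants)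
and `tr (A B B) = z y - x` (same). Let `g, h` be as in `Irr s`, `x = tr (s g)`, `y = tr (s h)`,
`z = tr (s (g h))`. If `x² ≠ 4` take `(g, h)`. If `y² ≠ 4` take `(h, g)`: `h g h⁻¹ g⁻¹` is the
inverse of `g h g⁻¹ h⁻¹` and `tr X⁻¹ = tr X` on `SL2`. If `z² ≠ 4` take `(g h, h)`:
`(g h) h (g h)⁻¹ h⁻¹ = g h g⁻¹ h⁻¹`. Otherwise `x² = y² = z² = 4`, `(x y z)² = 64`, so
`x y z = 8` or `-8`; `x y z = 8` would give `tr [g, h] - 2 = 4 + 4 + 4 - 8 - 4 = 0`; so
`x y z = - 8`; take `(g h h, h)`: `(g h h) h (g h h)⁻¹ h⁻¹ = g h g⁻¹ h⁻¹`, and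
`tr (g h h)² = (z y - x)² = 16 - 2 x y z + 4 = 36 ≠ 4` (characteristic `0`). -/
def S_Ech : Prop := ∀ (K G : Type) [Field K] [CharZero K] [Group G] (s : G →* SL2 K), Irr s →
  ∃ g h : G, tr (s (g * h * g⁻¹ * h⁻¹)) ≠ 2 ∧ tr (s g) ^ 2 ≠ 4

/-- **Piece Eid** (40 lines): three solutions of `α x² + β y² = z²`.

Proof. Put `P = G00 - G11`, `Q = 2 G01`, `S = 2 G10`, so `2 G - tr G = [[P, Q], [S, -P]]` and
`(tr G)² - 4 = P² + Q S` (as `det G = 1`). Let `J = G H - H G = [[P', Q'], [S', -P']]`; then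
`tr (G H G⁻¹ H⁻¹) - 2 = P'² + Q' S'` (`= - det J`; as `J = [G, H] H G - H G`, and
`det (X - 1) = 2 - tr X`) and `2 P P' + Q S' + S Q' = 0`. All these are polynomial identities in the
entries of `G, H`, using `det G = det H = 1` (linear_combination). The solutions are:
`x = - S'`, `y = S`, `z = P S' - S P'`; `x = Q'`, `y = - Q`, `z = P Q' - Q P'` (use `y² = Q²`);
`x = 2 P' + Q' - S'`, `y = S - 2 P - Q`, `z = (P + Q) (S' - P') - (S - P) (P' + Q')`
(they come from `x = det (J e, e)`, `y = det (e, I e)`, `z = det (I e, J e)` for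
`e = (1,0), (0,1), (1,1)`). E.g. for the first one:
`z² - (P² + Q S) x² - (P'² + Q' S') y² = - S S' (2 P P' + Q S' + S Q')`. -/
def S_Eid : Prop := ∀ (R : Type) [CommRing R] (G H : SL2 R),
  (∃ x z : R, (tr G ^ 2 - 4) * x ^ 2 + (tr (G * H * G⁻¹ * H⁻¹) - 2) * (2 * G.val 1 0) ^ 2 =
    z ^ 2) ∧
  (∃ x z : R, (tr G ^ 2 - 4) * x ^ 2 + (tr (G * H * G⁻¹ * H⁻¹) - 2) * (2 * G.val 0 1) ^ 2 =
    z ^ 2) ∧
  (∃ x z : R, (tr G ^ 2 - 4) * x ^ 2 + (tr (G * H * G⁻¹ * H⁻¹) - 2) *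
    (2 * G.val 1 0 - 2 * (G.val 0 0 - G.val 1 1) - 2 * G.val 0 1) ^ 2 = z ^ 2)

/-- **Piece Ekr** (15 lines): kernel and surjectivity of the reduction `rd n`.

Proof. `rd n z = 0` iff `n` divides `z.re` and `z.im` (`ZMod.intCast_zmod_eq_zero_iff_dvd` or
`ZMod.intCast_cast`), and `(n : O) * ⟨x, y⟩ = ⟨n x, n y⟩`. Surjectivity: `ZMod.intCast_surjective`
on both coordinates. -/
def S_Ekr : Prop := ∀ n : ℕ, (∀ z : O, rd n z = 0 ↔ (n : O) ∣ z) ∧ Function.Surjective (rd n)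

/-- **Piece Epr** (20 lines): a prime of `O` not dividing `2` divides an odd prime number.

Proof. `π ∣ π * star π = nn π` (`mul_star_nn`), `nn π ≠ 0` (`nn_eq_zero`). By induction on the
natural number `n`, `n ≠ 0`, `π ∣ (n : O)` implies that `π` divides `(p : O)` for a prime `p`
(e.g. `Nat.recOnMul`, or `Prime.dvd_finset_prod_iff` with `Nat.factorization`;
`n = 1` is impossible because `π` is not a unit). `p ≠ 2` because `π` does not divide `2`. -/
def S_Epr : Prop := ∀ π : O, Prime π → ¬ π ∣ 2 → ∃ p : ℕ, p.Prime ∧ p ≠ 2 ∧ π ∣ (p : O)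

/-- **Piece Els** (100 lines): local solvability.

Proof. Let `π` be a prime with `¬ π ∣ 2`, `a = T g ^ 2 - 4 ≠ 0`, `b = T (g h g⁻¹ h⁻¹) - 2`, and let
`p` be as in `S_Epr`. As `a ≠ 0` and `π` is not a unit there is `m` with `¬ π ^ m ∣ a`
(`O` is a unique factorisation domain; or: `π ^ m ∣ a` gives `nn π ^ m ≤ nn a` with `nn π ≥ 2`).
Put `C = m`. Given `K` let `k = max K (2 m)` and take `σ, r` from `Loc T` for `p, k`; note
`σ (σ x) = x`, `σ (p : O) = p`, and `σ π` is prime (or just: `π ^ i ∣ σ x ↔ (σ π) ^ i ∣ x`).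
Let `G = r g`, `H = r h`. `rd (σ a) = (tr G) ^ 2 - 4`, `rd (σ b) = tr (G H G⁻¹ H⁻¹) - 2`.
`S_Eid` gives three pairs `x, z`; lift `x, z` to `O` and take for `y` the lifts
`2 G10, 2 G01, 2 G10 - 2 (G00 - G11) - 2 G01` of the three values, where now `G10, ...` are chosen
lifts of the entries of `G` (`S_Ekr`). So `p ^ k ∣ σ a * x² + σ b * y² - z²`; apply `σ`:
`p ^ k ∣ a (σ x)² + b (σ y)² - (σ z)²`, and `π ^ K ∣ π ^ k ∣ p ^ k`. If for one of the three choices
`π ^ m` does not divide all of `σ x, σ y, σ z` then this choice proves the claim. Otherwise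
`π ^ m ∣ σ y` for the three values of `y`, i.e. (with `ϖ = σ π`, a prime not dividing `2`)
`ϖ ^ m` divides `2 G10`, `2 G01`, `2 (G00 - G11)`, so it divides `G10`, `G01`, `G00 - G11`
(`ϖ` is prime and does not divide `2`; `Prime.pow_dvd_of_dvd_mul_left`).
Now `(tr G)² - 4 = (G00 - G11)² + 4 G01 G10` in `Es (ZMod (p ^ k))` (determinant one), so
`p ^ k` divides `σ a - ((G00 - G11)² + 4 G01 G10)`, hence `ϖ ^ (2 m) ∣ σ a` (`2 m ≤ k`,
`ϖ ^ k ∣ p ^ k`). Apply `σ`: `π ^ (2 m) ∣ a`, contradiction to `¬ π ^ m ∣ a`. -/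
def S_Els : Prop := ∀ (Λ : Type) [Group Λ] (T : Λ → O), Loc T → ∀ g h : Λ, T g ^ 2 - 4 ≠ 0 →
  LA (T g ^ 2 - 4) (T (g * h * g⁻¹ * h⁻¹) - 2)

/-- **Piece Evl** (20 lines): multiplication by `c ≠ 0` changes `π`-divisibility by a bounded
amount.

Proof. `c = π ^ v * c'` with `¬ π ∣ c'` (`O` is a UFD: `IsPrincipalIdealRing` and `IsDomain`
instances are in `DefsE`; e.g. `FiniteMultiplicity.exists_eq_pow_mul_and_not_dvd` or
`WfDvdMonoid`). If `π ^ (C + v) ∣ π ^ v c' x` then `π ^ C ∣ c' x`, so `π ^ C ∣ x`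
(`Prime.pow_dvd_of_dvd_mul_left`). -/
def S_Evl : Prop := ∀ π : O, Prime π → ∀ c : O, c ≠ 0 → ∃ v : ℕ, ∀ (C : ℕ) (x : O),
  π ^ (C + v) ∣ c * x → π ^ C ∣ x

/-- **Piece Esc** (40 lines, uses `S_Evl`): symmetry and scaling.

Proof. (1), (2): exchange `x` and `y`. (3): if `a c² x² + b y² - z²` is divisible by `π ^ K` then
`(c x, y, z)` is an approximate solution for `(a, b)`; with `v` from `S_Evl` for `c` and the constant
`C + v` instead of `C`: if `π ^ (C + v)` divides `c x, y, z` then `π ^ C` divides `x, y, z`.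
(4): if `a x² + b y² = z²` then `(x, c y, c z)` is a solution for `(a c², b)`, nontrivial as
`c ≠ 0`. -/
def S_Esc : Prop :=
  (∀ a b : O, LA a b → LA b a) ∧ (∀ a b : O, Sol a b → Sol b a) ∧
  (∀ a b c : O, c ≠ 0 → LA (a * c ^ 2) b → LA a b) ∧
  (∀ a b c : O, c ≠ 0 → Sol a b → Sol (a * c ^ 2) b)

/-- **Piece Esq** (70 lines): `a` is a square modulo every prime divisor of `b`.

Proof. If `π ∣ 2`: `r = a ^ 2`, `two_dvd_pow_four`. Let `¬ π ∣ 2`. If `π ∣ a`: `r = 0`.
Let `¬ π ∣ a`. Take `C` from `LS π a b` and `x, y, z` for `K = 2 C + 2`. Let `c` be the largest number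
such that `π ^ c` divides `x, y, z` (`c < C`; e.g. `Nat.find` of the smallest `n` such that
`π ^ n` does not divide all three, `n ≤ C`, `n ≠ 0`, `c = n - 1`); `x = π ^ c x'`, `y = π ^ c y'`,
`z = π ^ c z'`, and `π` does not divide all of `x', y', z'`. From
`π ^ (2 C + 2) ∣ π ^ (2 c) (a x'² + b y'² - z'²)` we get `π ^ 2 ∣ a x'² + b y'² - z'²`. If `π ∣ x'`
then `π ∣ z'²` (as `π ∣ b`), so `π ∣ z'`, so `π ^ 2 ∣ b y'²`; write `b = π b'`: `π ∣ b' y'²`, and
`π ∣ b'` is impossible (`π ^ 2 ∣ b`, `Sf b` would make `π` a unit), so `π ∣ y'`, contradiction.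
So `¬ π ∣ x'`. `O` is a principal ideal domain and `π` is prime, so `π` and `x'` are coprime
(`Irreducible.coprime_iff_not_dvd`, `Prime.irreducible`): `u x' + v π = 1`. Put `r = z' u`. Modulo
`π`: `r² = z'² u² = a x'² u² = a`. -/
def S_Esq : Prop := ∀ π a b : O, Prime π → Sf b → π ∣ b → (¬ π ∣ 2 → LS π a b) →
  ∃ r : O, π ∣ r ^ 2 - a

/-- **Piece Esb** (40 lines, uses `S_Esq`): `a` is a square modulo the squarefree `b`.

Proof. Show for all `d` (induction with `UniqueFactorizationMonoid.induction_on_prime`): if `d ∣ b`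
then there is `r` with `d ∣ r² - a`. `d = 0`: impossible as `b ≠ 0`. `d` a unit: trivial.
`d = π d'` with `π` prime: `r'` for `d'` by induction, `s` for `π` by `S_Esq`; `¬ π ∣ d'` because
otherwise `π ^ 2 ∣ b`, so `π` would be a unit; so `u π + v d' = 1` (coprime). Put
`r = s v d' + r' u π`; `r - s` is divisible by `π` and `r - r'` by `d'`, so `π` and `d'` divide
`r² - a`, so does the product (`IsCoprime.mul_dvd`). -/
def S_Esb : Prop := ∀ a b : O, Sf b → b ≠ 0 → LA a b → ∃ r : O, b ∣ r ^ 2 - a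

/-- **Piece Enm** (30 lines): two estimates of norms.

Proof. (1) With `N = nn` as an integer quadratic form (`nn_cast`) and `W = N (u + v) - N u - N v`:
`N (u - v) = N u + N v - W` and `0 ≤ N (2 u + v) = 4 N u + N v + 2 W`, so
`2 N (u - v) ≤ 6 N u + 3 N v`, so `6 N (u - v) ≤ 2 n² + 9 n < 6 n²` as `n ≥ 3` (`9 n < 4 n²`).
(2) `x² - x y + y² ≠ 2`: it is even only if `x` and `y` are even, and then divisible by `4`. -/
def S_Enm : Prop :=
  (∀ (u v : O) (n : ℕ), 3 ≤ n → 9 * nn u ≤ n ^ 2 → nn v ≤ n → nn (u - v) < n ^ 2) ∧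
  (∀ b : O, 2 ≤ nn b → 3 ≤ nn b)

/-- **Piece Eds** (60 lines, uses `S_Evl`): the descent step.

Proof. Let `c = r² - a = b b1 ≠ 0`. For all `x, z`: with `X = z + r x`, `Z = r z + a x` one has
`Z² - a X² = (r² - a) (z² - a x²)`, `r X - Z = (r² - a) x`, `r Z - a X = (r² - a) z`.
First claim: let `π` be a prime, `¬ π ∣ 2`, `C` the constant of `LS π a b`, `v, v'` from `S_Evl` for
`c` and for `b`. The constant `C + v + v'` works for `LS π a b1`: given `K` take `x, y, z` from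
`LS π a b` and put `Y = b y`; `a X² + b1 Y² - Z² = b b1 (a x² + b y² - z²)` is divisible by
`π ^ K`; if `π ^ (C + v + v')` divides `X, Y, Z`, then it divides `c x = r X - Z`,
`c z = r Z - a X` and `b y`, so `π ^ C` divides `x, z, y`, contradiction.
Second claim: let `a X² + b1 Y² = Z²`; put `X' = Z + r X`, `Y' = b1 Y`, `Z' = r Z + a X`; then
`Z'² - a X'² = (r² - a) (Z² - a X²) = b b1 b1 Y² = b Y'²`. If `X' = Y' = Z' = 0` then
`c X = 0`, `c Z = 0`, `b1 Y = 0`, so `X = Y = Z = 0`. -/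
def S_Eds : Prop := ∀ a b b1 r : O, r ^ 2 - a = b * b1 → b * b1 ≠ 0 →
  (LA a b → LA a b1) ∧ (Sol a b1 → Sol a b)

/-- **Piece Eun** (40 lines): the case of units.

Proof. If `x² - x y + y² = 1` in integers then `(x, y)` is one of `±(1, 0), ±(0, 1), ±(1, 1)`
(from `(2 x - y)² + 3 y² = 4`, so `|y| ≤ 1`, `|x| ≤ 1`). So with `ω = ⟨0, 1⟩`,
`ω² = ⟨-1, -1⟩`, every `a` with `nn a = 1` is `c²` or `- c²` with `c` one of `1, ω, ω²`
(`ω = (ω²)²`, `⟨-1, -1⟩ = ω²`). If `a = c²`: `(1, 0, c)`. If `b = c²`: `(0, 1, c)`.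
If `a = - c²`, `b = - d²`: `x = d`, `y = ω² c`, `z = c d ω`:
`- c² d² (1 + ω⁴) = - c² d² (1 + ω) = c² d² ω²`. (Alternatively check the `36` cases.) -/
def S_Eun : Prop := ∀ a b : O, nn a = 1 → nn b = 1 → Sol a b

/-- **Piece Elg** (60 lines, uses `S_Esc, S_Esb, S_Enm, S_Eds, S_Eun`): Legendre's theorem over `O`.

Proof. Strong induction on `nn a + nn b`. By symmetry (`S_Esc`) let `nn a ≤ nn b`. If `Sf b` fails
there is a nonunit `c` with `b = b' c²`; `c ≠ 0`, `nn c ≥ 2`, so `nn b' < nn b`; `LA a b'` by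
`S_Esc` (with symmetry), `Sol a b'` by induction, `Sol a b` by `S_Esc`. Let `Sf b`. If `nn b = 1`
then `nn a = 1` (`a ≠ 0`), `S_Eun`. Otherwise `nn b ≥ 3` (`S_Enm`). `S_Esb` gives `r0` with
`b ∣ r0² - a`; by `exists_small` there is `q` such that `r = r0 - b q` has `3 nn r ≤ nn b`; still
`b ∣ r² - a`. Write `r² - a = b b1`. If `b1 = 0`: `(1, 0, r)`. Otherwise
`9 nn (r²) = (3 nn r)² ≤ (nn b)²`, so `nn b * nn b1 = nn (r² - a) < (nn b)²` (`S_Enm`), so
`nn b1 < nn b`; `LA a b1` (`S_Eds`), `Sol a b1` by induction, `Sol a b` (`S_Eds`). -/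
def S_Elg : Prop := ∀ a b : O, a ≠ 0 → b ≠ 0 → LA a b → Sol a b

/-- **Piece Edc** (60 lines): the quaternion relations and the coordinates of a matrix.

Proof. Polynomial identities in the entries of `G, H, X` with `det G = det H = 1` (write
`G = [[a, b], [c, d]]`, `Matrix.SpecialLinearGroup.coe_inv`, `Matrix.adjugate_fin_two`, compare the
four entries with `linear_combination`). The last one is
`2 α β X = α β tr X + β tr (X I) I + α tr (X J) J - tr (X I J) I J` with `I = qI G`, `J = qJ G H`;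
it holds for all matrices `X` (no condition) when `α = (tr G)² - 4 det G` and `β = - det J`, and
`- det J = tr (G H G⁻¹ H⁻¹) - 2` as in `S_Eid`; note
`tr (X I) = 2 tr (X G) - tr G tr X`, `tr (X J) = tr (X G H) - tr (X H G)`,
`tr (X I J) = 2 tr (X G G H) - 2 tr (X G H G) - tr G tr (X G H) + tr G tr (X H G)`.
(Proof by hand: `1, I, J, I J` are orthogonal for the trace form with `tr 1 = 2`, `tr I² = 2 α`,
`tr J² = 2 β`, `tr (I J)² = - 2 α β`; e.g. first prove
`2 β I-part` and so on; or simply expand everything.) -/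
def S_Edc : Prop := ∀ (R : Type) [CommRing R] (G H : SL2 R),
  qI G * qI G = (tr G ^ 2 - 4) • (1 : Matrix (Fin 2) (Fin 2) R) ∧
  qJ G H * qJ G H = (tr (G * H * G⁻¹ * H⁻¹) - 2) • (1 : Matrix (Fin 2) (Fin 2) R) ∧
  qI G * qJ G H = -(qJ G H * qI G) ∧ (qI G).trace = 0 ∧ (qJ G H).trace = 0 ∧
  ∀ X : SL2 R, (2 * (tr G ^ 2 - 4) * (tr (G * H * G⁻¹ * H⁻¹) - 2)) • X.val =
    ((tr G ^ 2 - 4) * (tr (G * H * G⁻¹ * H⁻¹) - 2) * tr X) • (1 : Matrix (Fin 2) (Fin 2) R) +
    ((tr (G * H * G⁻¹ * H⁻¹) - 2) * (2 * tr (X * G) - tr G * tr X)) • qI G +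
    ((tr G ^ 2 - 4) * (tr (X * G * H) - tr (X * H * G))) • qJ G H -
    (2 * tr (X * G * G * H) - 2 * tr (X * G * H * G) - tr G * tr (X * G * H) +
      tr G * tr (X * H * G)) • (qI G * qJ G H)

/-- **Piece Ect** (25 lines): quaternion matrices from a solution.

Proof. If `y ≠ 0`: put `p = z / y`, `r = x / y`, so `p² - α r² = β`, and
`I' = [[0, α], [1, 0]]`, `J' = [[p, - α r], [r, - p]]`. If `y = 0`: then `x ≠ 0` (otherwise
`z² = 0`), `δ = z / x`, `δ² = α`, `I' = [[δ, 0], [0, - δ]]`, `J' = [[0, β], [1, 0]]`. -/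
def S_Ect : Prop := ∀ (K : Type) [Field K] (α β x y z : K), ¬ (x = 0 ∧ y = 0 ∧ z = 0) →
  α * x ^ 2 + β * y ^ 2 = z ^ 2 → ∃ I J : Matrix (Fin 2) (Fin 2) K,
    I * I = α • (1 : Matrix (Fin 2) (Fin 2) K) ∧ J * J = β • (1 : Matrix (Fin 2) (Fin 2) K) ∧
    I * J = -(J * I) ∧ I.trace = 0 ∧ J.trace = 0

/-- **Piece Esp** (100 lines): transport of a representation with coordinates.

Proof. (1) `1, I, J, I J` are linearly independent over `Om`: let
`X = a 1 + b I + c J + d I J = 0`; `I X I = j α (a + b I - c J - d I J)`, so `a + b I = 0` and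
`c J + d I J = 0` (as `2 ≠ 0`, `j α ≠ 0`); multiply the first by `J` from both sides: `a - b I = 0`,
so `a = 0` and `b I = 0`, `b j α = 0`, `b = 0`; the second is `(c + d I) J = 0`, multiply by `J` from
the right: `c + d I = 0`, so `c = d = 0` in the same way. (Or: traces of `X, X I, X J, X I J`
with `tr I = tr J = tr (I J) = 0`.)
(2) For `q : Fin 4 → K` put `A q = j q0 + j q1 I + j q2 J + j q3 I J ∈ M2(Om)` and
`B q = q0 + q1 I' + q2 J' + q3 I' J' ∈ M2(K)`, and for `q, q'` the quaternion product `q q'`: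
`(q q')0 = q0 q0' + α q1 q1' + β q2 q2' - α β q3 q3'`,
`(q q')1 = q0 q1' + q1 q0' - β q2 q3' + β q3 q2'`,
`(q q')2 = q0 q2' + q2 q0' + α q1 q3' - α q3 q1'`,
`(q q')3 = q0 q3' + q3 q0' + q1 q2' - q2 q1'`.
Then `A q * A q' = A (q q')` and `B q * B q' = B (q q')` (from the relations; one may also use
Mathlib's `QuaternionAlgebra` and `QuaternionAlgebra.Basis.lift`). `A` is injective by (1) and
injectivity of `j`. As `s (l l') = s l s l'`: `c (l l') = c l c l'`, `c 1 = (1,0,0,0)`; so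
`l ↦ B (c l)` is multiplicative.
(3) `det (B q) = q0² - α q1² - β q2² + α β q3²` and `j` of the same number is `det (A q)`: write
`I = [[P, Q], [S, - P]]`, `J = [[P', Q'], [S', - P']]` (traces zero), the relations say
`P² + Q S = α`, `P'² + Q' S' = β`, `2 P P' + Q S' + S Q' = 0`; expand the determinant
(linear_combination). So `det (B (c l)) = 1` because `det (s l) = 1` and `j` is injective. -/
def S_Esp : Prop := ∀ (K Om Λ : Type) [Field K] [Field Om] [CharZero Om] [Group Λ] (j : K →+* Om)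
  (s : Λ →* SL2 Om) (α β : K) (I J : Matrix (Fin 2) (Fin 2) Om)
  (I' J' : Matrix (Fin 2) (Fin 2) K) (c : Λ → Fin 4 → K), α ≠ 0 → β ≠ 0 →
  I * I = j α • (1 : Matrix (Fin 2) (Fin 2) Om) → J * J = j β • (1 : Matrix (Fin 2) (Fin 2) Om) →
  I * J = -(J * I) → I.trace = 0 → J.trace = 0 →
  I' * I' = α • (1 : Matrix (Fin 2) (Fin 2) K) → J' * J' = β • (1 : Matrix (Fin 2) (Fin 2) K) →
  I' * J' = -(J' * I') → I'.trace = 0 → J'.trace = 0 →
  (∀ l, (s l).val = j (c l 0) • (1 : Matrix (Fin 2) (Fin 2) Om) + j (c l 1) • I + j (c l 2) • J +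
    j (c l 3) • (I * J)) →
  ∃ ρ : Λ →* SL2 K, ∀ l, (ρ l).val = c l 0 • (1 : Matrix (Fin 2) (Fin 2) K) + c l 1 • I' +
    c l 2 • J' + c l 3 • (I' * J')

/-- **Piece Esx** (100 lines, uses `S_Edc, S_Ect, S_Esp`): the splitting.

Proof. Let `K = FractionRing O`, `j' : K →+* Om` the extension of `j` (`IsFractionRing.lift`),
`α = T g ^ 2 - 4`, `β = T (g h g⁻¹ h⁻¹) - 2` in `O`; `G = s g`, `H = s h`. `S_Edc` for `G, H, X = s l`:
its coefficients are the images under `j` of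
`2 α β`, `α β T l`, `β (2 T (l g) - T g T l)`, `α (T (l g h) - T (l h g))`,
`t = 2 T (l g g h) - 2 T (l g h g) - T g T (l g h) + T g T (l h g)`. Divide by `j (2 α β) ≠ 0`:
`s l = j'(c0) + j'(c1) I + j'(c2) J + j'(c3) I J` with `c0 = T l / 2`,
`c1 = (2 T (l g) - T g T l) / (2 α)`, `c2 = (T (l g h) - T (l h g)) / (2 β)`,
`c3 = - t / (2 α β)` in `K`. `S_Ect` (in `K`, with the images of the solution) gives `I', J'`, and
`S_Esp` gives `ρ`. `tr ρ l = 2 c0 = T l` since `I', J', I' J'` have trace zero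
(`tr (I' J') = - tr (J' I') = - tr (I' J')`). Denominators: `2 α β c_i ∈ O`, and there is
`D0 ≠ 0` in `O` such that `D0` times every entry of `I', J', I' J'` is in `O`
(`IsLocalization.exist_integer_multiples_of_finset` or the product of the denominators); take
`D = 2 α β D0`. -/
def S_Esx : Prop := ∀ (Λ Om : Type) [Group Λ] [Field Om] [CharZero Om] (j : O →+* Om),
  Function.Injective j → ∀ (s : Λ →* SL2 Om) (T : Λ → O), (∀ l, tr (s l) = j (T l)) →
  ∀ g h : Λ, T g ^ 2 - 4 ≠ 0 → T (g * h * g⁻¹ * h⁻¹) - 2 ≠ 0 →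
  Sol (T g ^ 2 - 4) (T (g * h * g⁻¹ * h⁻¹) - 2) →
  ∃ ρ : Λ →* SL2 (FractionRing O), Bdd ρ ∧
    ∀ l, tr (ρ l) = algebraMap O (FractionRing O) (T l)

/-- **Piece El1** (100 lines): the invariant lattice.

Proof. `K = FractionRing O`, `V = Fin 2 → K`, an `O`-module. Let `L ≤ V` be the `O`-span of all
`(ρ l).val.mulVec e` with `l ∈ Λ`, `e = Pi.single i 1`. `L` is contained in the range of the
`O`-linear map `O² → V`, `n ↦ D⁻¹ n` (`Bdd ρ`), so `L` is finitely generated (`O` is noetherian).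
`V` is torsion free over `O`, so `L` is a finite free `O`-module (`O` is a principal ideal domain;
`Module.free_of_finite_type_torsion_free'` and `Module.Free.chooseBasis`, or
`Submodule.nonempty_basis_of_pid`). Let `b` be a basis of `L`. Its elements are linearly independent
over `K` (`LinearIndependent.iff_fractionRing`) and span `V` over `K` because `L` contains the
`Pi.single i 1` (`l = 1`); so it has two elements; let `B` be the matrix with columns `b 0, b 1`;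
`det B ≠ 0`. `L` is stable under `ρ l`, so `ρ l (b k) = ∑ b i m i k` with `m i k ∈ O`, i.e.
`(ρ l).val * B = B * M` where `M` is a matrix with entries in `O`. -/
def S_El1 : Prop := ∀ (Λ : Type) [Group Λ] (ρ : Λ →* SL2 (FractionRing O)), Bdd ρ →
  ∃ B : Matrix (Fin 2) (Fin 2) (FractionRing O), B.det ≠ 0 ∧ ∀ l, ∃ M : Matrix (Fin 2) (Fin 2) O,
    (ρ l).val * B = B * M.map (algebraMap O (FractionRing O))

/-- **Piece El2** (40 lines): from the lattice to the representation.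

Proof. Choose `M l` for every `l`. `B` is invertible, so `(M l).map = B⁻¹ ρ l B`; the entrywise map
from `M2(O)` to `M2(K)` is an injective ring homomorphism (`RingHom.mapMatrix`,
`IsFractionRing.injective`); so `det (M l) = 1` (`Matrix.det_map` or `RingHom.map_det`),
`M (l l') = M l M l'`, `M 1 = 1`, and the traces agree (`Matrix.trace_mul_comm`). -/
def S_El2 : Prop := ∀ (Λ : Type) [Group Λ] (ρ : Λ →* SL2 (FractionRing O))
  (B : Matrix (Fin 2) (Fin 2) (FractionRing O)), B.det ≠ 0 →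
  (∀ l, ∃ M : Matrix (Fin 2) (Fin 2) O,
    (ρ l).val * B = B * M.map (algebraMap O (FractionRing O))) →
  ∃ ρ' : Λ →* SL2 O, ∀ l, algebraMap O (FractionRing O) (tr (ρ' l)) = tr (ρ l)

/-- **Main statement E** (30 lines, uses `S_Ech, S_Els, S_Elg, S_Esx, S_El1, S_El2`).

Proof. `S_Ech` gives `g, h`; `α = T g ^ 2 - 4`, `β = T (g h g⁻¹ h⁻¹) - 2` are nonzero since
`j α = tr (s g) ^ 2 - 4`, `j β = tr (s (g h g⁻¹ h⁻¹)) - 2`. `S_Els`: `LA α β`. `S_Elg`: `Sol α β`.
`S_Esx`: `ρ` over `FractionRing O`. `S_El1` and `S_El2`: `ρ'` over `O` with the same trace;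
`O → FractionRing O` is injective. -/
def S_E : Prop := ∀ (Λ Om : Type) [Group Λ] [Field Om] [CharZero Om] (j : O →+* Om),
  Function.Injective j → ∀ (s : Λ →* SL2 Om) (T : Λ → O), (∀ l, tr (s l) = j (T l)) → Irr s →
  Loc T → ∃ ρ : Λ →* SL2 O, ∀ l, tr (ρ l) = T l

end Pool.Agent.F8
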