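import Pool.Agent.Lib.MP_305fdd_al.F8.DefsO
import Pool.Agent.Lib.MP_305fdd_al.F2X.Stm

/-!
# MP_305fdd_al: groups which contain `F ⋊ ℤ` as a normal subgroup of finite index

MAIN RESULT (`S_OV`): let `α` be an automorphism of `F` with hyperbolic matrix of positive trace, such that the
groups `GA (α ^ n)`, `n ≥ 1`, are profinitely rigid and regular, and which satisfies the local-global
principle `Lo`. Then every group without non-trivial finite normal subgroups which contains some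
`GA (α ^ n)` as a normal subgroup of finite index is profinitely rigid. For `α = phi`: all orbifolds and
manifolds which are finitely and regularly covered by a cyclic cover of the figure-eight knot
complement: the sister of the figure-eight knot complement, the Gieseking manifold, all their cyclic covers, ...

Every piece may use the statements named in its docstring as hypotheses. Definitions: `F8/DefsO.lean`.
-/

set_option autoImplicit false

namespace Pool.Agent.F8.OV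

open Pool.Agent.MP_305fdd_al Pool.Agent.Lib.MP_305fdd_al Pool.Agent.F2X Pool.Agent.F8
  Pool.Agent.F8.HN
open scoped QuadraticAlgebra

/-! ## Part 1: matrices -/

/-- [F8o cs] the sequence `cs`.

Proof. (1)-(3) induction (`cs (k+1) ≥ cs k + 1` because `T ≥ 3`). (4) `cs (a + b + 1) = cs (a + 1) cs (b + 1) - cs a cs b`: induction
on `b` for all `a`. (5) `cs (k+1)² - T cs (k+1) cs k + cs k² = 1` (induction), so `cs k` and `cs (k+1)` are coprime. Let
`J ≥ 1`, `cs J ∣ cs i`; write `i = J q + r`, `0 ≤ r < J`; by (4) `cs J ∣ cs (J q)` (induction on `q`), and if `r ≥ 1`, `q ≥ 1`: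
`cs (J q + r) = cs (J q) cs (r + 1) - cs (J q - 1) cs r`, so `cs J ∣ cs (J q - 1) cs r`, and `cs (J q - 1)` is coprime to `cs (J q)`,
hence to `cs J`; so `cs J ∣ cs r`, `0 < cs r < cs J`: contradiction. -/
def S_cs : Prop := ∀ T : ℤ, 2 < T → (∀ k : ℕ, cs T k < cs T (k + 1)) ∧ (∀ k : ℕ, (k : ℤ) ≤ cs T k) ∧
  (∀ k : ℕ, 0 < k → 0 < cs T k) ∧
  (∀ a b : ℕ, cs T (a + b + 1) = cs T (a + 1) * cs T (b + 1) - cs T a * cs T b) ∧
  (∀ J i : ℕ, 0 < J → cs T J ∣ cs T i → J ∣ i)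

/-- [F8o pw] powers of hyperbolic matrices. (Uses `S_cs`.)

Proof. (1) Cayley-Hamilton `A² = T A - 1` and induction. (2) `trace (A ^ n) > 2`: by (1)
`trace (A ^ (k+1)) = T cs (k+1) - 2 cs k ≥ 3 cs (k+1) - 2 (cs (k+1) - 1) = cs (k+1) + 2 > 2`. (3) If `A 0 1 = 0` or `A 1 0 = 0` then
the diagonal entries are integers with product `1` and the trace would be `± 2`. (4) from (1) and (3):
`(A ^ (k+1)) 0 1 = cs (k+1) * A 0 1 ≠ 0`; for negative exponents take inverses. -/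
def S_pw : Prop := ∀ A : GL (Fin 2) ℤ, Hyp A →
  (∀ k : ℕ, (A ^ (k + 1)).val = cs A.val.trace (k + 1) • A.val - cs A.val.trace k • 1) ∧
  (∀ n : ℕ, 0 < n → Hyp (A ^ n)) ∧ A.val 0 1 ≠ 0 ∧ A.val 1 0 ≠ 0 ∧ (∀ k : ℤ, A ^ k = 1 → k = 0)

/-- [F8o cm] the commutant.

Proof. (1) `A = [[p, q], [r, s]]`, `g = [[x, y], [z, w]]`, `g A = A g` gives `q z = r y` and `q (x - w) = y (p - s)`. (2) so
`q g = y A + (q x - y p)` and the same for `h`; `q² (g h - h g) = 0` and `q ≠ 0`. (3) `A⁻¹ = trace A - A`. If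
`g A g⁻¹ = A⁻¹` and also `= A` then `A² = 1`, `T A = 2`, `T q = 0`. -/
def S_cm : Prop := ∀ A : GL (Fin 2) ℤ, A.val 0 1 ≠ 0 → (∀ g : GL (Fin 2) ℤ, g * A = A * g →
    A.val 0 1 • g.val = g.val 0 1 • A.val + (A.val 0 1 * g.val 0 0 - g.val 0 1 * A.val 0 0) • 1) ∧
  (∀ g h : GL (Fin 2) ℤ, g * A = A * g → h * A = A * h → g * h = h * g) ∧
  (Hyp A → A⁻¹ ≠ A)

/-- [F8o tor] torsion elements commuting with a hyperbolic matrix. (Uses `F2X.S_fo`, `S_cm`, `S_pw`.)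

Proof. `F2X.S_fo` for `g`. If `det g = 1` and `g ≠ ±1` then `|trace g| ≤ 1`. With `q = A 0 1`, `y = g 0 1`: `q g = y A + z`. If
`y = 0` then `g` is a scalar matrix, `g = ±1`. Discriminants (`disc M = (trace M)² - 4 det M`, `disc (a M + b) = a² disc M`):
`q² ((trace g)² - 4 det g) = y² ((trace A)² - 4)`, and `(trace A)² - 4 > 0`. If `det g = 1`, `|trace g| ≤ 1`: the left side is
negative, contradiction. If `det g = -1`, `trace g = 0`: `(2 q)² = y² (T² - 4)`, so `T² - 4` is the square of a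
rational number, hence of an integer `k ≥ 0`: `(T - k)(T + k) = 4`, `T = 2`: contradiction (`T - k` and `T + k` have the
same parity). -/
def S_tor : Prop := ∀ A : GL (Fin 2) ℤ, Hyp A → ∀ g : GL (Fin 2) ℤ, g * A = A * g → ∀ r : ℕ,
  0 < r → g ^ r = 1 → g = 1 ∨ g = -1

/-- [F8o com] a matrix which commutes with `A ^ n` modulo a suitable `m` commutes modulo `m'` with all
matrices which commute with `A`. (Uses `S_pw`, `S_cm`, `S_cs`.)

Proof. `q = |A 0 1|`, `u = cs T n > 0`, `m = q u m'`. Let `X` have an integral representative `Z` (entrywise).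
`A ^ n = u A - cs T (n-1)` (`S_pw`), so all entries of `u (Z A - A Z)` are divisible by `m = u q m'`, so those of
`Z A - A Z` by `q m'`. For `g` commuting with `A`: `(A 0 1) g = (g 0 1) A + scalar` (`S_cm`), so
`(A 0 1) (Z g - g Z) = (g 0 1) (Z A - A Z)` has entries divisible by `q m'`, and `Z g - g Z` by `m'`. -/
def S_com : Prop := ∀ A : GL (Fin 2) ℤ, Hyp A → ∀ n m' : ℕ, 0 < n → 0 < m' →
  ∃ (m : ℕ) (h : m' ∣ m), 0 < m ∧ ∀ X : GL (Fin 2) (ZMod m),
    X * red m (A ^ n) = red m (A ^ n) * X →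
    ∀ g : GL (Fin 2) ℤ, g * A = A * g → redm h X * red m' g = red m' g * redm h X

/-- [F8o star] elements which are congruent to a power of `A ^ n`. (Uses `S_cs`, `S_pw`, `S_cm`, `S_tor`.)

Proof. `B = A ^ n`, hyperbolic; `T' = trace B`, `q = |B 0 1| > 0`, `e > 0` with `red 3 (B ^ e) = 1` (finite group),
`J = 2 r e`, `m₀ = 3 q (cs T' J) (|trace A * A 0 1| + 1)`. Let `m₀ ∣ m`. (1) if `m ∣ k` then `k` is divisible by
`|trace A * A 0 1| + 1`; so `red m A ≠ red m A⁻¹`, because `A - A⁻¹ = 2 A - trace A`.. has the entry `2 (A 0 1)` - use instead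
`A² = T A - 1`: `red m A = red m A⁻¹` implies `T A = 2` modulo `m`, so `m ∣ T (A 0 1) ≠ 0`, impossible. (2) Let
`red m g = red m (B ^ k)`. Then `red m g` commutes with `red m A`, so `g A g⁻¹ = A⁻¹` is impossible by (1): `g` commutes with
`A`. `g₁ = g B ^ (-k)`, `red m g₁ = 1`, `g₁ ^ r = B ^ i` for some `i` (`g` and `B` commute). `red m (B ^ |i|) = 1`, so
`m ∣ (cs T' |i|) (B 0 1)` (`S_pw` for `B`), hence `cs T' J ∣ cs T' |i|` and `J ∣ i` (`S_cs`): `i = r i'`, `2 e ∣ i'`.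
`g₂ = g₁ B ^ (-i')` commutes with `A` and `g₂ ^ r = 1`, so `g₂ = ±1` (`S_tor`). If `g₂ = -1`: `g₁ = - B ^ i'`,
modulo `3`: `1 = -1` (because `e ∣ i'`), contradiction. So `g = B ^ (k + i')`. -/
def S_star : Prop := ∀ A : GL (Fin 2) ℤ, Hyp A → ∀ n r : ℕ, 0 < n → 0 < r →
  ∃ m₀ : ℕ, 0 < m₀ ∧ ∀ m : ℕ, 0 < m → m₀ ∣ m → red m A ≠ red m A⁻¹ ∧
    ∀ g : GL (Fin 2) ℤ, CI A g → (∃ j : ℤ, g ^ r = (A ^ n) ^ j) →
    ∀ k : ℤ, red m g = red m ((A ^ n) ^ k) → ∃ j : ℤ, g = (A ^ n) ^ j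

/-- [F8o mx] locally conjugate virtually cyclic groups are conjugate. (Uses `S_com`, `S_star`, `S_cm`, `S_pw`.)

Proof. `m₀` from `S_star` (for `n`, `r`), `m₁` from `Lo A`, `m' = m₀ m₁`; `m` from `S_com` for `m'`; `X` from the hypothesis for
`m`, `Z = redm X`: `Z` commutes with `red m' g` for all `g` commuting with `A`, and `Z (red h) = (red h') Z` modulo `m'` for
corresponding `h, h'`. (0) If `h` commutes with `A` and `Z (red h) = (red h') Z`, `CI A h'`, then `red m' h = red m' h'` and `h'`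
commutes with `A`: otherwise `A⁻¹ = h' A h'⁻¹` is congruent to `h A h⁻¹ = A` (`S_star`). Similarly with `h` and `h'`
exchanged. (a) `h ∈ H` commuting with `A` is in `H'`: `g = h'⁻¹ h` commutes with `A`, `g ^ r = (h' ^ r)⁻¹ h ^ r` is a power of `A ^ n`
(`S_cm`: commutative), `red m' g = 1`, so `g` is a power of `A ^ n` by `S_star`, `h = h' g ∈ H'`. Conversely every
`h' ∈ H'` commuting with `A` is in `H`. (b) If no element of `H` inverts `A` then by (0) the same holds for `H'`, and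
`H = H'`, `Y = 1`. (c) Let `s ∈ H` invert `A`, `s' ∈ H'` corresponding to `s`; `s'` inverts `A` by (0). `Lo A` (reduce `Z` modulo
`m₁`: `redm`) gives `Y` commuting with `A` with `Y s = s' Y`. Let `h` commute with `A`: `Y h Y⁻¹ = h` and use (a). Let `h` invert
`A`: `c = h s⁻¹` commutes with `A`, `Y h Y⁻¹ = c s'`; `h ∈ H ↔ c ∈ H ↔ c ∈ H' ↔ c s' ∈ H'`. Otherwise `h ∉ H` and
`Y h Y⁻¹ ∉ H'` (`Y` commutes with `A`). -/
def S_mx : Prop := ∀ A : GL (Fin 2) ℤ, Hyp A → Lo A → ∀ (n r : ℕ), 0 < n → 0 < r →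
  ∀ H H' : Subgroup (GL (Fin 2) ℤ), A ^ n ∈ H → A ^ n ∈ H' → (∀ h ∈ H, CI A h) →
  (∀ h ∈ H', CI A h) → (∀ h ∈ H, ∃ j : ℤ, h ^ r = (A ^ n) ^ j) →
  (∀ h ∈ H', ∃ j : ℤ, h ^ r = (A ^ n) ^ j) →
  (∀ m : ℕ, 0 < m → ∃ X : GL (Fin 2) (ZMod m), X * red m (A ^ n) = red m (A ^ n) * X ∧
    (∀ h ∈ H, ∃ h' ∈ H', X * red m h = red m h' * X) ∧
    (∀ h' ∈ H', ∃ h ∈ H, X * red m h = red m h' * X)) →
  ∃ Y : GL (Fin 2) ℤ, ∀ h, h ∈ H ↔ Y * h * Y⁻¹ ∈ H'

/-! ## Part 2: the case `α = phi` -/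

/-- [F8o un] the units of norm one of `ℤ[A]`, `A = AM phi`.

Proof. `A = [[3, 1], [-1, 0]]` (`AM_val`, `amat_eq`, `phi_ga`, `phi_gb`). `g` commutes with `A`, so `g = x + y A` with integers
(`y = g 0 1`), `det g = x² + 3 x y + y² = 1`. Induction on `|y|`. `y = 0`: `x = ±1`. Otherwise
`x (x + 3 y) = 1 - y²`, so `|x| |x + 3 y| < y²` and `|x| < |y|` or `|x + 3 y| < |y|`; `(x + y A) A = -y + (x + 3 y) A`,
`(x + y A) A⁻¹ = (3 x + y) - x A`. Apply the induction hypothesis. -/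
def S_un : Prop := ∀ g : GL (Fin 2) ℤ, g * AM phi = AM phi * g → g.val.det = 1 →
  ∃ j : ℤ, g = AM phi ^ j ∨ g = -(AM phi ^ j)

/-- [F8o lo] the local-global principle for `AM phi`. (Uses `S_un`.)

Proof. `A = AM phi = C + 1`, `C = [[2, 1], [-1, -1]]`, `C² = C + 1 = A`, `det C = -1`. `m = 5`. `det s' = det s` modulo `5`, so
`det s = det s'`. `u = s' s⁻¹` commutes with `A`, `det u = 1`, so `u = ε A ^ j`, `ε = ±1` (`S_un`). Modulo `5`: `X` commutes with
`A`, `X = a + b A` (`A 0 1 = 1`), `det X = a² + 3 a b + b² = (a - b)²` is invertible, so `a - b ≠ 0`. `s X = X̄ s`,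
`X̄ = a + b A⁻¹` (as `s A s⁻¹ = A⁻¹`), so `X s = s' X = u s X = u X̄ s` and `X = u X̄`. There is a ring homomorphism from the
commutative ring of the matrices `x + y A` over `ZMod 5` to `ZMod 5` with `A ↦ -1`, `A⁻¹ ↦ -1` (`A² = 3 A - 1`, `1 = -3 - 1` modulo
`5`); concretely `x + y A ↦ x - y`. It gives `a - b = ε (-1)^j (a - b)`, so `ε = (-1)^j`, `u = (-A)^j`. `s C s⁻¹ = A⁻¹ - 1 = 1 - C = - C⁻¹`. Let
`Y = C ^ j`: `Y s Y⁻¹ = C^j (s C^(-j) s⁻¹) s = C^j (-1)^j C^j s = (-1)^j A^j s = u s = s'`. (Only the parity of `j` matters modulo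
`5`; `A^j ↦ (-1)^j` by induction.) -/
def S_lo : Prop := Lo (AM phi)

/-- [F8o hy] `phi`: `AM phi = [[3, 1], [-1, 0]]`, `AM aX = [[0, 1], [1, 0]]`. -/
def S_hy : Prop := Hyp (AM phi) ∧ AM aX * AM phi * (AM aX)⁻¹ = (AM phi)⁻¹

/-! ## Part 3: groups -/

/-- [F8o b1] the first Betti number of `GA β`.

Proof. `f (iA (β w)) = f (iA w)` (`tA_conj`, commutative). `v(w) = toAdd (f (iA w))` is a homomorphism `F → ℤ`, so
`v(w) = c · vec w` for `c ∈ ℤ²` (values at `ga, gb`; `hom_ext`), and `c (A - 1) = 0` for `A = AM β` (`AM_vec`).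
`det (A - 1) = det A - trace A + 1 = 2 - trace A ≠ 0`, so `c = 0`. -/
def S_b1 : Prop := ∀ β : MulAut F, Hyp (AM β) → ∀ (f : GA β →* Multiplicative ℤ) (w : F),
  f (iA β w) = 1

/-- [F8o act] the structure `Ov`. (Uses `S_b1`.)

Proof. `D` = the set of the `x ∈ N` with `f x = 1` for all `f : N →* Multiplicative ℤ`. `x ∈ D` iff `e x = iA w` for some `w`: `S_b1`
for `⇐` (`f ∘ e.symm`), and `f = nA ∘ e` with `GA_ker` for `⇒`. For `g ∈ G` conjugation `MulAut.conjNormal g` is an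
automorphism of `N`, which preserves `D` (`f ∘ conj` is also a homomorphism). So for `g`, `w` there is a unique `c g w` with
`e.symm (iA (c g w)) = g e.symm (iA w) g⁻¹` (`iA_injective`); `c g` is a homomorphism `F → F`, `c (g h) = c g ∘ c h`, `c 1 = id`, so
`c g ∈ MulAut F` (inverse `c g⁻¹`) and `c` is a homomorphism. -/
def S_act : Prop := ∀ β : MulAut F, Hyp (AM β) → ∀ (G : Type) [Group G] (N : Subgroup G),
  N.Normal → ∀ e : N ≃* GA β, ∃ X : Ov β G N, X.e = e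

/-- [F8o nrm] the matrices of the elements of `G`. (Uses `S_pw`, `S_b1`.)

Proof. (1) `x = g t g⁻¹ ∈ N`, `x = i w * t ^ k` (`mem_cases`), so `Th g * AM β * (Th g)⁻¹ = AM β ^ k`. With `g⁻¹` in place of `g`:
`(Th g)⁻¹ * AM β * Th g = AM β ^ l`, so `AM β ^ (k l) = AM β` and `k l = 1` (`S_pw`), `k = ±1`. With `B = AM β = A ^ n`, `A = AM α`:
`B = u A - v`, `B⁻¹ = u A⁻¹ - v` (`S_pw` for `A`; `A⁻¹ = T - A`, `B⁻¹ = T' - B`), `u = cs T n ≠ 0`: so `g A g⁻¹ = A` resp. `A⁻¹`. (2) is the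
definition of the kernel: `π (g ^ r) = 1` for `r = Nat.card Q`, `Th_mem`. -/
def S_nrm : Prop := ∀ (α : MulAut F) (n : ℕ), Hyp (AM α) → 0 < n → ∀ (G Q : Type) [Group G]
  [Group Q] [Finite Q] (π : G →* Q) (X : Ov (α ^ n) G π.ker) (g : G),
  CI (AM α) (X.Th g) ∧ ∃ j : ℤ, X.Th g ^ Nat.card Q = AM (α ^ n) ^ j

/-- [F8o fai] faithfulness. (Uses `S_pw`, `F2X.S_cen`, `F2X.S_out`.)

Proof. (1) `x = i w * t ^ k` (`mem_cases`), `c x = conj w * β ^ k`, its matrix is `AM β ^ k`, so `k = 0` (`S_pw`) and `conj w = 1`, so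
`w` is central, `w = 1` (`S_cen`). (2) `X.c.ker` is a normal subgroup of `G` with `X.c.ker ⊓ N = ⊥` by (1), so it embeds into
`G ⧸ N` (finite): it is finite, hence trivial. (3) `Th g = AM β ^ k` implies `c (g * t ^ (-k)) = conj w` (`S_out`) `= c (i w)`, so
`g = i w * t ^ k ∈ N`. -/
def S_fai : Prop := ∀ β : MulAut F, Hyp (AM β) → ∀ (G : Type) [Group G] (N : Subgroup G)
  (X : Ov β G N), (∀ x ∈ N, X.c x = 1 → x = 1) ∧
    (N.Normal → N.FiniteIndex → (∀ K : Subgroup G, K.Normal → Finite K → K = ⊥) →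
      Function.Injective X.c) ∧
    (Function.Injective X.c → ∀ (g : G) (k : ℤ), X.Th g = AM β ^ k → g ∈ N)

/-- [F8o pr] the correspondence of `F` and of `t`. (Uses `S_b1`.)

Proof. `natBij_ker` gives `Ψ₀ : NatBij π.ker π'.ker`, compatible with restriction; `Ψ = natBij_equiv X.e.symm Ψ₀ : NatBij (GA β)
π'.ker`. `Reg β` for `Ψ` gives `nL : π'.ker → ℤ`. For `θ : Γ → P` let `θ₁ = (θ.comp π.ker.subtype).comp X.e.symm : GA β → P`; then
`Ψ.toFun P θ₁ = (Φ.toFun P θ).comp π'.ker.subtype` (`θ₁.comp X.e = θ.comp subtype`). `f1`: `cmpG Ψ` for `θ₁` and `iA β w` gives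
`l ∈ π'.ker` with `nL l = 1` and `Φ θ l = θ (X.i w)`; `nL.ker ≤ (nA ∘ X'.e).ker`, so `X'.e l = iA w'` (`GA_ker`), `l = X'.i w'`. `f2`: let
`l = X'.i w'`; `nL l = 1` by `S_b1` for `nL ∘ X'.e.symm`; `cmpG Ψ.symm` (with `CmG.symm`, `nA_surjective`) gives `g ∈ GA β` with
`nA g = 1`, `θ₁ g = Φ θ l` (`Φ.left_inv`), `g = iA w`. `tt`: `f = nA ∘ X'.e : π'.ker → ℤ` is onto and kills `nL.ker`, and `nL` is
onto: if `nL l₁ = ofAdd 1` and `k = toAdd (f l₁)` then `f l = ofAdd (k * toAdd (nL l))` for all `l`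
(`l * l₁ ^ (-..) ∈ nL.ker`), and as `f` is onto `k = ±1`. `cmpG Ψ` for `θ₁` and `tA β`: `l` with `nL l = ofAdd 1`, `Φ θ l = θ (X.t)`; `f l = ofAdd k`, so
`X'.e l = iA w' * tA ^ k` (`GA_cases`), `l = X'.i w' * X'.t ^ k`. `k` does not depend on `θ`. -/
def S_pr : Prop := ∀ β : MulAut F, Hyp (AM β) → Reg β → ∀ (Γ Λ : Type) [Group Γ] [Group Λ]
  (Φ : NatBij Γ Λ) (Q : Type) [Group Q] [Finite Q] (π : Γ →* Q) (X : Ov β Γ π.ker)
  (X' : Ov β Λ (Φ.toFun Q π).ker), Group.FG (Φ.toFun Q π).ker →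
  Group.ResiduallyFinite (Φ.toFun Q π).ker → SameFiniteQuotients (Φ.toFun Q π).ker (GA β) →
  Pr Φ X X'

/-- the affine group, used to detect the classes of the elements of `F` modulo `m` -/
abbrev Wm (m : ℕ) : Type := Q2 (ZMod m)

/-- the action of `Aut F` on the set of the homomorphisms from `F` to a group -/
def pact (W : Type) [Group W] : MulAut F →* Equiv.Perm (F →* W) where
  toFun a :=
    { toFun := fun f => f.comp (a⁻¹ : MulAut F).toMonoidHom
      invFun := fun f => f.comp a.toMonoidHom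
      left_inv := fun f => by
        ext1 i
        show f (a⁻¹ (a (FreeGroup.of i))) = _
        rw [MulAut.inv_apply_self]
      right_inv := fun f => by
        ext1 i
        show f (a (a⁻¹ (FreeGroup.of i))) = _
        rw [MulAut.apply_inv_self] }
  map_one' := by
    ext f i
    rfl
  map_mul' a b := by
    ext f i
    show f ((a * b)⁻¹ (FreeGroup.of i)) = f (b⁻¹ (a⁻¹ (FreeGroup.of i)))
    rw [mul_inv_rev]
    rfl

/-- [F8o hei] inner automorphisms which act in the same way on the homomorphisms to `Wm m`.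

Proof. Let `f : F → Wm m`, `ga ↦ ⟨1, [[1, 1], [0, 1]], 0⟩`, `gb ↦ ⟨1, 1, ![0, 1]⟩`. For every `w` the element `f w` has
`t = 1`, `m = [[1, a], [0, 1]]`, `v 1 = b`, where `a = vec w 0`, `b = vec w 1` in `ZMod m` (the set of the `w` with this property is a subgroup
containing `ga`, `gb`). The hypothesis at `f` gives `f (w⁻¹ x w) = f (w'⁻¹ x w')` for all `x ∈ F` (`pact`: `(conj w)⁻¹ = conj w⁻¹`), so
`f (w' w⁻¹)` commutes with `f ga` and `f gb`. An element `⟨1, [[1, a], [0, 1]], ![c, b]⟩` which commutes with `f ga` has `b = 0` (compare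
`v 0`), and if it commutes with `f gb` then `a = 0`. So `vec w = vec w'` modulo `m`. -/
def S_hei : Prop := ∀ (m : ℕ) [NeZero m] (w w' : F),
  pact (Wm m) (MulAut.conj w) = pact (Wm m) (MulAut.conj w') →
  ∀ i, ((vec w i : ℤ) : ZMod m) = ((vec w' i : ℤ) : ZMod m)

/-- [F8o lc] local conjugacy. (Uses `S_hei`.)

Proof. `P = Equiv.Perm (F →* Wm m)` is finite (`F →* W` is finite: a homomorphism is determined by its values at `ga, gb`; `Wm m`
is finite, `finite_..` in `Defs.lean`; `NeZero m`). `θ = (pact (Wm m)).comp X.c`, `θ' = Φ.toFun P θ`. For `w'` choose `w` with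
`θ' (X'.i w') = θ (X.i w)` (`Pr.f2`), and put `V w' = vec w` modulo `m`; by `S_hei` and `c_i` this does not depend on the choice, so `V` is
additive (`V (w₁ w₂) = V w₁ + V w₂`), so `V w' = Y (vec w')` for the matrix `Y` over `ZMod m` with columns `V ga`, `V gb`; `V` is onto
(`(ZMod m)²`) by `Pr.f1` and `vec_surj`, so `Y` is invertible (a surjective endomorphism of a finite module; or write the basis
vectors as `V w_j` and take the matrix of the `vec w_j`: `Y Z = 1`). Let `θ g = θ' l`. For `w' ∈ F`, `w` as above: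
`θ' (X'.i (X'.c l w')) = θ' l * θ' (X'.i w') * (θ' l)⁻¹ = θ g * θ (X.i w) * (θ g)⁻¹ = θ (X.i (X.c g w))` (`i_c`), so
`Y (Th' l) (vec w') = V (X'.c l w') = vec (X.c g w) = (Th g) (vec w) = (Th g) Y (vec w')` modulo `m` (`AM_vec`), for all `w'`:
`Y (Th' l) = (Th g) Y`. Take `Y⁻¹`. -/
def S_lc : Prop := ∀ (β : MulAut F) (Γ Λ : Type) [Group Γ] [Group Λ] (Φ : NatBij Γ Λ)
  (N : Subgroup Γ) (M : Subgroup Λ) (X : Ov β Γ N) (X' : Ov β Λ M), Pr Φ X X' →
  ∀ m : ℕ, 0 < m → ∃ (P : Type) (_ : Group P) (_ : Finite P) (θ : Γ →* P)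
    (Z : GL (Fin 2) (ZMod m)), ∀ (g : Γ) (l : Λ), θ g = Φ.toFun P θ l →
      Z * red m (X.Th g) = red m (X'.Th l) * Z

/-- [F8o inj] the action of `Λ` is faithful. (Uses `S_lc`, `S_star`, `S_nrm`, `S_fai`.)

Proof. Let `X'.c l = 1`. `A = AM α`, `r = Nat.card Q`, `m₀` from `S_star`; `P, θ, Z` from `S_lc` for `m = m₀`. `pair_val Φ θ π l` gives `g` with
`θ g = Φ θ l` and `π g = Φ π l`. `Z * red (Th g) = red 1 * Z`, so `red m (Th g) = 1`, and by `S_star` (with `S_nrm`; `k = 0`;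
`AM (α ^ n) = AM α ^ n`) `Th g` is a power of `AM (α ^ n)`; by `S_fai` (3) `g ∈ π.ker`, so `Φ π l = 1`, `l ∈ (Φ π).ker`, and `S_fai` (1) gives
`l = 1`. -/
def S_inj : Prop := ∀ (α : MulAut F) (n : ℕ), Hyp (AM α) → 0 < n → ∀ (Γ Λ : Type) [Group Γ]
  [Group Λ] (Φ : NatBij Γ Λ) (Q : Type) [Group Q] [Finite Q] (π : Γ →* Q)
  (X : Ov (α ^ n) Γ π.ker) (X' : Ov (α ^ n) Λ (Φ.toFun Q π).ker), Pr Φ X X' →
  Function.Injective X.c → Function.Injective X'.c

/-- [F8o iso] groups with conjugate matrix groups are isomorphic. (Uses `F2X.S_sur`, `F2X.S_out`.)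

Proof. `Y = AM y` (`S_sur`). `X.c.range` consists of all automorphisms `a` with `AM a ∈ X.Th.range`: if `AM a = Th g` then
`a = c g * conj w` (`S_out` for `(c g)⁻¹ * a`) `= c (g * i w)`. The same for `X'`. So conjugation by `y` maps `X.c.range` onto
`X'.c.range`, and `Γ ≃ X.c.range ≃ X'.c.range ≃ Λ` (`MonoidHom.ofInjective`). -/
def S_iso : Prop := ∀ (β : MulAut F) (Γ Λ : Type) [Group Γ] [Group Λ]
  (N : Subgroup Γ) (M : Subgroup Λ) (X : Ov β Γ N) (X' : Ov β Λ M), Function.Injective X.c →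
  Function.Injective X'.c → (∃ Y : GL (Fin 2) ℤ, ∀ h, h ∈ X.Th.range ↔ Y * h * Y⁻¹ ∈ X'.Th.range) →
  Nonempty (Λ ≃* Γ)

/-- [F8o cjg] the matrix groups are conjugate. (Uses `S_lc`, `S_mx`, `S_nrm`.)

Proof. `A = AM α`, `H = X.Th.range`, `k = ±1` from `Pr.tt`. If `k = 1` let `z = 1`, if `k = -1` let `z = s₀` (which inverts `A`);
`z (A ^ n) ^ k z⁻¹ = A ^ n`. `H' = ` the image of `X'.Th.range` under conjugation by `z` (`Subgroup.map (MulAut.conj z).toMonoidHom`).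
Hypotheses of `S_mx` with `r = Nat.card Q`: `A ^ n = Th t ∈ H` (`Th_t`, `AM (α ^ n) = A ^ n`), `A ^ n = z (Th' (t' ^ k)) z⁻¹ ∈ H'`; `CI` and the
`r`-th powers from `S_nrm` (for `π` and `Φ.toFun Q π`; conjugation by `z`, which satisfies `CI A z`, preserves `CI A` and the
property of being a power of `A ^ n`). Local conjugacy: `P, θ, Z` from `S_lc` for `m`, and `X_m = red m z * Z`. For `h = Th g` choose `l` with
`Φ θ l = θ g` (`NatBij.range_eq`), `h' = z (Th' l) z⁻¹`; the converse is the same. `g = t`: `Pr.tt` gives `w'` with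
`Φ θ (i' w' * t' ^ k) = θ t`, so `Z * red (A ^ n) = red ((A ^ n) ^ k) * Z` and `X_m` commutes with `red (A ^ n)`. `S_mx` gives `Y`
with `h ∈ H ↔ Y h Y⁻¹ ∈ H'`, and `z⁻¹ Y` is the matrix. -/
def S_cjg : Prop := ∀ (α : MulAut F) (n : ℕ), Hyp (AM α) → Lo (AM α) →
  (∃ s₀ : GL (Fin 2) ℤ, s₀ * AM α * s₀⁻¹ = (AM α)⁻¹) → 0 < n → ∀ (Γ Λ : Type) [Group Γ]
  [Group Λ] (Φ : NatBij Γ Λ) (Q : Type) [Group Q] [Finite Q] (π : Γ →* Q)
  (X : Ov (α ^ n) Γ π.ker) (X' : Ov (α ^ n) Λ (Φ.toFun Q π).ker), Pr Φ X X' →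
  ∃ Y : GL (Fin 2) ℤ, ∀ h, h ∈ X.Th.range ↔ Y * h * Y⁻¹ ∈ X'.Th.range

/-- [F8o fin] a finite-index criterion.

Proof. `GA β` is generated by `iA ga, iA gb, tA` (`GA_cases`, see `fg_G8` in `F8/Final.lean`); `F2X.main_fg` in `F2X/P/main.lean`. -/
def S_fin : Prop := ∀ (β : MulAut F), Group.FG (GA β) ∧ ∀ (G : Type) [Group G] (N : Subgroup G),
  N.FiniteIndex → Nonempty (N ≃* GA β) → Group.FG G

/-- [F8o OV] MAIN RESULT. (Uses `S_act`, `S_pr`, `S_inj`, `S_cjg`, `S_iso`, `S_fai`, `S_fin`, `S_pw`, `F2X.S_same`, `F2X.S_fgrf`.)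

Proof. `β = α ^ n`, `Q = Γ ⧸ N`, `π = mk' N`, `π.ker = N` (`QuotientGroup.ker_mk'`), `e : π.ker ≃* GA β`, `X` from `S_act` (`Hyp (AM β)` by `S_pw`),
`X.c` is injective (`S_fai` (2)). Let `Λ` be in the genus of `Γ`, `Γ` is finitely generated (`S_fin`), `Φ : NatBij Γ Λ`
(`exists_natBij`), `M = (Φ.toFun Q π).ker`; `M` is finitely generated and residually finite (`S_fgrf`), has the same finite quotients as
`π.ker` (`S_same`), so as `GA β` (`sameFQ_of_surj`), so there is `e' : M ≃* GA β` by rigidity, `X'` from `S_act`; `Pr Φ X X'` from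
`S_pr`; `S_inj`, `S_cjg`, `S_iso`. (See the proof of `F2X.p_main`.) -/
def S_OV : Prop := ∀ α : MulAut F, Hyp (AM α) → Lo (AM α) →
  (∃ s₀ : GL (Fin 2) ℤ, s₀ * AM α * s₀⁻¹ = (AM α)⁻¹) →
  (∀ n : ℕ, 0 < n → ProfinitelyRigid (GA (α ^ n)) ∧ Reg (α ^ n)) →
  ∀ (Γ : Type) [Group Γ] (N : Subgroup Γ) (n : ℕ), 0 < n → N.Normal → N.FiniteIndex →
  Nonempty (N ≃* GA (α ^ n)) → (∀ K : Subgroup Γ, K.Normal → Finite K → K = ⊥) →
  ProfinitelyRigid Γ

end Pool.Agent.F8.OV
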